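import Pool.Agent.Helper79.CU.TensDefs

/-!
# CU-23: tensor powers of a system: differential equation, the matrix of the tensor power, right inverses

* `tens_map`: entrywise.
* `tens_smul`: entrywise.
* `tens_ode`: if `T V' = A V` (entrywise, at the point `t`) then
  `T (∏_s V_(I s, J s))' = ∑_s ∏_(s' ≠ s) V_(I s', J s') · ∑_l A_(I s, l) V_(l, J s)
  = ∑_K (tens r A)_(I, K) ∏_s V_(K s, J s)` (the terms `K = ` `I` with `I s` replaced by `l`;
  `Finset.sum_comm`, for given `s` the `K` which agree with `I` outside of `s` are `Function.update I s l`).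
  Derivative of a finite product: `HasDerivAt.finset_prod` / `HasDerivAt.fun_finset_prod`.
* `sub_ode`: `W = M tpow(V) c` with constants `c`:
  `T W' = (T M' + M tens(A)) tpow(V) c = B M tpow(V) c = B W`.
* `exists_rinv`: over the fraction field `K(t)` the rows of `M` are linearly independent (clear
  denominators), so there is a right inverse (e.g. `Matrix` with injective `vecMul`/surjective `mulVec`;
  `LinearMap.exists_rightInverse_of_surjective`), clear its denominators (`IsLocalization.exist_integer_multiples_of_finset`).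
-/

open Polynomial

namespace Pool.Agent.Helper79.CU

section

/-- the sum over the tuples which agree with `I` outside of `s` -/
private lemma sum_off {ι M : Type} [Fintype ι] [DecidableEq ι] [AddCommMonoid M] {r : ℕ}
    (I : Fin r → ι) (s : Fin r) (f : (Fin r → ι) → M) :
    ∑ K : Fin r → ι, (if (∀ s', s' ≠ s → I s' = K s') then f K else 0) =
      ∑ l, f (Function.update I s l) := by
  classical
  rw [← Finset.sum_filter]
  refine Finset.sum_bij' (fun K _ => K s) (fun l _ => Function.update I s l) ?_ ?_ ?_ ?_ ?_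
  · intro K _
    exact Finset.mem_univ _
  · intro l _
    rw [Finset.mem_filter]
    exact ⟨Finset.mem_univ _, fun s' hs' => (Function.update_of_ne hs' _ _).symm⟩
  · intro K hK
    rw [Finset.mem_filter] at hK
    funext s'
    by_cases hs' : s' = s
    · rw [hs', Function.update_self]
    · rw [Function.update_of_ne hs', hK.2 s' hs']
  · intro l _
    exact Function.update_self _ _ _
  · intro K hK
    rw [Finset.mem_filter] at hK
    congr 1
    funext s'
    by_cases hs' : s' = s
    · rw [hs', Function.update_self]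
    · rw [Function.update_of_ne hs', hK.2 s' hs']

theorem tens_map {R S ι : Type} [CommRing R] [CommRing S] [DecidableEq ι] (φ : R →+* S) (r : ℕ)
    (a : Matrix ι ι R) : (tens r a).map φ = tens r (a.map φ) := by
  ext I J
  rw [Matrix.map_apply]
  unfold tens
  rw [map_sum]
  refine Finset.sum_congr rfl fun s _ => ?_
  split_ifs
  · rfl
  · exact map_zero φ

theorem tens_smul {R ι : Type} [CommRing R] [DecidableEq ι] (x : R) (r : ℕ)
    (a : Matrix ι ι R) : tens r (x • a) = x • tens r a := by
  ext I J
  rw [Matrix.smul_apply]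
  unfold tens
  rw [Finset.smul_sum]
  refine Finset.sum_congr rfl fun s _ => ?_
  split_ifs
  · rfl
  · rw [smul_zero]

theorem tens_ode {ι γ : Type} [Fintype ι] [DecidableEq ι] {V : ℂ → Matrix ι γ ℂ} {t T : ℂ}
    {A : Matrix ι ι ℂ} (hd : ∀ i k, DifferentiableAt ℂ (fun t => V t i k) t)
    (h : ∀ i k, T * deriv (fun t => V t i k) t = ∑ l, A i l * V t l k) (r : ℕ)
    (I : Fin r → ι) (J : Fin r → γ) :
    DifferentiableAt ℂ (fun t => tpow r (V t) I J) t ∧
    T * deriv (fun t => tpow r (V t) I J) t = ∑ K, tens r A I K * tpow r (V t) K J := by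
  classical
  have hp : HasDerivAt (fun t => tpow r (V t) I J)
      (∑ s, (∏ s' ∈ Finset.univ.erase s, V t (I s') (J s')) •
        deriv (fun t => V t (I s) (J s)) t) t :=
    HasDerivAt.fun_finsetProd fun s _ => (hd (I s) (J s)).hasDerivAt
  refine ⟨hp.differentiableAt, ?_⟩
  rw [hp.deriv, Finset.mul_sum]
  have e1 : ∀ K : Fin r → ι, tens r A I K * tpow r (V t) K J =
      ∑ s, if (∀ s', s' ≠ s → I s' = K s') then A (I s) (K s) * ∏ s', V t (K s') (J s')
        else 0 := by
    intro K
    unfold tens tpow
    rw [Finset.sum_mul]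
    refine Finset.sum_congr rfl fun s _ => ?_
    split_ifs
    · rfl
    · rw [zero_mul]
  rw [Finset.sum_congr rfl fun K _ => e1 K, Finset.sum_comm]
  refine Finset.sum_congr rfl fun s _ => ?_
  rw [sum_off I s (fun K => A (I s) (K s) * ∏ s', V t (K s') (J s'))]
  rw [smul_eq_mul]
  have e2 : T * ((∏ s' ∈ Finset.univ.erase s, V t (I s') (J s')) *
      deriv (fun t => V t (I s) (J s)) t) =
      (∏ s' ∈ Finset.univ.erase s, V t (I s') (J s')) * ∑ l, A (I s) l * V t l (J s) := by
    rw [← h]
    ring
  rw [e2, Finset.mul_sum]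
  refine Finset.sum_congr rfl fun l _ => ?_
  rw [← Finset.mul_prod_erase Finset.univ _ (Finset.mem_univ s), Function.update_self]
  have e3 : ∏ s' ∈ Finset.univ.erase s, V t (Function.update I s l s') (J s') =
      ∏ s' ∈ Finset.univ.erase s, V t (I s') (J s') := by
    refine Finset.prod_congr rfl fun s' hs' => ?_
    rw [Function.update_of_ne (Finset.ne_of_mem_erase hs')]
  rw [e3]
  ring

/-- The differential equation of a sub-connection of the tensor power. -/
theorem sub_ode {κ : Type} [Field κ] [Algebra κ ℂ] {ι β γ ν : Type} [Fintype ι] [DecidableEq ι]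
    [Fintype β] [Fintype γ] {V : ℂ → Matrix ι γ ℂ} {t : ℂ} {T : κ[X]} {A : Matrix ι ι κ[X]}
    (hd : ∀ i k, DifferentiableAt ℂ (fun t => V t i k) t)
    (h : ∀ i k, aeval t T * deriv (fun t => V t i k) t = ∑ l, aeval t (A i l) * V t l k)
    {r : ℕ} {M : Matrix β (Fin r → ι) κ[X]} {B : Matrix β β κ[X]}
    (hst : ∀ p I, T * derivative (M p I) + (M * tens r A) p I = (B * M) p I)
    (c : Matrix (Fin r → γ) ν ℂ) (p : β) (b : ν) :
    DifferentiableAt ℂ (fun t => ∑ I, aeval t (M p I) * (tpow r (V t) * c) I b) t ∧
    aeval t T * deriv (fun t => ∑ I, aeval t (M p I) * (tpow r (V t) * c) I b) t =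
      ∑ q, aeval t (B p q) * ∑ I, aeval t (M q I) * (tpow r (V t) * c) I b := by
  classical
  set φ : κ[X] →+* ℂ := (aeval t : κ[X] →ₐ[κ] ℂ).toRingHom with hφ
  have hφa : ∀ x : κ[X], φ x = aeval t x := fun _ => rfl
  have ho := fun I J => tens_ode (A := A.map φ) hd (fun i k => h i k) r I J
  -- derivative of the entries of `tpow(V) c`
  have hW : ∀ I, HasDerivAt (fun t => (tpow r (V t) * c) I b)
      (∑ J, deriv (fun t => tpow r (V t) I J) t * c J b) t := by
    intro I
    have h1 : (fun t => (tpow r (V t) * c) I b) = fun t => ∑ J, tpow r (V t) I J * c J b := by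
      funext t
      rw [Matrix.mul_apply]
    rw [h1]
    exact HasDerivAt.fun_sum fun J _ => ((ho I J).1.hasDerivAt).mul_const _
  have hWT : ∀ I, aeval t T * (∑ J, deriv (fun t => tpow r (V t) I J) t * c J b) =
      ∑ K, φ (tens r A I K) * (tpow r (V t) * c) K b := by
    intro I
    rw [Finset.mul_sum]
    have e1 : ∀ J, aeval t T * (deriv (fun t => tpow r (V t) I J) t * c J b) =
        ∑ K, φ (tens r A I K) * (tpow r (V t) K J * c J b) := by
      intro J
      rw [← mul_assoc, (ho I J).2, Finset.sum_mul]
      refine Finset.sum_congr rfl fun K _ => ?_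
      rw [← tens_map, Matrix.map_apply]
      ring
    rw [Finset.sum_congr rfl fun J _ => e1 J, Finset.sum_comm]
    refine Finset.sum_congr rfl fun K _ => ?_
    rw [Matrix.mul_apply, Finset.mul_sum]
  have hD : HasDerivAt (fun t => ∑ I, aeval t (M p I) * (tpow r (V t) * c) I b)
      (∑ I, (aeval t (derivative (M p I)) * (tpow r (V t) * c) I b +
        aeval t (M p I) * ∑ J, deriv (fun t => tpow r (V t) I J) t * c J b)) t :=
    HasDerivAt.fun_sum fun I _ => (Polynomial.hasDerivAt_aeval (M p I) t).mul (hW I)
  refine ⟨hD.differentiableAt, ?_⟩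
  rw [hD.deriv, Finset.mul_sum]
  have e2 : ∀ I, aeval t T * (aeval t (derivative (M p I)) * (tpow r (V t) * c) I b +
        aeval t (M p I) * ∑ J, deriv (fun t => tpow r (V t) I J) t * c J b) =
      φ (T * derivative (M p I)) * (tpow r (V t) * c) I b +
        ∑ K, φ (M p I * tens r A I K) * (tpow r (V t) * c) K b := by
    intro I
    rw [mul_add, mul_left_comm (aeval t T) (aeval t (M p I)), hWT I, Finset.mul_sum, map_mul,
      hφa, hφa, mul_assoc]
    congr 1
    refine Finset.sum_congr rfl fun K _ => ?_
    rw [map_mul, hφa (M p I), mul_assoc]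
  rw [Finset.sum_congr rfl fun I _ => e2 I, Finset.sum_add_distrib, Finset.sum_comm,
    ← Finset.sum_add_distrib]
  have e3 : ∀ K, φ (T * derivative (M p K)) * (tpow r (V t) * c) K b +
      ∑ I, φ (M p I * tens r A I K) * (tpow r (V t) * c) K b =
      ∑ q, φ (B p q * M q K) * (tpow r (V t) * c) K b := by
    intro K
    rw [← Finset.sum_mul, ← Finset.sum_mul, ← add_mul, ← map_sum, ← map_sum, ← map_add]
    congr 2
    have h1 := hst p K
    rw [Matrix.mul_apply, Matrix.mul_apply] at h1
    exact h1
  rw [Finset.sum_congr rfl fun K _ => e3 K, Finset.sum_comm]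
  refine Finset.sum_congr rfl fun q _ => ?_
  rw [Finset.mul_sum]
  refine Finset.sum_congr rfl fun K _ => ?_
  rw [map_mul, hφa, hφa, mul_assoc]

theorem exists_rinv {R ι ι' : Type} [CommRing R] [IsDomain R] [Fintype ι] [DecidableEq ι]
    [Fintype ι'] [DecidableEq ι'] {M : Matrix ι' ι R}
    (h : ∀ f : ι' → R, Matrix.vecMul f M = 0 → f = 0) :
    ∃ (ρ : Matrix ι ι' R) (θ : R), θ ≠ 0 ∧ M * ρ = θ • (1 : Matrix ι' ι' R) := by
  classical
  set L := FractionRing R with hL
  set N : Matrix ι' ι L := M.map (algebraMap R L) with hN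
  have hinj : Function.Injective (algebraMap R L) := IsFractionRing.injective R L
  -- the rows of `N` are linearly independent
  have hrow : LinearIndependent L N.row := by
    rw [← Matrix.vecMul_injective_iff]
    intro f g hfg
    have hfg' : Matrix.vecMul (f - g) N = 0 := by
      rw [Matrix.sub_vecMul]
      exact sub_eq_zero.2 hfg
    obtain ⟨b, hb⟩ := IsLocalization.exist_integer_multiples_of_finite (nonZeroDivisors R)
      (f - g)
    choose k hk using hb
    have hb0 : algebraMap R L (b : R) ≠ 0 := by
      intro h0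
      have h1 : (b : R) = 0 := hinj (by rw [h0, map_zero])
      exact (nonZeroDivisors.coe_ne_zero b) h1
    have hk0 : k = 0 := by
      apply h
      funext l
      apply hinj
      have h1 : algebraMap R L (Matrix.vecMul k M l) =
          algebraMap R L (b : R) * Matrix.vecMul (f - g) N l := by
        rw [Matrix.vecMul, Matrix.vecMul, dotProduct, dotProduct, map_sum, Finset.mul_sum]
        refine Finset.sum_congr rfl fun i _ => ?_
        rw [map_mul, hk i, Algebra.smul_def, hN, Matrix.map_apply, mul_assoc]
      rw [h1, hfg']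
      simp
    have h2 : ∀ i, (f - g) i = 0 := by
      intro i
      have h3 := hk i
      rw [hk0, Pi.zero_apply, map_zero, Algebra.smul_def] at h3
      exact (mul_eq_zero.1 h3.symm).resolve_left hb0
    funext i
    exact sub_eq_zero.1 (h2 i)
  -- a right inverse of `N`
  have hsurj : Function.Surjective N.mulVec := by
    have h1 : N.rank = Fintype.card ι' := hrow.rank_matrix
    have h2 : LinearMap.range N.mulVecLin = ⊤ := by
      apply Submodule.eq_top_of_finrank_eq
      rw [Module.finrank_fintype_fun_eq_card]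
      exact h1
    intro v
    obtain ⟨w, hw⟩ := LinearMap.range_eq_top.1 h2 v
    exact ⟨w, hw⟩
  obtain ⟨ρ', hρ'⟩ := Matrix.mulVec_surjective_iff_exists_right_inverse.1 hsurj
  obtain ⟨b, hb⟩ := IsLocalization.exist_integer_multiples_of_finite (nonZeroDivisors R)
    (fun x : ι × ι' => ρ' x.1 x.2)
  choose k hk using hb
  refine ⟨fun i j => k (i, j), (b : R), nonZeroDivisors.coe_ne_zero b, ?_⟩
  ext i j
  apply hinj
  rw [Matrix.mul_apply, map_sum, Matrix.smul_apply, smul_eq_mul, map_mul]
  have h3 := congrFun (congrFun hρ' i) j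
  rw [Matrix.mul_apply] at h3
  have h4 : ∀ l, algebraMap R L (M i l * k (l, j)) = algebraMap R L (b : R) * (N i l * ρ' l j) := by
    intro l
    rw [map_mul, hk (l, j), Algebra.smul_def, hN, Matrix.map_apply]
    ring
  rw [Finset.sum_congr rfl fun l _ => h4 l, ← Finset.mul_sum, h3]
  congr 1
  by_cases hij : i = j
  · rw [hij, Matrix.one_apply_eq, Matrix.one_apply_eq, map_one]
  · rw [Matrix.one_apply_ne hij, Matrix.one_apply_ne hij, map_zero]

end

end Pool.Agent.Helper79.CU
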