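import Mathlib

/-!
# CU: definitions for the statement of the theorem on families of curves

`k` is a field (a number field with an embedding in `ℂ`), `t` the parameter of the family, `x`, `y` the
coordinates of the plane: polynomials in `y` over `k[t][x]` are elements of `k[X][X][X]`.
-/

open Polynomial

namespace Pool.Agent.Helper79.CU

section

variable {R : Type} [CommRing R]

/-- A map applied to the coefficients of a polynomial. -/
noncomputable def cw (f : R → R) (p : R[X]) : R[X] :=
  ∑ n ∈ p.support, monomial n (f (p.coeff n))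

/-- On the curve `F(x, y) = 0`, where `β F_y = Δ(x)`, the derivative `d/dx` of the function `P / Δ^N` is
`numX F β Δ N P / Δ^(N+1)`, since `dy/dx = - F_x / F_y = - β F_x / Δ`. -/
noncomputable def numX (F β : R[X][X]) (Δ : R[X]) (N : ℕ) (P : R[X][X]) : R[X][X] :=
  C Δ * cw (fun p => derivative p) P - β * cw (fun p => derivative p) F * derivative P -
    (N : R[X][X]) * C (derivative Δ) * P

/-- In the same way `numT D F β Δ N P / Δ^(N+1)` is the derivative of `P / Δ^N` with respect to the
parameter, where `x` is constant and `D` is the derivation of the ring `R` of functions of the parameter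
(`dy/dt = - β F_t / Δ`). -/
noncomputable def numT (D : R → R) (F β : R[X][X]) (Δ : R[X]) (N : ℕ) (P : R[X][X]) : R[X][X] :=
  C Δ * cw (cw D) P - β * cw (cw D) F * derivative P - (N : R[X][X]) * C (cw D Δ) * P

/-- The form `P dx / Δ^N` on the curve `F = 0` is exact: it is `d(G / Δ^M)` for some `G` and `M`. -/
def IsExact (F β : R[X][X]) (Δ : R[X]) (N : ℕ) (P : R[X][X]) : Prop :=
  ∃ (G : R[X][X]) (M : ℕ), F ∣ C Δ ^ (M + 1) * P - C Δ ^ N * numX F β Δ M G

/-- The matrix of the `r`-th tensor power of the system `V' = a V`. -/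
def tens {ι : Type} [DecidableEq ι] (r : ℕ) (a : Matrix ι ι R) :
    Matrix (Fin r → ι) (Fin r → ι) R :=
  fun I J => ∑ s, if (∀ s', s' ≠ s → I s' = J s') then a (I s) (J s) else 0

/-- The `r`-th tensor power of a matrix (products of the entries). -/
def tpow {ι γ : Type} (r : ℕ) (V : Matrix ι γ R) : Matrix (Fin r → ι) (Fin r → γ) R :=
  fun I J => ∏ s, V (I s) (J s)

end

/-- A family of curves over `k` with a basis of a Gauss-Manin stable part of its first de Rham
cohomology.

The curves are `F(t, x, y) = 0`, `F` monic in `y`, restricted to the part `Δ(t, x) ≠ 0`, over which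
`y` is étale over the `x`-line (`bez`; they may be reducible; every family of curves is of this form
after removing finitely many points of the generic fibre). The forms are `η_i = H_i(t, x, y) dx / Δ^e`.
`gm`: `T ∂_t η_i = ∑ A_il η_l + d(G_i / Δ^e)` on the curve (`∂_t` with `x` constant, `d` relative
to `t`): the span of their classes is stable under the Gauss-Manin connection, with matrix `A / T`.
`ind`: their classes in the de Rham cohomology of the generic fibre are linearly independent: a
combination with coefficients `c_i ∈ k[t]` is exact only if `c = 0`. -/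
structure CurveForms (k : Type) [Field k] (N : ℕ) where
  /-- the equation -/
  F : k[X][X][X]
  /-- first Bézout coefficient -/
  α : k[X][X][X]
  /-- second Bézout coefficient -/
  β : k[X][X][X]
  /-- the denominator -/
  Δ : k[X][X]
  /-- the exponent of the denominator of the forms -/
  e : ℕ
  /-- the numerators of the forms -/
  H : Fin N → k[X][X][X]
  /-- the numerators of the functions in `gm` -/
  G : Fin N → k[X][X][X]
  /-- the denominator of the Gauss-Manin system -/
  T : k[X]
  /-- the numerator of the Gauss-Manin system -/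
  A : Matrix (Fin N) (Fin N) k[X]
  monic : F.Monic
  pos : 1 ≤ F.natDegree
  ne : Δ ≠ 0
  bez : α * F + β * derivative F = C Δ
  T_ne : T ≠ 0
  gm : ∀ i, F ∣ C (C T) * numT (fun p => derivative p) F β Δ e (H i) -
    ∑ l, C (C (A i l)) * (C Δ * H l) - numX F β Δ e (G i)
  ind : ∀ c : Fin N → k[X], IsExact F β Δ e (∑ i, C (C (c i)) * H i) → c = 0

/-- A sub-connection of the `r`-th tensor power of the connection of `Φ`, given by the rows of `M`
(linearly independent over `k(t)`), with matrix `B / T`. The rows have indices `(l, a)`, `l < μ`: they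
are the elements `w^l ω_a` of the push-forward to the `t`-line of a connection with basis `ω_a` over a
curve of degree `μ` over the line, `w` a coordinate of this curve. -/
structure TensorSub {k : Type} [Field k] {N : ℕ} (Φ : CurveForms k N) (μ r : ℕ)
    (ι : Type) [Fintype ι] [DecidableEq ι] where
  /-- the elements of the tensor power -/
  M : Matrix (Fin μ × ι) (Fin r → Fin N) k[X]
  /-- the numerator of the matrix of the sub-connection -/
  B : Matrix (Fin μ × ι) (Fin μ × ι) k[X]
  stable : ∀ p I, Φ.T * derivative (M p I) + (M * tens r Φ.A) p I = (B * M) p I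
  ind : ∀ f : Fin μ × ι → k[X], Matrix.vecMul f M = 0 → f = 0

section

variable {k : Type} [Field k] [Algebra k ℂ]

/-- Value at `(t, x)` of the coefficients, as a ring homomorphism `k[t][x] → ℂ`. -/
noncomputable def evTX (t x : ℂ) : k[X][X] →+* ℂ :=
  eval₂RingHom (aeval t : k[X] →ₐ[k] ℂ).toRingHom x

/-- Value at `(t, x, y)` of a polynomial. -/
noncomputable def evTXY (P : k[X][X][X]) (t x y : ℂ) : ℂ :=
  P.eval₂ (evTX t x) y

/-- A closed loop `γ` in the `x`-plane and a continuous closed branch `y` of the solutions of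
`F(t, x, y) = 0` along it, for `t ∈ V`, in the part `Δ ≠ 0`. -/
structure IsLoop (F : k[X][X][X]) (Δ : k[X][X]) (V : Set ℂ) (γ : ℝ → ℂ) (y : ℂ → ℝ → ℂ) :
    Prop where
  smooth : ContDiff ℝ 1 γ
  closed : γ 0 = γ 1
  cont : ContinuousOn (fun p : ℂ × ℝ => y p.1 p.2) (V ×ˢ Set.Icc 0 1)
  eqn : ∀ t ∈ V, ∀ s ∈ Set.Icc (0 : ℝ) 1, evTXY F t (γ s) (y t s) = 0
  ne : ∀ t ∈ V, ∀ s ∈ Set.Icc (0 : ℝ) 1, evTX t (γ s) Δ ≠ 0
  yclosed : ∀ t ∈ V, y t 0 = y t 1

/-- The integral of the form `H dx / Δ^e` over the loop. -/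
noncomputable def period (Δ : k[X][X]) (e : ℕ) (H : k[X][X][X]) (γ : ℝ → ℂ) (y : ℂ → ℝ → ℂ)
    (t : ℂ) : ℂ :=
  ∫ s in (0 : ℝ)..1, evTXY H t (γ s) (y t s) / evTX t (γ s) Δ ^ e * deriv γ s

/-- `V` is locally on `U` a matrix of periods of the forms of `Φ`: every point of `U` has a
neighbourhood with closed loops (one for every column), which do not depend on `t` in the
`x`-plane, such that the entries of `V t` are the integrals of the `η_i` over these loops. -/
def IsPeriod {N g : ℕ} (Φ : CurveForms k N) (U : Set ℂ) (V : ℂ → Matrix (Fin N) (Fin g) ℂ) :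
    Prop :=
  ∀ t₀ ∈ U, ∃ V₀ : Set ℂ, IsOpen V₀ ∧ t₀ ∈ V₀ ∧ ∃ (γ : Fin g → ℝ → ℂ) (y : Fin g → ℂ → ℝ → ℂ),
    (∀ j, IsLoop Φ.F Φ.Δ V₀ (γ j) (y j)) ∧
      ∀ t ∈ V₀, ∀ i j, V t i j = period Φ.Δ Φ.e (Φ.H i) (γ j) (y j) t

/-- `P` is a matrix of periods of the sub-connection along the branch `t ↦ (t, w t)`, `t ∈ U`: the
functions `w^l P_{ab}` are `(M V^{⊗r} c)_{(l, a), b}` for a matrix `V` of periods of `Φ` and a constant
matrix `c` (which expresses cycles by tensors of cycles). -/
def IsPeriodTS {N μ r : ℕ} {Φ : CurveForms k N} {ι : Type} [Fintype ι] [DecidableEq ι]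
    (E : TensorSub Φ μ r ι) (U : Set ℂ) (w : ℂ → ℂ) (P : ℂ → Matrix ι ι ℂ) : Prop :=
  ∃ (g : ℕ) (V : ℂ → Matrix (Fin N) (Fin g) ℂ) (c : Matrix (Fin r → Fin g) ι ℂ),
    IsPeriod Φ U V ∧ ∀ t ∈ U, ∀ (l : Fin μ) (a b : ι),
      w t ^ (l : ℕ) * P t a b = ∑ I, aeval t (E.M (l, a) I) * (tpow r (V t) * c) I b

/-- `t ↦ (t, w t)`, `t ∈ U`, is a branch of a plane curve `y^μ = ∑_{l<μ} f_l(t) y^l` over `k`. -/
structure IsBranchOf (k : Type) [Field k] [Algebra k ℂ] (U : Set ℂ) (μ : ℕ) (w : ℂ → ℂ) :
    Prop where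
  analytic : AnalyticOnNhd ℂ w U
  eqn : ∃ f : Fin μ → k[X],
    ∀ t ∈ U, w t ^ μ = ∑ l : Fin μ, aeval t (f l) * w t ^ (l : ℕ)

end

end Pool.Agent.Helper79.CU
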