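import Pool.Agent.Helper79.CU.StatDefs

/-!
# CU-20: periods of forms on a family of curves

Model: `Pool.Agent.Helper79.SE.Per` (there `y^a = f(x, t)`).
* On the curve `β F_y = Δ` (`bez`), so `F_y(t, γ s, y t s) ≠ 0`. There are polynomials `A`, `B` with `F(t', x', y') - F(t, x, y) = (t' - t) A + (x' - x) A' + (y' - y) B`, with values `F_t`, `F_x`, `F_y` on the diagonal; with the continuity of `y` this gives the
  derivatives `∂y/∂t = -F_t / F_y = -β F_t / Δ` (`s` fixed) and `∂y/∂s = -β F_x γ' / Δ` (`t` fixed, within `[0, 1]`). Hence, for every polynomial `P`,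
  `∂/∂t (P/Δ^k) = (nt k P)/Δ^(k+1)` and `∂/∂s (P/Δ^k) = (nx k P)/Δ^(k+1) γ'` along the loop (`nt` with the derivation `dt κ` of `κ[t]`).
* `perCU_diff`: differentiation under the integral sign (`hasDerivAt_integral_of_dominated_loc_of_deriv_le`, bounds by compactness), `deriv (perCU Δ k H γ y) t = ∫ (nt k H)/Δ^(k+1) γ' ds`.
* `perCU_ode`: evaluate `gm` on the curve: `T₁ (nt k (H i)) = ∑ A_il Δ H_l + nx k (G i)`, divide by `Δ^(k+1)`, multiply with `γ'`, integrate: the last term is the integral of `∂/∂s (G_i/Δ^k)`, which is `0` (`closed`, `yclosed`).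
* `perCU_exact`: in the same way: `Δ^(M+1) P = Δ^k nx M G` on the curve, so `P/Δ^k = nx M G/Δ^(M+1)`.
* `perCU_smul`: linearity.
-/

open Polynomial Pool.Agent.Helper64.Per

namespace Pool.Agent.Helper79.CU

open Pool.Agent.Helper79.SE

/-! ### auxiliary lemmas -/

private lemma dvd_aux {R : Type} [CommRing R] {F D P Q S : R} (h : F ∣ P - Q - S) :
    F ∣ D * P - D * (Q + S) := by
  obtain ⟨W, hW⟩ := h
  exact ⟨D * W, by linear_combination D * hW⟩

section ring

variable {κ : IntermediateField ℚ Qbar}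

private lemma ev1_eq_sum (f : Polynomial (Polynomial κ)) (t x : ℂ) :
    ev1 t x f = ∑ n ∈ f.support, aeval t (f.coeff n) * x ^ n := by
  show f.eval₂ (aeval t : Polynomial κ →ₐ[κ] ℂ).toRingHom x = _
  rw [Polynomial.eval₂_eq_sum, Polynomial.sum_def]
  rfl

private lemma ev1_C (c : Polynomial κ) (t x : ℂ) : ev1 t x (C c) = aeval t c := by
  show (C c : Polynomial (Polynomial κ)).eval₂ (aeval t : Polynomial κ →ₐ[κ] ℂ).toRingHom x = _
  rw [Polynomial.eval₂_C]
  rfl

private lemma ev1_cont (f : Polynomial (Polynomial κ)) :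
    Continuous fun p : ℂ × ℂ => ev1 p.1 p.2 f := by
  have h : (fun p : ℂ × ℂ => ev1 p.1 p.2 f) =
      fun p : ℂ × ℂ => ∑ n ∈ f.support, aeval p.1 (f.coeff n) * p.2 ^ n := by
    funext p
    exact ev1_eq_sum f p.1 p.2
  rw [h]
  refine continuous_finsetSum _ fun n _ => ?_
  exact ((Polynomial.continuous_aeval (f.coeff n)).comp continuous_fst).mul
    (continuous_snd.pow n)

private lemma ev1_hasDeriv_x (f : Polynomial (Polynomial κ)) (t x : ℂ) :
    HasDerivAt (fun x => ev1 t x f) (ev1 t x (dx (Polynomial κ) f)) x := by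
  have h1 : ∀ (g : Polynomial (Polynomial κ)) (z : ℂ), ev1 t z g =
      (g.map (aeval t : Polynomial κ →ₐ[κ] ℂ).toRingHom).eval z := by
    intro g z
    show g.eval₂ (aeval t : Polynomial κ →ₐ[κ] ℂ).toRingHom z = _
    rw [Polynomial.eval₂_eq_eval_map]
  simp only [h1]
  have h2 := Polynomial.hasDerivAt (f.map (aeval t : Polynomial κ →ₐ[κ] ℂ).toRingHom) x
  rw [Polynomial.derivative_map] at h2
  exact h2

private lemma ev1_dc (f : Polynomial (Polynomial κ)) (t x : ℂ) :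
    ev1 t x (DX (dt κ) f) = ∑ n ∈ f.support, aeval t (derivative (f.coeff n)) * x ^ n := by
  show ev1 t x (dc (dt κ) f) = _
  unfold dc
  rw [map_sum]
  refine Finset.sum_congr rfl fun n _ => ?_
  show (monomial n (dt κ (f.coeff n))).eval₂ (aeval t : Polynomial κ →ₐ[κ] ℂ).toRingHom x = _
  rw [Polynomial.eval₂_monomial]
  rfl

private lemma ev1_hasDeriv_t (f : Polynomial (Polynomial κ)) (t x : ℂ) :
    HasDerivAt (fun t => ev1 t x f) (ev1 t x (DX (dt κ) f)) t := by
  rw [ev1_dc]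
  simp only [ev1_eq_sum]
  refine HasDerivAt.fun_sum fun n _ => ?_
  exact (Polynomial.hasDerivAt_aeval (f.coeff n) t).mul_const _

private lemma ev2_eq_sum (P : Polynomial (Polynomial (Polynomial κ))) (t x y : ℂ) :
    ev2 P t x y = ∑ n ∈ P.support, ev1 t x (P.coeff n) * y ^ n := by
  unfold ev2
  rw [Polynomial.eval₂_eq_sum, Polynomial.sum_def]

private lemma ev2_add (P Q : Polynomial (Polynomial (Polynomial κ))) (t x y : ℂ) :
    ev2 (P + Q) t x y = ev2 P t x y + ev2 Q t x y := by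
  unfold ev2
  rw [Polynomial.eval₂_add]

private lemma ev2_sub (P Q : Polynomial (Polynomial (Polynomial κ))) (t x y : ℂ) :
    ev2 (P - Q) t x y = ev2 P t x y - ev2 Q t x y := by
  unfold ev2
  rw [Polynomial.eval₂_sub]

private lemma ev2_mul (P Q : Polynomial (Polynomial (Polynomial κ))) (t x y : ℂ) :
    ev2 (P * Q) t x y = ev2 P t x y * ev2 Q t x y := by
  unfold ev2
  rw [Polynomial.eval₂_mul]

private lemma ev2_C (c : Polynomial (Polynomial κ)) (t x y : ℂ) :
    ev2 (C c) t x y = ev1 t x c := by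
  unfold ev2
  rw [Polynomial.eval₂_C]

private lemma ev2_pow (P : Polynomial (Polynomial (Polynomial κ))) (n : ℕ) (t x y : ℂ) :
    ev2 (P ^ n) t x y = ev2 P t x y ^ n := by
  unfold ev2
  rw [Polynomial.eval₂_pow]

private lemma ev2_natCast (n : ℕ) (t x y : ℂ) :
    ev2 (n : Polynomial (Polynomial (Polynomial κ))) t x y = n := by
  unfold ev2
  rw [Polynomial.eval₂_natCast]

private lemma ev2_finsum {ι : Type} (S : Finset ι)
    (H : ι → Polynomial (Polynomial (Polynomial κ))) (t x y : ℂ) :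
    ev2 (∑ i ∈ S, H i) t x y = ∑ i ∈ S, ev2 (H i) t x y := by
  unfold ev2
  rw [Polynomial.eval₂_finsetSum]

private lemma ev2_deriv (P : Polynomial (Polynomial (Polynomial κ))) (t x y : ℂ) :
    ev2 (derivative P) t x y =
      ∑ n ∈ P.support, ev1 t x (P.coeff n) * ((n : ℂ) * y ^ (n - 1)) := by
  rw [Polynomial.derivative_apply, Polynomial.sum_def, ev2_finsum]
  refine Finset.sum_congr rfl fun n _ => ?_
  rw [ev2_mul, ev2_C, ev2_pow, map_mul, map_natCast]
  unfold ev2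
  rw [Polynomial.eval₂_X]
  ring

private lemma ev2_dc (D : Derivation ℚ (Polynomial (Polynomial κ)) (Polynomial (Polynomial κ)))
    (P : Polynomial (Polynomial (Polynomial κ))) (t x y : ℂ) :
    ev2 (dc D P) t x y = ∑ n ∈ P.support, ev1 t x (D (P.coeff n)) * y ^ n := by
  unfold dc
  rw [ev2_finsum]
  refine Finset.sum_congr rfl fun n _ => ?_
  unfold ev2
  rw [Polynomial.eval₂_monomial]

private lemma ev2_cont (P : Polynomial (Polynomial (Polynomial κ))) :
    Continuous fun p : (ℂ × ℂ) × ℂ => ev2 P p.1.1 p.1.2 p.2 := by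
  simp only [ev2_eq_sum]
  refine continuous_finsetSum _ fun n _ => ?_
  exact ((ev1_cont (P.coeff n)).comp continuous_fst).mul (continuous_snd.pow n)

/-- The implicit derivative of a root of a polynomial. -/
private lemma impl_deriv {𝕜 : Type} [NontriviallyNormedField 𝕜] [NormedAlgebra 𝕜 ℂ]
    {N : Finset ℕ} {c : ℕ → 𝕜 → ℂ} {c' : ℕ → ℂ} {u : 𝕜 → ℂ} {S : Set 𝕜} {z₀ : 𝕜}
    (hc : ∀ n ∈ N, HasDerivWithinAt (c n) (c' n) S z₀) (hu : ContinuousWithinAt u S z₀)
    (hz₀ : ∑ n ∈ N, c n z₀ * u z₀ ^ n = 0) (hE : ∀ z ∈ S, ∑ n ∈ N, c n z * u z ^ n = 0)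
    (hne : ∑ n ∈ N, c n z₀ * ((n : ℂ) * u z₀ ^ (n - 1)) ≠ 0) :
    HasDerivWithinAt u (-(∑ n ∈ N, c' n * u z₀ ^ n) /
      ∑ n ∈ N, c n z₀ * ((n : ℂ) * u z₀ ^ (n - 1))) S z₀ := by
  rw [hasDerivWithinAt_iff_tendsto_slope]
  have hut : Filter.Tendsto u (nhdsWithin z₀ (S \ {z₀})) (nhds (u z₀)) :=
    hu.tendsto.mono_left (nhdsWithin_mono _ Set.sdiff_subset)
  set Q : 𝕜 → ℂ := fun z => ∑ n ∈ N, c n z₀ *
    ∑ i ∈ Finset.range n, u z ^ i * u z₀ ^ (n - 1 - i) with hQ
  have hcont : Filter.Tendsto Q (nhdsWithin z₀ (S \ {z₀}))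
      (nhds (∑ n ∈ N, c n z₀ * ((n : ℂ) * u z₀ ^ (n - 1)))) := by
    refine tendsto_finsetSum _ fun n _ => ?_
    refine Filter.Tendsto.const_mul _ ?_
    have h1 : Filter.Tendsto (fun z => ∑ i ∈ Finset.range n, u z ^ i * u z₀ ^ (n - 1 - i))
        (nhdsWithin z₀ (S \ {z₀}))
        (nhds (∑ i ∈ Finset.range n, u z₀ ^ i * u z₀ ^ (n - 1 - i))) := by
      refine tendsto_finsetSum _ fun i _ => ?_
      exact (hut.pow i).mul_const _
    have h2 : ∑ i ∈ Finset.range n, u z₀ ^ i * u z₀ ^ (n - 1 - i) = n * u z₀ ^ (n - 1) := by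
      rw [Finset.sum_congr rfl (g := fun _ => u z₀ ^ (n - 1))]
      · rw [Finset.sum_const, Finset.card_range, nsmul_eq_mul]
      · intro i hi
        rw [← pow_add]
        congr 1
        have := Finset.mem_range.1 hi
        omega
    rw [h2] at h1
    exact h1
  have hev : ∀ᶠ z in nhdsWithin z₀ (S \ {z₀}), Q z ≠ 0 := hcont.eventually_ne hne
  have hnum : Filter.Tendsto (fun z => ∑ n ∈ N, slope (c n) z₀ z * u z ^ n)
      (nhdsWithin z₀ (S \ {z₀})) (nhds (∑ n ∈ N, c' n * u z₀ ^ n)) := by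
    refine tendsto_finsetSum _ fun n hn => ?_
    exact (hasDerivWithinAt_iff_tendsto_slope.1 (hc n hn)).mul (hut.pow n)
  have h3 := hnum.neg.mul (hcont.inv₀ hne)
  rw [← div_eq_mul_inv] at h3
  refine h3.congr' ?_
  filter_upwards [hev, self_mem_nhdsWithin] with z hz hzS
  have h4 : Q z * (u z - u z₀) = -∑ n ∈ N, (c n z - c n z₀) * u z ^ n := by
    have h5 : ∀ n, c n z₀ * (∑ i ∈ Finset.range n, u z ^ i * u z₀ ^ (n - 1 - i)) *
        (u z - u z₀) = c n z₀ * u z ^ n - c n z₀ * u z₀ ^ n := by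
      intro n
      rw [mul_assoc, Commute.geom_sum₂_mul (Commute.all _ _) n]
      ring
    have h6 : Q z * (u z - u z₀) = (∑ n ∈ N, c n z₀ * u z ^ n) -
        ∑ n ∈ N, c n z₀ * u z₀ ^ n := by
      rw [hQ]
      simp only
      rw [Finset.sum_mul, ← Finset.sum_sub_distrib]
      exact Finset.sum_congr rfl fun n _ => h5 n
    have h7 : ∑ n ∈ N, (c n z - c n z₀) * u z ^ n = (∑ n ∈ N, c n z * u z ^ n) -
        ∑ n ∈ N, c n z₀ * u z ^ n := by
      rw [← Finset.sum_sub_distrib]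
      exact Finset.sum_congr rfl fun n _ => by ring
    rw [h6, h7, hz₀, hE z hzS.1]
    ring
  have h8 : ∑ n ∈ N, slope (c n) z₀ z * u z ^ n =
      (z - z₀)⁻¹ • ∑ n ∈ N, (c n z - c n z₀) * u z ^ n := by
    rw [Finset.smul_sum]
    refine Finset.sum_congr rfl fun n _ => ?_
    rw [slope_def_module, smul_mul_assoc]
  show -(∑ n ∈ N, slope (c n) z₀ z * u z ^ n) * (Q z)⁻¹ = slope u z₀ z
  rw [h8, slope_def_module, ← smul_neg, ← h4, smul_mul_assoc]
  congr 1
  field_simp

/-- The numerator of the derivative of `P/Δ^N`. -/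
private noncomputable def nD
    (D : Derivation ℚ (Polynomial (Polynomial κ)) (Polynomial (Polynomial κ)))
    (F β : Polynomial (Polynomial (Polynomial κ))) (Δ : Polynomial (Polynomial κ)) (N : ℕ)
    (P : Polynomial (Polynomial (Polynomial κ))) : Polynomial (Polynomial (Polynomial κ)) :=
  C Δ * dc D P - β * dc D F * derivative P -
    (N : Polynomial (Polynomial (Polynomial κ))) * C (D Δ) * P

/-- The derivative of `P/Δ^k` along a path on the curve. -/
private lemma path_deriv {𝕜 : Type} [NontriviallyNormedField 𝕜] [NormedAlgebra 𝕜 ℂ]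
    {F α β : Polynomial (Polynomial (Polynomial κ))} {Δ : Polynomial (Polynomial κ)}
    (bez : α * F + β * derivative F = C Δ)
    {D : Derivation ℚ (Polynomial (Polynomial κ)) (Polynomial (Polynomial κ))}
    {τ ξ u : 𝕜 → ℂ} {S : Set 𝕜} {z₀ : 𝕜} {g : ℂ} (hz : z₀ ∈ S)
    (hD : ∀ f : Polynomial (Polynomial κ), HasDerivWithinAt (fun z => ev1 (τ z) (ξ z) f)
      (g * ev1 (τ z₀) (ξ z₀) (D f)) S z₀)
    (hu : ContinuousWithinAt u S z₀) (hF : ∀ z ∈ S, ev2 F (τ z) (ξ z) (u z) = 0)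
    (hΔ : ev1 (τ z₀) (ξ z₀) Δ ≠ 0) (k : ℕ) (P : Polynomial (Polynomial (Polynomial κ))) :
    HasDerivWithinAt (fun z => ev2 P (τ z) (ξ z) (u z) / ev1 (τ z) (ξ z) Δ ^ k)
      (g * (ev2 (nD D F β Δ k P) (τ z₀) (ξ z₀) (u z₀) / ev1 (τ z₀) (ξ z₀) Δ ^ (k + 1)))
      S z₀ := by
  have hb : ev2 β (τ z₀) (ξ z₀) (u z₀) * ev2 (derivative F) (τ z₀) (ξ z₀) (u z₀) =
      ev1 (τ z₀) (ξ z₀) Δ := by
    have h1 := congrArg (fun p => ev2 p (τ z₀) (ξ z₀) (u z₀)) bez
    simp only [ev2_add, ev2_mul, ev2_C] at h1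
    rw [hF z₀ hz] at h1
    linear_combination h1
  have hFy : ev2 (derivative F) (τ z₀) (ξ z₀) (u z₀) ≠ 0 := by
    intro h0
    rw [h0, mul_zero] at hb
    exact hΔ hb.symm
  have hud : HasDerivWithinAt u (-(∑ n ∈ F.support,
      g * ev1 (τ z₀) (ξ z₀) (D (F.coeff n)) * u z₀ ^ n) /
      ∑ n ∈ F.support, ev1 (τ z₀) (ξ z₀) (F.coeff n) * ((n : ℂ) * u z₀ ^ (n - 1))) S z₀ := by
    refine impl_deriv (N := F.support) (c := fun n z => ev1 (τ z) (ξ z) (F.coeff n))
      (fun n _ => hD (F.coeff n)) hu ?_ ?_ ?_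
    · rw [← ev2_eq_sum]
      exact hF z₀ hz
    · intro z hz'
      rw [← ev2_eq_sum]
      exact hF z hz'
    · rw [← ev2_deriv]
      exact hFy
  have e1 : ∑ n ∈ F.support, g * ev1 (τ z₀) (ξ z₀) (D (F.coeff n)) * u z₀ ^ n =
      g * ev2 (dc D F) (τ z₀) (ξ z₀) (u z₀) := by
    rw [ev2_dc, Finset.mul_sum]
    exact Finset.sum_congr rfl fun n _ => by ring
  rw [e1, ← ev2_deriv] at hud
  set ud : ℂ := -(g * ev2 (dc D F) (τ z₀) (ξ z₀) (u z₀)) /
    ev2 (derivative F) (τ z₀) (ξ z₀) (u z₀) with hudd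
  have hP : HasDerivWithinAt (fun z => ev2 P (τ z) (ξ z) (u z))
      (g * ev2 (dc D P) (τ z₀) (ξ z₀) (u z₀) +
        ev2 (derivative P) (τ z₀) (ξ z₀) (u z₀) * ud) S z₀ := by
    have h1 : HasDerivWithinAt (fun z => ∑ n ∈ P.support, ev1 (τ z) (ξ z) (P.coeff n) * u z ^ n)
        (∑ n ∈ P.support, (g * ev1 (τ z₀) (ξ z₀) (D (P.coeff n)) * u z₀ ^ n +
          ev1 (τ z₀) (ξ z₀) (P.coeff n) * ((n : ℂ) * u z₀ ^ (n - 1) * ud))) S z₀ :=
      HasDerivWithinAt.fun_sum fun n _ => (hD (P.coeff n)).mul (hud.fun_pow n)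
    have h2 : (fun z => ev2 P (τ z) (ξ z) (u z)) =
        fun z => ∑ n ∈ P.support, ev1 (τ z) (ξ z) (P.coeff n) * u z ^ n := by
      funext z
      exact ev2_eq_sum P _ _ _
    rw [h2]
    refine h1.congr_deriv ?_
    rw [Finset.sum_add_distrib, ev2_dc, ev2_deriv, Finset.mul_sum, Finset.sum_mul]
    congr 1
    · exact Finset.sum_congr rfl fun n _ => by ring
    · exact Finset.sum_congr rfl fun n _ => by ring
  have hΔd := (hD Δ).fun_pow k
  have h3 := hP.div hΔd (pow_ne_zero k hΔ)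
  refine h3.congr_deriv ?_
  have hud2 : ud = -(g * ev2 β (τ z₀) (ξ z₀) (u z₀) * ev2 (dc D F) (τ z₀) (ξ z₀) (u z₀)) /
      ev1 (τ z₀) (ξ z₀) Δ := by
    rw [hudd, div_eq_div_iff hFy hΔ, ← hb]
    ring
  rw [hud2]
  unfold nD
  simp only [ev2_sub, ev2_mul, ev2_C, ev2_natCast]
  rcases k with _ | k
  · simp only [pow_zero, Nat.cast_zero, zero_mul]
    field_simp
    ring
  · simp only [Nat.add_sub_cancel]
    push_cast
    field_simp
    ring

end ring

section

variable {κ : IntermediateField ℚ Qbar} {F α β : Polynomial (Polynomial (Polynomial κ))}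
  {Δ : Polynomial (Polynomial κ)} {V : Set ℂ} {γ : ℝ → ℂ} {y : ℂ → ℝ → ℂ}

private lemma cont_s {G : ℂ × ℝ → ℂ}
    (hG : ContinuousOn G (V ×ˢ Set.Icc (0 : ℝ) 1)) {t : ℂ} (ht : t ∈ V) :
    ContinuousOn (fun s => G (t, s)) (Set.Icc (0 : ℝ) 1) :=
  hG.comp (Continuous.continuousOn (by fun_prop)) (fun _ hs => ⟨ht, hs⟩)

private lemma int_s {G : ℝ → ℂ} (hG : ContinuousOn G (Set.Icc (0 : ℝ) 1)) :
    IntervalIntegrable G MeasureTheory.volume 0 1 := by
  apply ContinuousOn.intervalIntegrable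
  rwa [Set.uIcc_of_le zero_le_one]

/-- continuity of the integrands -/
private lemma cont_int (h : LoopCU F Δ V γ y) (k : ℕ)
    (P : Polynomial (Polynomial (Polynomial κ))) :
    ContinuousOn (fun q : ℂ × ℝ => ev2 P q.1 (γ q.2) (y q.1 q.2) / ev1 q.1 (γ q.2) Δ ^ k *
      deriv γ q.2) (V ×ˢ Set.Icc 0 1) := by
  have hγ : Continuous γ := h.smooth.continuous
  have hγ' : Continuous (deriv γ) := h.smooth.continuous_deriv le_rfl
  have h1 : Continuous fun q : ℂ × ℝ => (q.1, γ q.2) :=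
    continuous_fst.prodMk (hγ.comp continuous_snd)
  have hp : ContinuousOn (fun q : ℂ × ℝ => ev2 P q.1 (γ q.2) (y q.1 q.2))
      (V ×ˢ Set.Icc 0 1) := by
    have h2 : ContinuousOn (fun q : ℂ × ℝ => ((q.1, γ q.2), y q.1 q.2)) (V ×ˢ Set.Icc 0 1) :=
      h1.continuousOn.prodMk h.cont
    exact (ev2_cont P).comp_continuousOn h2
  have hd : ContinuousOn (fun q : ℂ × ℝ => ev1 q.1 (γ q.2) Δ ^ k) (V ×ˢ Set.Icc 0 1) :=
    (((ev1_cont Δ).comp h1).pow k).continuousOn
  refine ContinuousOn.mul (hp.div hd ?_) (hγ'.comp continuous_snd).continuousOn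
  rintro ⟨t, s⟩ ⟨ht, hs⟩
  exact pow_ne_zero _ (h.ne t ht s hs)

private lemma int_int (h : LoopCU F Δ V γ y) (k : ℕ)
    (P : Polynomial (Polynomial (Polynomial κ))) {t : ℂ} (ht : t ∈ V) :
    IntervalIntegrable (fun s => ev2 P t (γ s) (y t s) / ev1 t (γ s) Δ ^ k * deriv γ s)
      MeasureTheory.volume 0 1 :=
  int_s (cont_s (cont_int h k P) ht)

private lemma per_congr (h : LoopCU F Δ V γ y) {k l : ℕ}
    {P Q : Polynomial (Polynomial (Polynomial κ))} {t : ℂ} (ht : t ∈ V)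
    (hd : F ∣ C Δ ^ l * P - C Δ ^ k * Q) :
    perCU Δ k P γ y t = perCU Δ l Q γ y t := by
  unfold perCU
  refine intervalIntegral.integral_congr fun s hs => ?_
  rw [Set.uIcc_of_le zero_le_one] at hs
  obtain ⟨W, hW⟩ := hd
  have h1 := congrArg (fun p => ev2 p t (γ s) (y t s)) hW
  simp only [ev2_sub, ev2_mul, ev2_pow, ev2_C] at h1
  rw [h.eqn t ht s hs, zero_mul] at h1
  have hne := h.ne t ht s hs
  congr 1
  rw [div_eq_div_iff (pow_ne_zero _ hne) (pow_ne_zero _ hne)]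
  linear_combination h1

private lemma per_smul (k : ℕ) (c : Polynomial κ)
    (P : Polynomial (Polynomial (Polynomial κ))) (t : ℂ) :
    perCU Δ k (C (C c) * P) γ y t = aeval t c * perCU Δ k P γ y t := by
  unfold perCU
  rw [← intervalIntegral.integral_const_mul]
  refine intervalIntegral.integral_congr fun s _ => ?_
  rw [ev2_mul, ev2_C, ev1_C]
  ring

private lemma per_add (h : LoopCU F Δ V γ y) (k : ℕ)
    (P Q : Polynomial (Polynomial (Polynomial κ))) {t : ℂ} (ht : t ∈ V) :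
    perCU Δ k (P + Q) γ y t = perCU Δ k P γ y t + perCU Δ k Q γ y t := by
  unfold perCU
  rw [← intervalIntegral.integral_add (int_int h k P ht) (int_int h k Q ht)]
  refine intervalIntegral.integral_congr fun s _ => ?_
  rw [ev2_add]
  ring

private lemma per_finsum (h : LoopCU F Δ V γ y) {ι : Type} (S : Finset ι) (k : ℕ)
    (P : ι → Polynomial (Polynomial (Polynomial κ))) {t : ℂ} (ht : t ∈ V) :
    perCU Δ k (∑ i ∈ S, P i) γ y t = ∑ i ∈ S, perCU Δ k (P i) γ y t := by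
  unfold perCU
  rw [← intervalIntegral.integral_finsetSum fun i _ => int_int h k (P i) ht]
  refine intervalIntegral.integral_congr fun s _ => ?_
  rw [ev2_finsum, Finset.sum_div, Finset.sum_mul]

/-- differentiation under the integral -/
private lemma per_hasDeriv (bez : α * F + β * derivative F = C Δ) (hV : IsOpen V)
    (h : LoopCU F Δ V γ y) (k : ℕ) (H : Polynomial (Polynomial (Polynomial κ))) {t : ℂ}
    (ht : t ∈ V) :
    HasDerivAt (perCU Δ k H γ y) (perCU Δ (k + 1) (nt (dt κ) F β Δ k H) γ y t) t := by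
  obtain ⟨ε, hε, hεV⟩ := Metric.isOpen_iff.1 hV t ht
  have hball : Metric.closedBall t (ε / 2) ⊆ V := fun z hz => hεV (by
    rw [Metric.mem_ball]
    rw [Metric.mem_closedBall] at hz
    linarith)
  have hK : IsCompact (Metric.closedBall t (ε / 2) ×ˢ Set.Icc (0 : ℝ) 1) :=
    (isCompact_closedBall _ _).prod isCompact_Icc
  have hcF := cont_int h k H
  have hcF2 := cont_int h (k + 1) (nt (dt κ) F β Δ k H)
  obtain ⟨M, hM⟩ := hK.exists_bound_of_continuousOn
    (hcF2.mono (Set.prod_mono hball (Set.Subset.refl _)))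
  have hsub : Set.uIoc (0 : ℝ) 1 ⊆ Set.Icc 0 1 := by
    rw [Set.uIoc_of_le zero_le_one]
    exact Set.Ioc_subset_Icc_self
  have key := intervalIntegral.hasDerivAt_integral_of_dominated_loc_of_deriv_le
    (𝕜 := ℂ) (μ := MeasureTheory.volume) (a := (0 : ℝ)) (b := 1) (x₀ := t)
    (s := Metric.ball t (ε / 2))
    (F := fun t s => ev2 H t (γ s) (y t s) / ev1 t (γ s) Δ ^ k * deriv γ s)
    (F' := fun t s => ev2 (nt (dt κ) F β Δ k H) t (γ s) (y t s) / ev1 t (γ s) Δ ^ (k + 1) *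
      deriv γ s)
    (bound := fun _ => M) (Metric.ball_mem_nhds t (half_pos hε)) ?_ ?_ ?_ ?_ ?_ ?_
  · exact key.2
  · filter_upwards [hV.mem_nhds ht] with t' ht'
    exact (intervalIntegrable_iff.1 (int_s (cont_s hcF ht'))).aestronglyMeasurable
  · exact int_s (cont_s hcF ht)
  · exact (intervalIntegrable_iff.1 (int_s (cont_s hcF2 ht))).aestronglyMeasurable
  · apply Filter.Eventually.of_forall
    intro s hs t' ht'
    exact hM (t', s) ⟨Metric.ball_subset_closedBall ht', hsub hs⟩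
  · exact intervalIntegrable_const
  · apply Filter.Eventually.of_forall
    intro s hs t' ht'
    have hs' := hsub hs
    have htV : t' ∈ V := hball (Metric.ball_subset_closedBall ht')
    have hc : ContinuousOn (fun t' => y t' s) V :=
      h.cont.comp (f := fun t' : ℂ => (t', s)) (Continuous.continuousOn (by fun_prop))
        (fun t' ht' => ⟨ht', hs'⟩)
    have d1 := path_deriv (τ := fun z : ℂ => z) (ξ := fun _ => γ s) (u := fun z => y z s)
      (S := V) (z₀ := t') (g := 1) (D := DX (dt κ)) bez htV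
      (fun f => by
        rw [one_mul]
        exact (ev1_hasDeriv_t f t' (γ s)).hasDerivWithinAt) (hc t' htV)
      (fun z hz => h.eqn z hz s hs') (h.ne t' htV s hs') k H
    rw [one_mul] at d1
    exact (d1.hasDerivAt (hV.mem_nhds htV)).mul_const (deriv γ s)

/-- the integral of an exact form -/
private lemma per_nx (bez : α * F + β * derivative F = C Δ)
    (h : LoopCU F Δ V γ y) (k : ℕ) (G : Polynomial (Polynomial (Polynomial κ))) {t : ℂ}
    (ht : t ∈ V) :
    perCU Δ (k + 1) (nx F β Δ k G) γ y t = 0 := by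
  have hcy : ContinuousOn (fun s => y t s) (Set.Icc 0 1) :=
    h.cont.comp (f := fun s : ℝ => (t, s)) (Continuous.continuousOn (by fun_prop))
      (fun s hs => ⟨ht, hs⟩)
  have hγ : Continuous γ := h.smooth.continuous
  have hc0 : ContinuousOn (fun s => ev2 G t (γ s) (y t s) / ev1 t (γ s) Δ ^ k)
      (Set.Icc 0 1) := by
    have h1 : Continuous fun s : ℝ => (t, γ s) := continuous_const.prodMk hγ
    have h2 : ContinuousOn (fun s : ℝ => ((t, γ s), y t s)) (Set.Icc 0 1) :=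
      h1.continuousOn.prodMk hcy
    refine ((ev2_cont G).comp_continuousOn h2).div
      ((((ev1_cont Δ).comp h1).pow k).continuousOn) ?_
    intro s hs
    exact pow_ne_zero _ (h.ne t ht s hs)
  unfold perCU
  rw [intervalIntegral.integral_eq_sub_of_hasDerivAt_of_le (a := (0 : ℝ)) (b := 1)
      (f := fun s => ev2 G t (γ s) (y t s) / ev1 t (γ s) Δ ^ k) zero_le_one hc0 ?_
      (int_int h (k + 1) _ ht)]
  · rw [h.closed, h.yclosed t ht, sub_self]
  · intro s hs
    have hs' : s ∈ Set.Icc (0 : ℝ) 1 := Set.Ioo_subset_Icc_self hs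
    have hγd : HasDerivAt γ (deriv γ s) s :=
      ((h.smooth.differentiable one_ne_zero) s).hasDerivAt
    have d1 := path_deriv (τ := fun _ : ℝ => t) (ξ := γ) (u := fun s => y t s)
      (S := Set.Icc 0 1) (z₀ := s) (g := deriv γ s) (D := dx (Polynomial κ)) bez hs'
      (fun f => by
        rw [mul_comm]
        exact ((ev1_hasDeriv_x f t (γ s)).comp s hγd).hasDerivWithinAt) (hcy s hs')
      (fun z hz => h.eqn t ht z hz) (h.ne t ht s hs') k G
    rw [mul_comm] at d1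
    exact d1.hasDerivAt (Icc_mem_nhds hs.1 hs.2)

theorem perCU_diff (bez : α * F + β * derivative F = C Δ) (hV : IsOpen V)
    (h : LoopCU F Δ V γ y) (k : ℕ) (H : Polynomial (Polynomial (Polynomial κ))) :
    DifferentiableOn ℂ (perCU Δ k H γ y) V :=
  fun _ ht => (per_hasDeriv bez hV h k H ht).differentiableAt.differentiableWithinAt

theorem perCU_ode (bez : α * F + β * derivative F = C Δ) (hV : IsOpen V)
    (h : LoopCU F Δ V γ y) {ι : Type} [Fintype ι] {k : ℕ}
    {H G : ι → Polynomial (Polynomial (Polynomial κ))} {T₁ : Polynomial κ}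
    {A : Matrix ι ι (Polynomial κ)}
    (gm : ∀ i, F ∣ C (C T₁) * nt (dt κ) F β Δ k (H i) - ∑ l, C (C (A i l)) * (C Δ * H l) -
      nx F β Δ k (G i)) {t : ℂ} (ht : t ∈ V) (i : ι) :
    aeval t T₁ * deriv (perCU Δ k (H i) γ y) t =
      ∑ l, aeval t (A i l) * perCU Δ k (H l) γ y t := by
  rw [(per_hasDeriv bez hV h k (H i) ht).deriv, ← per_smul]
  rw [per_congr (l := k + 1) (Q := (∑ l, C (C (A i l)) * (C Δ * H l)) + nx F β Δ k (G i)) h ht
    (dvd_aux (R := Polynomial (Polynomial (Polynomial κ))) (D := C Δ ^ (k + 1)) (gm i))]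
  rw [per_add h _ _ _ ht, per_nx bez h k (G i) ht, add_zero, per_finsum h _ _ _ ht]
  refine Finset.sum_congr rfl fun l _ => ?_
  rw [per_smul]
  congr 1
  refine per_congr h ht ?_
  have h2 : C Δ ^ k * (C Δ * H l) - C Δ ^ (k + 1) * H l = 0 := by ring
  rw [h2]
  exact dvd_zero _

theorem perCU_exact (bez : α * F + β * derivative F = C Δ) (h : LoopCU F Δ V γ y) {k : ℕ}
    {P : Polynomial (Polynomial (Polynomial κ))} (hP : Exact F β Δ k P) {t : ℂ} (ht : t ∈ V) :
    perCU Δ k P γ y t = 0 := by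
  obtain ⟨G, M, hGM⟩ := hP
  rw [per_congr (l := M + 1) (Q := nx F β Δ M G) h ht hGM]
  exact per_nx bez h M G ht

theorem perCU_sum (h : LoopCU F Δ V γ y) {ι : Type} [Fintype ι] {k : ℕ}
    (H : ι → Polynomial (Polynomial (Polynomial κ))) (c : ι → Polynomial κ) {t : ℂ}
    (ht : t ∈ V) :
    perCU Δ k (∑ i, C (C (c i)) * H i) γ y t = ∑ i, aeval t (c i) * perCU Δ k (H i) γ y t := by
  rw [per_finsum h _ _ _ ht]
  exact Finset.sum_congr rfl fun i _ => per_smul k (c i) (H i) t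

end

end Pool.Agent.Helper79.CU
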