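import Pool.Agent.Helper79.CU.Defs
import Pool.Agent.Helper79.SE.Per

/-!
# CU: families of curves over a number field, loops and periods
-/

open Polynomial Pool.Agent.Helper64.Per

namespace Pool.Agent.Helper79.CU

open Pool.Agent.Helper79.SE

/-- Value at `(t, x)` of the coefficients, as a ring homomorphism `κ[t][x] → ℂ`. -/
noncomputable def ev1 {κ : IntermediateField ℚ Qbar} (t x : ℂ) :
    Polynomial (Polynomial κ) →+* ℂ :=
  Polynomial.eval₂RingHom (aeval t : Polynomial κ →ₐ[κ] ℂ).toRingHom x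

/-- Value at `(t, x, y)` of a polynomial. -/
noncomputable def ev2 {κ : IntermediateField ℚ Qbar}
    (P : Polynomial (Polynomial (Polynomial κ))) (t x y : ℂ) : ℂ :=
  P.eval₂ (ev1 t x) y

/-- A closed loop `γ` in the `x`-plane and a continuous closed branch `y` of the solutions of
`F(t, x, y) = 0` along it, for `t ∈ V`, in the part `Δ ≠ 0`. -/
structure LoopCU {κ : IntermediateField ℚ Qbar} (F : Polynomial (Polynomial (Polynomial κ)))
    (Δ : Polynomial (Polynomial κ)) (V : Set ℂ) (γ : ℝ → ℂ) (y : ℂ → ℝ → ℂ) : Prop where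
  smooth : ContDiff ℝ 1 γ
  closed : γ 0 = γ 1
  cont : ContinuousOn (fun p : ℂ × ℝ => y p.1 p.2) (V ×ˢ Set.Icc 0 1)
  eqn : ∀ t ∈ V, ∀ s ∈ Set.Icc (0 : ℝ) 1, ev2 F t (γ s) (y t s) = 0
  ne : ∀ t ∈ V, ∀ s ∈ Set.Icc (0 : ℝ) 1, ev1 t (γ s) Δ ≠ 0
  yclosed : ∀ t ∈ V, y t 0 = y t 1

/-- The integral of the form `H dx / Δ^k` over the loop. -/
noncomputable def perCU {κ : IntermediateField ℚ Qbar} (Δ : Polynomial (Polynomial κ)) (k : ℕ)
    (H : Polynomial (Polynomial (Polynomial κ))) (γ : ℝ → ℂ) (y : ℂ → ℝ → ℂ) (t : ℂ) : ℂ :=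
  ∫ s in (0 : ℝ)..1, ev2 H t (γ s) (y t s) / ev1 t (γ s) Δ ^ k * deriv γ s

end Pool.Agent.Helper79.CU
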