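import Pool.Agent.Helper79.CU.StatC
import Pool.Agent.Helper79.CU.StatDefs

/-!
# CU: comparison of the definitions of the statement with those of the proof
-/

open Polynomial Pool.Agent.Helper64.Per

namespace Pool.Agent.Helper79.CU

open Pool.Agent.Helper79.SE Pool.Agent.Helper79.GX

theorem dc_eq_cw {R : Type} [CommRing R] [Algebra ℚ R] (D : Derivation ℚ R R) (p : R[X]) :
    dc D p = cw (fun x => D x) p := rfl

theorem nx_eq {R : Type} [CommRing R] [Algebra ℚ R] (F β : R[X][X]) (Δ : R[X]) (N : ℕ)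
    (P : R[X][X]) : nx F β Δ N P = numX F β Δ N P := rfl

theorem nt_eq {k : Type} [Field k] [CharZero k] (F β : k[X][X][X]) (Δ : k[X][X]) (N : ℕ)
    (P : k[X][X][X]) : nt (dt k) F β Δ N P = numT (fun p => derivative p) F β Δ N P := rfl

theorem exact_eq {R : Type} [CommRing R] [Algebra ℚ R] (F β : R[X][X]) (Δ : R[X]) (N : ℕ)
    (P : R[X][X]) : Exact F β Δ N P ↔ IsExact F β Δ N P := Iff.rfl

theorem loop_eq {κ : IntermediateField ℚ Qbar} {F : Polynomial (Polynomial (Polynomial κ))}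
    {Δ : Polynomial (Polynomial κ)} {V : Set ℂ} {γ : ℝ → ℂ} {y : ℂ → ℝ → ℂ}
    (h : IsLoop F Δ V γ y) : LoopCU F Δ V γ y :=
  ⟨h.smooth, h.closed, h.cont, h.eqn, h.ne, h.yclosed⟩

theorem per_eq {κ : IntermediateField ℚ Qbar} {H : Polynomial (Polynomial (Polynomial κ))}
    {Δ : Polynomial (Polynomial κ)} {e : ℕ} {γ : ℝ → ℂ} {y : ℂ → ℝ → ℂ} (t : ℂ) :
    period Δ e H γ y t = perCU Δ e H γ y t := rfl

end Pool.Agent.Helper79.CU
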