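import Pool.Agent.Helper79.CU.Hen

/-!
# CU-07: the iterates of the Gauss-Manin connection

Let `yh` be as in `exists_yh`, `Φ P = (P.map τ).eval yh` (a ring homomorphism `R[x][y] → BB[[h]]`, `Φ F = 0`), `V = Φ(Δ)⁻¹` (`Φ(C Δ) = τ Δ` has the unit `iota (C Δ)` as constant term), `∂` = derivative with respect to `h`,
`DS` = `Dx` applied to the coefficients.
* `∂ (τ p) = τ (DX D p)` (`deriv_tay`), `DS (τ p) = τ (p')`. Hence `∂ Φ(P) = Φ(P_t) + Φ(P_y) ∂yh`, and from `Φ F = 0`, multiplying with `Φ β`: `Φ(Δ) ∂yh = -Φ(β F_t)` (`bez`), so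
  `Φ(Δ) ∂Φ(P) = Φ(Δ P_t - β F_t P_y)`; in the same way `Φ(Δ) DS Φ(P) = Φ(Δ P_x - β F_x P_y)`. Hence `∂(Φ(P) V^k) = Φ(nt k P) V^(k+1)`, `DS(Φ(P) V^k) = Φ(nx k P) V^(k+1)`.
* `ω_i = Φ(H_i) V^k`: `gm` gives `∂ω_i = ∑_l τ(C a_il)… ω_l + DS(Φ(G_i) V^k)`, where the coefficient of `h^n` of `τ (C a)` is `iota (C (C (coeff n (tay D a))))`.
* By induction on `n`, `coeff n ω_i = ∑_l iota (C (C (coeff n (B i l)))) coeff 0 ω_l + Dx g`: compare `(n+1)` times the coefficient `n+1` (`h`: the same recursion for `B`; `Dx` is linear over the constants,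
  `Dx_const`; `R` is a `ℚ`-algebra), and `coeff 0 ω_l = iota (H_l) dlt^k`.
* Growth: `coeff n (Φ P) ∈ FB.I (c (n + 1))`, the inverse `V` as well, so `coeff n ω_i ∈ FB.I (c (n+1))`; `FB_struct` and `exact_iff` (multiply numerator and denominator with powers of `Δ`, keep `Bd`:
  `c` can be enlarged, `Δ^j` has degree `j deg Δ` and coefficients in `S.I (j e)`; note that a bound `c` for the level can be chosen independently of the bound for size, so first fix the level
  `c₁ (n+1)`, then enlarge: here both are required to be the same `c`; take `b ∈ FB.I (c₁ (n+1))`, `b = iota P dlt^(c₁ (n+1))`, `Bd … (c₂ (n+1))`, then for `c ≥ c₁` the numerator is `Δ^((c - c₁)(n+1)) P`; to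
  get size at most `c (n + 1)` this is circular, therefore the statement has two constants `c` (level) and `c'` (size)).
-/

open Polynomial

namespace Pool.Agent.Helper79.CU

open Pool.Agent.Helper79.SE

/-! ### Derivation-like maps and evaluations -/

section Chain

variable {A T : Type} [CommRing A] [Algebra ℚ A] [CommRing T] {δ : T → T}
  (hadd : ∀ a b, δ (a + b) = δ a + δ b) (hmul : ∀ a b, δ (a * b) = a * δ b + b * δ a)

include hadd in
theorem δ_zero : δ 0 = 0 := by
  have h := hadd 0 0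
  rw [add_zero] at h
  exact left_eq_add.1 h

include hmul in
theorem δ_one : δ 1 = 0 := by
  have h := hmul 1 1
  rw [one_mul, one_mul] at h
  exact left_eq_add.1 h

include hmul in
theorem δ_pow (W : T) (n : ℕ) : δ (W ^ n) = (n : T) * W ^ (n - 1) * δ W := by
  induction n with
  | zero => rw [pow_zero, δ_one hmul]; simp
  | succ n ih =>
    rw [pow_succ, hmul, ih]
    rcases n with _ | n
    · simp
    · simp only [Nat.add_sub_cancel, pow_succ]
      push_cast
      ring

variable {D' : Derivation ℚ A A} {g : A →+* T} (hg : ∀ a, δ (g a) = g (D' a))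

include hadd hmul hg in
theorem chain (W : T) (P : A[X]) : δ (P.eval₂ g W) =
    (dc D' P).eval₂ g W + (derivative P).eval₂ g W * δ W := by
  induction P using Polynomial.induction_on' with
  | add p q hp hq =>
    rw [eval₂_add, hadd, hp, hq, derivative_add, SE.dc_add, eval₂_add, eval₂_add]
    ring
  | monomial n a =>
    rw [eval₂_monomial, SE.dc_monomial, eval₂_monomial, derivative_monomial, eval₂_monomial, hmul,
      hg, δ_pow hmul, map_mul, map_natCast]
    ring

include hadd hmul hg in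
theorem quot {F α β : A[X]} {Δ : A} (bez : α * F + β * derivative F = C Δ) {W V : T}
    (hW : F.eval₂ g W = 0) (hV : g Δ * V = 1) (P : A[X]) (k : ℕ) :
    δ (P.eval₂ g W * V ^ k) = (C Δ * dc D' P - β * dc D' F * derivative P -
      (k : A[X]) * C (D' Δ) * P).eval₂ g W * V ^ (k + 1) := by
  have e1 : (dc D' F).eval₂ g W + (derivative F).eval₂ g W * δ W = 0 := by
    rw [← chain hadd hmul hg, hW, δ_zero hadd]
  have e2 : β.eval₂ g W * (derivative F).eval₂ g W = g Δ := by
    have := congrArg (fun q => eval₂ g W q) bez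
    simp only [eval₂_add, eval₂_mul, eval₂_C, hW, mul_zero, zero_add] at this
    exact this
  have e3 : g Δ * δ W = -(β.eval₂ g W * (dc D' F).eval₂ g W) := by
    rw [← e2]
    linear_combination (β.eval₂ g W) * e1
  have e4 : δ V = -(V ^ 2 * g (D' Δ)) := by
    have h1 : g Δ * δ V + V * g (D' Δ) = 0 := by
      rw [← hg, ← hmul, hV, δ_one hmul]
    linear_combination V * h1 - δ V * hV
  have e5 : ∀ k : ℕ, δ (V ^ k) = -((k : T) * V ^ (k + 1) * g (D' Δ)) := by
    intro k
    induction k with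
    | zero => rw [pow_zero, δ_one hmul]; simp
    | succ k ih =>
      rw [pow_succ, hmul, ih, e4]
      push_cast
      ring
  rw [hmul, e5, chain hadd hmul hg]
  simp only [eval₂_sub, eval₂_mul, eval₂_C, eval₂_natCast]
  have e6 : V ^ k = V ^ (k + 1) * g Δ := by
    rw [pow_succ, mul_assoc, mul_comm V, hV, mul_one]
  have e7 : V ^ k * ((derivative P).eval₂ g W * δ W) =
      -(V ^ (k + 1) * (β.eval₂ g W * (dc D' F).eval₂ g W * (derivative P).eval₂ g W)) := by
    rw [e6]
    linear_combination (V ^ (k + 1) * (derivative P).eval₂ g W) * e3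
  have e8 : V ^ k * (dc D' P).eval₂ g W = V ^ (k + 1) * g Δ * (dc D' P).eval₂ g W := by
    rw [← e6]
  linear_combination e7 + e8

end Chain

/-! ### Linear growth of power series -/

section Growth

variable {T : Type} [CommRing T] (W : MFilt T)

/-- Linear growth. -/
def Gr (c : ℕ) (s : PowerSeries T) : Prop := ∀ n, PowerSeries.coeff n s ∈ W.I (c * (n + 1))

variable {W}

theorem Gr.mono {c c' : ℕ} {s : PowerSeries T} (h : Gr W c s) (hc : c ≤ c') : Gr W c' s :=
  fun n => W.mono (Nat.mul_le_mul_right _ hc) (h n)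

theorem Gr.add {c c' : ℕ} {s t : PowerSeries T} (hs : Gr W c s) (ht : Gr W c' t) :
    Gr W (c + c') (s + t) := fun n => by
  rw [map_add]
  exact AddSubgroup.add_mem _ ((hs.mono (Nat.le_add_right _ _)) n)
    ((ht.mono (Nat.le_add_left _ _)) n)

theorem Gr.mul {c c' : ℕ} {s t : PowerSeries T} (hs : Gr W c s) (ht : Gr W c' t) :
    Gr W (c + c') (s * t) := fun n => by
  rw [PowerSeries.coeff_mul]
  refine AddSubgroup.sum_mem _ fun x hx => ?_
  have hx' : x.1 + x.2 = n := Finset.HasAntidiagonal.mem_antidiagonal.1 hx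
  refine W.mono ?_ (W.mul (hs x.1) (ht x.2))
  have h1 : c * (x.1 + 1) ≤ c * (n + 1) := Nat.mul_le_mul_left _ (by omega)
  have h2 : c' * (x.2 + 1) ≤ c' * (n + 1) := Nat.mul_le_mul_left _ (by omega)
  calc c * (x.1 + 1) + c' * (x.2 + 1) ≤ c * (n + 1) + c' * (n + 1) := Nat.add_le_add h1 h2
    _ = (c + c') * (n + 1) := by ring

theorem Gr.zero : Gr W 0 (0 : PowerSeries T) := fun n => by
  rw [map_zero]
  exact AddSubgroup.zero_mem _

theorem Gr.one : Gr W 0 (1 : PowerSeries T) := fun n => by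
  rw [PowerSeries.coeff_one]
  split_ifs
  · exact W.mono (Nat.zero_le _) W.one
  · exact AddSubgroup.zero_mem _

theorem Gr.pow {c : ℕ} {s : PowerSeries T} (hs : Gr W c s) (k : ℕ) : Gr W (k * c) (s ^ k) := by
  induction k with
  | zero => rw [pow_zero, zero_mul]; exact Gr.one
  | succ k ih =>
    rw [pow_succ, Nat.succ_mul]
    exact ih.mul hs

theorem Gr.sum {σ : Type*} (S : Finset σ) {f : σ → PowerSeries T}
    (h : ∀ i ∈ S, ∃ c, Gr W c (f i)) : ∃ c, Gr W c (∑ i ∈ S, f i) := by
  classical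
  induction S using Finset.induction_on with
  | empty => exact ⟨0, by rw [Finset.sum_empty]; exact Gr.zero⟩
  | insert i S hi ih =>
    obtain ⟨c, hc⟩ := ih fun j hj => h j (Finset.mem_insert_of_mem hj)
    obtain ⟨c', hc'⟩ := h i (Finset.mem_insert_self _ _)
    exact ⟨c' + c, by rw [Finset.sum_insert hi]; exact hc'.add hc⟩

/-- The inverse of a series of linear growth has linear growth. -/
theorem Gr.inv {c : ℕ} {U V : PowerSeries T} (hU : Gr W c U) (hUV : U * V = 1) {d : T}
    (hd : d ∈ W.I 1) (hd' : PowerSeries.constantCoeff U * d = 1) :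
    Gr W (2 * c + 2) V := by
  have key : ∀ n, PowerSeries.coeff n V ∈ W.I ((2 * c + 1) * n + 1) := by
    intro n
    induction n using Nat.strong_induction_on with
    | _ n ih =>
      rcases Nat.eq_zero_or_pos n with rfl | hn
      · have h0 : PowerSeries.coeff 0 V = d := by
          have h1 : PowerSeries.constantCoeff U * PowerSeries.constantCoeff V = 1 := by
            rw [← map_mul, hUV, map_one]
          rw [PowerSeries.coeff_zero_eq_constantCoeff_apply]
          linear_combination d * h1 - PowerSeries.constantCoeff V * hd'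
        rw [h0]
        simpa using hd
      · have h1 : PowerSeries.coeff n (U * V) = 0 := by
          rw [hUV, PowerSeries.coeff_one, if_neg (by omega)]
        rw [PowerSeries.coeff_mul] at h1
        have h2 : ((0, n) : ℕ × ℕ) ∈ Finset.HasAntidiagonal.antidiagonal n :=
          Finset.HasAntidiagonal.mem_antidiagonal.2 (zero_add n)
        rw [← Finset.add_sum_erase _ _ h2, PowerSeries.coeff_zero_eq_constantCoeff_apply] at h1
        have h3 : PowerSeries.coeff n V = -(d * ∑ x ∈ (Finset.HasAntidiagonal.antidiagonal n).erase (0, n),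
            PowerSeries.coeff x.1 U * PowerSeries.coeff x.2 V) := by
          linear_combination d * h1 - PowerSeries.coeff n V * hd'
        rw [h3]
        refine AddSubgroup.neg_mem _ ?_
        rw [Finset.mul_sum]
        refine AddSubgroup.sum_mem _ fun x hx => ?_
        rw [Finset.mem_erase, Finset.HasAntidiagonal.mem_antidiagonal] at hx
        obtain ⟨hx1, hx2⟩ := hx
        have hx0 : 1 ≤ x.1 := by
          by_contra hcon
          have h4 : x.1 = 0 := by omega
          apply hx1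
          ext
          · exact h4
          · simp only; omega
        have h5 := W.mul hd (W.mul (hU x.1) (ih x.2 (by omega)))
        refine W.mono ?_ h5
        have h6 : c * (x.1 + 1) ≤ 2 * c * x.1 := by nlinarith
        subst hx2
        nlinarith
  intro n
  refine W.mono ?_ (key n)
  nlinarith

end Growth

section

variable {R : Type} [CommRing R] [Algebra ℚ R]

theorem DX_apply (D : Derivation ℚ R R) (p : R[X]) : DX D p = dc D p := rfl

theorem dx_apply (p : R[X]) : dx R p = derivative p := rfl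

theorem DX_dx (D : Derivation ℚ R R) (p : R[X]) : DX D (dx R p) = dx R (DX D p) := by
  rw [DX_apply, dx_apply, dx_apply, DX_apply]
  ext n
  rw [coeff_dc, coeff_derivative, coeff_derivative, coeff_dc, Derivation.leibniz]
  have : D ((n : R) + 1) = 0 := by
    have h1 : ((n : R) + 1) = ((n + 1 : ℕ) : R) := by push_cast; rfl
    rw [h1, Derivation.map_natCast]
  rw [this, smul_zero, zero_add, smul_eq_mul, mul_comm]

theorem DX_C (D : Derivation ℚ R R) (a : R) : DX D (C a) = C (D a) := by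
  rw [DX_apply, ← monomial_zero_left, SE.dc_monomial, monomial_zero_left]

theorem tauS_coeff (F : R[X][X]) (Δ : R[X]) (D : Derivation ℚ R R) (p : R[X]) (n : ℕ) :
    PowerSeries.coeff n (tauS F Δ D p) = iota F Δ (C (PowerSeries.coeff n (tay (DX D) p))) := by
  simp only [tauS, RingHom.comp_apply, PowerSeries.coeff_map]
  rfl

theorem tauS_deriv (F : R[X][X]) (Δ : R[X]) (D : Derivation ℚ R R) (p : R[X]) :
    PowerSeries.derivative (BB F Δ) (tauS F Δ D p) = tauS F Δ D (DX D p) := by
  ext1 n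
  rw [PowerSeries.coeff_derivative, tauS_coeff, tauS_coeff, ← deriv_tay,
    PowerSeries.coeff_derivative]
  simp only [map_mul, map_add, map_natCast, map_one]

theorem coeff_tay_dx (D : Derivation ℚ R R) (p : R[X]) (n : ℕ) :
    PowerSeries.coeff n (tay (DX D) (dx R p)) = dx R (PowerSeries.coeff n (tay (DX D) p)) := by
  rw [SE.coeff_tay, SE.coeff_tay, Derivation.map_smul]
  congr 1
  induction n with
  | zero => rfl
  | succ n ih =>
    rw [Function.iterate_succ_apply', ih, DX_dx, Function.iterate_succ_apply']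

theorem coeff_tay_C (D : Derivation ℚ R R) (a : R) (n : ℕ) :
    PowerSeries.coeff n (tay (DX D) (C a)) = C (PowerSeries.coeff n (tay D a)) := by
  have h : ∀ n, (DX D)^[n] (C a) = C (D^[n] a) := by
    intro n
    induction n with
    | zero => rfl
    | succ n ih => rw [Function.iterate_succ_apply', ih, DX_C, Function.iterate_succ_apply']
  rw [SE.coeff_tay, SE.coeff_tay, h, Polynomial.smul_C]

variable {F α β : R[X][X]} {Δ : R[X]}

theorem Dx_C {Dx : Derivation ℚ (BB F Δ) (BB F Δ)}
    (hDx : ∀ N P, Dx (iota F Δ P * dlt F Δ ^ N) = iota F Δ (nx F β Δ N P) * dlt F Δ ^ (N + 1))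
    (p : R[X]) : Dx (iota F Δ (C p)) = iota F Δ (C (dx R p)) := by
  have h := hDx 0 (C p)
  rw [pow_zero, mul_one, zero_add, pow_one] at h
  rw [h]
  have h2 : nx F β Δ 0 (C p) = C Δ * C (dx R p) := by
    have h3 : dc (dx R) (C p) = C (dx R p) := by
      rw [← monomial_zero_left, SE.dc_monomial, monomial_zero_left]
    unfold nx
    rw [derivative_C, Nat.cast_zero, h3]
    simp
  rw [h2, map_mul, mul_right_comm, iota_dlt, one_mul]

/-- `Dx`, applied to the coefficients of a power series. -/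
noncomputable def DS (Dx : Derivation ℚ (BB F Δ) (BB F Δ)) (s : PowerSeries (BB F Δ)) :
    PowerSeries (BB F Δ) := PowerSeries.mk fun n => Dx (PowerSeries.coeff n s)

theorem DS_add (Dx : Derivation ℚ (BB F Δ) (BB F Δ)) (s t : PowerSeries (BB F Δ)) :
    DS Dx (s + t) = DS Dx s + DS Dx t := by
  ext1 n
  simp only [DS, PowerSeries.coeff_mk, map_add]

theorem DS_mul (Dx : Derivation ℚ (BB F Δ) (BB F Δ)) (s t : PowerSeries (BB F Δ)) :
    DS Dx (s * t) = s * DS Dx t + t * DS Dx s := by
  ext1 n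
  rw [mul_comm t]
  simp only [DS, PowerSeries.coeff_mk, map_add, PowerSeries.coeff_mul, map_sum]
  rw [← Finset.sum_add_distrib]
  refine Finset.sum_congr rfl fun x _ => ?_
  rw [Derivation.leibniz, smul_eq_mul, smul_eq_mul, mul_comm (Dx _)]

theorem DS_tauS {D : Derivation ℚ R R} {Dx : Derivation ℚ (BB F Δ) (BB F Δ)}
    (hDx : ∀ N P, Dx (iota F Δ P * dlt F Δ ^ N) = iota F Δ (nx F β Δ N P) * dlt F Δ ^ (N + 1))
    (p : R[X]) : DS Dx (tauS F Δ D p) = tauS F Δ D (dx R p) := by
  ext1 n
  simp only [DS, PowerSeries.coeff_mk]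
  rw [tauS_coeff, tauS_coeff, Dx_C hDx, coeff_tay_dx]

end

theorem iter_coeff {R : Type} [CommRing R] [Algebra ℚ R] (D : Derivation ℚ R R) (p : R[X])
    (n j : ℕ) : ((DX D)^[n] p).coeff j = D^[n] (p.coeff j) := by
  induction n with
  | zero => rfl
  | succ n ih =>
    rw [Function.iterate_succ_apply', DX_apply, coeff_dc, ih, Function.iterate_succ_apply']

theorem Bd_mono {R : Type} [CommRing R] {S : MFilt R} {m J J' c c' : ℕ} {P : R[X][X]}
    (h : Bd S m J c P) (hJ : J ≤ J') (hc : c ≤ c') : Bd S m J' c' P :=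
  ⟨h.1, fun l => ⟨(h.2 l).1.trans hJ, fun j => S.mono hc ((h.2 l).2 j)⟩⟩

theorem tauS_growth {R : Type} [CommRing R] [Algebra ℚ R] {D : Derivation ℚ R R}
    (S : Filt D) (F : R[X][X]) (Δ : R[X]) {e : ℕ} {p : R[X]} (hp : ∀ j, p.coeff j ∈ S.I e) :
    ∃ c, Gr (FB ⟨S.I, S.mono, S.one, S.mul⟩ F Δ) c (tauS F Δ D p) := by
  refine ⟨e + p.natDegree + 1 + 1, fun n => ?_⟩
  rw [tauS_coeff]
  set q := PowerSeries.coeff n (tay (DX D) p) with hq
  have hqc : ∀ j, q.coeff j = ((n.factorial : ℚ)⁻¹) • D^[n] (p.coeff j) := by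
    intro j
    rw [hq, SE.coeff_tay, coeff_smul, iter_coeff]
  have hB : Bd ⟨S.I, S.mono, S.one, S.mul⟩ 1 p.natDegree (e + n) (C q) := by
    refine ⟨by rw [natDegree_C]; exact one_pos, fun l => ?_⟩
    rw [coeff_C]
    split_ifs
    · refine ⟨?_, fun j => ?_⟩
      · rw [natDegree_le_iff_coeff_eq_zero]
        intro j hj
        rw [hqc, coeff_eq_zero_of_natDegree_lt hj, iterate_map_zero, smul_zero]
      · rw [hqc]
        exact S.hasse n (hp j)
    · refine ⟨by simp, fun j => ?_⟩
      rw [coeff_zero]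
      exact AddSubgroup.zero_mem _
  refine MFilt.mono _ ?_ (FB_mem (F := F) (Δ := Δ) hB)
  nlinarith

theorem step_sum {ι R T : Type} [Fintype ι] [CommRing R] [CommRing T] (κ : R →+* T) (δ : T → T)
    (hδ : ∀ a b, δ (a + b) = δ a + δ b) (hκ : ∀ r g, κ r * δ g = δ (κ r * g)) (n : ℕ)
    (u : ι → ℕ → R) (b : ι → ι → ℕ → R) (c0 : ι → T) (w : ι → ℕ → T) (gg : ℕ → ι → T)
    (hw : ∀ l q, q ≤ n → w l q = ∑ j, κ (b l j q) * c0 j + δ (gg q l)) :
    ∑ l, ∑ x ∈ Finset.HasAntidiagonal.antidiagonal n, κ (u l x.1) * w l x.2 =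
      ∑ j, κ (∑ l, ∑ x ∈ Finset.HasAntidiagonal.antidiagonal n, u l x.1 * b l j x.2) * c0 j +
        δ (∑ l, ∑ x ∈ Finset.HasAntidiagonal.antidiagonal n, κ (u l x.1) * gg x.2 l) := by
  have hsum : ∀ {σ : Type} (S : Finset σ) (f : σ → T), δ (∑ i ∈ S, f i) = ∑ i ∈ S, δ (f i) := by
    intro σ S f
    have := map_sum (AddMonoidHom.mk' δ hδ) f S
    exact this
  have h1 : ∀ l, ∀ x ∈ Finset.HasAntidiagonal.antidiagonal n, κ (u l x.1) * w l x.2 =
      ∑ j, κ (u l x.1 * b l j x.2) * c0 j + δ (κ (u l x.1) * gg x.2 l) := by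
    intro l x hx
    have hx' : x.1 + x.2 = n := Finset.HasAntidiagonal.mem_antidiagonal.1 hx
    rw [hw l x.2 (by omega), mul_add, hκ, Finset.mul_sum]
    congr 1
    refine Finset.sum_congr rfl fun j _ => ?_
    rw [map_mul, mul_assoc]
  rw [Finset.sum_congr rfl fun l _ => Finset.sum_congr rfl (h1 l)]
  simp only [Finset.sum_add_distrib, hsum]
  congr 1
  rw [Finset.sum_congr rfl fun l _ => Finset.sum_comm, Finset.sum_comm]
  refine Finset.sum_congr rfl fun j _ => ?_
  rw [map_sum, Finset.sum_mul]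
  refine Finset.sum_congr rfl fun l _ => ?_
  rw [map_sum, Finset.sum_mul]

theorem iter {R : Type} [CommRing R] [IsDomain R] [Algebra ℚ R] {D : Derivation ℚ R R}
    (S : Filt D) {F α β : R[X][X]} {Δ : R[X]} (hF : F.Monic) {m : ℕ} (hm : F.natDegree = m)
    (hm1 : 1 ≤ m) (hΔ : Δ ≠ 0) (bez : α * F + β * derivative F = C Δ) {e : ℕ}
    (hFe : ∀ l j, (F.coeff l).coeff j ∈ S.I e) (hβe : ∀ l j, (β.coeff l).coeff j ∈ S.I e)
    (hΔe : ∀ j, Δ.coeff j ∈ S.I e) {ι : Type} [Fintype ι] [DecidableEq ι] {k : ℕ}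
    {H G : ι → R[X][X]} (hHe : ∀ i l j, ((H i).coeff l).coeff j ∈ S.I e) {a : Matrix ι ι R}
    (gm : ∀ i, F ∣ nt D F β Δ k (H i) - ∑ l, C (C (a i l)) * (C Δ * H l) - nx F β Δ k (G i))
    {B : ι → ι → PowerSeries R}
    (h0 : ∀ i l, PowerSeries.constantCoeff (B i l) = if i = l then 1 else 0)
    (h : ∀ i l, PowerSeries.derivative R (B i l) = ∑ m, tay D (a i m) * B m l) :
    ∃ c c' : ℕ, ∀ n i, ∃ P : R[X][X],
      Bd ⟨S.I, S.mono, S.one, S.mul⟩ m (c' * (n + 1)) (c' * (n + 1)) P ∧
      Exact F β Δ (c * (n + 1) + k) (C Δ ^ k * P -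
        C Δ ^ (c * (n + 1)) * ∑ l, C (C (PowerSeries.coeff n (B i l))) * H l) := by
  obtain ⟨yh, hy0, hyF, cy, hcy⟩ := exists_yh S bez hFe hβe
  obtain ⟨Dx, hDx, hDx0⟩ := exists_Dx bez
  set Φ : R[X][X] →+* PowerSeries (BB F Δ) := eval₂RingHom (tauS F Δ D) yh with hΦdef
  have hΦ : ∀ P, Φ P = P.eval₂ (tauS F Δ D) yh := fun P => rfl
  have hΦF : F.eval₂ (tauS F Δ D) yh = 0 := by rw [← eval_map]; exact hyF
  have hΦC : ∀ p, Φ (C p) = tauS F Δ D p := fun p => by rw [hΦ, eval₂_C]
  have hc0 : ∀ P, PowerSeries.constantCoeff (Φ P) = iota F Δ P := by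
    intro P
    have h1 : (PowerSeries.constantCoeff.comp Φ : R[X][X] →+* BB F Δ) = iota F Δ := by
      refine Polynomial.ringHom_ext (fun p => ?_) ?_
      · rw [RingHom.comp_apply, hΦC, ← PowerSeries.coeff_zero_eq_constantCoeff_apply, tauS_coeff,
          PowerSeries.coeff_zero_eq_constantCoeff_apply, const_tay]
      · rw [RingHom.comp_apply, hΦ, eval₂_X, hy0]
    rw [← h1, RingHom.comp_apply]
  have hud : iota F Δ (C Δ) * dlt F Δ = 1 := iota_dlt
  have hU0 : PowerSeries.constantCoeff (tauS F Δ D Δ) * dlt F Δ = 1 := by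
    rw [← hΦC, hc0, hud]
  have hUunit : IsUnit (tauS F Δ D Δ) := by
    rw [PowerSeries.isUnit_iff_constantCoeff]
    exact IsUnit.of_mul_eq_one _ hU0
  obtain ⟨V, hV⟩ := hUunit.exists_right_inv
  have hV0 : PowerSeries.constantCoeff V = dlt F Δ := by
    have h1 : PowerSeries.constantCoeff (tauS F Δ D Δ) * PowerSeries.constantCoeff V = 1 := by
      rw [← map_mul, hV, map_one]
    linear_combination dlt F Δ * h1 - PowerSeries.constantCoeff V * hU0
  set ω : ι → PowerSeries (BB F Δ) := fun i => Φ (H i) * V ^ k with hωdef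
  -- the connection
  have hω : ∀ i, PowerSeries.derivative (BB F Δ) (ω i) =
      ∑ l, tauS F Δ D (C (a i l)) * ω l + DS Dx (Φ (G i) * V ^ k) := by
    intro i
    have e1 : PowerSeries.derivative (BB F Δ) (ω i) = Φ (nt D F β Δ k (H i)) * V ^ (k + 1) :=
      quot (δ := PowerSeries.derivative (BB F Δ)) (fun x y => map_add _ x y)
        (fun x y => deriv_mul_gen x y) (D' := DX D) (tauS_deriv F Δ D) bez hΦF hV (H i) k
    have e2 : DS Dx (Φ (G i) * V ^ k) = Φ (nx F β Δ k (G i)) * V ^ (k + 1) :=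
      quot (δ := DS Dx) (DS_add Dx) (DS_mul Dx) (D' := dx R) (DS_tauS hDx) bez hΦF hV (G i) k
    obtain ⟨Q, hQ⟩ := gm i
    have e3 := congrArg Φ hQ
    rw [map_mul, hΦ F, hΦF, zero_mul, map_sub, map_sub, map_sum] at e3
    have e4 : ∀ l, Φ (C (C (a i l)) * (C Δ * H l)) * V ^ (k + 1) =
        tauS F Δ D (C (a i l)) * ω l := by
      intro l
      rw [map_mul, map_mul, hΦC, hΦC, hωdef]
      simp only
      linear_combination (tauS F Δ D (C (a i l)) * Φ (H l) * V ^ k) * hV
    rw [e1, e2, ← Finset.sum_congr rfl fun l _ => e4 l, ← Finset.sum_mul]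
    linear_combination V ^ (k + 1) * e3
  have hκ : ∀ (r : R) (n : ℕ), PowerSeries.coeff n (tauS F Δ D (C r)) =
      iota F Δ (C (C (PowerSeries.coeff n (tay D r)))) := fun r n => by
    rw [tauS_coeff, coeff_tay_C]
  have hκD : ∀ (r : R) (g : BB F Δ), iota F Δ (C (C r)) * Dx g = Dx (iota F Δ (C (C r)) * g) := by
    intro r g
    rw [Derivation.leibniz, hDx0, smul_zero, add_zero, smul_eq_mul]
  -- the iterates
  have claim : ∀ n i, ∃ g, PowerSeries.coeff n (ω i) =
      ∑ l, iota F Δ (C (C (PowerSeries.coeff n (B i l)))) * PowerSeries.coeff 0 (ω l) + Dx g := by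
    intro n
    induction n using Nat.strong_induction_on with
    | _ n ih =>
      intro i
      rcases n with _ | n
      · refine ⟨0, ?_⟩
        have h1 : ∀ l, iota F Δ (C (C (PowerSeries.coeff 0 (B i l)))) *
            PowerSeries.coeff 0 (ω l) = if i = l then PowerSeries.coeff 0 (ω l) else 0 := by
          intro l
          rw [PowerSeries.coeff_zero_eq_constantCoeff_apply, h0]
          split_ifs
          · rw [map_one, map_one, map_one, one_mul]
          · rw [map_zero, map_zero, map_zero, zero_mul]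
        rw [Finset.sum_congr rfl fun l _ => h1 l, Finset.sum_ite_eq, if_pos (Finset.mem_univ _),
          map_zero, add_zero]
      · choose! gg hgg using ih
        set g' : BB F Δ := ∑ l, ∑ x ∈ Finset.HasAntidiagonal.antidiagonal n,
          iota F Δ (C (C (PowerSeries.coeff x.1 (tay D (a i l))))) * gg x.2 l +
            PowerSeries.coeff n (Φ (G i) * V ^ k) with hg'
        have e1 : PowerSeries.coeff (n + 1) (ω i) * ((n : BB F Δ) + 1) =
            ∑ l, ∑ x ∈ Finset.HasAntidiagonal.antidiagonal n,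
              iota F Δ (C (C (PowerSeries.coeff x.1 (tay D (a i l))))) *
                PowerSeries.coeff x.2 (ω l) + Dx (PowerSeries.coeff n (Φ (G i) * V ^ k)) := by
          rw [← PowerSeries.coeff_derivative, hω, map_add, map_sum]
          congr 1
          · refine Finset.sum_congr rfl fun l _ => ?_
            rw [PowerSeries.coeff_mul]
            refine Finset.sum_congr rfl fun x _ => ?_
            rw [hκ]
          · simp only [DS, PowerSeries.coeff_mk]
        have e3 : ∀ j, ∑ l, ∑ x ∈ Finset.HasAntidiagonal.antidiagonal n,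
            PowerSeries.coeff x.1 (tay D (a i l)) * PowerSeries.coeff x.2 (B l j) =
            PowerSeries.coeff (n + 1) (B i j) * ((n : R) + 1) := by
          intro j
          rw [← PowerSeries.coeff_derivative, h, map_sum]
          refine Finset.sum_congr rfl fun l _ => ?_
          rw [PowerSeries.coeff_mul]
        have e2 := step_sum ((iota F Δ).comp ((C : R[X] →+* R[X][X]).comp (C : R →+* R[X])))
          Dx (fun x y => map_add Dx x y) hκD n (fun l q => PowerSeries.coeff q (tay D (a i l)))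
          (fun l j q => PowerSeries.coeff q (B l j)) (fun j => PowerSeries.coeff 0 (ω j))
          (fun l q => PowerSeries.coeff q (ω l)) gg (fun l q hq => hgg q (by omega) l)
        have e4 : PowerSeries.coeff (n + 1) (ω i) * ((n : BB F Δ) + 1) =
            (∑ j, iota F Δ (C (C (PowerSeries.coeff (n + 1) (B i j)))) *
              PowerSeries.coeff 0 (ω j)) * ((n : BB F Δ) + 1) + Dx g' := by
          rw [e1, hg', map_add, ← add_assoc]
          congr 1
          refine e2.trans ?_
          congr 1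
          rw [Finset.sum_mul]
          refine Finset.sum_congr rfl fun j _ => ?_
          rw [e3 j, RingHom.comp_apply, RingHom.comp_apply]
          simp only [map_mul, map_add, map_natCast, map_one]
          ring
        refine ⟨(((n : ℚ) + 1)⁻¹) • g', nat_cancel n ?_⟩
        rw [e4, add_mul, Derivation.map_smul]
        congr 1
        have h1 : ((n : BB F Δ) + 1) = algebraMap ℚ (BB F Δ) ((n : ℚ) + 1) := by simp
        have h2 : ((n : ℚ) + 1) ≠ 0 := by positivity
        rw [h1, mul_comm, ← Algebra.smul_def, smul_smul, mul_inv_cancel₀ h2, one_smul]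
  -- growth
  have hUg := tauS_growth S F Δ hΔe
  obtain ⟨cU, hcU⟩ := hUg
  have hd1 : dlt F Δ ∈ (FB ⟨S.I, S.mono, S.one, S.mul⟩ F Δ).I 1 := by
    have := FB_dlt (S := ⟨S.I, S.mono, S.one, S.mul⟩) (F := F) (Δ := Δ) 1
    rwa [pow_one] at this
  have hVg := hcU.inv hV hd1 hU0
  have hyg : Gr (FB ⟨S.I, S.mono, S.one, S.mul⟩ F Δ) (cy + 1) yh := fun n =>
    MFilt.mono _ (by nlinarith) (hcy n)
  have hωg : ∀ i, ∃ c, Gr (FB ⟨S.I, S.mono, S.one, S.mul⟩ F Δ) c (ω i) := by
    intro i
    have h1 : ∃ c, Gr (FB ⟨S.I, S.mono, S.one, S.mul⟩ F Δ) c (Φ (H i)) := by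
      rw [hΦ, eval₂_eq_sum_range]
      refine Gr.sum _ fun l _ => ?_
      obtain ⟨c1, hc1⟩ := tauS_growth S F Δ (hHe i l)
      exact ⟨_, hc1.mul (hyg.pow l)⟩
    obtain ⟨c1, hc1⟩ := h1
    exact ⟨_, hc1.mul (hVg.pow k)⟩
  choose ci hci using hωg
  obtain ⟨c0, hc0'⟩ := FB_struct (S := ⟨S.I, S.mono, S.one, S.mul⟩) hF hm hm1 hFe hΔe
  refine ⟨Finset.univ.sup ci, c0 * (Finset.univ.sup ci + 1), fun n i => ?_⟩
  set c := Finset.univ.sup ci with hc
  obtain ⟨P, hP, hPeq⟩ := hc0' (c * (n + 1)) (PowerSeries.coeff n (ω i))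
    (((hci i).mono (Finset.le_sup (Finset.mem_univ i))) n)
  have hle : c0 * (c * (n + 1) + 1) ≤ c0 * (c + 1) * (n + 1) := by
    rw [mul_assoc]
    exact Nat.mul_le_mul_left _ (by nlinarith)
  refine ⟨P, Bd_mono hP hle hle, ?_⟩
  rw [exact_iff hF hm hm1 hΔ hDx]
  obtain ⟨g, hg⟩ := claim n i
  refine ⟨g, ?_⟩
  have hω0 : ∀ l, PowerSeries.coeff 0 (ω l) = iota F Δ (H l) * dlt F Δ ^ k := by
    intro l
    rw [PowerSeries.coeff_zero_eq_constantCoeff_apply]
    change PowerSeries.constantCoeff (Φ (H l) * V ^ k) = _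
    rw [map_mul, map_pow, hc0, hV0]
  have hupow : ∀ j : ℕ, iota F Δ (C Δ) ^ j * dlt F Δ ^ j = 1 := by
    intro j
    rw [← mul_pow, hud, one_pow]
  have hfin : PowerSeries.coeff n (ω i) = iota F Δ P * dlt F Δ ^ (c * (n + 1)) := hPeq
  have h1 : ∑ l, iota F Δ (C (C (PowerSeries.coeff n (B i l)))) * PowerSeries.coeff 0 (ω l) =
      (∑ l, iota F Δ (C (C (PowerSeries.coeff n (B i l)))) * iota F Δ (H l)) * dlt F Δ ^ k := by
    rw [Finset.sum_mul]
    refine Finset.sum_congr rfl fun l _ => ?_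
    rw [hω0, mul_assoc]
  rw [h1, hfin] at hg
  have h2 : iota F Δ (C Δ ^ k * P - C Δ ^ (c * (n + 1)) *
      ∑ l, C (C (PowerSeries.coeff n (B i l))) * H l) =
      iota F Δ (C Δ) ^ k * iota F Δ P - iota F Δ (C Δ) ^ (c * (n + 1)) *
      ∑ l, iota F Δ (C (C (PowerSeries.coeff n (B i l)))) * iota F Δ (H l) := by
    rw [map_sub, map_mul, map_mul, map_pow, map_pow, map_sum]
    simp only [map_mul]
  rw [h2, pow_add]
  linear_combination hg + (iota F Δ P * dlt F Δ ^ (c * (n + 1))) * hupow k -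
    ((∑ l, iota F Δ (C (C (PowerSeries.coeff n (B i l)))) * iota F Δ (H l)) * dlt F Δ ^ k) *
      hupow (c * (n + 1))

end Pool.Agent.Helper79.CU
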