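import Pool.Agent.Helper79.CU.PlEv

/-!
# CU-10: an element with bounded poles at all places

`R` is a domain of characteristic `0`.
* finite place `i`: `ld x₀ = e z^(e-1)` (`ld_xfin`), so `hb` says that `ev a b` has no coefficients of index `< -K - e + 1`. For `l < m`, by `place_coord`, `evL x₀ (P_l) = ∑_a Yi l a * ev a (iota P) =
  (evL x₀ Δ)^M ∑_a Yi l a * ev a (iota P dlt^M)` has no coefficients of index `< e n_i M - s - K - e + 1` (`(X - ρ_i)^(n_i) ∣ Δ`, `evL x₀ (X - ρ_i) = z^e`). If `P_l = (X - ρ_i)^j Q`, `Q(ρ_i) ≠ 0`, then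
  `evL x₀ P_l` has the order `e j`; so `j ≥ n_i (M - (K + s + e))` and `(X - C ρ_i)^(n_i (M - N₀)) ∣ P_l`, `N₀ = K + s + e` (or `P_l = 0`).
* the polynomials `(X - C ρ_i)^…` are pairwise coprime (unit differences), so `Δ^(M - N₀) ∣ P_l` (`Finset.prod_dvd_of_coprime`).
* infinity: `ld x₀ = -e z^(-e-1)`, `ev a b` has no coefficients of index `< -K`; `evL (xinf R e) P_l` has the order `-e deg P_l`, `evL (xinf R e) Δ` the order `-e d`, `d = deg Δ`; so
  `e deg P_l ≤ e d M + s + K`, hence `deg P_l ≤ d M + s + K` and the quotient has degree at most `d N₀ + s + K`.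
-/

open Polynomial

namespace Pool.Agent.Helper79.CU

open Pool.Agent.Helper79.SE

private def Og {R : Type} [CommRing R] (k : ℤ) (f : LaurentSeries R) : Prop :=
  ∀ n < k, f.coeff n = 0

section og

variable {R : Type} [CommRing R] {k l : ℤ} {f g : LaurentSeries R}

private theorem Og_mono (h : l ≤ k) (hf : Og k f) : Og l f := fun n hn => hf n (hn.trans_le h)

private theorem Og_mul (hf : Og k f) (hg : Og l g) : Og (k + l) (f * g) := by
  intro n hn
  rw [HahnSeries.coeff_mul]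
  refine Finset.sum_eq_zero fun ij hij => ?_
  have h3 := (Finset.mem_addAntidiagonal.1 hij).2.2
  by_cases h1 : ij.1 < k
  · rw [hf _ h1, zero_mul]
  · have h2 : ij.2 < l := by omega
    rw [hg _ h2, mul_zero]

private theorem Og_add (hf : Og k f) (hg : Og k g) : Og k (f + g) := by
  intro n hn
  rw [HahnSeries.coeff_add, hf n hn, hg n hn, add_zero]

private theorem Og_sum {ι : Type} (T : Finset ι) (F : ι → LaurentSeries R)
    (h : ∀ i ∈ T, Og k (F i)) : Og k (∑ i ∈ T, F i) := by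
  intro n hn
  rw [HahnSeries.coeff_sum]
  exact Finset.sum_eq_zero fun i hi => h i hi n hn

private theorem Og_single (r : R) : Og k (HahnSeries.single k r) := by
  intro n hn
  exact HahnSeries.coeff_single_of_ne hn.ne

private theorem Og_C (r : R) : Og 0 (HahnSeries.C r : LaurentSeries R) := by
  intro n hn
  exact HahnSeries.coeff_single_of_ne hn.ne

private theorem Og_pow (hf : Og k f) (t : ℕ) : Og ((t : ℤ) * k) (f ^ t) := by
  induction t with
  | zero =>
    rw [pow_zero, Nat.cast_zero, zero_mul]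
    exact Og_C 1
  | succ t ih =>
    rw [pow_succ, Nat.cast_succ, add_mul, one_mul]
    exact Og_mul ih hf

private theorem Og_xfin {e : ℕ} (ρ : R) : Og 0 (xfin e ρ) := by
  unfold xfin
  refine Og_add (Og_C _) (Og_mono ?_ (Og_single (k := (e : ℤ)) 1))
  exact Int.natCast_nonneg e

private theorem Og_evL_fin {e : ℕ} (ρ : R) (q : R[X]) : Og 0 (evL (xfin e ρ) q) := by
  induction q using Polynomial.induction_on' with
  | add p q hp hq =>
    rw [map_add]
    exact Og_add hp hq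
  | monomial n a =>
    rw [← C_mul_X_pow_eq_monomial, map_mul, map_pow, evL_C, evL_X]
    have h := Og_mul (Og_C a) (Og_pow (Og_xfin (e := e) ρ) n)
    rw [mul_zero, add_zero] at h
    exact h

private theorem evL_lin {e : ℕ} (ρ : R) :
    evL (xfin e ρ) (X - C ρ) = HahnSeries.single (e : ℤ) 1 := by
  rw [map_sub, evL_X, evL_C]
  unfold xfin
  rw [add_sub_cancel_left]

private theorem coeff_zero_fin {e : ℕ} (he : 1 ≤ e) (ρ : R) (q : R[X]) :
    (evL (xfin e ρ) q).coeff 0 = q.eval ρ := by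
  obtain ⟨q', hq'⟩ := X_sub_C_dvd_sub_C_eval (a := ρ) (p := q)
  have h1 : q = C (q.eval ρ) + (X - C ρ) * q' := by rw [← hq', add_sub_cancel]
  have h2 : (evL (xfin e ρ) q) = HahnSeries.C (q.eval ρ) +
      HahnSeries.single (e : ℤ) 1 * evL (xfin e ρ) q' := by
    conv_lhs => rw [h1]
    rw [map_add, map_mul, evL_C, evL_lin]
  have h3 := Og_mul (Og_single (k := (e : ℤ)) (1 : R)) (Og_evL_fin (e := e) ρ q') 0 (by omega)
  rw [h2, HahnSeries.coeff_add, h3, add_zero]
  exact HahnSeries.coeff_single_same _ _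

private theorem fin_dvd {e : ℕ} (he : 1 ≤ e) (ρ : R) (p : R[X]) (t : ℕ)
    (h : Og k (evL (xfin e ρ) p)) (hk : (e : ℤ) * t ≤ k) : (X - C ρ) ^ t ∣ p := by
  by_cases hp : p = 0
  · rw [hp]
    exact dvd_zero _
  obtain ⟨q, hq, hq'⟩ := p.exists_eq_pow_rootMultiplicity_mul_and_not_dvd hp ρ
  set j := p.rootMultiplicity ρ with hj
  have h1 : evL (xfin e ρ) p = HahnSeries.single (j • (e : ℤ)) 1 * evL (xfin e ρ) q := by
    conv_lhs => rw [hq]
    rw [map_mul, map_pow, evL_lin, HahnSeries.single_pow, one_pow]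
  have h2 : (evL (xfin e ρ) p).coeff (0 + j • (e : ℤ)) = q.eval ρ := by
    rw [h1, HahnSeries.coeff_single_mul_add, one_mul, coeff_zero_fin he]
  have h3 : q.eval ρ ≠ 0 := fun h0 => hq' (dvd_iff_isRoot.2 h0)
  have h4 : k ≤ (j : ℤ) * e := by
    by_contra hcon
    push Not at hcon
    apply h3
    rw [← h2]
    refine h _ ?_
    rw [zero_add, nsmul_eq_mul]
    exact hcon
  have h5 : t ≤ j := by
    have h6 : (e : ℤ) * t ≤ e * j := by
      rw [mul_comm (e : ℤ) j]
      exact hk.trans h4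
    have h7 : (0 : ℤ) < e := by exact_mod_cast he
    exact_mod_cast le_of_mul_le_mul_left h6 h7
  rw [hq]
  exact (pow_dvd_pow _ h5).mul_right _

private theorem evL_inf {e : ℕ} (p : R[X]) : evL (xinf R e) p =
    ∑ j ∈ Finset.range (p.natDegree + 1), HahnSeries.single (-((e : ℤ) * j)) (p.coeff j) := by
  unfold evL
  rw [coe_eval₂RingHom, eval₂_eq_sum_range]
  refine Finset.sum_congr rfl fun j _ => ?_
  unfold xinf
  rw [HahnSeries.single_pow, one_pow, HahnSeries.C_apply, HahnSeries.single_mul_single, mul_one,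
    zero_add, nsmul_eq_mul]
  congr 1
  ring

private theorem Og_evL_inf {e : ℕ} (p : R[X]) : Og (-((e : ℤ) * p.natDegree)) (evL (xinf R e) p) := by
  rw [evL_inf]
  refine Og_sum _ _ fun j hj => ?_
  rw [Finset.mem_range] at hj
  refine Og_mono ?_ (Og_single _)
  have h1 : (e : ℤ) * j ≤ e * p.natDegree :=
    mul_le_mul_of_nonneg_left (by exact_mod_cast Nat.lt_succ_iff.1 hj) (Int.natCast_nonneg e)
  omega

private theorem inf_deg {e : ℕ} (he : 1 ≤ e) (p : R[X]) (hp : p ≠ 0)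
    (h : Og k (evL (xinf R e) p)) : k ≤ -((e : ℤ) * p.natDegree) := by
  by_contra hcon
  push Not at hcon
  have h1 := h _ hcon
  rw [evL_inf, HahnSeries.coeff_sum, Finset.sum_eq_single p.natDegree] at h1
  · rw [HahnSeries.coeff_single_same] at h1
    exact hp (leadingCoeff_eq_zero.1 h1)
  · intro j _ hj
    refine HahnSeries.coeff_single_of_ne ?_
    intro h2
    apply hj
    have h3 : (e : ℤ) * p.natDegree = e * j := by omega
    have h4 : (e : ℤ) ≠ 0 := by
      have : (0 : ℤ) < e := by exact_mod_cast he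
      exact this.ne'
    exact_mod_cast (mul_left_cancel₀ h4 h3).symm
  · intro h2
    exact absurd (Finset.mem_range.2 (Nat.lt_succ_self _)) h2

/-- the common part of the local estimates -/
private theorem local_est {S : MFilt R} {F : R[X][X]} {Δ : R[X]} {m E s : ℕ} {ζ : Rˣ}
    {x₀ : LaurentSeries R} {y : Fin m → LaurentSeries R}
    {Yi : Matrix (Fin m) (Fin m) (LaurentSeries R)} {δ : LaurentSeries R}
    (h : Place S F Δ m E s ζ x₀ y Yi δ) {ev : Fin m → (BB F Δ →+* LaurentSeries R)}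
    (hev : ∀ a P, ev a (iota F Δ P) = (P.map (evL x₀)).eval (y a))
    (hev' : ∀ a, ev a (dlt F Δ) = δ) {P : R[X][X]} (hP : P.natDegree < m) {M : ℕ} {u v : ℤ}
    (hu : ∀ a, Og u (ev a (iota F Δ P * dlt F Δ ^ M))) (hv : Og v (evL x₀ Δ)) (l : Fin m) :
    Og (-(s : ℤ) + (u + M * v)) (evL x₀ (P.coeff l)) := by
  rw [place_coord h hev hP l]
  refine Og_sum _ _ fun a _ => Og_mul (fun n hn => ((h.hYi l a) n).1 hn) ?_
  have h1 : ev a (iota F Δ P) = ev a (iota F Δ P * dlt F Δ ^ M) * (evL x₀ Δ) ^ M := by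
    rw [map_mul, map_pow, hev', mul_assoc, ← mul_pow, mul_comm δ, h.inv', one_pow, mul_one]
  rw [h1]
  exact Og_mul (hu a) (Og_pow hv M)

end og

theorem desc {R : Type} [CommRing R] [IsDomain R] [Algebra ℚ R] {S : MFilt R}
    {F : R[X][X]} {Δ : R[X]} {m e E s : ℕ} (hF : F.Monic)
    (hm : F.natDegree = m) (hm1 : 1 ≤ m) {ζ : Rˣ} (he : 1 ≤ e) {r : ℕ} {ρ : Fin r → R}
    {nu : Fin r → ℕ} (hnu : ∀ i, 1 ≤ nu i) {δ₀ : Rˣ}
    (hΔ : Δ = C (δ₀ : R) * ∏ i, (X - C (ρ i)) ^ nu i)
    (hρ : ∀ i j, i ≠ j → IsUnit (ρ i - ρ j))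
    {y : Fin r → Fin m → LaurentSeries R}
    {Yi : Fin r → Matrix (Fin m) (Fin m) (LaurentSeries R)} {δ : Fin r → LaurentSeries R}
    (hp : ∀ i, Place S F Δ m E s ζ (xfin e (ρ i)) (y i) (Yi i) (δ i))
    {y' : Fin m → LaurentSeries R} {Yi' : Matrix (Fin m) (Fin m) (LaurentSeries R)}
    {δ' : LaurentSeries R} (hp' : Place S F Δ m E s ζ (xinf R e) y' Yi' δ')
    {ev : Fin r → Fin m → (BB F Δ →+* LaurentSeries R)}
    (hev : ∀ i a P, ev i a (iota F Δ P) = (P.map (evL (xfin e (ρ i)))).eval (y i a))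
    (hev' : ∀ i a, ev i a (dlt F Δ) = δ i) {ev' : Fin m → (BB F Δ →+* LaurentSeries R)}
    (he' : ∀ a P, ev' a (iota F Δ P) = (P.map (evL (xinf R e))).eval (y' a))
    (he'' : ∀ a, ev' a (dlt F Δ) = δ') {K M : ℕ} {P : R[X][X]} (hP : P.natDegree < m)
    (hb : ∀ i a (n : ℤ), n < -(K : ℤ) →
      (ev i a (iota F Δ P * dlt F Δ ^ M) * ld (xfin e (ρ i))).coeff n = 0)
    (hb' : ∀ a (n : ℤ), n < -(K : ℤ) →
      (ev' a (iota F Δ P * dlt F Δ ^ M) * ld (xinf R e)).coeff n = 0)
    (hM : K + s + e ≤ M) :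
    ∃ P₀ : R[X][X], P₀.natDegree < m ∧
      (∀ l, (P₀.coeff l).natDegree ≤ Δ.natDegree * (K + s + e) + s + K) ∧
      P = C Δ ^ (M - (K + s + e)) * P₀ := by
  have hchar : CharZero R := algebraRat.charZero R
  have he0 : (e : R) ≠ 0 := Nat.cast_ne_zero.2 (by omega)
  have heZ : (0 : ℤ) < e := by exact_mod_cast he
  obtain ⟨k, hk⟩ : ∃ k, M = (K + s + e) + k := ⟨M - (K + s + e), by omega⟩
  have hk' : M - (K + s + e) = k := by omega
  rw [hk']
  have hprod : (∏ i, (X - C (ρ i)) ^ nu i).Monic :=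
    monic_prod_of_monic _ _ fun i _ => (monic_X_sub_C _).pow _
  have hΔ0 : Δ ≠ 0 := by
    rw [hΔ]
    exact mul_ne_zero (C_ne_zero.2 δ₀.ne_zero) hprod.ne_zero
  -- divisibility
  have hdvd : ∀ l, Δ ^ k ∣ P.coeff l := by
    intro l
    by_cases hl : l < m
    swap
    · rw [coeff_eq_zero_of_natDegree_lt (by omega)]
      exact dvd_zero _
    have h1 : ∀ i, (X - C (ρ i)) ^ (nu i * k) ∣ P.coeff l := by
      intro i
      have hu : ∀ a, Og (-(K : ℤ) - e + 1) (ev i a (iota F Δ P * dlt F Δ ^ M)) := by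
        intro a n hn
        have h2 := hb i a (n + ((e : ℤ) - 1)) (by omega)
        rw [ld_xfin, HahnSeries.coeff_mul_single_add] at h2
        exact (mul_eq_zero.1 h2).resolve_right he0
      have hv : Og ((nu i : ℤ) * e) (evL (xfin e (ρ i)) Δ) := by
        obtain ⟨Q, hQ⟩ : (X - C (ρ i)) ^ nu i ∣ Δ := by
          rw [hΔ]
          exact (Finset.dvd_prod_of_mem (fun i => (X - C (ρ i)) ^ nu i)
            (Finset.mem_univ i)).mul_left _
        rw [hQ, map_mul, map_pow, evL_lin]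
        have h2 := Og_mul (Og_pow (Og_single (k := (e : ℤ)) (1 : R)) (nu i))
          (Og_evL_fin (e := e) (ρ i) Q)
        rw [add_zero] at h2
        exact h2
      have h3 := local_est (hp i) (hev i) (hev' i) hP hu hv ⟨l, hl⟩
      refine fin_dvd he (ρ i) _ _ h3 ?_
      have h4 : (1 : ℤ) ≤ (nu i : ℤ) * e := by
        have h5 : (1 : ℤ) ≤ nu i := by exact_mod_cast hnu i
        nlinarith
      have h6 : (0 : ℤ) ≤ ((nu i : ℤ) * e - 1) * (K + s + e) :=
        mul_nonneg (by linarith) (by positivity)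
      rw [hk]
      push_cast
      nlinarith
    have h2 : ∏ i, (X - C (ρ i)) ^ (nu i * k) ∣ P.coeff l :=
      Finset.prod_dvd_of_coprime (fun i _ j _ hij =>
        (isCoprime_X_sub_C_of_isUnit_sub (hρ i j hij)).pow) (fun i _ => h1 i)
    have h3 : Δ ^ k = C (((δ₀ ^ k : Rˣ) : R)) * ∏ i, (X - C (ρ i)) ^ (nu i * k) := by
      rw [hΔ, mul_pow, ← Finset.prod_pow, Units.val_pow_eq_pow_val, C_pow]
      congr 1
      exact Finset.prod_congr rfl fun i _ => (pow_mul _ _ _).symm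
    rw [h3]
    exact ((isUnit_C.2 (δ₀ ^ k).isUnit).mul_left_dvd).2 h2
  -- degrees
  have hdeg : ∀ l, P.coeff l ≠ 0 → (P.coeff l).natDegree ≤ Δ.natDegree * M + s + K := by
    intro l hl0
    have hl : l < m := by
      by_contra hcon
      exact hl0 (coeff_eq_zero_of_natDegree_lt (by omega))
    have hu : ∀ a, Og (-(K : ℤ)) (ev' a (iota F Δ P * dlt F Δ ^ M)) := by
      intro a n hn
      have h2 := hb' a (n + (-(e : ℤ) - 1)) (by omega)
      rw [ld_xinf, HahnSeries.coeff_mul_single_add] at h2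
      exact (mul_eq_zero.1 h2).resolve_right (neg_ne_zero.2 he0)
    have h3 := local_est hp' he' he'' hP hu (Og_evL_inf (e := e) Δ) ⟨l, hl⟩
    have h4 := inf_deg he _ hl0 h3
    have h5 : (e : ℤ) * (P.coeff l).natDegree ≤ s + K + M * (e * Δ.natDegree) := by
      linarith
    have h6 : (e : ℤ) * (P.coeff l).natDegree ≤ e * (Δ.natDegree * M + s + K) := by
      have h7 : (0 : ℤ) ≤ ((e : ℤ) - 1) * (s + K) := mul_nonneg (by linarith) (by positivity)
      nlinarith
    exact_mod_cast le_of_mul_le_mul_left h6 heZ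
  obtain ⟨P₀, hP₀⟩ : C (Δ ^ k) ∣ P := (C_dvd_iff_dvd_coeff _ _).2 hdvd
  have hΔk : Δ ^ k ≠ 0 := pow_ne_zero _ hΔ0
  refine ⟨P₀, ?_, fun l => ?_, ?_⟩
  · rw [hP₀, natDegree_C_mul hΔk] at hP
    exact hP
  · by_cases hl : P₀.coeff l = 0
    · rw [hl, natDegree_zero]
      exact Nat.zero_le _
    · have h1 : P.coeff l = Δ ^ k * P₀.coeff l := by rw [hP₀, coeff_C_mul]
      have h2 : P.coeff l ≠ 0 := by
        rw [h1]
        exact mul_ne_zero hΔk hl
      have h3 := hdeg l h2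
      rw [h1, natDegree_mul hΔk hl, natDegree_pow, hk] at h3
      have h4 : Δ.natDegree * (K + s + e + k) = Δ.natDegree * (K + s + e) + k * Δ.natDegree := by
        ring
      omega
  · rw [← C_pow]
    exact hP₀

end Pool.Agent.Helper79.CU
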