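import Pool.Agent.Helper79.CU.Fil

/-!
# CU-11: coefficients of an exact quotient

Reversed polynomials as power series: with `d = natDegree Δ`, `ρ = reverse Δ` (constant coefficient `δ₀`, the leading coefficient of `Δ`), `h₀` of degree at most `J`: `reflect (K d + J) (Δ^K h₀) = ρ^K reflect J h₀`. The power series `θ = ρ⁻¹`
has `θ_i ∈ S.I (2 e (i + 1))` (recursion `δ₀ θ_i = - ∑_{1 ≤ j ≤ i} ρ_j θ_(i-j)`, or geometric series), so the coefficient `i ≤ J` of `θ^K` is in `S.I (2 e (i + K))`, and the coefficient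
`j` of `h₀` is the coefficient `J - j` of `reflect (K d + J) (Δ^K h₀) * θ^K`. (Or induction on `K` for the top `J + 1` coefficients.)
-/

open Polynomial

namespace Pool.Agent.Helper79.CU

theorem MFilt.pow_mem {R : Type} [CommRing R] (S : MFilt R) {e : ℕ} {x : R} (hx : x ∈ S.I e)
    (K : ℕ) : x ^ K ∈ S.I (K * e) := by
  induction K with
  | zero => simpa using S.one
  | succ K ih =>
    rw [pow_succ, Nat.succ_mul]
    exact S.mul ih hx

theorem MFilt.coeff_pow_mem {R : Type} [CommRing R] (S : MFilt R) {e : ℕ} {Δ : R[X]}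
    (hΔe : ∀ j, Δ.coeff j ∈ S.I e) (K j : ℕ) : (Δ ^ K).coeff j ∈ S.I (K * e) := by
  induction K generalizing j with
  | zero =>
    rw [pow_zero, Polynomial.coeff_one, Nat.zero_mul]
    split_ifs
    · exact S.one
    · exact (S.I 0).zero_mem
  | succ K ih =>
    rw [pow_succ, Polynomial.coeff_mul, Nat.succ_mul]
    exact sum_mem fun x _ => S.mul (ih x.1) (hΔe x.2)

theorem quot_bound {R : Type} [CommRing R] {S : MFilt R} {Δ : R[X]} {δ₀ : Rˣ}
    (hδ : Δ.leadingCoeff = δ₀) {e : ℕ} (hΔe : ∀ j, Δ.coeff j ∈ S.I e)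
    (hδe : ((δ₀⁻¹ : Rˣ) : R) ∈ S.I e) (J : ℕ) :
    ∃ c : ℕ, ∀ (K N : ℕ) (h₀ : R[X]), h₀.natDegree ≤ J → (∀ j, (Δ ^ K * h₀).coeff j ∈ S.I N) →
      ∀ j, h₀.coeff j ∈ S.I (N + c * (K + 1)) := by
  refine ⟨2 * e * (J + 1), fun K N h₀ hJ hN => ?_⟩
  have key : ∀ t : ℕ, ∀ j : ℕ, J < j + t → h₀.coeff j ∈ S.I (N + 2 * e * K * t) := by
    intro t
    induction t with
    | zero =>
      intro j hj
      rw [Polynomial.coeff_eq_zero_of_natDegree_lt (by omega)]
      exact AddSubgroup.zero_mem _
    | succ t ih =>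
      intro j hj
      have e1 : (Δ ^ K * h₀).coeff (K * Δ.natDegree + j) =
          (δ₀ : R) ^ K * h₀.coeff j +
            ∑ x ∈ (Finset.HasAntidiagonal.antidiagonal (K * Δ.natDegree + j)).erase (K * Δ.natDegree, j),
              (Δ ^ K).coeff x.1 * h₀.coeff x.2 := by
        rw [Polynomial.coeff_mul, ← Finset.add_sum_erase (Finset.HasAntidiagonal.antidiagonal _)
          (fun x : ℕ × ℕ => (Δ ^ K).coeff x.1 * h₀.coeff x.2)
          (a := (K * Δ.natDegree, j)) (by simp), Polynomial.coeff_pow_mul_natDegree, hδ]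
      have e2 : ∑ x ∈ (Finset.HasAntidiagonal.antidiagonal (K * Δ.natDegree + j)).erase (K * Δ.natDegree, j),
              (Δ ^ K).coeff x.1 * h₀.coeff x.2 ∈ S.I (K * e + (N + 2 * e * K * t)) := by
        refine sum_mem fun x hx => ?_
        rw [Finset.mem_erase, Finset.HasAntidiagonal.mem_antidiagonal] at hx
        rcases lt_trichotomy x.2 j with h | h | h
        · have h1 : (Δ ^ K).coeff x.1 = 0 := by
            refine Polynomial.coeff_eq_zero_of_natDegree_lt ?_
            have h2 := Polynomial.natDegree_pow_le (p := Δ) (n := K)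
            omega
          rw [h1, zero_mul]
          exact AddSubgroup.zero_mem _
        · exfalso
          refine hx.1 (Prod.ext ?_ h)
          have := hx.2
          simp only
          omega
        · exact S.mul (S.coeff_pow_mem hΔe K x.1) (ih x.2 (by omega))
      have e3 : (Δ ^ K * h₀).coeff (K * Δ.natDegree + j) ∈ S.I (K * e + (N + 2 * e * K * t)) :=
        S.mono (by
          have : 0 ≤ K * e + 2 * e * K * t := Nat.zero_le _
          omega) (hN _)
      have e4 : (δ₀ : R) ^ K * h₀.coeff j ∈ S.I (K * e + (N + 2 * e * K * t)) := by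
        have := sub_mem e3 e2
        rw [e1, add_sub_cancel_right] at this
        exact this
      have e5 := S.mul (S.pow_mem hδe K) e4
      rw [← mul_assoc, ← mul_pow, Units.inv_mul, one_pow, one_mul] at e5
      refine S.mono (le_of_eq ?_) e5
      ring
  intro j
  refine S.mono ?_ (key (J + 1) j (by omega))
  have : 2 * e * K * (J + 1) ≤ 2 * e * (J + 1) * (K + 1) := by
    nlinarith [Nat.zero_le (2 * e * (J + 1))]
  omega

end Pool.Agent.Helper79.CU
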