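import Pool.Agent.Helper79.CU.Step
import Pool.Agent.Helper79.CU.Desc
import Pool.Agent.Helper79.CU.Quot

/-!
# CU-12: reduction of forms with geometric denominators

Let `K = m s + 1`, `N₀ = K + s + e`, `J₀ = deg Δ * N₀ + s + K`. `Dx` from `exists_Dx`, `ev i`, `ev'` from `exists_ev`. Elements with the value `z^(-e)` at a place: at the finite place `i`
`W_i = iota (C Δ_i) * dlt`, `Δ_i = δ₀ (X - ρ_i)^(n_i - 1) ∏_{j ≠ i} (X - ρ_j)^(n_j)` (`(X - ρ_i) Δ_i = Δ`); at infinity `W' = iota (C X)`. They are in a fixed step of `FB` (`ρ_i, δ₀ ∈ S.I e₁`).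
For `N` and `b = iota P * dlt^M`, `M ≤ N`, `Bd S m N N P`, we have `b ∈ FB.I (3 N + m)`. Apply `step` at all places with `3 N + m`: `q_i`, `p_i`, `g_i = ∑_l atW W_i (p_i,l) y^l ∈ FB.I (c (N + 1))`.
Let `q` be the product of all `q_i` (and `q'`), `g = ∑_i (q / q_i) g_i` (including infinity), `b' = q b - Dx g ∈ FB.I (c (N + 1))` (`FB_Dx`).
At the place `i`: `ev i a b' * ld x₀ = (q / q_i) ev (q_i b - Dx g_i) ld x₀ - ∑_{j ≠ i} (q / q_j) ld (ev i a g_j)` (`place_ld`). The first term has no coefficients of index `< -K`; `ev i a (W_j)` has no pole for `j ≠ i`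
(`W_j (x - ρ_j) = 1`, and `evL x₀ (X - ρ_j) = (ρ_i - ρ_j) + z^e` has an inverse power series; `ev i a (x) = ρ_i + z^e`; at infinity `W_j` is the inverse of `z^(-e) - ρ_j`, which is `z^e` times an invertible power series), so
`ev i a (g_j)` has a pole of order at most `(m - 1) s` and its derivative at most `m s + 1`.
`FB_struct`: `b' = iota P' dlt^(M')`, `M' = c (N + 1) ≥ N₀` (enlarge `c`). `desc`: `P' = C Δ^(M' - N₀) * P₀`, `b' = iota P₀ dlt^N₀`; `quot_bound` (for every coefficient in `y`) bounds the coefficients of `P₀`.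
Finally `q (iota P) dlt^M - iota P₀ dlt^N₀ = Dx g`, use `exact_iff`.
-/

open Polynomial

namespace Pool.Agent.Helper79.CU

open Pool.Agent.Helper79.SE

/-! ### Laurent series without coefficients of small index -/

private def Rg {R : Type} [CommRing R] (k : ℤ) (f : LaurentSeries R) : Prop :=
  ∀ n < k, f.coeff n = 0

section rg

variable {R : Type} [CommRing R] {k l : ℤ} {f g : LaurentSeries R}

private theorem Rg_mono (h : l ≤ k) (hf : Rg k f) : Rg l f := fun n hn => hf n (hn.trans_le h)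

private theorem Rg_mul (hf : Rg k f) (hg : Rg l g) : Rg (k + l) (f * g) := by
  intro n hn
  rw [HahnSeries.coeff_mul]
  refine Finset.sum_eq_zero fun ij hij => ?_
  have h3 := (Finset.mem_antidiagonal.1 hij).2.2
  by_cases h1 : ij.1 < k
  · rw [hf _ h1, zero_mul]
  · have h2 : ij.2 < l := by omega
    rw [hg _ h2, mul_zero]

private theorem Rg_add (hf : Rg k f) (hg : Rg k g) : Rg k (f + g) := by
  intro n hn
  rw [HahnSeries.coeff_add, hf n hn, hg n hn, add_zero]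

private theorem Rg_sub (hf : Rg k f) (hg : Rg k g) : Rg k (f - g) := by
  intro n hn
  rw [HahnSeries.coeff_sub, hf n hn, hg n hn, sub_zero]

private theorem Rg_sum {ι : Type} (T : Finset ι) (F : ι → LaurentSeries R)
    (h : ∀ i ∈ T, Rg k (F i)) : Rg k (∑ i ∈ T, F i) := by
  intro n hn
  rw [HahnSeries.coeff_sum]
  exact Finset.sum_eq_zero fun i hi => h i hi n hn

private theorem Rg_C (r : R) : Rg 0 (HahnSeries.C r : LaurentSeries R) := by
  intro n hn
  exact HahnSeries.coeff_single_of_ne hn.ne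

private theorem Rg_nat (t : ℕ) : Rg 0 ((t : ℕ) : LaurentSeries R) := by
  have h := Rg_C (t : R)
  rwa [map_natCast] at h

private theorem Rg_pow (hf : Rg k f) (t : ℕ) : Rg ((t : ℤ) * k) (f ^ t) := by
  induction t with
  | zero =>
    rw [pow_zero, Nat.cast_zero, zero_mul]
    exact Rg_C 1
  | succ t ih =>
    rw [pow_succ, Nat.cast_succ, add_mul, one_mul]
    exact Rg_mul ih hf

private theorem Rg_ld (hf : Rg k f) : Rg (k - 1) (ld f) := by
  intro n hn
  rw [coeff_ld, hf _ (by omega), mul_zero]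

private theorem Rg_nat_mul (hf : Rg k f) (t : ℕ) : Rg k ((t : LaurentSeries R) * f) := by
  have h := Rg_mul (Rg_nat t) hf
  rwa [zero_add] at h

private theorem Rg_inv [IsDomain R] (h : f * g = 1) (hk : k ≤ 0) (hg : g.coeff k ≠ 0) :
    Rg 0 f := by
  have hf0 : f ≠ 0 := left_ne_zero_of_mul_eq_one h
  have hg0 : g ≠ 0 := right_ne_zero_of_mul_eq_one h
  have h1 := HahnSeries.order_mul hf0 hg0
  rw [h, HahnSeries.order_one] at h1
  have h2 := HahnSeries.order_le_of_coeff_ne_zero hg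
  intro n hn
  exact HahnSeries.coeff_eq_zero_of_lt_order (by omega)

end rg

/-! ### The correction at all places -/

section glue

variable {R : Type} [CommRing R] {S : MFilt R} {F α β : R[X][X]} {Δ : R[X]} {m e E s : ℕ}

private theorem atW_mem {W : BB F Δ} {w : ℕ} (hW : W ∈ (FB S F Δ).I w) {p : R[X]} {J c : ℕ}
    (h1 : p.natDegree ≤ J) (h2 : ∀ j, p.coeff j ∈ S.I c) :
    atW W p ∈ (FB S F Δ).I (c + J * w) := by
  rw [atW, eval₂_eq_sum_range]
  refine AddSubgroup.sum_mem _ fun j hj => ?_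
  rw [Finset.mem_range] at hj
  refine (FB S F Δ).mono ?_ ((FB S F Δ).mul (genM_base S _ _ (h2 j)) ((FB S F Δ).pow hW j))
  have := Nat.mul_le_mul_right w (by omega : j ≤ J)
  omega

private theorem Rg_atW {W : BB F Δ} {ev : BB F Δ →+* LaurentSeries R} {x₀ y : LaurentSeries R}
    (hev : ∀ P, ev (iota F Δ P) = (P.map (evL x₀)).eval y) (h : Rg 0 (ev W)) (p : R[X]) :
    Rg 0 (ev (atW W p)) := by
  rw [atW, Polynomial.hom_eval₂, eval₂_eq_sum_range]
  refine Rg_sum _ _ fun j _ => ?_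
  simp only [RingHom.comp_apply]
  rw [hev, Polynomial.map_C, Polynomial.eval_C, evL_C]
  have h1 := Rg_mul (Rg_C (p.coeff j)) (Rg_pow h j)
  rwa [mul_zero, add_zero] at h1

private theorem y_mem : iota F Δ X ∈ (FB S F Δ).I 1 :=
  genM_gen S _ {iota F Δ (C X), iota F Δ X, dlt F Δ} (by simp)

private theorem x_mem : iota F Δ (C X) ∈ (FB S F Δ).I 1 :=
  genM_gen S _ {iota F Δ (C X), iota F Δ X, dlt F Δ} (by simp)

private theorem d_mem : dlt F Δ ∈ (FB S F Δ).I 1 :=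
  genM_gen S _ {iota F Δ (C X), iota F Δ X, dlt F Δ} (by simp)

private theorem c_mem {r : R} {i : ℕ} (h : r ∈ S.I i) : iota F Δ (C (C r)) ∈ (FB S F Δ).I i :=
  genM_base S ((iota F Δ).comp ((C : R[X] →+* R[X][X]).comp (C : R →+* R[X])))
    {iota F Δ (C X), iota F Δ X, dlt F Δ} h

private theorem glue [IsDomain R] [Algebra ℚ R] {ι : Type} [Fintype ι] [DecidableEq ι]
    (hE : 1 ≤ E) (hs : 1 ≤ s) (hF : F.Monic)
    (hm : F.natDegree = m) (hm1 : 1 ≤ m) (bez : α * F + β * derivative F = C Δ) {ζ : Rˣ}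
    (he : 1 ≤ e) (hζ : IsPrimitiveRoot ζ e) {x₀ : ι → LaurentSeries R}
    {y : ι → Fin m → LaurentSeries R} {Yi : ι → Matrix (Fin m) (Fin m) (LaurentSeries R)}
    {δ : ι → LaurentSeries R} (h : ∀ i, Place S F Δ m E s ζ (x₀ i) (y i) (Yi i) (δ i))
    (hx : ∀ i, Tw ζ (x₀ i) (x₀ i))
    {ev : ι → Fin m → (BB F Δ →+* LaurentSeries R)}
    (hev : ∀ i a P, ev i a (iota F Δ P) = (P.map (evL (x₀ i))).eval (y i a))
    (hev' : ∀ i a, ev i a (dlt F Δ) = δ i) {Dx : Derivation ℚ (BB F Δ) (BB F Δ)}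
    (hDx : ∀ N P, Dx (iota F Δ P * dlt F Δ ^ N) = iota F Δ (nx F β Δ N P) * dlt F Δ ^ (N + 1))
    {W : ι → BB F Δ} (hW : ∀ i a, ev i a (W i) = xinf R e)
    (hW' : ∀ i j a, i ≠ j → Rg 0 (ev i a (W j)))
    {w : ℕ} (hw : ∀ i, W i ∈ (FB S F Δ).I w) :
    ∃ H c : ℕ, ∀ N : ℕ, ∃ q : ℕ, 0 < q ∧ q ≤ H ^ (N + 1) ∧ ∀ b ∈ (FB S F Δ).I N,
      ∃ g ∈ (FB S F Δ).I (c * (N + 1)), ∀ i a (n : ℤ), n < -((m * s + 1 : ℕ) : ℤ) →
          (ev i a ((q : BB F Δ) * b - Dx g) * ld (x₀ i)).coeff n = 0 := by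
  choose H0 c0 hst using fun i => step (S := S) hE hs hF hm hm1 bez he hζ (h i) (hx i) (hev i)
    (hev' i) hDx (hW i)
  refine ⟨∏ i, H0 i, (∑ i, c0 i) * (1 + w) + m, fun N => ?_⟩
  choose q hq0 hq1 hq2 using fun i => hst i N
  refine ⟨∏ i, q i, Finset.prod_pos fun i _ => hq0 i, ?_, fun b hb => ?_⟩
  · rw [← Finset.prod_pow]
    exact Finset.prod_le_prod' fun i _ => hq1 i
  choose p hp1 hp2 using fun i => hq2 i b hb
  let G : ι → BB F Δ := fun i => ∑ l : Fin m, atW (W i) (p i l) * iota F Δ X ^ (l : ℕ)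
  let Q : ι → ℕ := fun i => ∏ j ∈ Finset.univ.erase i, q j
  have hGm : ∀ i, G i ∈ (FB S F Δ).I (((∑ i, c0 i) * (1 + w) + m) * (N + 1)) := by
    intro i
    refine AddSubgroup.sum_mem _ fun l _ => ?_
    have h1 := (FB S F Δ).mul (atW_mem (hw i) (hp1 i l).1 (hp1 i l).2)
      ((FB S F Δ).pow (y_mem (S := S) (F := F) (Δ := Δ)) (l : ℕ))
    refine (FB S F Δ).mono ?_ h1
    have h2 : c0 i ≤ ∑ i, c0 i :=
      Finset.single_le_sum (f := c0) (fun _ _ => Nat.zero_le _) (Finset.mem_univ i)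
    have h3 := l.2
    have h4 : c0 i * (N + 1) * (1 + w) ≤ (∑ i, c0 i) * (N + 1) * (1 + w) :=
      Nat.mul_le_mul_right _ (Nat.mul_le_mul_right _ h2)
    have h5 : m * 1 ≤ m * (N + 1) := Nat.mul_le_mul_left _ (by omega)
    nlinarith
  refine ⟨∑ i, (Q i : BB F Δ) * G i, ?_, fun i a n hn => ?_⟩
  · refine AddSubgroup.sum_mem _ fun i _ => ?_
    rw [← nsmul_eq_mul]
    exact AddSubgroup.nsmul_mem _ (hGm i) _
  · have e1 : Dx (∑ j, (Q j : BB F Δ) * G j) = ∑ j, (Q j : BB F Δ) * Dx (G j) := by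
      rw [map_sum]
      refine Finset.sum_congr rfl fun j _ => ?_
      rw [← nsmul_eq_mul, map_nsmul, nsmul_eq_mul]
    have e2 : ((∏ i, q i : ℕ) : BB F Δ) = (Q i : BB F Δ) * (q i : BB F Δ) := by
      rw [← Finset.mul_prod_erase Finset.univ q (Finset.mem_univ i), Nat.cast_mul, mul_comm]
    have e4 : ∑ j ∈ Finset.univ.erase i, (Q j : LaurentSeries R) * ld (ev i a (G j)) =
        (∑ j ∈ Finset.univ.erase i, (Q j : LaurentSeries R) * ev i a (Dx (G j))) *
          ld (x₀ i) := by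
      rw [Finset.sum_mul]
      refine Finset.sum_congr rfl fun j _ => ?_
      rw [place_ld hF hm hm1 bez (h i) (hev i) (hev' i) hDx a (G j), mul_assoc]
    have e3 : ev i a (((∏ i, q i : ℕ) : BB F Δ) * b - Dx (∑ j, (Q j : BB F Δ) * G j)) *
        ld (x₀ i) = (Q i : LaurentSeries R) *
          (ev i a ((q i : BB F Δ) * b - Dx (G i)) * ld (x₀ i)) -
          ∑ j ∈ Finset.univ.erase i, (Q j : LaurentSeries R) * ld (ev i a (G j)) := by
      rw [e4, e1, e2, ← Finset.add_sum_erase _ _ (Finset.mem_univ i)]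
      simp only [map_sub, map_add, map_mul, map_sum, map_natCast]
      ring
    rw [e3]
    refine Rg_sub (k := -((m * s + 1 : ℕ) : ℤ)) (Rg_nat_mul (fun n hn => hp2 i a n hn) _)
      (Rg_sum _ _ fun j hj => Rg_nat_mul ?_ _) n hn
    have hij : i ≠ j := fun h0 => (Finset.mem_erase.1 hj).1 h0.symm
    have h6 : Rg (-((m : ℤ) - 1) * s) (ev i a (G j)) := by
      rw [map_sum]
      refine Rg_sum _ _ fun l _ => ?_
      rw [map_mul, map_pow, hev, Polynomial.map_X, Polynomial.eval_X]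
      have h7 : Rg (-(s : ℤ)) (y i a) := fun n hn => (((h i).hy a) n).1 hn
      have h8 := Rg_mul (Rg_atW (hev i a) (hW' i j a hij) (p j l)) (Rg_pow h7 (l : ℕ))
      refine Rg_mono ?_ h8
      have h9 := l.2
      have h10 : ((l : ℕ) : ℤ) ≤ (m : ℤ) - 1 := by omega
      have h11 : ((l : ℕ) : ℤ) * s ≤ ((m : ℤ) - 1) * s :=
        mul_le_mul_of_nonneg_right h10 (Int.natCast_nonneg s)
      linarith
    refine Rg_mono ?_ (Rg_ld h6)
    push_cast
    have h12 : (1 : ℤ) ≤ m := by exact_mod_cast hm1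
    have h13 : (0 : ℤ) ≤ s := Int.natCast_nonneg s
    nlinarith

end glue

/-! ### Elements of some step -/

private def Fs {R : Type} [CommRing R] (S : MFilt R) (F : R[X][X]) (Δ : R[X]) (b : BB F Δ) :
    Prop := ∃ w, b ∈ (FB S F Δ).I w

section fs

variable {R : Type} [CommRing R] {S : MFilt R} {F : R[X][X]} {Δ : R[X]}

private theorem Fs_mul {a b : BB F Δ} (ha : Fs S F Δ a) (hb : Fs S F Δ b) :
    Fs S F Δ (a * b) := by
  obtain ⟨u, hu⟩ := ha
  obtain ⟨v, hv⟩ := hb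
  exact ⟨u + v, (FB S F Δ).mul hu hv⟩

private theorem Fs_pow {a : BB F Δ} (ha : Fs S F Δ a) (k : ℕ) : Fs S F Δ (a ^ k) := by
  obtain ⟨u, hu⟩ := ha
  exact ⟨k * u, (FB S F Δ).pow hu k⟩

private theorem Fs_prod {ι : Type} (T : Finset ι) (f : ι → BB F Δ)
    (h : ∀ i ∈ T, Fs S F Δ (f i)) : Fs S F Δ (∏ i ∈ T, f i) :=
  Finset.prod_induction f (Fs S F Δ) (fun _ _ => Fs_mul) ⟨0, (FB S F Δ).one⟩ h

end fs

theorem red {R : Type} [CommRing R] [IsDomain R] [Algebra ℚ R] {S : MFilt R}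
    {F α β : R[X][X]} {Δ : R[X]} {m e E s e₁ : ℕ} (hE : 1 ≤ E) (hs : 1 ≤ s) (hF : F.Monic)
    (hm : F.natDegree = m) (hm1 : 1 ≤ m) (bez : α * F + β * derivative F = C Δ)
    (hFe : ∀ l j, (F.coeff l).coeff j ∈ S.I e₁) (hβe : ∀ l j, (β.coeff l).coeff j ∈ S.I e₁)
    (hΔe : ∀ j, Δ.coeff j ∈ S.I e₁) {ζ : Rˣ} (he : 1 ≤ e) (hζ : IsPrimitiveRoot ζ e)
    {r : ℕ} {ρ : Fin r → R} {nu : Fin r → ℕ} (hnu : ∀ i, 1 ≤ nu i) {δ₀ : Rˣ}
    (hΔ : Δ = C (δ₀ : R) * ∏ i, (X - C (ρ i)) ^ nu i)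
    (hρ : ∀ i j, i ≠ j → IsUnit (ρ i - ρ j)) (hρe : ∀ i, ρ i ∈ S.I e₁)
    (hδe : (δ₀ : R) ∈ S.I e₁) (hδe' : ((δ₀⁻¹ : Rˣ) : R) ∈ S.I e₁)
    (hp : ∀ i, ∃ y Yi δ, Place S F Δ m E s ζ (xfin e (ρ i)) y Yi δ)
    (hp' : ∃ y Yi δ, Place S F Δ m E s ζ (xinf R e) y Yi δ) :
    ∃ H c : ℕ, ∀ N : ℕ, ∃ q : ℕ, 0 < q ∧ q ≤ H ^ (N + 1) ∧ ∀ M ≤ N, ∀ P : R[X][X],
      Bd S m N N P → ∃ P₀ : R[X][X],
        Bd S m (Δ.natDegree * ((m * s + 1) + s + e) + s + (m * s + 1)) (c * (N + 1)) P₀ ∧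
        Exact F β Δ (M + ((m * s + 1) + s + e))
          (C Δ ^ ((m * s + 1) + s + e) * ((q : R[X][X]) * P) - C Δ ^ M * P₀) := by
  have hchar : CharZero R := algebraRat.charZero R
  have he0 : (e : ℤ) ≠ 0 := by
    have : (0 : ℤ) < e := by exact_mod_cast he
    exact this.ne'
  choose y Yi δ hpl using hp
  obtain ⟨y', Yi', δ', hpl'⟩ := hp'
  choose ev hev hev' using fun i => exists_ev (hpl i)
  obtain ⟨ev', he', he''⟩ := exists_ev hpl'
  obtain ⟨Dx, hDx, -⟩ := exists_Dx bez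
  have hprod : (∏ i, (X - C (ρ i)) ^ nu i).Monic :=
    monic_prod_of_monic _ _ fun i _ => (monic_X_sub_C _).pow _
  have hlead : Δ.leadingCoeff = δ₀ := by
    rw [hΔ, leadingCoeff_C_mul_of_isUnit δ₀.isUnit, hprod.leadingCoeff, mul_one]
  have hΔ0 : Δ ≠ 0 := by
    rw [← leadingCoeff_ne_zero, hlead]
    exact δ₀.ne_zero
  have hζe : ζ ^ e = 1 := hζ.pow_eq_one
  -- the elements with a simple pole at one place
  have hlin : ∀ i, Fs S F Δ (iota F Δ (C (X - C (ρ i)))) := fun i => by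
    rw [C_sub, map_sub]
    exact ⟨1 + e₁, sub_mem ((FB S F Δ).mono (by omega) x_mem)
      ((FB S F Δ).mono (by omega) (c_mem (hρe i)))⟩
  have hDex : ∀ i, ∃ D : R[X], D * (X - C (ρ i)) = Δ ∧ Fs S F Δ (iota F Δ (C D)) := by
    intro i
    refine ⟨C (δ₀ : R) * ((X - C (ρ i)) ^ (nu i - 1) *
      ∏ j ∈ Finset.univ.erase i, (X - C (ρ j)) ^ nu j), ?_, ?_⟩
    · rw [hΔ, ← Finset.mul_prod_erase Finset.univ _ (Finset.mem_univ i)]
      have h1 : (X - C (ρ i)) ^ nu i = (X - C (ρ i)) ^ (nu i - 1) * (X - C (ρ i)) := by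
        rw [← pow_succ, Nat.sub_add_cancel (hnu i)]
      rw [h1]
      ring
    · rw [C_mul, C_mul, map_mul, map_mul, C_pow, map_pow, map_prod, map_prod]
      refine Fs_mul ⟨e₁, c_mem hδe⟩ (Fs_mul (Fs_pow (hlin i) _) (Fs_prod _ _ fun j _ => ?_))
      rw [C_pow, map_pow]
      exact Fs_pow (hlin j) _
  choose Dl hDl hDlm using hDex
  have hWinv : ∀ i, iota F Δ (C (Dl i)) * dlt F Δ * iota F Δ (C (X - C (ρ i))) = 1 := by
    intro i
    have h1 : iota F Δ (C (Dl i)) * iota F Δ (C (X - C (ρ i))) = iota F Δ (C Δ) := by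
      rw [← map_mul, ← C_mul, hDl i]
    calc iota F Δ (C (Dl i)) * dlt F Δ * iota F Δ (C (X - C (ρ i)))
        = iota F Δ (C (Dl i)) * iota F Δ (C (X - C (ρ i))) * dlt F Δ := by ring
      _ = 1 := by rw [h1, iota_dlt]
  have hwex : ∃ w, iota F Δ (C X) ∈ (FB S F Δ).I w ∧
      ∀ i, iota F Δ (C (Dl i)) * dlt F Δ ∈ (FB S F Δ).I w := by
    have h1 : ∀ i, Fs S F Δ (iota F Δ (C (Dl i)) * dlt F Δ) := fun i =>
      Fs_mul (hDlm i) ⟨1, d_mem⟩
    choose w hw using h1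
    refine ⟨∑ i, w i + 1, (FB S F Δ).mono (by omega) x_mem, fun i => ?_⟩
    have h2 : w i ≤ ∑ i, w i :=
      Finset.single_le_sum (f := w) (fun _ _ => Nat.zero_le _) (Finset.mem_univ i)
    exact (FB S F Δ).mono (by omega) (hw i)
  obtain ⟨w, hw1, hw2⟩ := hwex
  -- evaluation of a polynomial in `x`
  have hcx : ∀ i a p, ev i a (iota F Δ (C p)) = evL (xfin e (ρ i)) p := fun i a p => by
    rw [hev, Polynomial.map_C, Polynomial.eval_C]
  have hcx' : ∀ a p, ev' a (iota F Δ (C p)) = evL (xinf R e) p := fun a p => by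
    rw [he', Polynomial.map_C, Polynomial.eval_C]
  obtain ⟨H0, c0, hgl⟩ := glue (S := S) (ι := Option (Fin r)) hE hs hF hm hm1 bez he hζ
    (x₀ := fun o => o.elim (xinf R e) (fun i => xfin e (ρ i))) (y := fun o => o.elim y' y)
    (Yi := fun o => o.elim Yi' Yi) (δ := fun o => o.elim δ' δ)
    (by
      rintro (_ | i)
      · exact hpl'
      · exact hpl i)
    (by
      rintro (_ | i)
      · exact Tw_xinf hζe
      · exact Tw_xfin hζe _)
    (ev := fun o => o.elim ev' ev)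
    (by
      rintro (_ | i)
      · exact he'
      · exact hev i)
    (by
      rintro (_ | i)
      · exact he''
      · exact hev' i)
    hDx (W := fun o => o.elim (iota F Δ (C X)) (fun i => iota F Δ (C (Dl i)) * dlt F Δ))
    (by
      rintro (_ | i) a
      · change ev' a (iota F Δ (C X)) = xinf R e
        rw [hcx', evL_X]
      · change ev i a (iota F Δ (C (Dl i)) * dlt F Δ) = xinf R e
        have h1 := congrArg (ev i a) (hWinv i)
        rw [map_mul (ev i a) (iota F Δ (C (Dl i)) * dlt F Δ), map_one, hcx, map_sub, evL_X, evL_C]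
          at h1
        have h2 : xfin e (ρ i) - HahnSeries.C (ρ i) = HahnSeries.single (e : ℤ) 1 := by
          rw [xfin, add_sub_cancel_left]
        rw [h2] at h1
        have h3 : (HahnSeries.single (e : ℤ) (1 : R)) * xinf R e = 1 := by
          rw [xinf, HahnSeries.single_mul_single, one_mul, add_neg_cancel]
          rfl
        calc ev i a (iota F Δ (C (Dl i)) * dlt F Δ) = ev i a (iota F Δ (C (Dl i)) * dlt F Δ) *
              (HahnSeries.single (e : ℤ) (1 : R) * xinf R e) := by rw [h3, mul_one]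
          _ = _ := by rw [← mul_assoc, h1, one_mul])
    (by
      rintro (_ | i) (_ | j) a hij
      · exact absurd rfl hij
      · change Rg 0 (ev' a (iota F Δ (C (Dl j)) * dlt F Δ))
        have h1 := congrArg (ev' a) (hWinv j)
        rw [map_mul (ev' a) (iota F Δ (C (Dl j)) * dlt F Δ), map_one, hcx', map_sub, evL_X, evL_C]
          at h1
        refine Rg_inv h1 (k := -(e : ℤ)) (by omega) ?_
        rw [HahnSeries.coeff_sub, xinf, HahnSeries.coeff_single_same, HahnSeries.C_apply,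
          HahnSeries.coeff_single_of_ne (by omega), sub_zero]
        exact one_ne_zero
      · change Rg 0 (ev i a (iota F Δ (C X)))
        rw [hcx, evL_X, xfin]
        refine Rg_add (Rg_C _) fun n hn => ?_
        exact HahnSeries.coeff_single_of_ne (by omega)
      · change Rg 0 (ev i a (iota F Δ (C (Dl j)) * dlt F Δ))
        have h1 := congrArg (ev i a) (hWinv j)
        rw [map_mul (ev i a) (iota F Δ (C (Dl j)) * dlt F Δ), map_one, hcx, map_sub, evL_X, evL_C]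
          at h1
        refine Rg_inv h1 (k := 0) le_rfl ?_
        have hij' : i ≠ j := fun h0 => hij (by rw [h0])
        rw [HahnSeries.coeff_sub, xfin, HahnSeries.coeff_add, HahnSeries.C_apply,
          HahnSeries.coeff_single_same, HahnSeries.coeff_single_of_ne (Ne.symm he0), add_zero,
          HahnSeries.C_apply, HahnSeries.coeff_single_same]
        exact (hρ i j hij').ne_zero)
    (w := w)
    (by
      rintro (_ | i)
      · exact hw1
      · exact hw2 i)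
  obtain ⟨cD, hcD⟩ := FB_Dx (S := S) hFe hβe hΔe hDx
  obtain ⟨c4, hc4⟩ := FB_struct (S := S) hF hm hm1 hFe hΔe
  obtain ⟨c5, hc5⟩ := quot_bound (S := S) hlead hΔe hδe'
    (Δ.natDegree * ((m * s + 1) + s + e) + s + (m * s + 1))
  set N₀ := (m * s + 1) + s + e with hN₀
  set c3 := (c0 + 1) * (m + 3) + cD + N₀ with hc3
  have h3N : ∀ N, 3 * N + m + 1 ≤ (m + 3) * (N + 1) := fun N => by
    nlinarith [Nat.zero_le (m * N)]
  refine ⟨(H0 + 1) ^ (m + 3), (c4 + c5) * (c3 + 1), fun N => ?_⟩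
  obtain ⟨q, hq0, hq1, hq2⟩ := hgl (3 * N + m)
  refine ⟨q, hq0, ?_, fun M hM P hP => ?_⟩
  · refine hq1.trans ?_
    rw [← pow_mul]
    exact (Nat.pow_le_pow_left (Nat.le_succ H0) _).trans
      (Nat.pow_le_pow_right (Nat.succ_pos H0) (h3N N))
  have hb : iota F Δ P * dlt F Δ ^ M ∈ (FB S F Δ).I (3 * N + m) :=
    (FB S F Δ).mono (by omega) ((FB S F Δ).mul (FB_mem hP) (FB_dlt M))
  obtain ⟨g, hg1, hg2⟩ := hq2 _ hb
  set M' := c3 * (N + 1) with hM'
  have hc3N : c3 ≤ M' := by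
    rw [hM']
    nlinarith [Nat.zero_le (c3 * N)]
  have hb' : (q : BB F Δ) * (iota F Δ P * dlt F Δ ^ M) - Dx g ∈ (FB S F Δ).I M' := by
    refine sub_mem ?_ ?_
    · rw [← nsmul_eq_mul]
      refine AddSubgroup.nsmul_mem _ ((FB S F Δ).mono ?_ hb) _
      have h1 := h3N N
      have h2 : 1 * (m + 3) * (N + 1) ≤ c3 * (N + 1) := by
        refine Nat.mul_le_mul_right _ ?_
        rw [hc3]
        have h3 : 1 * (m + 3) ≤ (c0 + 1) * (m + 3) := Nat.mul_le_mul_right _ (by omega)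
        omega
      rw [one_mul] at h2
      omega
    · refine (FB S F Δ).mono ?_ (hcD _ _ hg1)
      have h1 : c0 * (3 * N + m + 1) ≤ c0 * ((m + 3) * (N + 1)) := Nat.mul_le_mul_left _ (h3N N)
      have h2 : cD * 1 ≤ cD * (N + 1) := Nat.mul_le_mul_left _ (by omega)
      rw [hM', hc3]
      nlinarith [Nat.zero_le ((m + 3) * (N + 1)), Nat.zero_le (N₀ * (N + 1))]
  obtain ⟨P', hP'1, hP'2⟩ := hc4 _ _ hb'
  have hN₀M : (m * s + 1) + s + e ≤ M' := by omega
  obtain ⟨P₀, hd1, hd2, hd3⟩ := desc (K := m * s + 1) (M := M') (P := P') hF hm hm1 he hnu hΔ hρ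
    hpl hpl' hev hev' he' he'' hP'1.1
    (fun i a n hn => by
      rw [← hP'2]
      exact hg2 (some i) a n hn)
    (fun a n hn => by
      rw [← hP'2]
      exact hg2 none a n hn) hN₀M
  refine ⟨P₀, ⟨hd1, fun l => ⟨hd2 l, ?_⟩⟩, ?_⟩
  · intro j
    refine S.mono ?_ (hc5 (M' - N₀) (c4 * (M' + 1)) (P₀.coeff l) (hd2 l) ?_ j)
    · have h1 : M' + 1 ≤ (c3 + 1) * (N + 1) := by
        rw [hM']
        nlinarith
      have h2 : c4 * (M' + 1) ≤ c4 * ((c3 + 1) * (N + 1)) := Nat.mul_le_mul_left _ h1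
      have h3 : c5 * (M' - N₀ + 1) ≤ c5 * ((c3 + 1) * (N + 1)) :=
        Nat.mul_le_mul_left _ (by omega)
      calc c4 * (M' + 1) + c5 * (M' - N₀ + 1) ≤ _ := add_le_add h2 h3
        _ = (c4 + c5) * (c3 + 1) * (N + 1) := by ring
    · intro j
      have h1 := (hP'1.2 l).2 j
      rw [hd3, ← C_pow, coeff_C_mul] at h1
      exact h1
  · rw [exact_iff hF hm hm1 hΔ0 hDx]
    refine ⟨g, ?_⟩
    have e0 : ∀ k, iota F Δ (C Δ) ^ k * dlt F Δ ^ k = 1 := fun k => by
      rw [← mul_pow, iota_dlt, one_pow]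
    have e1 : iota F Δ P' * dlt F Δ ^ M' = iota F Δ P₀ * dlt F Δ ^ N₀ := by
      obtain ⟨k, hk⟩ : ∃ k, M' = k + N₀ := ⟨M' - N₀, by omega⟩
      rw [hd3, map_mul, map_pow]
      have h1 : M' - (m * s + 1 + s + e) = k := by omega
      rw [h1, hk, pow_add]
      calc iota F Δ (C Δ) ^ k * iota F Δ P₀ * (dlt F Δ ^ k * dlt F Δ ^ N₀)
          = (iota F Δ (C Δ) ^ k * dlt F Δ ^ k) * (iota F Δ P₀ * dlt F Δ ^ N₀) := by ring
        _ = _ := by rw [e0, one_mul]
    have e2 : Dx g = (q : BB F Δ) * (iota F Δ P * dlt F Δ ^ M) -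
        iota F Δ P₀ * dlt F Δ ^ N₀ := by
      rw [← e1, ← hP'2]
      ring
    have e3 : dlt F Δ ^ (M + N₀) = dlt F Δ ^ M * dlt F Δ ^ N₀ := pow_add _ _ _
    rw [e2, e3]
    simp only [map_sub, map_mul, map_pow, map_natCast]
    calc (iota F Δ (C Δ) ^ N₀ * ((q : BB F Δ) * iota F Δ P) -
          iota F Δ (C Δ) ^ M * iota F Δ P₀) * (dlt F Δ ^ M * dlt F Δ ^ N₀)
        = (iota F Δ (C Δ) ^ N₀ * dlt F Δ ^ N₀) * ((q : BB F Δ) * (iota F Δ P * dlt F Δ ^ M)) -
          (iota F Δ (C Δ) ^ M * dlt F Δ ^ M) * (iota F Δ P₀ * dlt F Δ ^ N₀) := by ring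
      _ = _ := by rw [e0, e0, one_mul, one_mul]

end Pool.Agent.Helper79.CU
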