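import Pool.Agent.Helper79.CU.Lin
import Pool.Agent.Helper79.CU.Red
import Pool.Agent.Helper79.CU.Iter

/-!
# CU: assembly, bounds for the iterates over a filtered ring
-/

open Polynomial

namespace Pool.Agent.Helper79.CU

open Pool.Agent.Helper79.SE

section

variable {R : Type} [CommRing R] {F α β : R[X][X]} {Δ : R[X]}

/-- The element `P/Δ^N` of the coordinate ring. -/
noncomputable def fr (F : R[X][X]) (Δ : R[X]) (N : ℕ) (P : R[X][X]) : BB F Δ :=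
  iota F Δ P * dlt F Δ ^ N

theorem fr_pow (N j : ℕ) (P : R[X][X]) : fr F Δ (N + j) (C Δ ^ j * P) = fr F Δ N P := by
  have h : (iota F Δ (C Δ) * dlt F Δ) ^ j = 1 := by rw [iota_dlt, one_pow]
  rw [mul_pow] at h
  rw [fr, fr, map_mul, map_pow, pow_add]
  linear_combination (iota F Δ P * dlt F Δ ^ N) * h

theorem fr_sub (N : ℕ) (P Q : R[X][X]) : fr F Δ N (P - Q) = fr F Δ N P - fr F Δ N Q := by
  rw [fr, fr, fr, map_sub, sub_mul]

theorem fr_add (N : ℕ) (P Q : R[X][X]) : fr F Δ N (P + Q) = fr F Δ N P + fr F Δ N Q := by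
  rw [fr, fr, fr, map_add, add_mul]

theorem fr_C (N : ℕ) (r : R) (P : R[X][X]) :
    fr F Δ N (C (C r) * P) = iota F Δ (C (C r)) * fr F Δ N P := by
  rw [fr, fr, map_mul, mul_assoc]

theorem fr_sum {ι : Type} (s : Finset ι) (N : ℕ) (P : ι → R[X][X]) :
    fr F Δ N (∑ i ∈ s, P i) = ∑ i ∈ s, fr F Δ N (P i) := by
  simp only [fr, map_sum, Finset.sum_mul]

theorem fr_congr {N : ℕ} {P Q : R[X][X]} (h : F ∣ P - Q) : fr F Δ N P = fr F Δ N Q := by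
  obtain ⟨g, hg⟩ := h
  have : P = Q + F * g := by rw [← hg]; ring
  rw [this, fr, fr, map_add, map_mul, iota_F, zero_mul, add_zero]

end

theorem Bd.mono {R : Type} [CommRing R] {S : MFilt R} {m J J' c c' : ℕ} {P : R[X][X]}
    (h : Bd S m J c P) (hJ : J ≤ J') (hc : c ≤ c') : Bd S m J' c' P :=
  ⟨h.1, fun l => ⟨(h.2 l).1.trans hJ, fun j => S.mono hc ((h.2 l).2 j)⟩⟩

theorem coeff_mul_mem {R : Type} [CommRing R] {S : MFilt R} {a b : ℕ} {p q : R[X]}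
    (hp : ∀ j, p.coeff j ∈ S.I a) (hq : ∀ j, q.coeff j ∈ S.I b) (j : ℕ) :
    (p * q).coeff j ∈ S.I (a + b) := by
  rw [coeff_mul]
  exact AddSubgroup.sum_mem _ fun x _ => S.mul (hp _) (hq _)

theorem coeff_pow_mem {R : Type} [CommRing R] {S : MFilt R} {a : ℕ} {p : R[X]}
    (hp : ∀ j, p.coeff j ∈ S.I a) (k j : ℕ) : (p ^ k).coeff j ∈ S.I (k * a) := by
  induction k generalizing j with
  | zero =>
    rw [pow_zero, coeff_one]
    split_ifs
    · exact S.mono (Nat.zero_le _) S.one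
    · exact AddSubgroup.zero_mem _
  | succ k ih =>
    rw [pow_succ, Nat.succ_mul]
    exact coeff_mul_mem (fun j => ih j) hp j

theorem core {R : Type} [CommRing R] [IsDomain R] [Algebra ℚ R] {D : Derivation ℚ R R}
    (S : Filt D) {F α β : R[X][X]} {Δ : R[X]} {m e E s e₁ : ℕ} (hE : 1 ≤ E) (hs : 1 ≤ s)
    (hF : F.Monic) (hm : F.natDegree = m) (hm1 : 1 ≤ m)
    (bez : α * F + β * derivative F = C Δ)
    (hFe : ∀ l j, (F.coeff l).coeff j ∈ S.I e₁) (hβe : ∀ l j, (β.coeff l).coeff j ∈ S.I e₁)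
    (hΔe : ∀ j, Δ.coeff j ∈ S.I e₁) {ζ : Rˣ} (he : 1 ≤ e) (hζ : IsPrimitiveRoot ζ e)
    {r : ℕ} {ρ : Fin r → R} {nu : Fin r → ℕ} (hnu : ∀ i, 1 ≤ nu i) {δ₀ : Rˣ}
    (hΔ : Δ = C (δ₀ : R) * ∏ i, (X - C (ρ i)) ^ nu i)
    (hρ : ∀ i j, i ≠ j → IsUnit (ρ i - ρ j)) (hρe : ∀ i, ρ i ∈ S.I e₁)
    (hδe : (δ₀ : R) ∈ S.I e₁) (hδe' : ((δ₀⁻¹ : Rˣ) : R) ∈ S.I e₁)
    (hp : ∀ i, ∃ y Yi δ, Place ⟨S.I, S.mono, S.one, S.mul⟩ F Δ m E s ζ (xfin e (ρ i)) y Yi δ)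
    (hp' : ∃ y Yi δ, Place ⟨S.I, S.mono, S.one, S.mul⟩ F Δ m E s ζ (xinf R e) y Yi δ)
    {n : ℕ} {k : ℕ} {H G : Fin n → R[X][X]} (hHe : ∀ i l j, ((H i).coeff l).coeff j ∈ S.I e₁)
    {a : Matrix (Fin n) (Fin n) R}
    (gm : ∀ i, F ∣ nt D F β Δ k (H i) - ∑ l, C (C (a i l)) * (C Δ * H l) - nx F β Δ k (G i))
    {B : ℕ → Matrix (Fin n) (Fin n) R} (h0 : B 0 = 1)
    (hB : ∀ j i l, ((j + 1 : ℕ) : R) * B (j + 1) i l = D (B j i l) + ∑ m, B j i m * a m l)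
    {J : ℕ} {h : Fin n → R[X][X]} (h1 : ∀ i, (h i).natDegree < m)
    (h2 : ∀ i l, ((h i).coeff l).natDegree ≤ J)
    (h3 : ∀ i, F ∣ C Δ ^ ((m * s + 1) + s + e) * H i - h i)
    (hJ : Δ.natDegree * ((m * s + 1) + s + e) + s + (m * s + 1) + k * Δ.natDegree ≤ J)
    {lam : Fin n → ℕ → ℕ → R} {θ θ' : R} (hθ : θ * θ' = 1) (hθe : θ' ∈ S.I e₁)
    (hlam : ∀ k, ∀ l ∈ Finset.range m, ∀ j ∈ Finset.range (J + 1), lam k l j ∈ S.I e₁)
    (hval : ∀ k i, ∑ l ∈ Finset.range m, ∑ j ∈ Finset.range (J + 1),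
      lam k l j * ((h i).coeff l).coeff j = if i = k then θ else 0)
    (hvan : ∀ P : R[X][X], P.natDegree < m → (∀ l, (P.coeff l).natDegree ≤ J) →
      Exact F β Δ (k + ((m * s + 1) + s + e)) P →
      ∀ i, ∑ l ∈ Finset.range m, ∑ j ∈ Finset.range (J + 1),
        lam i l j * (P.coeff l).coeff j = 0) :
    ∃ H c : ℕ, ∀ N : ℕ, ∃ q : ℕ, 0 < q ∧ q ≤ H ^ (N + 1) ∧
      ∀ j ≤ N, ∀ i l, (q : R) * B j i l ∈ S.I (c * (N + 1)) := by
  have hΔ0 : Δ ≠ 0 := by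
    rw [hΔ]
    exact mul_ne_zero (C_ne_zero.2 δ₀.ne_zero)
      (Finset.prod_ne_zero_iff.2 fun i _ => pow_ne_zero _ (X_sub_C_ne_zero _))
  set N₀ : ℕ := (m * s + 1) + s + e with hN₀
  obtain ⟨hl0, hl1⟩ := left_of_right h0 hB
  obtain ⟨c₁, c₂, hiter⟩ := iter S hF hm hm1 hΔ0 bez hFe hβe hΔe hHe gm hl0 hl1
  obtain ⟨H₀, c₃, hred⟩ := red hE hs hF hm hm1 bez hFe hβe hΔe he hζ hnu hΔ hρ hρe hδe hδe' hp hp'
  obtain ⟨Dx, hDx, hDxC⟩ := exists_Dx (F := F) (Δ := Δ) bez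
  -- the size of the coefficients of `Δ ^ k`
  have hΔk : ∀ j, (Δ ^ k).coeff j ∈ S.I (k * e₁) :=
    coeff_pow_mem (S := ⟨S.I, S.mono, S.one, S.mul⟩) hΔe k
  refine ⟨H₀ ^ (c₁ + c₂ + 1), (c₃ * (c₁ + c₂ + 1) + k * e₁ + e₁ + e₁), fun N => ?_⟩
  obtain ⟨q, hq0, hq1, hq2⟩ := hred ((c₁ + c₂) * (N + 1))
  refine ⟨q, hq0, ?_, fun j hj i l => ?_⟩
  · rcases Nat.eq_zero_or_pos H₀ with h4 | h4
    · rw [h4, zero_pow (Nat.succ_ne_zero _)] at hq1
      omega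
    · rw [← pow_mul]
      exact hq1.trans (Nat.pow_le_pow_right h4 (by nlinarith))
  obtain ⟨P, hPb, hPe⟩ := hiter j i
  have hle : c₁ * (j + 1) ≤ (c₁ + c₂) * (N + 1) :=
    Nat.mul_le_mul (Nat.le_add_right _ _) (Nat.succ_le_succ hj)
  have hle' : c₂ * (j + 1) ≤ (c₁ + c₂) * (N + 1) :=
    Nat.mul_le_mul (Nat.le_add_left _ _) (Nat.succ_le_succ hj)
  obtain ⟨P₀, hP₀b, hP₀e⟩ := hq2 _ hle P (Bd.mono hPb hle' hle')
  simp only [PowerSeries.coeff_mk] at hPe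
  rw [exact_iff hF hm hm1 hΔ0 hDx] at hPe hP₀e
  obtain ⟨g₁, hg₁⟩ := hPe
  obtain ⟨g₂, hg₂⟩ := hP₀e
  rw [← fr] at hg₁ hg₂
  have e1 : fr F Δ (c₁ * (j + 1)) P - ∑ l, iota F Δ (C (C (B j i l))) * fr F Δ k (H l) =
      Dx g₁ := by
    rw [← hg₁, fr_sub, fr_pow, add_comm (c₁ * (j + 1)) k, fr_pow, fr_sum]
    congr 1
    exact Finset.sum_congr rfl fun l _ => (fr_C _ _ _).symm
  have e2 : (q : BB F Δ) * fr F Δ (c₁ * (j + 1)) P - fr F Δ N₀ P₀ = Dx g₂ := by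
    rw [← hg₂, fr_sub, fr_pow, add_comm (c₁ * (j + 1)) (m * s + 1 + s + e), fr_pow]
    congr 1
    rw [fr, fr, map_mul, map_natCast, mul_assoc]
  set Q : R[X][X] := C Δ ^ k * P₀ - ∑ l, C (C ((q : R) * B j i l)) * h l with hQ
  have e3 : fr F Δ (k + N₀) Q = Dx ((q : BB F Δ) * g₁ - g₂) := by
    have e4 : ∀ l, fr F Δ (k + N₀) (h l) = fr F Δ k (H l) := by
      intro l
      rw [← fr_congr (h3 l), fr_pow]
    rw [hQ, fr_sub, add_comm k N₀, fr_pow, add_comm N₀ k, fr_sum, map_sub, ← e2]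
    have e5 : Dx ((q : BB F Δ) * g₁) = (q : BB F Δ) * Dx g₁ := by
      rw [Derivation.leibniz, Derivation.map_natCast, smul_zero, add_zero, smul_eq_mul]
    rw [e5, ← e1]
    have e6 : ∑ l, fr F Δ (k + N₀) (C (C ((q : R) * B j i l)) * h l) =
        (q : BB F Δ) * ∑ l, iota F Δ (C (C (B j i l))) * fr F Δ k (H l) := by
      rw [Finset.mul_sum]
      refine Finset.sum_congr rfl fun l _ => ?_
      rw [fr_C, e4, C_mul, C_mul, map_mul, map_natCast, map_natCast, map_natCast, mul_assoc]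
    rw [e6]
    ring
  have hQe : Exact F β Δ (k + N₀) Q := by
    rw [exact_iff hF hm hm1 hΔ0 hDx]
    exact ⟨_, e3⟩
  have hCk : (C Δ : R[X][X]) ^ k = C (Δ ^ k) := (C_pow).symm
  have hQc : ∀ l', Q.coeff l' = Δ ^ k * P₀.coeff l' -
      ∑ l, C ((q : R) * B j i l) * (h l).coeff l' := by
    intro l'
    rw [hQ, coeff_sub, hCk, coeff_C_mul, finsetSum_coeff]
    congr 1
    exact Finset.sum_congr rfl fun l _ => by rw [coeff_C_mul]
  have hQd : Q.natDegree < m := by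
    rw [hQ, hCk]
    refine (natDegree_sub_le _ _).trans_lt (max_lt ((natDegree_C_mul_le _ _).trans_lt hP₀b.1) ?_)
    refine (natDegree_sum_le_of_forall_le (n := m - 1) _ _ fun l _ =>
      (natDegree_C_mul_le _ _).trans (Nat.le_sub_one_of_lt (h1 l))).trans_lt ?_
    omega
  have hQd' : ∀ l', (Q.coeff l').natDegree ≤ J := by
    intro l'
    rw [hQc]
    refine (natDegree_sub_le _ _).trans (max_le ?_ ?_)
    · refine natDegree_mul_le.trans ((add_le_add (natDegree_pow_le) (hP₀b.2 l').1).trans ?_)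
      rw [add_comm]
      exact hJ
    · exact natDegree_sum_le_of_forall_le _ _ fun l _ =>
        (natDegree_C_mul_le _ _).trans (h2 l l')
  have hv := hvan Q hQd hQd' hQe l
  have e7 : ∑ l' ∈ Finset.range m, ∑ j' ∈ Finset.range (J + 1),
      lam l l' j' * (Q.coeff l').coeff j' = (∑ l' ∈ Finset.range m, ∑ j' ∈ Finset.range (J + 1),
      lam l l' j' * (Δ ^ k * P₀.coeff l').coeff j') - (q : R) * B j i l * θ := by
    have e8 : (q : R) * B j i l * θ = ∑ i', (q : R) * B j i i' *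
        ∑ l' ∈ Finset.range m, ∑ j' ∈ Finset.range (J + 1),
          lam l l' j' * ((h i').coeff l').coeff j' := by
      rw [Finset.sum_eq_single l]
      · rw [hval, if_pos rfl]
      · intro b _ hb
        rw [hval, if_neg hb, mul_zero]
      · intro h5
        exact absurd (Finset.mem_univ _) h5
    have e11 : ∑ i', (q : R) * B j i i' *
        ∑ l' ∈ Finset.range m, ∑ j' ∈ Finset.range (J + 1),
          lam l l' j' * ((h i').coeff l').coeff j' = ∑ l' ∈ Finset.range m,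
        ∑ j' ∈ Finset.range (J + 1), ∑ i', (q : R) * B j i i' *
          (lam l l' j' * ((h i').coeff l').coeff j') := by
      simp only [Finset.mul_sum]
      rw [Finset.sum_comm]
      refine Finset.sum_congr rfl fun l' _ => ?_
      rw [Finset.sum_comm]
    rw [e8, e11, ← Finset.sum_sub_distrib]
    refine Finset.sum_congr rfl fun l' _ => ?_
    rw [← Finset.sum_sub_distrib]
    refine Finset.sum_congr rfl fun j' _ => ?_
    rw [hQc, coeff_sub, finsetSum_coeff, mul_sub, Finset.mul_sum]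
    congr 1
    refine Finset.sum_congr rfl fun i' _ => ?_
    rw [coeff_C_mul]
    ring
  rw [e7, sub_eq_zero] at hv
  have e9 : (q : R) * B j i l = (∑ l' ∈ Finset.range m, ∑ j' ∈ Finset.range (J + 1),
      lam l l' j' * (Δ ^ k * P₀.coeff l').coeff j') * θ' := by
    rw [hv, mul_assoc, hθ, mul_one]
  rw [e9]
  have e10 : (∑ l' ∈ Finset.range m, ∑ j' ∈ Finset.range (J + 1),
      lam l l' j' * (Δ ^ k * P₀.coeff l').coeff j') ∈
        S.I (e₁ + (k * e₁ + c₃ * ((c₁ + c₂) * (N + 1) + 1))) := by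
    refine AddSubgroup.sum_mem _ fun l' hl' => AddSubgroup.sum_mem _ fun j' hj' => ?_
    exact S.mul (hlam _ _ hl' _ hj') (coeff_mul_mem (S := ⟨S.I, S.mono, S.one, S.mul⟩) hΔk
      (fun j => (hP₀b.2 l').2 j) j')
  refine S.mono ?_ (S.mul e10 hθe)
  have h6 : c₃ * ((c₁ + c₂) * (N + 1) + 1) ≤ c₃ * (c₁ + c₂ + 1) * (N + 1) := by
    rw [mul_assoc]
    exact Nat.mul_le_mul_left _ (by nlinarith)
  nlinarith [Nat.zero_le N, Nat.zero_le (e₁ * N), Nat.zero_le (k * e₁ * N)]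

end Pool.Agent.Helper79.CU
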