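import Pool.Agent.Helper79.SE.Inst

/-!
# CU: families of curves `F(t, x, y) = 0`: definitions

`R` is a commutative ring (of functions of the parameter), `F` a monic polynomial in `y` over
`R[x]`, and `α F + β F_y = Δ` with `Δ ∈ R[x]`: the curve is étale over the part of the `x`-line where
`Δ ≠ 0`.
-/

open Polynomial

namespace Pool.Agent.Helper79.CU

open Pool.Agent.Helper79.SE

/-! ### Filtrations -/

/-- A multiplicative filtration (bounds for denominators). -/
structure MFilt (A : Type) [CommRing A] where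
  /-- the steps -/
  I : ℕ → AddSubgroup A
  mono : Monotone I
  one : (1 : A) ∈ I 0
  mul : ∀ {m n : ℕ} {x y : A}, x ∈ I m → y ∈ I n → x * y ∈ I (m + n)

/-- The trivial filtration. -/
def triv (A : Type) [CommRing A] : MFilt A where
  I := fun _ => ⊤
  mono := fun _ _ _ => le_rfl
  one := trivial
  mul := fun _ _ => trivial

/-- The generated filtration: sums of products `f r * s_1 ⋯ s_j`, `r ∈ S.I i`, `s_l ∈ T`,
`i + j ≤ N`. -/
def genI {A B : Type} [CommRing A] [CommRing B] (S : MFilt A) (f : A →+* B) (T : Set B) (N : ℕ) :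
    AddSubgroup B :=
  AddSubgroup.closure {b | ∃ (i : ℕ) (r : A) (l : List B), r ∈ S.I i ∧ (∀ s ∈ l, s ∈ T) ∧
    i + l.length ≤ N ∧ b = f r * l.prod}

/-! ### Laurent series in the local parameter `z` -/

section Laurent

variable {R : Type} [CommRing R]

/-- Growth of a Laurent series: pole of order at most `s` and linear growth of the denominators. -/
def LG (S : MFilt R) (E s : ℕ) (f : LaurentSeries R) : Prop :=
  ∀ n : ℤ, (n < -(s : ℤ) → f.coeff n = 0) ∧ f.coeff n ∈ S.I ((E : ℤ) * (n + 2 * s)).toNat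

/-- `g(z) = f(ζ z)`. -/
def Tw (ζ : Rˣ) (f g : LaurentSeries R) : Prop :=
  ∀ n : ℤ, g.coeff n = ((ζ ^ n : Rˣ) : R) * f.coeff n

/-- `p ↦ p(x₀)`, for a Laurent series `x₀`. -/
noncomputable def evL (x₀ : LaurentSeries R) : R[X] →+* LaurentSeries R :=
  Polynomial.eval₂RingHom (HahnSeries.C : R →+* LaurentSeries R) x₀

/-- The derivative `d/dz`. -/
noncomputable def ld (f : LaurentSeries R) : LaurentSeries R := LaurentSeries.derivative R f

/-- The coordinate at a finite place: `x = ρ + z^e`. -/
noncomputable def xfin (e : ℕ) (ρ : R) : LaurentSeries R :=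
  HahnSeries.C ρ + HahnSeries.single (e : ℤ) 1

/-- The coordinate at infinity: `x = z^(-e)`. -/
noncomputable def xinf (R : Type) [CommRing R] (e : ℕ) : LaurentSeries R :=
  HahnSeries.single (-(e : ℤ)) 1

/-- The branches `y_a(z)` of the curve at a place `x = x₀(z)`, the inverse of the Vandermonde matrix,
the inverse of `Δ`, with their growth; the substitution `z ↦ ζ z` permutes the branches. -/
structure Place (S : MFilt R) (F : R[X][X]) (Δ : R[X]) (m E s : ℕ) (ζ : Rˣ)
    (x₀ : LaurentSeries R) (y : Fin m → LaurentSeries R)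
    (Yi : Matrix (Fin m) (Fin m) (LaurentSeries R)) (δ : LaurentSeries R) : Prop where
  root : ∀ a, (F.map (evL x₀)).eval (y a) = 0
  perm : ∃ σ : Equiv.Perm (Fin m), ∀ a, Tw ζ (y a) (y (σ a))
  inv : Yi * Matrix.vandermonde y = 1
  inv' : evL x₀ Δ * δ = 1
  hx : LG S E s x₀
  hy : ∀ a, LG S E s (y a)
  hYi : ∀ l a, LG S E s (Yi l a)
  hδ : LG S E s δ

end Laurent

/-! ### The coordinate ring of the open curve -/

section Ring

variable {R : Type} [CommRing R]

/-- The coordinate ring of the part of the curve `F = 0` where `Δ ≠ 0`. -/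
abbrev BB (F : R[X][X]) (Δ : R[X]) : Type := Localization.Away (AdjoinRoot.mk F (C Δ))

/-- The restriction of polynomials to the curve. -/
noncomputable def iota (F : R[X][X]) (Δ : R[X]) : R[X][X] →+* BB F Δ :=
  (algebraMap (AdjoinRoot F) (BB F Δ)).comp (AdjoinRoot.mk F)

/-- The inverse of `Δ`. -/
noncomputable def dlt (F : R[X][X]) (Δ : R[X]) : BB F Δ :=
  IsLocalization.Away.invSelf (AdjoinRoot.mk F (C Δ))

variable [Algebra ℚ R]

/-- The derivation `d/dx` of `R[x]`. -/
noncomputable def dx (R : Type) [CommRing R] [Algebra ℚ R] : Derivation ℚ R[X] R[X] :=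
  (Polynomial.derivative' : Derivation R R[X] R[X]).restrictScalars ℚ

/-- The coefficientwise derivation of `R[x]`. -/
noncomputable def DX (D : Derivation ℚ R R) : Derivation ℚ R[X] R[X] :=
  Derivation.mk'
    { toFun := dc D
      map_add' := fun p q => by
        ext n
        rw [coeff_dc, coeff_add, map_add, coeff_add, coeff_dc, coeff_dc]
      map_smul' := fun r p => by
        ext n
        rw [coeff_dc, coeff_smul, Derivation.map_smul, RingHom.id_apply, coeff_smul, coeff_dc] }
    (fun p q => by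
      ext n
      change (dc D (p * q)).coeff n = (p * dc D q + q * dc D p).coeff n
      rw [coeff_dc, coeff_mul, map_sum, coeff_add, coeff_mul, mul_comm q, coeff_mul,
        ← Finset.sum_add_distrib]
      refine Finset.sum_congr rfl fun x _ => ?_
      rw [Derivation.leibniz, coeff_dc, coeff_dc, smul_eq_mul, smul_eq_mul]
      ring)

/-- The numerator of `D_x(P/Δ^N)`, with denominator `Δ^(N+1)` (modulo `F`; `D_x y = -β F_x/Δ`). -/
noncomputable def nx (F β : R[X][X]) (Δ : R[X]) (N : ℕ) (P : R[X][X]) : R[X][X] :=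
  C Δ * dc (dx R) P - β * dc (dx R) F * derivative P - (N : R[X][X]) * C (dx R Δ) * P

/-- The numerator of `D_t(P/Δ^N)`, with denominator `Δ^(N+1)` (modulo `F`, `x` constant,
`D_t y = -β F_t/Δ`). -/
noncomputable def nt (D : Derivation ℚ R R) (F β : R[X][X]) (Δ : R[X]) (N : ℕ) (P : R[X][X]) :
    R[X][X] :=
  C Δ * dc (DX D) P - β * dc (DX D) F * derivative P - (N : R[X][X]) * C (DX D Δ) * P

/-- The form `P dx/Δ^N` is exact: it is `d(G/Δ^M)` for some `G`, `M`. -/
def Exact (F β : R[X][X]) (Δ : R[X]) (N : ℕ) (P : R[X][X]) : Prop :=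
  ∃ (G : R[X][X]) (M : ℕ), F ∣ C Δ ^ (M + 1) * P - C Δ ^ N * nx F β Δ M G

/-- Bounds for a polynomial in `x` and `y`: degree in `y`, degree in `x`, denominators. -/
def Bd (S : MFilt R) (m J c : ℕ) (P : R[X][X]) : Prop :=
  P.natDegree < m ∧ ∀ l, (P.coeff l).natDegree ≤ J ∧ ∀ j, (P.coeff l).coeff j ∈ S.I c

end Ring

end Pool.Agent.Helper79.CU
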