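import Pool.Agent.Helper79.CU.Defs

/-!
# CU-01: generated filtrations

Everything by `AddSubgroup.closure_induction`. `genI_mul`: products of generators are generators (concatenate the lists, `f r * f r' = f (r r')`). `genM_map`: the set of `b` with `g b ∈ W.I (c * N)`
is an additive subgroup; for a generator `g (f r * l.prod) = g (f r) * (l.map g).prod ∈ W.I (c i + c l.length) ⊆ W.I (c N)`.
-/

open Polynomial

namespace Pool.Agent.Helper79.CU

section

variable {A B : Type} [CommRing A] [CommRing B] (S : MFilt A) (f : A →+* B) (T : Set B)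

theorem MFilt.pow {x : A} {n : ℕ} (h : x ∈ S.I n) (k : ℕ) : x ^ k ∈ S.I (k * n) := by
  induction k with
  | zero => simpa using S.one
  | succ k ih =>
    have h1 := S.mul ih h
    rw [pow_succ]
    have h2 : (k + 1) * n = k * n + n := by ring
    rw [h2]
    exact h1

theorem MFilt.nat_mem (k n : ℕ) : (k : A) ∈ S.I n := by
  have h0 : (k : A) ∈ S.I 0 := by
    induction k with
    | zero => simpa using (S.I 0).zero_mem
    | succ k ih =>
      rw [Nat.cast_succ]
      exact (S.I 0).add_mem ih S.one
  exact S.mono (Nat.zero_le n) h0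

theorem MFilt.int_mul_mem {x : A} {n : ℕ} (h : x ∈ S.I n) (k : ℤ) : (k : A) * x ∈ S.I n := by
  rw [← zsmul_eq_mul]
  exact (S.I n).zsmul_mem h k

theorem MFilt.list_prod {l : List A} {n : ℕ} (h : ∀ x ∈ l, x ∈ S.I n) :
    l.prod ∈ S.I (l.length * n) := by
  induction l with
  | nil => simpa using S.one
  | cons a l ih =>
    rw [List.prod_cons, List.length_cons]
    have h1 := S.mul (h a (by simp)) (ih (fun x hx => h x (by simp [hx])))
    have h2 : (l.length + 1) * n = n + l.length * n := by ring
    rw [h2]
    exact h1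

theorem genI_mono : Monotone (genI S f T) := by
  intro m n hmn
  apply AddSubgroup.closure_mono
  rintro b ⟨i, r, l, h1, h2, h3, h4⟩
  exact ⟨i, r, l, h1, h2, h3.trans hmn, h4⟩

theorem genI_one : (1 : B) ∈ genI S f T 0 := by
  apply AddSubgroup.subset_closure
  exact ⟨0, 1, [], S.one, by simp, by simp, by simp⟩

theorem genI_mul {m n : ℕ} {x y : B} (hx : x ∈ genI S f T m) (hy : y ∈ genI S f T n) :
    x * y ∈ genI S f T (m + n) := by
  unfold genI at hx
  induction hx using AddSubgroup.closure_induction with
  | mem x hx =>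
    unfold genI at hy
    induction hy using AddSubgroup.closure_induction with
    | mem y hy =>
      obtain ⟨i, r, l, h1, h2, h3, rfl⟩ := hx
      obtain ⟨i', r', l', h1', h2', h3', rfl⟩ := hy
      apply AddSubgroup.subset_closure
      refine ⟨i + i', r * r', l ++ l', S.mul h1 h1', ?_, ?_, ?_⟩
      · intro s hs
        rcases List.mem_append.mp hs with hs | hs
        · exact h2 s hs
        · exact h2' s hs
      · rw [List.length_append]; omega
      · rw [List.prod_append, map_mul]; ring
    | zero => rw [mul_zero]; exact (genI S f T (m + n)).zero_mem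
    | add a b _ _ ha hb => rw [mul_add]; exact (genI S f T (m + n)).add_mem ha hb
    | neg a _ ha => rw [mul_neg]; exact (genI S f T (m + n)).neg_mem ha
  | zero => rw [zero_mul]; exact (genI S f T (m + n)).zero_mem
  | add a b _ _ ha hb => rw [add_mul]; exact (genI S f T (m + n)).add_mem ha hb
  | neg a _ ha => rw [neg_mul]; exact (genI S f T (m + n)).neg_mem ha

/-- The generated filtration. -/
noncomputable def genM : MFilt B where
  I := genI S f T
  mono := genI_mono S f T
  one := genI_one S f T
  mul := genI_mul S f T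

theorem genM_base {r : A} {i : ℕ} (h : r ∈ S.I i) : f r ∈ (genM S f T).I i := by
  apply AddSubgroup.subset_closure
  exact ⟨i, r, [], h, by simp, by simp, by simp⟩

theorem genM_gen {s : B} (h : s ∈ T) : s ∈ (genM S f T).I 1 := by
  apply AddSubgroup.subset_closure
  exact ⟨0, 1, [s], S.one, by simpa using h, by simp, by simp⟩

theorem genM_map {C : Type} [CommRing C] (W : MFilt C) (g : B →+* C) {c : ℕ}
    (h1 : ∀ i r, r ∈ S.I i → g (f r) ∈ W.I (c * i)) (h2 : ∀ s ∈ T, g s ∈ W.I c) {N : ℕ} {b : B}
    (hb : b ∈ (genM S f T).I N) : g b ∈ W.I (c * N) := by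
  change b ∈ AddSubgroup.closure _ at hb
  induction hb using AddSubgroup.closure_induction with
  | mem b hb =>
    obtain ⟨i, r, l, e1, e2, e3, rfl⟩ := hb
    rw [map_mul, map_list_prod]
    have h3 : (l.map g).prod ∈ W.I ((l.map g).length * c) := by
      apply MFilt.list_prod
      intro x hx
      obtain ⟨s, hs, rfl⟩ := List.mem_map.mp hx
      exact h2 s (e2 s hs)
    rw [List.length_map] at h3
    have h4 := W.mul (h1 i r e1) h3
    refine W.mono ?_ h4
    calc c * i + l.length * c = c * (i + l.length) := by ring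
      _ ≤ c * N := Nat.mul_le_mul_left c e3
  | zero => rw [map_zero]; exact (W.I _).zero_mem
  | add a b _ _ ha hb => rw [map_add]; exact (W.I _).add_mem ha hb
  | neg a _ ha => rw [map_neg]; exact (W.I _).neg_mem ha

theorem genM_subset {T' : Set B} (h : T ⊆ T') {N : ℕ} {b : B} (hb : b ∈ (genM S f T).I N) :
    b ∈ (genM S f T').I N := by
  refine AddSubgroup.closure_mono ?_ hb
  rintro b ⟨i, r, l, h1, h2, h3, h4⟩
  exact ⟨i, r, l, h1, fun s hs => h (h2 s hs), h3, h4⟩

end

end Pool.Agent.Helper79.CU
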