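import Pool.Agent.Helper79.CU.Defs

/-!
# CU-13: functionals which vanish on exact forms

Let `K₁ = FractionRing A`, `V` the finite dimensional `K₁`-space of polynomials `P` with `natDegree P < m` and coefficients of degree at most `J` in `x` (as functions `Fin m × Fin (J+1) → K₁`), `E₀ ⊆ V` the subspace of the `P` with
`Exact … N₀ P` over `K₁` (a subspace: exact forms of the same level can be added after multiplication of `G` with a power of `Δ`: `nx (M+1) (Δ G) = Δ nx M G`). The images of the `h_i` in `V / E₀` are linearly independent: a relation over `K₁` gives one over `A`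
(clear denominators of the `c_i`, of `G` and of the quotient by `F`). Choose linear forms `λ_k` on `V` with `λ_k(E₀) = 0`, `λ_k(h_i) = δ_ik` and multiply them with a common denominator `θ`.
For `φ : A → R` injective let `K₂ = FractionRing R`, a field extension of `K₁` (through `φ`), `(π_b)` the coordinate functions of a basis of `K₂` over `K₁`. If `P` over `R` is exact,
`Δ^(M+1) P - Δ^N₀ nx M G = F Q`, then, applying `π_b` to all coefficients (`π_b` is `K₁`-linear and commutes with `d/dx`, `d/dy` and multiplication with polynomials over `K₁`), `π_b(P)` is in `E₀`, so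
`π_b (∑ φ(λ) coefficient) = 0` for all `b`.
-/

open Polynomial

namespace Pool.Agent.Helper79.CU

open Pool.Agent.Helper79.SE

namespace Fn

section Coeffwise

/-- An additive map, applied to the coefficients of a polynomial. -/
noncomputable def ca {S S' : Type} [CommRing S] [CommRing S'] (f : S →+ S') : S[X] →+ S'[X] where
  toFun p := ∑ n ∈ p.support, monomial n (f (p.coeff n))
  map_zero' := by simp
  map_add' p q := by
    have h : ∀ (r : S[X]) (n : ℕ), (∑ n ∈ r.support, monomial n (f (r.coeff n))).coeff n =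
        f (r.coeff n) := by
      intro r n
      rw [finsetSum_coeff]
      simp only [coeff_monomial]
      by_cases hn : n ∈ r.support
      · rw [Finset.sum_ite_eq' , if_pos hn]
      · rw [Finset.sum_ite_eq', if_neg hn, notMem_support_iff.1 hn, map_zero]
    ext n
    rw [h, coeff_add, coeff_add, h, h, map_add]

variable {S S' : Type} [CommRing S] [CommRing S']

theorem coeff_ca (f : S →+ S') (p : S[X]) (n : ℕ) : (ca f p).coeff n = f (p.coeff n) := by
  change (∑ n ∈ p.support, monomial n (f (p.coeff n))).coeff n = f (p.coeff n)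
  rw [finsetSum_coeff]
  simp only [coeff_monomial]
  by_cases hn : n ∈ p.support
  · rw [Finset.sum_ite_eq' , if_pos hn]
  · rw [Finset.sum_ite_eq', if_neg hn, notMem_support_iff.1 hn, map_zero]

theorem ca_map_mul {ψ : S →+* S'} {π : S' →+ S} (h : ∀ a x, π (ψ a * x) = a * π x) (p : S[X])
    (q : S'[X]) : ca π (p.map ψ * q) = p * ca π q := by
  ext n
  rw [coeff_ca, coeff_mul, coeff_mul, map_sum]
  refine Finset.sum_congr rfl fun x _ => ?_
  rw [coeff_map, h, coeff_ca]

theorem ca_derivative (f : S →+ S') (p : S[X]) : ca f (derivative p) = derivative (ca f p) := by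
  ext n
  rw [coeff_ca, coeff_derivative, coeff_derivative, coeff_ca]
  have h1 : p.coeff (n + 1) * ((n : S) + 1) = (n + 1) • p.coeff (n + 1) := by
    rw [nsmul_eq_mul]; push_cast; ring
  rw [h1, map_nsmul, nsmul_eq_mul]
  push_cast; ring

variable [Algebra ℚ S] [Algebra ℚ S']

theorem dx_apply (p : S[X]) : dx S p = derivative p := rfl

theorem ca_dc (f : S →+ S') (P : S[X][X]) :
    ca (ca f) (dc (dx S) P) = dc (dx S') (ca (ca f) P) := by
  ext1 n
  rw [coeff_ca, coeff_dc, coeff_dc, coeff_ca, dx_apply, dx_apply, ca_derivative]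

theorem map_dc (φ : S →+* S') (P : S[X][X]) :
    (dc (dx S) P).map (mapRingHom φ) = dc (dx S') (P.map (mapRingHom φ)) := by
  ext1 n
  rw [coeff_map, coeff_dc, coeff_dc, coeff_map, dx_apply, dx_apply, coe_mapRingHom,
    derivative_map]

theorem map_nx (φ : S →+* S') (F β : S[X][X]) (Δ : S[X]) (N : ℕ) (P : S[X][X]) :
    (nx F β Δ N P).map (mapRingHom φ) = nx (F.map (mapRingHom φ)) (β.map (mapRingHom φ)) (Δ.map φ)
      N (P.map (mapRingHom φ)) := by
  unfold nx
  rw [Polynomial.map_sub, Polynomial.map_sub, Polynomial.map_mul, Polynomial.map_mul,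
    Polynomial.map_mul, Polynomial.map_mul, Polynomial.map_mul, map_dc, map_dc, derivative_map,
    Polynomial.map_natCast, map_C, map_C, dx_apply, dx_apply, coe_mapRingHom, derivative_map]

theorem exact_map (φ : S →+* S') {F β : S[X][X]} {Δ : S[X]} {N : ℕ} {P : S[X][X]}
    (h : Exact F β Δ N P) :
    Exact (F.map (mapRingHom φ)) (β.map (mapRingHom φ)) (Δ.map φ) N (P.map (mapRingHom φ)) := by
  obtain ⟨G, M, Q, hQ⟩ := h
  refine ⟨G.map (mapRingHom φ), M, Q.map (mapRingHom φ), ?_⟩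
  rw [← map_nx, ← Polynomial.map_mul, ← hQ, Polynomial.map_sub, Polynomial.map_mul,
    Polynomial.map_mul, Polynomial.map_pow, Polynomial.map_pow, map_C, coe_mapRingHom]

theorem ca_nx {ψ : S →+* S'} {π : S' →+ S} (h : ∀ a x, π (ψ a * x) = a * π x)
    (F β : S[X][X]) (Δ : S[X]) (N : ℕ) (P : S'[X][X]) :
    ca (ca π) (nx (F.map (mapRingHom ψ)) (β.map (mapRingHom ψ)) (Δ.map ψ) N P) =
      nx F β Δ N (ca (ca π) P) := by
  have h' : ∀ (a : S[X]) (x : S'[X]), ca π (mapRingHom ψ a * x) = a * ca π x :=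
    fun a x => ca_map_mul h a x
  have e1 : nx (F.map (mapRingHom ψ)) (β.map (mapRingHom ψ)) (Δ.map ψ) N P =
      (C Δ).map (mapRingHom ψ) * dc (dx S') P - (β * dc (dx S) F).map (mapRingHom ψ) * derivative P
        - ((N : S[X][X]) * C (dx S Δ)).map (mapRingHom ψ) * P := by
    unfold nx
    rw [Polynomial.map_mul, Polynomial.map_mul, map_dc, Polynomial.map_natCast, map_C, map_C,
      dx_apply, dx_apply, coe_mapRingHom, derivative_map]
  rw [e1, map_sub, map_sub, ca_map_mul h', ca_map_mul h', ca_map_mul h', ca_dc, ca_derivative]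
  unfold nx
  ring

theorem exact_proj {ψ : S →+* S'} {π : S' →+ S} (h : ∀ a x, π (ψ a * x) = a * π x)
    {F β : S[X][X]} {Δ : S[X]} {N : ℕ} {P : S'[X][X]}
    (hP : Exact (F.map (mapRingHom ψ)) (β.map (mapRingHom ψ)) (Δ.map ψ) N P) :
    Exact F β Δ N (ca (ca π) P) := by
  have h' : ∀ (a : S[X]) (x : S'[X]), ca π (mapRingHom ψ a * x) = a * ca π x :=
    fun a x => ca_map_mul h a x
  obtain ⟨G, M, Q, hQ⟩ := hP
  refine ⟨ca (ca π) G, M, ca (ca π) Q, ?_⟩
  have e0 : F * ca (ca π) Q = ca (ca π) (F.map (mapRingHom ψ) * Q) := (ca_map_mul h' F Q).symm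
  have e1 : ∀ n : ℕ, (C (Δ.map ψ) : S'[X][X]) ^ n = ((C Δ) ^ n).map (mapRingHom ψ) := by
    intro n
    rw [Polynomial.map_pow, map_C, coe_mapRingHom]
  rw [e0, ← hQ, map_sub, e1, e1, ca_map_mul h', ca_map_mul h', ca_nx h]

theorem dc_C_mul (Δ : S[X]) (G : S[X][X]) :
    dc (dx S) (C Δ * G) = C (dx S Δ) * G + C Δ * dc (dx S) G := by
  ext1 n
  rw [coeff_dc, coeff_C_mul, Derivation.leibniz, coeff_add, coeff_C_mul, coeff_C_mul, coeff_dc,
    smul_eq_mul, smul_eq_mul]
  ring

theorem nx_succ (F β : S[X][X]) (Δ : S[X]) (M : ℕ) (G : S[X][X]) :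
    nx F β Δ (M + 1) (C Δ * G) = C Δ * nx F β Δ M G := by
  unfold nx
  rw [dc_C_mul, derivative_C_mul]
  push_cast
  ring

theorem nx_add_pow (F β : S[X][X]) (Δ : S[X]) (M k : ℕ) (G : S[X][X]) :
    nx F β Δ (M + k) (C Δ ^ k * G) = C Δ ^ k * nx F β Δ M G := by
  induction k with
  | zero => simp
  | succ k ih =>
    rw [pow_succ', mul_assoc, ← add_assoc, nx_succ, ih, mul_assoc]

theorem nx_add (F β : S[X][X]) (Δ : S[X]) (M : ℕ) (G G' : S[X][X]) :
    nx F β Δ M (G + G') = nx F β Δ M G + nx F β Δ M G' := by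
  have h1 : dc (dx S) (G + G') = dc (dx S) G + dc (dx S) G' := dc_add (dx S) G G'
  unfold nx
  rw [h1, derivative_add]
  ring

theorem nx_C_C_mul (F β : S[X][X]) (Δ : S[X]) (M : ℕ) (c : S) (G : S[X][X]) :
    nx F β Δ M (C (C c) * G) = C (C c) * nx F β Δ M G := by
  have h1 : dc (dx S) (C (C c) * G) = C (C c) * dc (dx S) G := by
    rw [dc_C_mul, dx_apply, derivative_C, C_0, zero_mul, zero_add]
  unfold nx
  rw [h1, derivative_C_mul]
  ring

theorem exact_shift {F β : S[X][X]} {Δ : S[X]} {N : ℕ} {P : S[X][X]} {G : S[X][X]} {M : ℕ}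
    (h : F ∣ C Δ ^ (M + 1) * P - C Δ ^ N * nx F β Δ M G) (k : ℕ) :
    F ∣ C Δ ^ (M + k + 1) * P - C Δ ^ N * nx F β Δ (M + k) (C Δ ^ k * G) := by
  rw [nx_add_pow]
  have e : C Δ ^ (M + k + 1) * P - C Δ ^ N * (C Δ ^ k * nx F β Δ M G) =
      C Δ ^ k * (C Δ ^ (M + 1) * P - C Δ ^ N * nx F β Δ M G) := by
    ring
  rw [e]
  exact h.mul_left _

theorem exact_add {F β : S[X][X]} {Δ : S[X]} {N : ℕ} {P P' : S[X][X]}
    (h : Exact F β Δ N P) (h' : Exact F β Δ N P') : Exact F β Δ N (P + P') := by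
  obtain ⟨G, M, hG⟩ := h
  obtain ⟨G', M', hG'⟩ := h'
  have h1 := exact_shift hG M'
  have h2 := exact_shift hG' M
  rw [add_comm M' M] at h2
  refine ⟨C Δ ^ M' * G + C Δ ^ M * G', M + M', ?_⟩
  have e : C Δ ^ (M + M' + 1) * (P + P') -
      C Δ ^ N * nx F β Δ (M + M') (C Δ ^ M' * G + C Δ ^ M * G') =
      (C Δ ^ (M + M' + 1) * P - C Δ ^ N * nx F β Δ (M + M') (C Δ ^ M' * G)) +
      (C Δ ^ (M + M' + 1) * P' - C Δ ^ N * nx F β Δ (M + M') (C Δ ^ M * G')) := by
    rw [nx_add]
    ring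
  rw [e]
  exact dvd_add h1 h2

theorem exact_C_C_mul {F β : S[X][X]} {Δ : S[X]} {N : ℕ} {P : S[X][X]}
    (h : Exact F β Δ N P) (c : S) : Exact F β Δ N (C (C c) * P) := by
  obtain ⟨G, M, hG⟩ := h
  refine ⟨C (C c) * G, M, ?_⟩
  rw [nx_C_C_mul]
  have e : C Δ ^ (M + 1) * (C (C c) * P) - C Δ ^ N * (C (C c) * nx F β Δ M G) =
      C (C c) * (C Δ ^ (M + 1) * P - C Δ ^ N * nx F β Δ M G) := by
    ring
  rw [e]
  exact hG.mul_left _

theorem exact_zero {F β : S[X][X]} {Δ : S[X]} {N : ℕ} : Exact F β Δ N 0 := by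
  refine ⟨0, 0, ?_⟩
  have h1 : nx F β Δ 0 0 = 0 := by
    have := nx_C_C_mul F β Δ 0 0 0
    simpa using this
  rw [h1]
  simp

omit [Algebra ℚ S] in
theorem smul_eq_C_C_mul (c : S) (P : S[X][X]) : c • P = C (C c) * P := by
  ext1 n
  rw [coeff_smul, coeff_C_mul, smul_eq_C_mul]

/-- The exact forms. -/
def exSub (F β : S[X][X]) (Δ : S[X]) (N : ℕ) : Submodule S S[X][X] where
  carrier := {P | Exact F β Δ N P}
  add_mem' := fun h h' => exact_add h h'
  zero_mem' := exact_zero
  smul_mem' := fun c P h => by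
    rw [smul_eq_C_C_mul]
    exact exact_C_C_mul h c

/-- Denominators can be cleared. -/
def Clr {T T' : Type} [CommRing T] [CommRing T'] (ι : T →+* T') (M : Submonoid T) : Prop :=
  ∀ x : T', ∃ b ∈ M, ∃ a : T, ι a = ι b * x

theorem Clr.poly {T T' : Type} [CommRing T] [CommRing T'] {ι : T →+* T'} {M : Submonoid T}
    (h : Clr ι M) : Clr (mapRingHom ι) (M.map (C : T →+* T[X])) := by
  intro p
  induction p using Polynomial.induction_on' with
  | add p q hp hq =>
    obtain ⟨b, hb, a, ha⟩ := hp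
    obtain ⟨b', hb', a', ha'⟩ := hq
    refine ⟨b * b', mul_mem hb hb', b' * a + b * a', ?_⟩
    rw [map_add, map_mul, map_mul, ha, ha', map_mul]
    ring
  | monomial n x =>
    obtain ⟨b, hb, a, ha⟩ := h x
    refine ⟨C b, ⟨b, hb, rfl⟩, monomial n a, ?_⟩
    rw [coe_mapRingHom, map_monomial, map_C, C_mul_monomial, ha]



theorem Clr.finset {T T' : Type} [CommRing T] [CommRing T'] {ι : T →+* T'} {M : Submonoid T}
    (h : Clr ι M) {α : Type} [DecidableEq α] (s : Finset α) (f : α → T') :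
    ∃ b ∈ M, ∃ g : α → T, ∀ a ∈ s, ι (g a) = ι b * f a := by
  induction s using Finset.induction_on with
  | empty => exact ⟨1, one_mem _, fun _ => 0, fun a ha => absurd ha (Finset.notMem_empty a)⟩
  | insert a s ha ih =>
    obtain ⟨b, hb, g, hg⟩ := ih
    obtain ⟨b', hb', x, hx⟩ := h (f a)
    refine ⟨b * b', mul_mem hb hb', fun c => if c = a then b * x else b' * g c, ?_⟩
    intro c hc
    rcases Finset.mem_insert.1 hc with rfl | hc
    · change ι (if c = c then _ else _) = _
      rw [if_pos rfl, map_mul, map_mul, hx]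
      ring
    · have hne : c ≠ a := fun e => ha (e ▸ hc)
      change ι (if c = a then _ else _) = _
      rw [if_neg hne, map_mul, map_mul, hg c hc]
      ring

theorem clr_frac (A : Type) [CommRing A] [IsDomain A] :
    Clr (algebraMap A (FractionRing A)) (nonZeroDivisors A) := by
  intro x
  obtain ⟨⟨a, b⟩, h⟩ := IsLocalization.surj (nonZeroDivisors A) x
  exact ⟨b, b.2, a, by rw [← h, mul_comm]⟩

theorem exact_descend {ι : S →+* S'} (hι : Function.Injective ι)
    (hcl : Clr ι (nonZeroDivisors S)) [IsDomain S] {F β : S[X][X]} {Δ : S[X]} {N : ℕ}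
    {P : S[X][X]}
    (h : Exact (F.map (mapRingHom ι)) (β.map (mapRingHom ι)) (Δ.map ι) N (P.map (mapRingHom ι))) :
    ∃ b : S, b ≠ 0 ∧ Exact F β Δ N (C (C b) * P) := by
  obtain ⟨G, M, Q, hQ⟩ := h
  have hc2 := hcl.poly.poly
  obtain ⟨_, ⟨_, ⟨b, hb, rfl⟩, rfl⟩, G₀, hG⟩ := hc2 G
  obtain ⟨_, ⟨_, ⟨b', hb', rfl⟩, rfl⟩, Q₀, hQ₀⟩ := hc2 Q
  refine ⟨b * b', mul_ne_zero (nonZeroDivisors.ne_zero hb) (nonZeroDivisors.ne_zero hb'),
    C (C b') * G₀, M, C (C b) * Q₀, ?_⟩
  have hinj : Function.Injective (Polynomial.map (mapRingHom ι)) :=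
    Polynomial.map_injective _ (by
      rw [coe_mapRingHom]
      exact Polynomial.map_injective _ hι)
  apply hinj
  rw [coe_mapRingHom] at hG hQ₀
  have hcc : ∀ c : S, (C (C c) : S[X][X]).map (mapRingHom ι) = C (C (ι c)) := by
    intro c
    rw [map_C, coe_mapRingHom, map_C]
  rw [hcc] at hG hQ₀
  rw [nx_C_C_mul, Polynomial.map_sub, Polynomial.map_mul, Polynomial.map_mul, Polynomial.map_mul,
    Polynomial.map_mul, Polynomial.map_mul, Polynomial.map_mul, map_nx, hG, hQ₀, nx_C_C_mul,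
    Polynomial.map_pow, Polynomial.map_pow, map_C, coe_mapRingHom, hcc, hcc, hcc]
  have e : (C (C (ι (b * b'))) : S'[X][X]) = C (C (ι b)) * C (C (ι b')) := by
    rw [map_mul, C_mul, C_mul]
  rw [e]
  linear_combination (C (C (ι b)) * C (C (ι b'))) * hQ

end Coeffwise

section LinAlg

variable {A K : Type} [CommRing A] [IsDomain A] [Algebra ℚ A] [Field K] [Algebra ℚ K]

omit [Algebra ℚ K] in
/-- The value of a linear form. -/
theorem lin_eval (L : K[X][X] →ₗ[K] K) {m J : ℕ} {P : K[X][X]} (h1 : P.natDegree < m)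
    (h2 : ∀ l, (P.coeff l).natDegree ≤ J) :
    L P = ∑ l ∈ Finset.range m, ∑ j ∈ Finset.range (J + 1),
      L (monomial l (monomial j 1)) * (P.coeff l).coeff j := by
  conv_lhs => rw [P.as_sum_range' m h1]
  rw [map_sum]
  refine Finset.sum_congr rfl fun l _ => ?_
  conv_lhs => rw [(P.coeff l).as_sum_range' (J + 1) (Nat.lt_succ_of_le (h2 l))]
  rw [map_sum, map_sum]
  refine Finset.sum_congr rfl fun j _ => ?_
  have e : (monomial l (monomial j ((P.coeff l).coeff j)) : K[X][X]) =
      (P.coeff l).coeff j • monomial l (monomial j 1) := by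
    rw [smul_monomial, smul_monomial, smul_eq_mul, mul_one]
  rw [e, map_smul, smul_eq_mul, mul_comm]

theorem lin_indep {ι : A →+* K} (hι : Function.Injective ι) (hcl : Clr ι (nonZeroDivisors A))
    {F β : A[X][X]} {Δ : A[X]} {I : Type} [Fintype I] [DecidableEq I] {N₀ : ℕ} {h : I → A[X][X]}
    (ind : ∀ c : I → A, Exact F β Δ N₀ (∑ i, C (C (c i)) * h i) → c = 0) :
    LinearIndependent K (fun i => (exSub (F.map (mapRingHom ι)) (β.map (mapRingHom ι)) (Δ.map ι)
      N₀).mkQ ((h i).map (mapRingHom ι))) := by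
  rw [Fintype.linearIndependent_iff]
  intro g hg
  have h1 : Exact (F.map (mapRingHom ι)) (β.map (mapRingHom ι)) (Δ.map ι) N₀
      (∑ i, C (C (g i)) * (h i).map (mapRingHom ι)) := by
    have h2 : (exSub (F.map (mapRingHom ι)) (β.map (mapRingHom ι)) (Δ.map ι) N₀).mkQ
        (∑ i, g i • (h i).map (mapRingHom ι)) = 0 := by
      rw [map_sum, ← hg]
      exact Finset.sum_congr rfl fun i _ => map_smul _ _ _
    rw [Submodule.mkQ_apply, Submodule.Quotient.mk_eq_zero] at h2
    have h3 : ∑ i, g i • (h i).map (mapRingHom ι) =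
        ∑ i, C (C (g i)) * (h i).map (mapRingHom ι) :=
      Finset.sum_congr rfl fun i _ => smul_eq_C_C_mul _ _
    rw [h3] at h2
    exact h2
  obtain ⟨b, hb, a, ha⟩ := hcl.finset Finset.univ g
  have hcc : ∀ c : A, (C (C c) : A[X][X]).map (mapRingHom ι) = C (C (ι c)) := by
    intro c
    rw [map_C, coe_mapRingHom, map_C]
  have h4 := exact_C_C_mul h1 (ι b)
  have h5 : C (C (ι b)) * ∑ i, C (C (g i)) * (h i).map (mapRingHom ι) =
      (∑ i, C (C (a i)) * h i).map (mapRingHom ι) := by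
    rw [Polynomial.map_sum, Finset.mul_sum]
    refine Finset.sum_congr rfl fun i _ => ?_
    rw [Polynomial.map_mul, hcc, ha i (Finset.mem_univ i), C_mul, C_mul, mul_assoc]
  rw [h5] at h4
  obtain ⟨b', hb', h6⟩ := exact_descend hι hcl h4
  have h7 : C (C b') * ∑ i, C (C (a i)) * h i = ∑ i, C (C (b' * a i)) * h i := by
    rw [Finset.mul_sum]
    refine Finset.sum_congr rfl fun i _ => ?_
    rw [C_mul, C_mul, mul_assoc]
  rw [h7] at h6
  have h8 := ind _ h6
  intro i
  have h9 : b' * a i = 0 := congrFun h8 i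
  have h10 : a i = 0 := (mul_eq_zero.1 h9).resolve_left hb'
  have h11 : ι b * g i = 0 := by rw [← ha i (Finset.mem_univ i), h10, map_zero]
  refine (mul_eq_zero.1 h11).resolve_left fun e => ?_
  exact nonZeroDivisors.ne_zero hb (hι (by rw [e, map_zero]))

omit [Algebra ℚ K] in
theorem dual_forms {V I : Type} [AddCommGroup V] [Module K V] [DecidableEq I] {v : I → V}
    (hv : LinearIndependent K v) :
    ∃ μ : I → V →ₗ[K] K, ∀ k i, μ k (v i) = if i = k then 1 else 0 := by
  obtain ⟨g, hg⟩ := LinearMap.exists_leftInverse_of_injective (Finsupp.linearCombination K v)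
    (LinearMap.ker_eq_bot.2 hv)
  refine ⟨fun k => (Finsupp.lapply k).comp g, ?_⟩
  intro k i
  have h1 : g (v i) = Finsupp.single i 1 := by
    have h2 := LinearMap.congr_fun hg (Finsupp.single i 1)
    simpa using h2
  rw [LinearMap.comp_apply, h1, Finsupp.lapply_apply, Finsupp.single_apply]

theorem eq_zero_of_pi {K₁ K₂ : Type} [Field K₁] [Field K₂] (ψ : K₁ →+* K₂) {x : K₂}
    (h : ∀ π : K₂ →+ K₁, (∀ a y, π (ψ a * y) = a * π y) → π x = 0) : x = 0 := by
  let _ : Algebra K₁ K₂ := ψ.toAlgebra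
  rw [← Module.forall_dual_apply_eq_zero_iff K₁ x]
  intro f
  refine h f.toAddMonoidHom fun a y => ?_
  have h1 := f.map_smul a y
  rw [Algebra.smul_def, smul_eq_mul] at h1
  exact h1

theorem natDegree_ca_le {S S' : Type} [CommRing S] [CommRing S'] (f : S →+ S') (p : S[X]) :
    (ca f p).natDegree ≤ p.natDegree := by
  rw [natDegree_le_iff_coeff_eq_zero]
  intro n hn
  rw [coeff_ca, coeff_eq_zero_of_natDegree_lt hn, map_zero]

end LinAlg

end Fn

open Fn

theorem exists_func {A : Type} [CommRing A] [IsDomain A] [Algebra ℚ A] {F β : A[X][X]}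
    {Δ : A[X]} (hF : F.Monic) {m : ℕ} (hm : F.natDegree = m) (hΔ : Δ ≠ 0) {ι : Type} [Fintype ι]
    [DecidableEq ι] {N₀ J : ℕ} {h : ι → A[X][X]} (h1 : ∀ i, (h i).natDegree < m)
    (h2 : ∀ i l, ((h i).coeff l).natDegree ≤ J)
    (ind : ∀ c : ι → A, Exact F β Δ N₀ (∑ i, C (C (c i)) * h i) → c = 0) :
    ∃ (lam : ι → ℕ → ℕ → A) (θ : A), θ ≠ 0 ∧
      (∀ k i, ∑ l ∈ Finset.range m, ∑ j ∈ Finset.range (J + 1),
        lam k l j * ((h i).coeff l).coeff j = if i = k then θ else 0) ∧
      ∀ {R : Type} [CommRing R] [IsDomain R] [Algebra ℚ R] (φ : A →+* R),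
        Function.Injective φ → ∀ P : R[X][X], P.natDegree < m →
        (∀ l, (P.coeff l).natDegree ≤ J) →
        Exact (F.map (mapRingHom φ)) (β.map (mapRingHom φ)) (Δ.map φ) N₀ P →
        ∀ k, ∑ l ∈ Finset.range m, ∑ j ∈ Finset.range (J + 1),
          φ (lam k l j) * (P.coeff l).coeff j = 0 := by
  have hκ : Function.Injective (algebraMap A (FractionRing A)) :=
    IsFractionRing.injective A (FractionRing A)
  have hcl := clr_frac A
  set κ : A →+* FractionRing A := algebraMap A (FractionRing A) with hκd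
  obtain ⟨L, hL1, hL2⟩ : ∃ L : ι → (FractionRing A)[X][X] →ₗ[FractionRing A] FractionRing A,
      (∀ k i, L k ((h i).map (mapRingHom κ)) = if i = k then 1 else 0) ∧
      ∀ k P, Exact (F.map (mapRingHom κ)) (β.map (mapRingHom κ)) (Δ.map κ) N₀ P →
        L k P = 0 := by
    obtain ⟨μ, hμ⟩ := dual_forms (lin_indep hκ hcl ind)
    refine ⟨fun k => (μ k).comp (exSub _ _ _ _).mkQ, hμ, ?_⟩
    intro k P hP
    have h3 : (exSub (F.map (mapRingHom κ)) (β.map (mapRingHom κ)) (Δ.map κ) N₀).mkQ P = 0 := by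
      rw [Submodule.mkQ_apply, Submodule.Quotient.mk_eq_zero]
      exact hP
    rw [LinearMap.comp_apply, h3, map_zero]
  obtain ⟨θ, hθ, g, hg⟩ := hcl.finset
    (Finset.univ ×ˢ (Finset.range m ×ˢ Finset.range (J + 1)) : Finset (ι × ℕ × ℕ))
    (fun x => L x.1 (monomial x.2.1 (monomial x.2.2 1)))
  have hg' : ∀ k, ∀ l ∈ Finset.range m, ∀ j ∈ Finset.range (J + 1),
      κ (g (k, l, j)) = κ θ * L k (monomial l (monomial j 1)) := by
    intro k l hl j hj
    exact hg (k, l, j) (Finset.mem_product.2 ⟨Finset.mem_univ _, Finset.mem_product.2 ⟨hl, hj⟩⟩)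
  refine ⟨fun k l j => g (k, l, j), θ, nonZeroDivisors.ne_zero hθ, ?_, ?_⟩
  · intro k i
    apply hκ
    have h3 := lin_eval (L k) (m := m) (J := J) (P := (h i).map (mapRingHom κ))
      (lt_of_le_of_lt natDegree_map_le (h1 i)) (fun l => by
        rw [coeff_map, coe_mapRingHom]
        exact le_trans natDegree_map_le (h2 i l))
    rw [hL1] at h3
    rw [map_sum]
    have h4 : κ (if i = k then θ else 0) = κ θ * (if i = k then 1 else 0) := by
      split_ifs <;> simp
    rw [h4, h3, Finset.mul_sum]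
    refine Finset.sum_congr rfl fun l hl => ?_
    rw [map_sum, Finset.mul_sum]
    refine Finset.sum_congr rfl fun j hj => ?_
    rw [map_mul, hg' k l hl j hj, coeff_map, coe_mapRingHom, coeff_map, mul_assoc]
  · intro R _ _ _ φ hφ P hP1 hP2 hP3 k
    have hκ₂ : Function.Injective (algebraMap R (FractionRing R)) :=
      IsFractionRing.injective R (FractionRing R)
    set κ₂ : R →+* FractionRing R := algebraMap R (FractionRing R) with hκ₂d
    obtain ⟨ψ, hψ⟩ : ∃ ψ : FractionRing A →+* FractionRing R, ∀ a, ψ (κ a) = κ₂ (φ a) :=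
      ⟨IsFractionRing.map hφ, fun a => IsLocalization.map_eq _ _⟩
    have hcomp : ψ.comp κ = κ₂.comp φ := RingHom.ext hψ
    have hm2 : ∀ Q : A[X][X], (Q.map (mapRingHom φ)).map (mapRingHom κ₂) =
        (Q.map (mapRingHom κ)).map (mapRingHom ψ) := by
      intro Q
      rw [Polynomial.map_map, Polynomial.map_map, mapRingHom_comp, mapRingHom_comp, hcomp]
    have hm1 : ∀ Q : A[X], (Q.map φ).map κ₂ = (Q.map κ).map ψ := by
      intro Q
      rw [Polynomial.map_map, Polynomial.map_map, hcomp]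
    have h3 := exact_map κ₂ hP3
    rw [hm2, hm2, hm1] at h3
    have h4 : ∑ l ∈ Finset.range m, ∑ j ∈ Finset.range (J + 1),
        ψ (L k (monomial l (monomial j 1))) * κ₂ ((P.coeff l).coeff j) = 0 := by
      refine eq_zero_of_pi ψ fun π hπ => ?_
      have h5 := hL2 k _ (exact_proj hπ h3)
      rw [lin_eval (L k) (m := m) (J := J)] at h5
      · rw [map_sum, ← h5]
        refine Finset.sum_congr rfl fun l _ => ?_
        rw [map_sum]
        refine Finset.sum_congr rfl fun j _ => ?_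
        rw [hπ, coeff_ca, coeff_ca, coeff_map, coe_mapRingHom, coeff_map]
      · exact lt_of_le_of_lt (natDegree_ca_le _ _) (lt_of_le_of_lt natDegree_map_le hP1)
      · intro l
        rw [coeff_ca, coeff_map, coe_mapRingHom]
        exact le_trans (natDegree_ca_le _ _) (le_trans natDegree_map_le (hP2 l))
    apply hκ₂
    rw [map_zero, map_sum, ← mul_zero (κ₂ (φ θ)), ← h4, Finset.mul_sum]
    refine Finset.sum_congr rfl fun l hl => ?_
    rw [map_sum, Finset.mul_sum]
    refine Finset.sum_congr rfl fun j hj => ?_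
    rw [map_mul, ← hψ, hg' k l hl j hj, map_mul, hψ, mul_assoc]

end Pool.Agent.Helper79.CU
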