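import Pool.Agent.Helper79.CU.Lau

/-!
# CU-19: transport of places

`x ∈ genI (triv ℤ) _ T N` implies `x ∈ adjoin A T` and `ψ x ∈ S.I (e₁ N)` (closure induction). So all coefficients of `y_a`, `Yi`, `δ` are in `O = adjoin A T`; let `y'`, `Yi'`, `δ'` be their images under `ψ`, coefficientwise (a ring homomorphism from the Laurent series
over `O`, which are a subring of those over `L`; all identities hold over `O`, because `O → L` is injective, and are mapped to identities over `R`). `F.map … (algebraMap A L)` has coefficients in the image of `A → O`. Growth: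
`(E (n + 2 s)).toNat` is multiplied by `e₁`.
`root_map`: `ψ ζ` is a unit with inverse `ψ ζ⁻¹`, `(ψ ζ)^e = 1`; for `0 < k < e`, `ζ^k ≠ 1` and `1 - ζ^k` divides the integer `e` in `ℤ[ζ]` (`∏_{0 < k < e} (1 - ζ^k) = e`), so `1 - (ψ ζ)^k` divides `e ≠ 0` in `R`.
-/

open Polynomial

namespace Pool.Agent.Helper79.CU

section Map

variable {R R' : Type} [CommRing R] [CommRing R'] (f : R →+* R')

/-- A ring homomorphism, applied to the coefficients of a Laurent series. -/
private noncomputable def h45m : LaurentSeries R →+* LaurentSeries R' where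
  toFun x := HahnSeries.map x f
  map_one' := HahnSeries.map_one f.toMonoidWithZeroHom
  map_mul' _ _ := HahnSeries.map_mul (f : R →ₙ+* R')
  map_zero' := HahnSeries.map_zero (f.toMonoidWithZeroHom.toZeroHom)
  map_add' _ _ := HahnSeries.map_add (f : R →+ R')

private theorem h45m_coeff (x : LaurentSeries R) (n : ℤ) :
    (h45m f x).coeff n = f (x.coeff n) := rfl

private theorem h45m_C (r : R) : h45m f (HahnSeries.C r) = HahnSeries.C (f r) := by
  ext n
  rw [h45m_coeff]
  by_cases hn : n = 0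
  · subst hn
    rw [HahnSeries.C_apply, HahnSeries.C_apply, HahnSeries.coeff_single_same,
      HahnSeries.coeff_single_same]
  · rw [HahnSeries.C_apply, HahnSeries.C_apply, HahnSeries.coeff_single_of_ne hn,
      HahnSeries.coeff_single_of_ne hn, map_zero]

private theorem h45m_inj (hf : Function.Injective f) : Function.Injective (h45m f) := by
  intro x y hxy
  ext n
  apply hf
  rw [← h45m_coeff, ← h45m_coeff, hxy]

private theorem h45m_evL_hom {A : Type} [CommRing A] (g : A →+* R) (X₀ : LaurentSeries R) :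
    (evL (h45m f X₀)).comp (mapRingHom (f.comp g)) =
      (h45m f).comp ((evL X₀).comp (mapRingHom g)) := by
  apply Polynomial.ringHom_ext
  · intro a
    simp only [RingHom.comp_apply, coe_mapRingHom, map_C, evL_C, h45m_C]
  · simp only [RingHom.comp_apply, coe_mapRingHom, map_X, evL_X]

private theorem h45m_evL {A : Type} [CommRing A] (g : A →+* R) (X₀ : LaurentSeries R) (Δ : A[X]) :
    evL (h45m f X₀) (Δ.map (f.comp g)) = h45m f (evL X₀ (Δ.map g)) :=
  congrArg (fun φ => φ Δ) (h45m_evL_hom f g X₀)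

private theorem h45m_root {A : Type} [CommRing A] (g : A →+* R) (X₀ Y : LaurentSeries R)
    (F : A[X][X]) :
    ((F.map (mapRingHom (f.comp g))).map (evL (h45m f X₀))).eval (h45m f Y) =
      h45m f (((F.map (mapRingHom g)).map (evL X₀)).eval Y) := by
  rw [Polynomial.map_map, Polynomial.map_map, eval_map, eval_map, hom_eval₂, h45m_evL_hom]

private theorem h45m_Tw (u : Rˣ) {Y Z : LaurentSeries R} (h : Tw u Y Z) :
    Tw (Units.map (f : R →* R') u) (h45m f Y) (h45m f Z) := by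
  intro n
  rw [h45m_coeff, h45m_coeff, h n, map_mul, ← map_zpow]
  rfl

private theorem h45m_Tw_inj (hf : Function.Injective f) (u : Rˣ) {Y Z : LaurentSeries R}
    (h : Tw (Units.map (f : R →* R') u) (h45m f Y) (h45m f Z)) : Tw u Y Z := by
  intro n
  apply hf
  have := h n
  rw [h45m_coeff, h45m_coeff, ← map_zpow] at this
  rw [this, map_mul]
  rfl

private theorem h45m_vander {m : ℕ} (Y : Fin m → LaurentSeries R)
    (Yi : Matrix (Fin m) (Fin m) (LaurentSeries R)) :
    (Yi.map (h45m f)) * Matrix.vandermonde (fun a => h45m f (Y a)) =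
      (Yi * Matrix.vandermonde Y).map (h45m f) := by
  rw [Matrix.map_mul]
  congr 1
  ext i j : 2
  simp [Matrix.vandermonde_apply]

private theorem h45m_one {m : ℕ} :
    (1 : Matrix (Fin m) (Fin m) (LaurentSeries R)).map (h45m f) = 1 :=
  Matrix.map_one _ (map_zero _) (map_one _)

end Map

section

variable {A L R : Type} [CommRing A] [Field L] [CharZero L] [CommRing R] [IsDomain R] [CharZero R]
  [Algebra A L] {T : Set L} (ψ : Algebra.adjoin A T →+* R)

/-- A Laurent series with coefficients in a subalgebra. -/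
private noncomputable def h45l (O : Subalgebra A L) (x : LaurentSeries L)
    (h : ∀ n, x.coeff n ∈ O) : LaurentSeries O where
  coeff n := ⟨x.coeff n, h n⟩
  isPWO_support' := by
    refine x.isPWO_support.mono ?_
    intro n hn hx
    apply hn
    ext
    exact hx

omit [CharZero L] in
private theorem h45l_coeff (O : Subalgebra A L) (x : LaurentSeries L)
    (h : ∀ n, x.coeff n ∈ O) (n : ℤ) : (h45l O x h).coeff n = ⟨x.coeff n, h n⟩ := rfl

omit [CharZero L] in
private theorem h45l_map (O : Subalgebra A L) (x : LaurentSeries L)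
    (h : ∀ n, x.coeff n ∈ O) : h45m (O.val : O →+* L) (h45l O x h) = x := by
  ext n
  rfl

/-- The unit `ζ` of the subalgebra. -/
private def h45u {ζ : Lˣ} (h1 : (ζ : L) ∈ T) (h2 : ((ζ⁻¹ : Lˣ) : L) ∈ T) :
    (Algebra.adjoin A T)ˣ where
  val := ⟨ζ, Algebra.subset_adjoin h1⟩
  inv := ⟨((ζ⁻¹ : Lˣ) : L), Algebra.subset_adjoin h2⟩
  val_inv := by
    ext
    simp
  inv_val := by
    ext
    simp

theorem root_map {e : ℕ} (he : 1 ≤ e) {ζ : Lˣ} (hζ : IsPrimitiveRoot ζ e) (h1 : (ζ : L) ∈ T)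
    (h2 : ((ζ⁻¹ : Lˣ) : L) ∈ T) : ∃ ζ' : Rˣ, IsPrimitiveRoot ζ' e ∧
      (ζ' : R) = ψ ⟨ζ, Algebra.subset_adjoin h1⟩ := by
  refine ⟨Units.map (ψ : Algebra.adjoin A T →* R) (h45u h1 h2), ?_, rfl⟩
  have : NeZero e := ⟨by omega⟩
  have : CharZero (Algebra.adjoin A T) := ((Algebra.adjoin A T).val : _ →+* L).charZero
  rw [← IsPrimitiveRoot.coe_units_iff, ← Polynomial.isRoot_cyclotomic_iff (n := e) (R := R)]
  have h3 : IsPrimitiveRoot (⟨ζ, Algebra.subset_adjoin h1⟩ : Algebra.adjoin A T) e := by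
    apply IsPrimitiveRoot.of_map_of_injective (f := (Algebra.adjoin A T).val)
      (hf := Subtype.val_injective)
    exact IsPrimitiveRoot.coe_units_iff.2 hζ
  have h4 := (Polynomial.isRoot_cyclotomic_iff (n := e) (R := Algebra.adjoin A T)).2 h3
  have h5 := h4.map (f := ψ)
  rw [map_cyclotomic] at h5
  exact h5

omit [CharZero L] [IsDomain R] [CharZero R] in
private theorem h45_list {S : MFilt R} {e₁ : ℕ}
    (hψ : ∀ (x : L) (hx : x ∈ T), ψ ⟨x, Algebra.subset_adjoin hx⟩ ∈ S.I e₁) (l : List L)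
    (hl : ∀ s ∈ l, s ∈ T) :
    ∃ h : l.prod ∈ Algebra.adjoin A T, ψ ⟨l.prod, h⟩ ∈ S.I (e₁ * l.length) := by
  induction l with
  | nil =>
    refine ⟨by simpa using one_mem _, ?_⟩
    have : (⟨([] : List L).prod, by simpa using one_mem _⟩ : Algebra.adjoin A T) = 1 := by
      ext
      simp
    rw [this, map_one]
    exact S.one
  | cons a l ih =>
    obtain ⟨h, h'⟩ := ih (fun s hs => hl s (List.mem_cons_of_mem _ hs))
    have ha := hl a List.mem_cons_self
    have hm : (a :: l).prod ∈ Algebra.adjoin A T := by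
      rw [List.prod_cons]
      exact mul_mem (Algebra.subset_adjoin ha) h
    refine ⟨hm, ?_⟩
    have : (⟨(a :: l).prod, hm⟩ : Algebra.adjoin A T) =
        ⟨a, Algebra.subset_adjoin ha⟩ * ⟨l.prod, h⟩ := by
      ext
      simp
    rw [this, map_mul]
    have h3 := S.mul (hψ a ha) h'
    have h4 : e₁ * (a :: l).length = e₁ + e₁ * l.length := by
      rw [List.length_cons]
      ring
    rw [h4]
    exact h3

omit [CharZero L] [IsDomain R] [CharZero R] in
private theorem h45_gen {S : MFilt R} {e₁ : ℕ}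
    (hψ : ∀ (x : L) (hx : x ∈ T), ψ ⟨x, Algebra.subset_adjoin hx⟩ ∈ S.I e₁) {N : ℕ} {x : L}
    (hx : x ∈ genI (triv ℤ) (Int.castRingHom L) T N) :
    ∃ h : x ∈ Algebra.adjoin A T, ψ ⟨x, h⟩ ∈ S.I (e₁ * N) := by
  unfold genI at hx
  induction hx using AddSubgroup.closure_induction with
  | mem b hb =>
    obtain ⟨i, r, l, -, hl, hi, rfl⟩ := hb
    obtain ⟨h, h'⟩ := h45_list ψ hψ l hl
    have hr : (Int.castRingHom L) r ∈ Algebra.adjoin A T := by
      simpa using intCast_mem (Algebra.adjoin A T) r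
    refine ⟨mul_mem hr h, ?_⟩
    have h1 : (⟨(Int.castRingHom L) r * l.prod, mul_mem hr h⟩ : Algebra.adjoin A T) =
        (r : Algebra.adjoin A T) * ⟨l.prod, h⟩ := by
      ext
      simp
    rw [h1, map_mul, map_intCast]
    apply MFilt.int_mul_mem
    exact S.mono (Nat.mul_le_mul_left _ (by omega)) h'
  | zero =>
    refine ⟨zero_mem _, ?_⟩
    have h1 : (⟨0, zero_mem _⟩ : Algebra.adjoin A T) = 0 := rfl
    rw [h1, map_zero]
    exact zero_mem _
  | add x y _ _ hx hy =>
    obtain ⟨h, h'⟩ := hx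
    obtain ⟨k, k'⟩ := hy
    refine ⟨add_mem h k, ?_⟩
    have h1 : (⟨x + y, add_mem h k⟩ : Algebra.adjoin A T) = ⟨x, h⟩ + ⟨y, k⟩ := rfl
    rw [h1, map_add]
    exact add_mem h' k'
  | neg x _ hx =>
    obtain ⟨h, h'⟩ := hx
    refine ⟨neg_mem h, ?_⟩
    have h1 : (⟨-x, neg_mem h⟩ : Algebra.adjoin A T) = -⟨x, h⟩ := rfl
    rw [h1, map_neg]
    exact neg_mem h'

omit [CharZero L] [IsDomain R] [CharZero R] in
private theorem h45_LG {S : MFilt R} {e₁ : ℕ}
    (hψ : ∀ (x : L) (hx : x ∈ T), ψ ⟨x, Algebra.subset_adjoin hx⟩ ∈ S.I e₁) {E s : ℕ}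
    {f : LaurentSeries L} (hf : LG (genM (triv ℤ) (Int.castRingHom L) T) E s f)
    (h : ∀ n, f.coeff n ∈ Algebra.adjoin A T) :
    LG S (E * e₁) s (h45m ψ (h45l (Algebra.adjoin A T) f h)) := by
  intro n
  constructor
  · intro hn
    rw [h45m_coeff, h45l_coeff]
    have h1 : (⟨f.coeff n, h n⟩ : Algebra.adjoin A T) = 0 := by
      ext
      exact (hf n).1 hn
    rw [h1, map_zero]
  · rw [h45m_coeff, h45l_coeff]
    obtain ⟨k, k'⟩ := h45_gen ψ hψ (hf n).2
    have h2 : (((E * e₁ : ℕ) : ℤ) * (n + 2 * s)).toNat = e₁ * ((E : ℤ) * (n + 2 * s)).toNat := by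
      have h3 : ((E * e₁ : ℕ) : ℤ) * (n + 2 * s) = (e₁ : ℤ) * ((E : ℤ) * (n + 2 * s)) := by
        push_cast
        ring
      rw [h3]
      generalize (E : ℤ) * (n + 2 * s) = z
      rcases le_total 0 z with hz | hz
      · rw [Int.toNat_mul (by positivity) hz, Int.toNat_natCast]
      · rw [Int.toNat_of_nonpos hz, Nat.mul_zero, Int.toNat_of_nonpos]
        exact mul_nonpos_of_nonneg_of_nonpos (by positivity) hz
    rw [h2]
    exact k'

omit [CharZero L] [IsDomain R] [CharZero R] in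
private theorem h45_coeff_mem {S : MFilt R} {e₁ : ℕ}
    (hψ : ∀ (x : L) (hx : x ∈ T), ψ ⟨x, Algebra.subset_adjoin hx⟩ ∈ S.I e₁) {E s : ℕ}
    {f : LaurentSeries L} (hf : LG (genM (triv ℤ) (Int.castRingHom L) T) E s f) (n : ℤ) :
    f.coeff n ∈ Algebra.adjoin A T :=
  (h45_gen ψ hψ (hf n).2).1

theorem place_map {S : MFilt R} {e₁ : ℕ}
    (hψ : ∀ (x : L) (hx : x ∈ T), ψ ⟨x, Algebra.subset_adjoin hx⟩ ∈ S.I e₁) {F : A[X][X]}
    {Δ : A[X]} {m E s : ℕ} {ζ : Lˣ} (h1 : (ζ : L) ∈ T) (h2 : ((ζ⁻¹ : Lˣ) : L) ∈ T) {ζ' : Rˣ}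
    (hζ' : (ζ' : R) = ψ ⟨ζ, Algebra.subset_adjoin h1⟩) {x₀ : LaurentSeries L}
    {x₀' : LaurentSeries R}
    (hx : ∀ n, ∃ h : x₀.coeff n ∈ Algebra.adjoin A T, x₀'.coeff n = ψ ⟨x₀.coeff n, h⟩)
    {y : Fin m → LaurentSeries L} {Yi : Matrix (Fin m) (Fin m) (LaurentSeries L)}
    {δ : LaurentSeries L} (hp : Place (genM (triv ℤ) (Int.castRingHom L) T)
      (F.map (mapRingHom (algebraMap A L))) (Δ.map (algebraMap A L)) m E s ζ x₀ y Yi δ) :
    ∃ y' Yi' δ', Place S
      (F.map (mapRingHom (ψ.comp (algebraMap A (Algebra.adjoin A T)))))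
      (Δ.map (ψ.comp (algebraMap A (Algebra.adjoin A T)))) m (E * e₁) s ζ' x₀' y' Yi' δ' := by
  set ι : Algebra.adjoin A T →+* L := ((Algebra.adjoin A T).val : Algebra.adjoin A T →+* L) with hι
  have hιinj : Function.Injective ι := Subtype.val_injective
  have hcomp : algebraMap A L = ι.comp (algebraMap A (Algebra.adjoin A T)) := rfl
  have hX := fun n => h45_coeff_mem ψ hψ hp.hx n
  have hY := fun a n => h45_coeff_mem ψ hψ (hp.hy a) n
  have hW := fun l a n => h45_coeff_mem ψ hψ (hp.hYi l a) n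
  have hD := fun n => h45_coeff_mem ψ hψ hp.hδ n
  set X₀ : LaurentSeries (Algebra.adjoin A T) := h45l (Algebra.adjoin A T) x₀ hX with hX₀
  set Y : Fin m → LaurentSeries (Algebra.adjoin A T) := fun a => h45l (Algebra.adjoin A T) (y a) (hY a) with hYd
  set W : Matrix (Fin m) (Fin m) (LaurentSeries (Algebra.adjoin A T)) :=
    Matrix.of fun l a => h45l (Algebra.adjoin A T) (Yi l a) (hW l a) with hWd
  set D : LaurentSeries (Algebra.adjoin A T) := h45l (Algebra.adjoin A T) δ hD with hDd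
  have eX : h45m ι X₀ = x₀ := h45l_map _ _ _
  have eY : ∀ a, h45m ι (Y a) = y a := fun a => h45l_map _ _ _
  have eW : W.map (h45m ι) = Yi := by
    refine Matrix.ext fun l a => ?_
    exact h45l_map (Algebra.adjoin A T) (Yi l a) (hW l a)
  have eD : h45m ι D = δ := h45l_map _ _ _
  have ex : x₀' = h45m ψ X₀ := by
    ext n
    obtain ⟨h, h'⟩ := hx n
    rw [h', h45m_coeff, hX₀, h45l_coeff]
  have hu : Units.map (ι : Algebra.adjoin A T →* L) (h45u (A := A) h1 h2) = ζ := by
    ext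
    rfl
  have hu' : Units.map (ψ : Algebra.adjoin A T →* R) (h45u h1 h2) = ζ' := by
    ext
    exact hζ'.symm
  refine ⟨fun a => h45m ψ (Y a), W.map (h45m ψ), h45m ψ D, ?_, ?_, ?_, ?_, ?_, ?_, ?_, ?_⟩
  · intro a
    have h3 := hp.root a
    rw [hcomp, ← eX, ← eY a, h45m_root] at h3
    have h4 := h45m_inj ι hιinj (h3.trans (map_zero _).symm)
    rw [ex, h45m_root, h4, map_zero]
  · obtain ⟨σ, hσ⟩ := hp.perm
    refine ⟨σ, fun a => ?_⟩
    have h3 := hσ a
    rw [← hu, ← eY a, ← eY (σ a)] at h3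
    have h4 := h45m_Tw_inj ι hιinj _ h3
    have h5 := h45m_Tw ψ _ h4
    rw [hu'] at h5
    exact h5
  · have h3 := hp.inv
    have h4 : (fun a => h45m ι (Y a)) = y := funext eY
    rw [← h4, ← eW, h45m_vander, ← h45m_one ι] at h3
    have h5 := Matrix.map_injective (h45m_inj ι hιinj) h3
    rw [h45m_vander, h5, h45m_one]
  · have h3 := hp.inv'
    rw [hcomp, ← eX, ← eD, h45m_evL, ← map_mul] at h3
    have h4 := h45m_inj ι hιinj (h3.trans (map_one _).symm)
    rw [ex, h45m_evL, ← map_mul, h4, map_one]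
  · rw [ex]
    exact h45_LG ψ hψ hp.hx hX
  · intro a
    exact h45_LG ψ hψ (hp.hy a) (hY a)
  · intro l a
    exact h45_LG ψ hψ (hp.hYi l a) (hW l a)
  · exact h45_LG ψ hψ hp.hδ hD

end

end Pool.Agent.Helper79.CU
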