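import Pool.Agent.Helper79.CU.Pl
import Pool.Agent.Helper79.CU.Tr

/-!
# CU: assembly, the places over a filtered ring
-/

open Polynomial

namespace Pool.Agent.Helper79.CU

theorem delta_split {L : Type} [Field L] [IsAlgClosed L] {Δ : L[X]} (hΔ : Δ ≠ 0) :
    ∃ (r : ℕ) (ρ : Fin r → L) (nu : Fin r → ℕ), (∀ i, 1 ≤ nu i) ∧ Function.Injective ρ ∧
      (∀ i, Δ.eval (ρ i) = 0) ∧ Δ = C Δ.leadingCoeff * ∏ i, (X - C (ρ i)) ^ nu i := by
  classical
  obtain ⟨s, hs⟩ : ∃ s, s = Δ.roots.toFinset := ⟨_, rfl⟩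
  have hmem : ∀ x ∈ s, x ∈ Δ.roots := fun x hx => by
    rw [hs, Multiset.mem_toFinset] at hx
    exact hx
  obtain ⟨e⟩ : Nonempty (Fin s.card ≃ s) := ⟨s.equivFin.symm⟩
  refine ⟨s.card, fun i => (e i : L), fun i => Δ.roots.count (e i : L), ?_, ?_, ?_, ?_⟩
  · intro i
    exact Multiset.one_le_count_iff_mem.2 (hmem _ (e i).2)
  · intro i j h
    exact e.injective (Subtype.ext h)
  · intro i
    exact (mem_roots hΔ).1 (hmem _ (e i).2)
  · have h1 := (IsAlgClosed.splits Δ).eq_prod_roots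
    have h2 : (Δ.roots.map fun a => X - C a).prod = ∏ i, (X - C ((e i : L))) ^
        Δ.roots.count (e i : L) := by
      rw [Finset.prod_multiset_map_count, ← hs, ← Finset.prod_coe_sort]
      exact (Equiv.prod_comp e (fun a : s => (X - C (a : L)) ^ Δ.roots.count (a : L))).symm
    rw [← h2]
    exact h1

theorem geom {A L : Type} [CommRing A] [Field L] [IsAlgClosed L] [CharZero L] [Algebra A L]
    (hinj : Function.Injective (algebraMap A L)) {F α β : A[X][X]} {Δ : A[X]} (hF : F.Monic)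
    {m : ℕ} (hm : F.natDegree = m) (hm1 : 1 ≤ m) (hΔ : Δ ≠ 0)
    (bez : α * F + β * derivative F = C Δ) :
    ∃ (T : Set L) (e E s r : ℕ) (nu : Fin r → ℕ), T.Finite ∧ 1 ≤ e ∧ 1 ≤ E ∧ 1 ≤ s ∧
      (∀ i, 1 ≤ nu i) ∧
      ∀ {R : Type} [CommRing R] [IsDomain R] [CharZero R] (ψ : Algebra.adjoin A T →+* R)
        (S : MFilt R) (e₁ : ℕ), 1 ≤ e₁ →
        (∀ (x : L) (hx : x ∈ T), ψ ⟨x, Algebra.subset_adjoin hx⟩ ∈ S.I e₁) →
        ∃ (ζ : Rˣ) (ρ : Fin r → R) (δ₀ : Rˣ), IsPrimitiveRoot ζ e ∧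
          Δ.map (ψ.comp (algebraMap A (Algebra.adjoin A T))) =
            C (δ₀ : R) * ∏ i, (X - C (ρ i)) ^ nu i ∧
          (∀ i j, i ≠ j → IsUnit (ρ i - ρ j)) ∧ (∀ i, ρ i ∈ S.I e₁) ∧ (δ₀ : R) ∈ S.I e₁ ∧
          ((δ₀⁻¹ : Rˣ) : R) ∈ S.I e₁ ∧
          (∀ i, ∃ y Yi δ, Place S
            (F.map (mapRingHom (ψ.comp (algebraMap A (Algebra.adjoin A T)))))
            (Δ.map (ψ.comp (algebraMap A (Algebra.adjoin A T)))) m (E * e₁) s ζ
            (xfin e (ρ i)) y Yi δ) ∧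
          ∃ y Yi δ, Place S
            (F.map (mapRingHom (ψ.comp (algebraMap A (Algebra.adjoin A T)))))
            (Δ.map (ψ.comp (algebraMap A (Algebra.adjoin A T)))) m (E * e₁) s ζ
            (xinf R e) y Yi δ := by
  set j : A →+* L := algebraMap A L with hj
  have hjp : Function.Injective (mapRingHom j) := map_injective j hinj
  set FL := F.map (mapRingHom j) with hFL
  set ΔL := Δ.map j with hΔL
  have hFLm : FL.Monic := hF.map _
  have hFLd : FL.natDegree = m := by rw [hFL, hF.natDegree_map, hm]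
  have hΔL0 : ΔL ≠ 0 := (Polynomial.map_ne_zero_iff hinj).2 hΔ
  have bezL : α.map (mapRingHom j) * FL + β.map (mapRingHom j) * derivative FL = C ΔL := by
    have h := congrArg (Polynomial.map (mapRingHom j)) bez
    rw [Polynomial.map_add, Polynomial.map_mul, Polynomial.map_mul, map_C,
      ← derivative_map] at h
    exact h
  obtain ⟨r, ρ, nu, hnu, hρ, hρ0, hsplit⟩ := delta_split hΔL0
  set T₀ : Set L := Set.range ρ ∪ (Set.range (fun p : Fin r × Fin r => (ρ p.1 - ρ p.2)⁻¹) ∪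
    {ΔL.leadingCoeff, ΔL.leadingCoeff⁻¹}) with hT₀
  have hT₀f : T₀.Finite := (Set.finite_range _).union ((Set.finite_range _).union
    (Set.toFinite _))
  obtain ⟨T, e, E, s, ζ, hT, hT₀T, he, hE, hs, hζ, hζT, hζT', hpl, hpl'⟩ :=
    exists_places hFLm hFLd hm1 hΔL0 bezL T₀ hT₀f
  refine ⟨T, e, E, s, r, nu, hT, he, hE, hs, hnu, ?_⟩
  intro R _ _ _ ψ S e₁ he₁ hψ
  have hρT : ∀ i, ρ i ∈ T := fun i => hT₀T (Or.inl ⟨i, rfl⟩)
  have hρT' : ∀ i k, (ρ i - ρ k)⁻¹ ∈ T := fun i k => hT₀T (Or.inr (Or.inl ⟨(i, k), rfl⟩))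
  have hδT : ΔL.leadingCoeff ∈ T := hT₀T (Or.inr (Or.inr (Or.inl rfl)))
  have hδT' : ΔL.leadingCoeff⁻¹ ∈ T := hT₀T (Or.inr (Or.inr (Or.inr rfl)))
  obtain ⟨ζ', hζ'p, hζ'⟩ := root_map ψ he hζ hζT hζT'
  have hl0 : ΔL.leadingCoeff ≠ 0 := leadingCoeff_ne_zero.2 hΔL0
  set sub : ∀ x ∈ T, Algebra.adjoin A T := fun x hx => ⟨x, Algebra.subset_adjoin hx⟩ with hsub
  have hmul : ψ (sub _ hδT) * ψ (sub _ hδT') = 1 := by
    rw [← map_mul, ← map_one ψ]
    congr 1
    exact Subtype.ext (mul_inv_cancel₀ hl0)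
  set δ₀ : Rˣ := ⟨ψ (sub _ hδT), ψ (sub _ hδT'), hmul, by rw [mul_comm]; exact hmul⟩ with hδ₀
  have hΔO : Δ.map (algebraMap A (Algebra.adjoin A T)) =
      C (sub _ hδT) * ∏ i, (X - C (sub _ (hρT i))) ^ nu i := by
    apply map_injective (Algebra.adjoin A T).val.toRingHom Subtype.val_injective
    rw [Polynomial.map_map, Polynomial.map_mul, map_C, Polynomial.map_prod]
    simp only [Polynomial.map_pow, Polynomial.map_sub, map_X, map_C]
    exact hsplit
  refine ⟨ζ', fun i => ψ (sub _ (hρT i)), δ₀, hζ'p, ?_, ?_, ?_, ?_, ?_, ?_, ?_⟩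
  · rw [← Polynomial.map_map, hΔO, Polynomial.map_mul, map_C, Polynomial.map_prod]
    simp only [Polynomial.map_pow, Polynomial.map_sub, map_X, map_C]
    rfl
  · intro i k hik
    refine IsUnit.of_mul_eq_one (ψ (sub _ (hρT' i k))) ?_
    rw [← map_sub, ← map_mul, ← map_one ψ]
    congr 1
    exact Subtype.ext (mul_inv_cancel₀ (sub_ne_zero.2 fun h => hik (hρ h)))
  · exact fun i => hψ _ (hρT i)
  · exact hψ _ hδT
  · exact hψ _ hδT'
  · intro i
    obtain ⟨y, Yi, δ, hp⟩ := hpl (ρ i) (hρ0 i)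
    refine place_map ψ hψ hζT hζT' hζ' (fun n => ?_) hp
    have e1 : (xfin e (ρ i)).coeff n = (if n = 0 then ρ i else 0) + if n = (e : ℤ) then 1 else 0 := by
      rw [xfin, HahnSeries.coeff_add, HahnSeries.C_apply, HahnSeries.coeff_single,
        HahnSeries.coeff_single]
      congr
    have e2 : (xfin e (ψ (sub _ (hρT i)))).coeff n =
        (if n = 0 then ψ (sub _ (hρT i)) else 0) + if n = (e : ℤ) then 1 else 0 := by
      rw [xfin, HahnSeries.coeff_add, HahnSeries.C_apply, HahnSeries.coeff_single,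
        HahnSeries.coeff_single]
      congr
    have e3 : (xfin e (ρ i)).coeff n = ((if n = 0 then sub _ (hρT i) else 0) +
        if n = (e : ℤ) then 1 else 0 : Algebra.adjoin A T) := by
      rw [e1]
      split_ifs <;> rfl
    refine ⟨e3 ▸ Subtype.mem _, ?_⟩
    rw [e2]
    have e4 : (⟨(xfin e (ρ i)).coeff n, e3 ▸ Subtype.mem _⟩ : Algebra.adjoin A T) =
        (if n = 0 then sub _ (hρT i) else 0) + if n = (e : ℤ) then 1 else 0 := Subtype.ext e3
    rw [e4, map_add]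
    split_ifs <;> simp
  · obtain ⟨y, Yi, δ, hp⟩ := hpl'
    refine place_map ψ hψ hζT hζT' hζ' (fun n => ?_) hp
    have e1 : (xinf L e).coeff n = if n = -(e : ℤ) then 1 else 0 := by
      rw [xinf, HahnSeries.coeff_single]
      congr
    have e2 : (xinf R e).coeff n = if n = -(e : ℤ) then 1 else 0 := by
      rw [xinf, HahnSeries.coeff_single]
      congr
    have e3 : (xinf L e).coeff n = ((if n = -(e : ℤ) then 1 else 0 : Algebra.adjoin A T) : L) := by
      rw [e1]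
      split_ifs <;> rfl
    refine ⟨e3 ▸ Subtype.mem _, ?_⟩
    rw [e2]
    have e4 : (⟨(xinf L e).coeff n, e3 ▸ Subtype.mem _⟩ : Algebra.adjoin A T) =
        if n = -(e : ℤ) then 1 else 0 := Subtype.ext e3
    rw [e4]
    split_ifs <;> simp

end Pool.Agent.Helper79.CU
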