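import Pool.Agent.Helper79.CU.Str

/-!
# CU-06: the Taylor expansion of `y`

Order by order, as in `Pool.Agent.Helper79.SE.Lift`. Let `τ = tauS F Δ D : R[x] → BB[[h]]`. If `yh` is known modulo `h^n` then the coefficient of `h^n` of `F^τ(yh)` is `F_y y_n + K_n`, where `K_n` only depends on
`y_0 = iota X, …, y_(n-1)`; `F_y = iota (derivative F)` is a unit with inverse `iota β * dlt` (as `α F + β F_y = Δ`, `iota F = 0`). Put `y_n = - iota β dlt K_n`.
Growth: `K_n` is a sum of products `iota (C (D^[l] F_j / l!)) y_(n_1) ⋯ y_(n_j)`, `l + ∑ n_i = n`, in which `l ≥ 1` or at least two of the `n_i` are `≥ 1` (all `n_i < n`). With the claim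
`y_n ∈ I (A n - B)` for `n ≥ 1` (`y_0 ∈ I 1`), `B = 2 (e₁ + J + m + 2)`-like, `A` large, the induction works: first case `(e₁ + J + l) + A (n - l) + j + (inverse) ≤ A n - B`, second case
`(e₁ + J) + A n - 2 B + j + (inverse) ≤ A n - B`. (`D^[l] F_j / l!` has the degree in `x` of `F_j` and coefficients in `S.I (e₁ + l)`, `J` = a bound for the degrees in `x`.)
-/

open Polynomial

namespace Pool.Agent.Helper79.CU

open Pool.Agent.Helper79.SE

section abstractHensel

variable {A : Type} [CommRing A] (W : MFilt A)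

/-- the filtration, indexed by the integers -/
private def MZ (s : ℤ) (x : A) : Prop := x = 0 ∨ (0 ≤ s ∧ x ∈ W.I s.toNat)

variable {W}

private theorem MZ.zero (s : ℤ) : MZ W s 0 := Or.inl rfl

private theorem MZ.mono {s t : ℤ} (h : s ≤ t) {p : A} (hp : MZ W s p) : MZ W t p := by
  rcases hp with rfl | ⟨h0, h1⟩
  · exact Or.inl rfl
  · exact Or.inr ⟨h0.trans h, W.mono (Int.toNat_le_toNat h) h1⟩

private theorem MZ.add {s : ℤ} {p q : A} (hp : MZ W s p) (hq : MZ W s q) :
    MZ W s (p + q) := by
  rcases hp with rfl | ⟨h0, h1⟩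
  · rwa [zero_add]
  · rcases hq with rfl | ⟨h0', h1'⟩
    · rw [add_zero]
      exact Or.inr ⟨h0, h1⟩
    · exact Or.inr ⟨h0, (W.I _).add_mem h1 h1'⟩

private theorem MZ.neg {s : ℤ} {p : A} (hp : MZ W s p) : MZ W s (-p) := by
  rcases hp with rfl | ⟨h0, h1⟩
  · rw [neg_zero]
    exact Or.inl rfl
  · exact Or.inr ⟨h0, (W.I _).neg_mem h1⟩

private theorem MZ.mul {s t : ℤ} {p q : A} (hp : MZ W s p) (hq : MZ W t q) :
    MZ W (s + t) (p * q) := by
  rcases hp with rfl | ⟨h0, h1⟩
  · rw [zero_mul]
    exact Or.inl rfl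
  · rcases hq with rfl | ⟨h0', h1'⟩
    · rw [mul_zero]
      exact Or.inl rfl
    · refine Or.inr ⟨add_nonneg h0 h0', ?_⟩
      rw [Int.toNat_add h0 h0']
      exact W.mul h1 h1'

private theorem MZ.sum {s : ℤ} {ι : Type} (T : Finset ι) (p : ι → A)
    (hp : ∀ i ∈ T, MZ W s (p i)) : MZ W s (∑ i ∈ T, p i) := by
  classical
  induction T using Finset.induction_on with
  | empty =>
    rw [Finset.sum_empty]
    exact MZ.zero s
  | insert a T ha ih =>
    rw [Finset.sum_insert ha]
    exact (hp a (Finset.mem_insert_self a T)).add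
      (ih fun i hi => hp i (Finset.mem_insert_of_mem hi))

private theorem MZ.natMul {s : ℤ} (m : ℕ) {p : A} (hp : MZ W s p) : MZ W s ((m : A) * p) := by
  induction m with
  | zero =>
    rw [Nat.cast_zero, zero_mul]
    exact MZ.zero s
  | succ m ih =>
    rw [Nat.cast_succ, add_mul, one_mul]
    exact ih.add hp

private theorem MZ.of_mem {s : ℕ} {p : A} (h : p ∈ W.I s) : MZ W s p :=
  Or.inr ⟨by positivity, by rwa [Int.toNat_natCast]⟩

private theorem MZ.to_mem {s : ℕ} {p : A} (h : MZ W s p) : p ∈ W.I s := by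
  rcases h with rfl | ⟨_, h⟩
  · exact (W.I _).zero_mem
  · rwa [Int.toNat_natCast] at h

variable (W) in
/-- power series whose coefficient of `h^n` is in step `a n + b` -/
private def PB (a b : ℤ) (F : PowerSeries A) : Prop :=
  ∀ n : ℕ, MZ W (a * n + b) (PowerSeries.coeff n F)

private theorem PB.mono {a b b' : ℤ} (h : b ≤ b') {F : PowerSeries A} (hF : PB W a b F) :
    PB W a b' F := fun n => (hF n).mono (by linarith)

private theorem PB.mul {a b b' : ℤ} {F G : PowerSeries A} (hF : PB W a b F)
    (hG : PB W a b' G) : PB W a (b + b') (F * G) := fun n => by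
  rw [PowerSeries.coeff_mul]
  refine MZ.sum _ _ fun x hx => ?_
  have h1 : x.1 + x.2 = n := Finset.HasAntidiagonal.mem_antidiagonal.1 hx
  refine ((hF x.1).mul (hG x.2)).mono (le_of_eq ?_)
  rw [← h1]
  push_cast
  ring

private theorem PB.one {a : ℤ} (ha : 0 ≤ a) : PB W a 0 1 := fun n => by
  rw [PowerSeries.coeff_one]
  split_ifs
  · refine (MZ.of_mem (s := 0) W.one).mono ?_
    have : 0 ≤ a * n := by positivity
    push_cast
    linarith
  · exact MZ.zero _

private theorem PB.pow {a : ℤ} (ha : 0 ≤ a) {F : PowerSeries A} (hF : PB W a 0 F) (k : ℕ) :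
    PB W a 0 (F ^ k) := by
  induction k with
  | zero =>
    rw [pow_zero]
    exact PB.one ha
  | succ k ih =>
    rw [pow_succ]
    simpa using ih.mul hF

private theorem PB.sum {a b : ℤ} {ι : Type} (T : Finset ι) (F : ι → PowerSeries A)
    (hF : ∀ i ∈ T, PB W a b (F i)) : PB W a b (∑ i ∈ T, F i) := fun n => by
  rw [map_sum]
  exact MZ.sum _ _ fun i hi => hF i hi n

private theorem PB.eval {a b : ℤ} (ha : 0 ≤ a) {V : PowerSeries A} (hV : PB W a 0 V)
    {P : Polynomial (PowerSeries A)} (hP : ∀ k, PB W a b (P.coeff k)) :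
    PB W a b (P.eval V) := by
  rw [Polynomial.eval_eq_sum_range]
  refine PB.sum _ _ fun k _ => ?_
  have := (hP k).mul (hV.pow ha k)
  rwa [add_zero] at this

/-- partial solutions -/
private noncomputable def VV (P : Polynomial (PowerSeries A)) (y₀ u : A) : ℕ → PowerSeries A
  | 0 => 0
  | n + 1 => VV P y₀ u n + PowerSeries.monomial (n + 1)
      (-(u * PowerSeries.coeff (n + 1) (P.eval (PowerSeries.C y₀ + VV P y₀ u n))))

private theorem VV_gt (P : Polynomial (PowerSeries A)) (y₀ u : A) (n k : ℕ) (h : n < k) :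
    PowerSeries.coeff k (VV P y₀ u n) = 0 := by
  induction n with
  | zero => rw [VV, map_zero]
  | succ n ih =>
    rw [VV, map_add, ih (by omega), PowerSeries.coeff_monomial, if_neg (by omega), add_zero]

private theorem VV_le (P : Polynomial (PowerSeries A)) (y₀ u : A) (k m : ℕ) :
    PowerSeries.coeff k (VV P y₀ u (k + m)) = PowerSeries.coeff k (VV P y₀ u k) := by
  induction m with
  | zero => rfl
  | succ m ih =>
    rw [← add_assoc, VV, map_add, PowerSeries.coeff_monomial, if_neg (by omega), add_zero, ih]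

private theorem P_split (P : Polynomial (PowerSeries A)) (y₀ : A) (V : PowerSeries A) :
    P.eval (PowerSeries.C y₀ + V) = (Polynomial.taylor (PowerSeries.C y₀) P).coeff 0 +
      (Polynomial.taylor (PowerSeries.C y₀) P).coeff 1 * V +
      ((Polynomial.taylor (PowerSeries.C y₀) P).divX.divX.eval V) * (V * V) := by
  have h : P.eval (PowerSeries.C y₀ + V) = (Polynomial.taylor (PowerSeries.C y₀) P).eval V := by
    rw [Polynomial.taylor_eval, add_comm]
  rw [h]
  set T := Polynomial.taylor (PowerSeries.C y₀) P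
  conv_lhs => rw [← Polynomial.divX_mul_X_add T]
  rw [Polynomial.eval_add, Polynomial.eval_mul, Polynomial.eval_X, Polynomial.eval_C]
  conv_lhs => rw [← Polynomial.divX_mul_X_add T.divX]
  rw [Polynomial.eval_add, Polynomial.eval_mul, Polynomial.eval_X, Polynomial.eval_C,
    Polynomial.coeff_divX]
  ring

private theorem K_bound {P : Polynomial (PowerSeries A)} {y₀ : A} {E : ℕ}
    (hT : ∀ k l : ℕ, MZ W (l + E)
      (PowerSeries.coeff l ((Polynomial.taylor (PowerSeries.C y₀) P).coeff k)))
    {n : ℕ} {V : PowerSeries A}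
    (hV : PB W (4 * E + 1) (-(2 * E)) V) (hVn : PowerSeries.coeff (n + 1) V = 0) :
    MZ W ((4 * E + 1) * (n + 1) - 3 * E)
      (PowerSeries.coeff (n + 1) (P.eval (PowerSeries.C y₀ + V))) := by
  have hE0 : (0 : ℤ) ≤ E := by positivity
  have hTB : ∀ k, PB W (4 * E + 1) E ((Polynomial.taylor (PowerSeries.C y₀) P).coeff k) :=
    fun k l => (hT k l).mono (by
      have : (0 : ℤ) ≤ l := by positivity
      nlinarith)
  rw [P_split, map_add, map_add]
  set T := Polynomial.taylor (PowerSeries.C y₀) P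
  have h1 : MZ W ((4 * E + 1) * (n + 1) - 3 * E) (PowerSeries.coeff (n + 1) (T.coeff 0)) :=
    (hT 0 (n + 1)).mono (by
      push_cast
      nlinarith)
  have h3 : MZ W ((4 * E + 1) * (n + 1) - 3 * E)
      (PowerSeries.coeff (n + 1) ((T.divX.divX.eval V) * (V * V))) := by
    have hQ : PB W (4 * E + 1) E (T.divX.divX.eval V) :=
      PB.eval (by positivity) (hV.mono (by linarith)) fun k => by
        rw [Polynomial.coeff_divX, Polynomial.coeff_divX]
        exact hTB _
    refine ((hQ.mul (hV.mul hV)) (n + 1)).mono ?_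
    push_cast
    linarith
  have h2 : MZ W ((4 * E + 1) * (n + 1) - 3 * E)
      (PowerSeries.coeff (n + 1) (T.coeff 1 * V)) := by
    rw [PowerSeries.coeff_mul]
    refine MZ.sum _ _ fun x hx => ?_
    have hx1 : x.1 + x.2 = n + 1 := Finset.HasAntidiagonal.mem_antidiagonal.1 hx
    by_cases hx0 : x.1 = 0
    · have hx2 : x.2 = n + 1 := by omega
      rw [hx2, hVn, mul_zero]
      exact MZ.zero _
    · refine ((hT 1 x.1).mul (hV x.2)).mono ?_
      have e1 : (x.1 : ℤ) + x.2 = n + 1 := by exact_mod_cast hx1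
      have e2 : (1 : ℤ) ≤ x.1 := by
        have : 1 ≤ x.1 := Nat.one_le_iff_ne_zero.2 hx0
        exact_mod_cast this
      rw [← e1]
      nlinarith
  exact (h1.add h2).add h3

private theorem VV_bound {P : Polynomial (PowerSeries A)} {y₀ u : A} {E : ℕ}
    (hT : ∀ k l : ℕ, MZ W (l + E)
      (PowerSeries.coeff l ((Polynomial.taylor (PowerSeries.C y₀) P).coeff k)))
    (hu : MZ W E u) (n : ℕ) :
    PB W (4 * E + 1) (-(2 * E)) (VV P y₀ u n) := by
  induction n with
  | zero =>
    intro k
    rw [VV, map_zero]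
    exact MZ.zero _
  | succ n ih =>
    intro k
    rw [VV, map_add, PowerSeries.coeff_monomial]
    refine (ih k).add ?_
    split_ifs with hk
    · refine ((hu.mul (K_bound hT ih (VV_gt P y₀ u n (n + 1) (Nat.lt_succ_self n)))).mono
        ?_).neg
      rw [hk]
      push_cast
      linarith
    · exact MZ.zero _

private theorem eval_congr' (P : Polynomial (PowerSeries A)) {U V : PowerSeries A} {n : ℕ}
    (h : ∀ k ≤ n, PowerSeries.coeff k U = PowerSeries.coeff k V) :
    PowerSeries.coeff n (P.eval U) = PowerSeries.coeff n (P.eval V) := by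
  have h1 : (PowerSeries.X : PowerSeries A) ^ (n + 1) ∣ U - V := by
    rw [PowerSeries.X_pow_dvd_iff]
    intro m hm
    rw [map_sub, h m (by omega), sub_self]
  have h2 : U - V ∣ P.eval U - P.eval V := Polynomial.sub_dvd_eval_sub U V P
  have h3 := PowerSeries.X_pow_dvd_iff.1 (h1.trans h2) n (Nat.lt_succ_self n)
  rw [map_sub, sub_eq_zero] at h3
  exact h3

private theorem const_eval_congr (P : Polynomial (PowerSeries A)) {U V : PowerSeries A}
    (h : PowerSeries.constantCoeff U = PowerSeries.constantCoeff V) :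
    PowerSeries.constantCoeff (P.eval U) = PowerSeries.constantCoeff (P.eval V) := by
  rw [← PowerSeries.coeff_zero_eq_constantCoeff_apply, ← PowerSeries.coeff_zero_eq_constantCoeff_apply]
  refine eval_congr' P fun k hk => ?_
  obtain rfl : k = 0 := by omega
  rw [PowerSeries.coeff_zero_eq_constantCoeff_apply, PowerSeries.coeff_zero_eq_constantCoeff_apply, h]

private theorem eval_step (P : Polynomial (PowerSeries A)) {U : PowerSeries A} {n : ℕ}
    (hn : 1 ≤ n) (c : A) :
    PowerSeries.coeff n (P.eval (U + PowerSeries.monomial n c)) =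
      PowerSeries.coeff n (P.eval U) +
        PowerSeries.constantCoeff (P.derivative.eval U) * c := by
  have hm : PowerSeries.monomial n c = PowerSeries.C c * PowerSeries.X ^ n := by
    ext1 k
    rw [PowerSeries.coeff_monomial, PowerSeries.coeff_C_mul, PowerSeries.coeff_X_pow]
    split_ifs <;> simp
  obtain ⟨q, hq⟩ := P.binomExpansion U (PowerSeries.monomial n c)
  rw [hq, map_add, map_add]
  have h1 : PowerSeries.coeff n (q * (PowerSeries.monomial n c) ^ 2) = 0 := by
    have h2 : (PowerSeries.X : PowerSeries A) ^ (n + 1) ∣ q * (PowerSeries.monomial n c) ^ 2 := by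
      rw [hm, mul_pow, ← pow_mul]
      refine Dvd.dvd.mul_left (Dvd.dvd.mul_left (pow_dvd_pow _ (by omega)) _) _
    exact PowerSeries.X_pow_dvd_iff.1 h2 n (Nat.lt_succ_self n)
  rw [h1, add_zero, hm, ← mul_assoc,
    PowerSeries.coeff_mul_X_pow', if_pos le_rfl, Nat.sub_self, PowerSeries.coeff_mul_C,
    PowerSeries.coeff_zero_eq_constantCoeff_apply]

/-- Hensel's lemma for power series, with growth. -/
private theorem hensel_growth {P : Polynomial (PowerSeries A)} {y₀ u : A} {E : ℕ}
    (h0 : PowerSeries.constantCoeff (P.eval (PowerSeries.C y₀)) = 0)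
    (h1 : PowerSeries.constantCoeff (P.derivative.eval (PowerSeries.C y₀)) * u = 1)
    (hT : ∀ k l : ℕ,
      PowerSeries.coeff l ((Polynomial.taylor (PowerSeries.C y₀) P).coeff k) ∈ W.I (l + E))
    (hu : u ∈ W.I E) (hy₀ : y₀ ∈ W.I 1) :
    ∃ yh : PowerSeries A, PowerSeries.constantCoeff yh = y₀ ∧ P.eval yh = 0 ∧
      ∀ n, PowerSeries.coeff n yh ∈ W.I ((4 * E + 1) * n + 1) := by
  have hT' : ∀ k l : ℕ, MZ W (l + E)
      (PowerSeries.coeff l ((Polynomial.taylor (PowerSeries.C y₀) P).coeff k)) := fun k l => by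
    have := MZ.of_mem (hT k l)
    push_cast at this
    exact this
  have hu' : MZ W E u := MZ.of_mem hu
  set U : PowerSeries A := PowerSeries.mk fun n => PowerSeries.coeff n (VV P y₀ u n) with hU
  have hUV : ∀ n k, k ≤ n → PowerSeries.coeff k U = PowerSeries.coeff k (VV P y₀ u n) := by
    intro n k hk
    obtain ⟨m, rfl⟩ := Nat.exists_eq_add_of_le hk
    rw [hU, PowerSeries.coeff_mk, VV_le]
  have hV0 : ∀ n, PowerSeries.constantCoeff (VV P y₀ u n) = 0 := by
    intro n
    have := VV_le P y₀ u 0 n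
    rw [zero_add] at this
    rw [← PowerSeries.coeff_zero_eq_constantCoeff_apply, this, VV, map_zero]
  have hU0 : PowerSeries.constantCoeff U = 0 := by
    rw [← PowerSeries.coeff_zero_eq_constantCoeff_apply, hUV 0 0 le_rfl, VV, map_zero]
  refine ⟨PowerSeries.C y₀ + U, ?_, ?_, ?_⟩
  · rw [map_add, hU0, add_zero, PowerSeries.constantCoeff_C]
  · ext1 n
    rw [map_zero]
    cases n with
    | zero =>
      rw [PowerSeries.coeff_zero_eq_constantCoeff_apply, ← h0]
      refine const_eval_congr P ?_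
      rw [map_add, hU0, add_zero]
    | succ n =>
      rw [eval_congr' P (U := PowerSeries.C y₀ + U) (V := PowerSeries.C y₀ + VV P y₀ u (n + 1))
        fun k hk => by rw [map_add, map_add, hUV (n + 1) k hk], VV, ← add_assoc,
        eval_step P (Nat.succ_le_succ (Nat.zero_le n))]
      have h2 : PowerSeries.constantCoeff (P.derivative.eval (PowerSeries.C y₀ + VV P y₀ u n)) =
          PowerSeries.constantCoeff (P.derivative.eval (PowerSeries.C y₀)) := by
        refine const_eval_congr _ ?_
        rw [map_add, hV0, add_zero]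
      rw [h2]
      linear_combination (-(PowerSeries.coeff (n + 1) (P.eval (PowerSeries.C y₀ + VV P y₀ u n)))) * h1
  · intro n
    cases n with
    | zero =>
      rw [PowerSeries.coeff_zero_eq_constantCoeff_apply, map_add, hU0, add_zero,
        PowerSeries.constantCoeff_C, mul_zero, zero_add]
      exact hy₀
    | succ n =>
      rw [map_add, PowerSeries.coeff_C, if_neg (Nat.succ_ne_zero n), zero_add, hUV (n + 1) _ le_rfl]
      have h3 := VV_bound hT' hu' (n + 1) (n + 1)
      have h4 : MZ W (((4 * E + 1) * (n + 1) + 1 : ℕ) : ℤ)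
          (PowerSeries.coeff (n + 1) (VV P y₀ u (n + 1))) := h3.mono (by
        have : (0 : ℤ) ≤ E := by positivity
        push_cast
        linarith)
      exact h4.to_mem

end abstractHensel

section

variable {R : Type} [CommRing R] [Algebra ℚ R]

/-- The Taylor homomorphism `R[x] → BB[[h]]` (`x` is constant). -/
noncomputable def tauS (F : R[X][X]) (Δ : R[X]) (D : Derivation ℚ R R) :
    R[X] →+* PowerSeries (BB F Δ) :=
  (PowerSeries.map ((iota F Δ).comp (C : R[X] →+* R[X][X]))).comp (tayHom (DX D))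

private theorem coeff_tauS (F : R[X][X]) (Δ : R[X]) (D : Derivation ℚ R R) (p : R[X]) (l : ℕ) :
    PowerSeries.coeff l (tauS F Δ D p) =
      iota F Δ (C (((l.factorial : ℚ)⁻¹) • ((DX D)^[l] p))) := by
  simp only [tauS, RingHom.comp_apply, PowerSeries.coeff_map]
  congr 2
  exact coeff_tay (DX D) p l

private theorem coeff_DX_iter (D : Derivation ℚ R R) (p : R[X]) (l j : ℕ) :
    ((DX D)^[l] p).coeff j = D^[l] (p.coeff j) := by
  induction l with
  | zero => rfl
  | succ l ih =>
    rw [Function.iterate_succ_apply', Function.iterate_succ_apply', ← ih]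
    exact coeff_dc D _ j

private theorem const_tauS_eval (F : R[X][X]) (Δ : R[X]) (D : Derivation ℚ R R) (G : R[X][X]) :
    PowerSeries.constantCoeff ((G.map (tauS F Δ D)).eval (PowerSeries.C (iota F Δ X))) =
      iota F Δ G := by
  rw [Polynomial.eval_map, Polynomial.hom_eval₂, PowerSeries.constantCoeff_C]
  have h : (PowerSeries.constantCoeff (R := BB F Δ)).comp (tauS F Δ D) =
      (iota F Δ).comp (C : R[X] →+* R[X][X]) := by
    refine RingHom.ext fun p => ?_
    rw [RingHom.comp_apply, ← PowerSeries.coeff_zero_eq_constantCoeff_apply, coeff_tauS]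
    simp
  rw [h, ← Polynomial.hom_eval₂, Polynomial.eval₂_C_X]

theorem exists_yh {D : Derivation ℚ R R} (S : Filt D) {F α β : R[X][X]} {Δ : R[X]}
    (bez : α * F + β * derivative F = C Δ) {e : ℕ}
    (hFe : ∀ l j, (F.coeff l).coeff j ∈ S.I e) (hβe : ∀ l j, (β.coeff l).coeff j ∈ S.I e) :
    ∃ yh : PowerSeries (BB F Δ), PowerSeries.constantCoeff yh = iota F Δ X ∧
      (F.map (tauS F Δ D)).eval yh = 0 ∧
      ∃ c : ℕ, ∀ n, PowerSeries.coeff n yh ∈
        (FB ⟨S.I, S.mono, S.one, S.mul⟩ F Δ).I (c * n + 1) := by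
  set S' : MFilt R := ⟨S.I, S.mono, S.one, S.mul⟩ with hS'
  set W := FB S' F Δ with hW
  have hiF : iota F Δ F = 0 := by
    rw [iota, RingHom.comp_apply, AdjoinRoot.mk_self, map_zero]
  have hΔ : iota F Δ (C Δ) * dlt F Δ = 1 := by
    rw [iota, RingHom.comp_apply, dlt]
    exact IsLocalization.Away.mul_invSelf _
  have hinv : iota F Δ (derivative F) * (iota F Δ β * dlt F Δ) = 1 := by
    have h := congrArg (iota F Δ) bez
    rw [map_add, map_mul, map_mul, hiF, mul_zero, zero_add] at h
    rw [← hΔ, ← h]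
    ring
  have hy₀ : iota F Δ X ∈ W.I 1 := genM_gen _ _ _ (by simp)
  -- degree bounds
  obtain ⟨J, hJ⟩ : ∃ J : ℕ, ∀ l, (F.coeff l).natDegree ≤ J :=
    ⟨F.support.sup fun l => (F.coeff l).natDegree, fun l => by
      by_cases hl : l ∈ F.support
      · exact Finset.le_sup (f := fun l => (F.coeff l).natDegree) hl
      · rw [Polynomial.notMem_support_iff.1 hl, Polynomial.natDegree_zero]
        exact Nat.zero_le _⟩
  obtain ⟨J', hJ'⟩ : ∃ J : ℕ, ∀ l, (β.coeff l).natDegree ≤ J :=
    ⟨β.support.sup fun l => (β.coeff l).natDegree, fun l => by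
      by_cases hl : l ∈ β.support
      · exact Finset.le_sup (f := fun l => (β.coeff l).natDegree) hl
      · rw [Polynomial.notMem_support_iff.1 hl, Polynomial.natDegree_zero]
        exact Nat.zero_le _⟩
  have hu : iota F Δ β * dlt F Δ ∈ W.I (e + J' + (β.natDegree + 1) + 1) := by
    have h1 : iota F Δ β ∈ W.I (e + J' + (β.natDegree + 1)) :=
      FB_mem ⟨Nat.lt_succ_self _, fun l => ⟨hJ' l, fun j => hβe l j⟩⟩
    have h2 : dlt F Δ ∈ W.I 1 := by
      have := FB_dlt (S := S') (F := F) (Δ := Δ) 1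
      rwa [pow_one] at this
    exact W.mul h1 h2
  set E : ℕ := e + J + J' + F.natDegree + β.natDegree + 2 with hE
  have hT : ∀ k l : ℕ, PowerSeries.coeff l ((Polynomial.taylor (PowerSeries.C (iota F Δ X))
      (F.map (tauS F Δ D))).coeff k) ∈ W.I (l + E) := by
    intro k l
    rw [Polynomial.taylor_coeff, Polynomial.hasseDeriv_apply, Polynomial.sum_def,
      Polynomial.eval_finsetSum, map_sum]
    refine (W.I _).sum_mem fun i hi => ?_
    have hi' : i ≤ F.natDegree :=
      (Polynomial.le_natDegree_of_mem_supp i hi).trans Polynomial.natDegree_map_le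
    rw [Polynomial.eval_monomial, ← map_pow, PowerSeries.coeff_mul_C, Polynomial.coeff_map,
      ← nsmul_eq_mul, map_nsmul, smul_mul_assoc]
    refine (W.I _).nsmul_mem ?_ _
    rw [coeff_tauS]
    have h1 : iota F Δ (C (((l.factorial : ℚ)⁻¹) • ((DX D)^[l] (F.coeff i)))) ∈
        W.I ((e + l) + J + 1) := by
      have hc : ∀ j, (((l.factorial : ℚ)⁻¹) • ((DX D)^[l] (F.coeff i))).coeff j =
          ((l.factorial : ℚ)⁻¹) • (D^[l] ((F.coeff i).coeff j)) := by
        intro j
        rw [Polynomial.coeff_smul, coeff_DX_iter]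
      refine FB_mem ⟨by rw [Polynomial.natDegree_C]; exact Nat.one_pos, fun a => ?_⟩
      rw [Polynomial.coeff_C]
      split_ifs
      · refine ⟨?_, fun j => ?_⟩
        · rw [Polynomial.natDegree_le_iff_coeff_eq_zero]
          intro j hj
          rw [hc, Polynomial.coeff_eq_zero_of_natDegree_lt (lt_of_le_of_lt (hJ i) hj),
            iterate_map_zero, smul_zero]
        · rw [hc]
          exact S.hasse l (hFe i j)
      · refine ⟨by rw [Polynomial.natDegree_zero]; exact Nat.zero_le _, fun j => ?_⟩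
        rw [Polynomial.coeff_zero]
        exact (S.I _).zero_mem
    have h2 : (iota F Δ X) ^ (i - k) ∈ W.I (i - k) := by
      have := W.pow hy₀ (i - k)
      rwa [mul_one] at this
    exact W.mono (by omega) (W.mul h1 h2)
  obtain ⟨yh, h1, h2, h3⟩ := hensel_growth (W := W) (P := F.map (tauS F Δ D)) (y₀ := iota F Δ X)
    (u := iota F Δ β * dlt F Δ) (E := E) (by rw [const_tauS_eval, hiF])
    (by rw [Polynomial.derivative_map, const_tauS_eval, hinv]) hT
    (W.mono (by omega) hu) hy₀
  exact ⟨yh, h1, h2, 4 * E + 1, h3⟩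

end

end Pool.Agent.Helper79.CU
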