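import Pool.Agent.Helper79.SE.MainA

/-!
# CU-18: algebraic functions of `t` as power series at all but finitely many points

`κ(t)(T)` is a finite separable extension of `κ(t)`: it is generated by an element `ϑ ∈ L` which is integral over `κ[t]` (multiply a primitive element by a polynomial); let `G ∈ κ[t][Y]` be its minimal polynomial (monic with coefficients in
`κ[t]`, irreducible over `κ(t)`), and let `x = Q_x(ϑ) / q` for `x ∈ T`, `q ∈ κ[t]`, `Q_x ∈ κ[t][Y]`. `Bad`: the zeros in `κ` of `q` and of the discriminant of `G` (or of `W`, where `U G + V G' = W`, `W ∈ κ[t]`, `W ≠ 0`).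
For `s₀ ∉ Bad` let `G^φ ∈ K[[x]][Y]` be the image of `G` under `φ p = map (phi s₀ c p)`; its reduction `G(s₀, Y)` has a root `ϑ₀ ∈ K`, a simple root; Hensel's lemma in `K[[x]]` gives a root `ϑ'` of `G^φ` with constant coefficient `ϑ₀`.
The ring homomorphism `κ[t][ϑ] = κ[t][Y]/(G) → K[[x]]`, `ϑ ↦ ϑ'`, extends to `κ[t][ϑ, 1/q]`, which contains `adjoin κ[t] T`, as `φ q` is a unit.
`Geo`: polynomials in `x` and sums, products, inverses (`geo_poly`, `geo_add`, `geo_mul`, `geo_inv`), and `ϑ'`: Newton / Hensel recursion: write `ϑ' = ϑ₀ + v`, `0 = G^φ(ϑ₀) + G^φ'(ϑ₀) v + v^2 (…)`, `G^φ'(ϑ₀)` a unit: the coefficient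
`v_n` is a polynomial expression in coefficients of `Geo` series and the `v_i`, `i < n`, with total weight: `M^(n A - B) v_n` integral by induction for suitable `M`, `A` (then replace `M` by `M^A`). (Compare `exists_lift`, `Pool.Agent.Helper79.SE.Lift`;
Eisenstein's theorem.)
-/

open Polynomial

namespace Pool.Agent.Helper79.CU

open Pool.Agent.Helper79.SE

section geo

variable {K : Type} [Field K] [CharZero K]

private theorem q7_natInt (n : ℕ) : IsIntegral ℤ (n : K) := by
  have h := isIntegral_algebraMap (R := ℤ) (A := K) (x := (n : ℤ))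
  simpa using h

/-- bounds up to order `n` -/
private def q7P (M A k n : ℕ) (y : PowerSeries K) : Prop :=
  ∀ m < n, IsIntegral ℤ ((M : K) ^ (A * m + k) * PowerSeries.coeff m y)

private theorem q7P_mono {M A k k' n : ℕ} (h : k ≤ k') {y : PowerSeries K} (hy : q7P M A k n y) :
    q7P M A k' n y := by
  intro m hm
  have h1 : (M : K) ^ (A * m + k') * PowerSeries.coeff m y =
      (M : K) ^ (k' - k) * ((M : K) ^ (A * m + k) * PowerSeries.coeff m y) := by
    rw [← mul_assoc, ← pow_add]
    congr 2
    omega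
  rw [h1]
  exact ((q7_natInt M).pow _).mul (hy m hm)

private theorem q7P_mul {M A a b n : ℕ} {y z : PowerSeries K} (hy : q7P M A a n y)
    (hz : q7P M A b n z) : q7P M A (a + b) n (y * z) := by
  intro m hm
  rw [PowerSeries.coeff_mul, Finset.mul_sum]
  apply IsIntegral.sum
  intro p hp
  have hp' : p.1 + p.2 = m := Finset.HasAntidiagonal.mem_antidiagonal.1 hp
  have h1 : (M : K) ^ (A * m + (a + b)) * (PowerSeries.coeff p.1 y * PowerSeries.coeff p.2 z) =
      ((M : K) ^ (A * p.1 + a) * PowerSeries.coeff p.1 y) *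
        ((M : K) ^ (A * p.2 + b) * PowerSeries.coeff p.2 z) := by
    rw [← hp']
    ring
  rw [h1]
  exact (hy _ (by omega)).mul (hz _ (by omega))

private theorem q7P_one (M A n : ℕ) : q7P M A 0 n (1 : PowerSeries K) := by
  intro m _
  rw [PowerSeries.coeff_one]
  split_ifs
  · rw [mul_one]
    exact (q7_natInt M).pow _
  · rw [mul_zero]
    exact isIntegral_zero

private theorem q7P_pow {M A n : ℕ} {y : PowerSeries K} (hy : q7P M A 1 n y) (i : ℕ) :
    q7P M A i n (y ^ i) := by
  induction i with
  | zero => rw [pow_zero]; exact q7P_one M A n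
  | succ i ih => rw [pow_succ]; exact q7P_mul ih hy

private theorem q7P_sum {M A k n : ℕ} {ι : Type} (s : Finset ι) (f : ι → PowerSeries K)
    (hf : ∀ i ∈ s, q7P M A k n (f i)) : q7P M A k n (∑ i ∈ s, f i) := by
  intro m hm
  rw [map_sum, Finset.mul_sum]
  exact IsIntegral.sum _ fun i hi => hf i hi m hm

private theorem q7_geo_fix {r : PowerSeries K} (hr : Geo r) {H : (PowerSeries K)[X]}
    (hH : ∀ i, Geo (H.coeff i)) {w : PowerSeries K} (hw : w = r + PowerSeries.X * H.eval w) :
    Geo w := by
  classical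
  set D := H.natDegree with hD
  obtain ⟨M, hM, -, hM2⟩ := geo_finite
    (s := insert r ((fun i => H.coeff i) '' (↑(Finset.range (D + 1)) : Set ℕ)))
    (((Finset.finite_toSet _).image _).insert _) (by
      intro y hy
      rcases hy with rfl | ⟨i, -, rfl⟩
      · exact hr
      · exact hH i) 1 le_rfl
  have hrM : ∀ m, IsIntegral ℤ ((M : K) ^ (1 + m) * PowerSeries.coeff m r) :=
    hM2 r (Set.mem_insert _ _)
  have hHM : ∀ i < D + 1, ∀ m, IsIntegral ℤ ((M : K) ^ (1 + m) * PowerSeries.coeff m (H.coeff i)) :=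
    fun i hi => hM2 _ (Set.mem_insert_of_mem _ ⟨i, by simpa using hi, rfl⟩)
  have hbig : ∀ (y : PowerSeries K) (n : ℕ),
      (∀ m, IsIntegral ℤ ((M : K) ^ (1 + m) * PowerSeries.coeff m y)) →
        q7P M (D + 1) 1 n y := by
    intro y n hy m _
    have h1 : (M : K) ^ ((D + 1) * m + 1) * PowerSeries.coeff m y =
        (M : K) ^ (D * m) * ((M : K) ^ (1 + m) * PowerSeries.coeff m y) := by
      rw [← mul_assoc, ← pow_add]
      congr 2
      ring
    rw [h1]
    exact ((q7_natInt M).pow _).mul (hy m)
  have key : ∀ n, q7P M (D + 1) 1 n w := by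
    intro n
    induction n with
    | zero => intro m hm; omega
    | succ n ih =>
      intro m hm
      rcases Nat.lt_or_ge m n with h | h
      · exact ih m h
      · have hmn : m = n := by omega
        subst hmn
        have hev : q7P M (D + 1) (1 + D) m (H.eval w) := by
          rw [Polynomial.eval_eq_sum_range]
          refine q7P_sum _ _ fun i hi => ?_
          have hi' : i < D + 1 := Finset.mem_range.1 hi
          exact q7P_mono (by omega) (q7P_mul (hbig _ m (hHM i hi')) (q7P_pow ih i))
        have h2 := hbig r (m + 1) hrM m (by omega)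
        rw [hw, map_add, mul_add]
        refine h2.add ?_
        cases m with
        | zero =>
          rw [PowerSeries.coeff_zero_X_mul, mul_zero]
          exact isIntegral_zero
        | succ m =>
          rw [PowerSeries.coeff_succ_X_mul]
          have h3 := hev m (by omega)
          have h4 : (D + 1) * (m + 1) + 1 = 1 + ((D + 1) * m + (1 + D)) := by ring
          rw [h4, pow_add, mul_assoc]
          exact ((q7_natInt M).pow _).mul h3
  refine ⟨M ^ (D + 1), Nat.pow_pos hM, fun m => ?_⟩
  have h1 : ((M ^ (D + 1) : ℕ) : K) ^ (1 + m) * PowerSeries.coeff m w =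
      (M : K) ^ D * ((M : K) ^ ((D + 1) * m + 1) * PowerSeries.coeff m w) := by
    rw [← mul_assoc, ← pow_add, Nat.cast_pow, ← pow_mul]
    congr 2
    ring
  rw [h1]
  exact ((q7_natInt M).pow _).mul (key (m + 1) m (by omega))

private theorem q7_exists_fix (r : PowerSeries K) (H : (PowerSeries K)[X]) :
    ∃ w : PowerSeries K, w = r + PowerSeries.X * H.eval w := by
  let f : ℕ → PowerSeries K := fun k => Nat.rec r (fun _ y => r + PowerSeries.X * H.eval y) k
  have f0 : f 0 = r := rfl
  have fs : ∀ k, f (k + 1) = r + PowerSeries.X * H.eval (f k) := fun k => rfl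
  have h1 : ∀ k, (PowerSeries.X : PowerSeries K) ^ (k + 1) ∣ f (k + 1) - f k := by
    intro k
    induction k with
    | zero =>
      rw [fs, f0, zero_add, pow_one, add_sub_cancel_left]
      exact dvd_mul_right _ _
    | succ k ih =>
      rw [fs (k + 1), fs k, add_sub_add_left_eq_sub, ← mul_sub, pow_succ' _ (k + 1)]
      exact mul_dvd_mul_left _ (ih.trans (Polynomial.sub_dvd_eval_sub _ _ _))
  have h2 : ∀ k j, (PowerSeries.X : PowerSeries K) ^ (k + 1) ∣ f (k + j) - f k := by
    intro k j
    induction j with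
    | zero => simp
    | succ j ih =>
      have : f (k + (j + 1)) - f k = (f (k + j + 1) - f (k + j)) + (f (k + j) - f k) := by
        rw [← Nat.add_assoc]; ring
      rw [this]
      refine dvd_add ((pow_dvd_pow _ (by omega)).trans (h1 (k + j))) ih
  let w : PowerSeries K := PowerSeries.mk fun m => PowerSeries.coeff m (f m)
  have h3 : ∀ k, (PowerSeries.X : PowerSeries K) ^ (k + 1) ∣ w - f k := by
    intro k
    rw [PowerSeries.X_pow_dvd_iff]
    intro m hm
    obtain ⟨j, rfl⟩ := Nat.exists_eq_add_of_le (show m ≤ k by omega)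
    have h4 := h2 m j
    rw [PowerSeries.X_pow_dvd_iff] at h4
    have h5 := h4 m (by omega)
    rw [map_sub] at h5 ⊢
    rw [PowerSeries.coeff_mk]
    rw [sub_eq_zero] at h5 ⊢
    exact h5.symm
  refine ⟨w, ?_⟩
  rw [← sub_eq_zero]
  ext k
  rw [map_zero]
  have h6 : (PowerSeries.X : PowerSeries K) ^ (k + 1) ∣ w - (r + PowerSeries.X * H.eval w) := by
    have h7 : w - (r + PowerSeries.X * H.eval w) =
        (w - f (k + 1)) - PowerSeries.X * (H.eval w - H.eval (f k)) := by
      rw [fs]; ring
    rw [h7]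
    refine dvd_sub ((pow_dvd_pow _ (by omega)).trans (h3 (k + 1))) ?_
    exact ((h3 k).trans (Polynomial.sub_dvd_eval_sub _ _ _)).mul_left _
  rw [PowerSeries.X_pow_dvd_iff] at h6
  exact h6 k (by omega)

variable [Algebra.IsAlgebraic ℚ K]

private theorem q7_geo_C (a : K) : Geo (PowerSeries.C a) := by
  have := geo_poly (K := K) (C a)
  rwa [Polynomial.coe_C] at this

private theorem q7_geo_X : Geo (PowerSeries.X : PowerSeries K) := by
  have := geo_poly (K := K) X
  rwa [Polynomial.coe_X] at this

private theorem q7_geo_neg {y : PowerSeries K} (hy : Geo y) : Geo (-y) := by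
  have h := geo_mul (q7_geo_C (-1 : K)) hy
  rwa [map_neg, map_one, neg_mul, one_mul] at h

/-- the subring of the series with geometric denominators -/
private def q7S (K : Type) [Field K] [CharZero K] [Algebra.IsAlgebraic ℚ K] :
    Subring (PowerSeries K) where
  carrier := {y | Geo y}
  zero_mem' := by
    have := q7_geo_C (0 : K)
    rwa [map_zero] at this
  one_mem' := by
    have := q7_geo_C (1 : K)
    rwa [map_one] at this
  add_mem' := fun ha hb => geo_add ha hb
  mul_mem' := fun ha hb => geo_mul ha hb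
  neg_mem' := fun ha => q7_geo_neg ha

/-- the constant coefficient -/
private noncomputable def q7ev (K : Type) [Field K] [CharZero K] [Algebra.IsAlgebraic ℚ K] :
    q7S K →+* K := (PowerSeries.constantCoeff (R := K)).comp (q7S K).subtype

private theorem q7_root (P : (q7S K)[X]) (a : K) (h0 : (P.map (q7ev K)).eval a = 0)
    (h1 : ((derivative P).map (q7ev K)).eval a ≠ 0) :
    ∃ y : q7S K, P.eval y = 0 ∧ q7ev K y = a := by
  set a' : q7S K := ⟨PowerSeries.C a, q7_geo_C a⟩ with ha'
  have hea : q7ev K a' = a := by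
    show PowerSeries.constantCoeff (PowerSeries.C a) = a
    simp
  set x' : q7S K := ⟨PowerSeries.X, q7_geo_X⟩ with hx'
  have hex : q7ev K x' = 0 := by
    show PowerSeries.constantCoeff (PowerSeries.X : PowerSeries K) = 0
    simp
  set Q := taylor a' P with hQ
  have hev : ∀ R : (q7S K)[X], q7ev K (R.eval a') = (R.map (q7ev K)).eval a := by
    intro R
    conv_rhs => rw [← hea]
    rw [Polynomial.eval_map, Polynomial.eval₂_at_apply]
  have hq0 : q7ev K (Q.coeff 0) = 0 := by
    rw [hQ, taylor_coeff_zero, hev, h0]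
  have hq1 : q7ev K (Q.coeff 1) ≠ 0 := by
    rw [hQ, taylor_coeff_one, hev]
    exact h1
  obtain ⟨r, hr⟩ : ∃ r : q7S K, Q.coeff 0 = x' * r := by
    obtain ⟨M, hM, hM2⟩ := (Q.coeff 0).2
    have h2 : (PowerSeries.X : PowerSeries K) ∣ (Q.coeff 0 : PowerSeries K) := by
      rw [PowerSeries.X_dvd_iff]
      exact hq0
    obtain ⟨r, hr⟩ := h2
    refine ⟨⟨r, M ^ 2, Nat.pow_pos hM, fun m => ?_⟩, Subtype.ext hr⟩
    have h3 := hM2 (m + 1)
    rw [hr, PowerSeries.coeff_succ_X_mul] at h3
    have h4 : ((M ^ 2 : ℕ) : K) ^ (1 + m) * PowerSeries.coeff m r =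
        (M : K) ^ m * ((M : K) ^ (1 + (m + 1)) * PowerSeries.coeff m r) := by
      rw [← mul_assoc, ← pow_add, Nat.cast_pow, ← pow_mul]
      congr 2
      ring
    rw [h4]
    exact ((q7_natInt M).pow _).mul h3
  obtain ⟨z, hz⟩ : ∃ z : q7S K, Q.coeff 1 * z = 1 := by
    have h2 : (Q.coeff 1 : PowerSeries K) * (Q.coeff 1 : PowerSeries K)⁻¹ = 1 :=
      PowerSeries.mul_inv_cancel _ hq1
    exact ⟨⟨_, geo_inv (Q.coeff 1).2 h2⟩, Subtype.ext h2⟩
  set R := divX (divX Q) with hR
  have hQR : Q = (R * X + C (Q.coeff 1)) * X + C (Q.coeff 0) := by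
    have h2 := divX_mul_X_add (divX Q)
    have h3 := divX_mul_X_add Q
    rw [← hR, coeff_divX] at h2
    rw [h2, h3]
  set H : (q7S K)[X] := -(C z * R.comp (C x' * X) * X ^ 2) with hH
  obtain ⟨w, hw⟩ := q7_exists_fix (-(z * r) : q7S K) (H.map (q7S K).subtype)
  have hgw : Geo w := q7_geo_fix (-(z * r) : q7S K).2 (fun i => by
    rw [Polynomial.coeff_map]
    exact (H.coeff i).2) hw
  set w' : q7S K := ⟨w, hgw⟩ with hw'
  have hww : w' = -(z * r) + x' * H.eval w' := by
    apply Subtype.ext
    have h2 : ((H.eval w' : q7S K) : PowerSeries K) = (H.map (q7S K).subtype).eval w := by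
      have := Polynomial.eval_map_apply (f := (q7S K).subtype) (p := H) w'
      exact this.symm
    show w = ((-(z * r) : q7S K) : PowerSeries K) + PowerSeries.X * ((H.eval w' : q7S K) : PowerSeries K)
    rw [h2]
    exact hw
  have hHe : H.eval w' = -(z * R.eval (x' * w') * w' ^ 2) := by
    rw [hH]
    simp [Polynomial.eval_comp]
  refine ⟨x' * w' + a', ?_, ?_⟩
  · have h3 : P.eval (x' * w' + a') = Q.eval (x' * w') := by
      rw [hQ, taylor_eval]
    have h4 : Q.eval (x' * w') = (R.eval (x' * w') * (x' * w') + Q.coeff 1) * (x' * w') +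
        Q.coeff 0 := by
      conv_lhs => rw [hQR]
      simp
    have h5 : Q.coeff 1 * w' = -r - x' * R.eval (x' * w') * w' ^ 2 := by
      conv_lhs => rw [hww, hHe]
      linear_combination (-r - x' * R.eval (x' * w') * w' ^ 2) * hz
    rw [h3, h4, hr]
    linear_combination x' * h5
  · rw [map_add, map_mul, hex, hea, zero_mul, zero_add]

end geo

private theorem q7_bez {κ L : Type} [Field κ] [CharZero κ] [Field L] [Algebra κ[X] L]
    (hinj : Function.Injective (algebraMap κ[X] L)) (halg : Algebra.IsAlgebraic κ[X] L) (x : L) :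
    ∃ (G U V : κ[X][X]) (W : κ[X]), W ≠ 0 ∧ U * G + V * derivative G = C W ∧
      aeval x G = 0 := by
  haveI : FaithfulSMul κ[X] L := (faithfulSMul_iff_algebraMap_injective κ[X] L).2 hinj
  letI := FractionRing.liftAlgebra κ[X] L
  haveI := FractionRing.isScalarTower_liftAlgebra κ[X] L
  haveI : CharZero (FractionRing κ[X]) :=
    charZero_of_injective_algebraMap (IsFractionRing.injective κ[X] (FractionRing κ[X]))
  have hint : IsIntegral (FractionRing κ[X]) x :=
    ((IsFractionRing.isAlgebraic_iff κ[X] (FractionRing κ[X]) L).1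
      (halg.isAlgebraic x)).isIntegral
  have hsep := (minpoly.irreducible hint).separable
  obtain ⟨u, v, huv⟩ := hsep
  obtain ⟨bu, hbu, hu⟩ := IsLocalization.integerNormalization_spec (nonZeroDivisors κ[X]) u
  obtain ⟨bv, hbv, hv⟩ := IsLocalization.integerNormalization_spec (nonZeroDivisors κ[X]) v
  obtain ⟨bm, hbm, hm⟩ := IsLocalization.integerNormalization_spec (nonZeroDivisors κ[X])
    (minpoly (FractionRing κ[X]) x)
  set G := IsLocalization.integerNormalization (nonZeroDivisors κ[X])
    (minpoly (FractionRing κ[X]) x)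
  set U := IsLocalization.integerNormalization (nonZeroDivisors κ[X]) u
  set V := IsLocalization.integerNormalization (nonZeroDivisors κ[X]) v
  refine ⟨G, C bv * U, C bu * V, bu * bv * bm, ?_, ?_, ?_⟩
  · exact mul_ne_zero (mul_ne_zero (nonZeroDivisors.ne_zero hbu) (nonZeroDivisors.ne_zero hbv))
      (nonZeroDivisors.ne_zero hbm)
  · apply Polynomial.map_injective _ (IsFractionRing.injective κ[X] (FractionRing κ[X]))
    simp only [Polynomial.map_add, Polynomial.map_mul, ← derivative_map, hu, hv, hm,
      Polynomial.map_C, map_mul]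
    rw [algebra_compatible_smul (FractionRing κ[X]) bu,
      algebra_compatible_smul (FractionRing κ[X]) bv,
      algebra_compatible_smul (FractionRing κ[X]) bm]
    simp only [Polynomial.smul_eq_C_mul, derivative_C_mul]
    linear_combination (C (algebraMap κ[X] (FractionRing κ[X]) bu) *
      C (algebraMap κ[X] (FractionRing κ[X]) bv) *
      C (algebraMap κ[X] (FractionRing κ[X]) bm)) * huv
  · have h1 : aeval x (G.map (algebraMap κ[X] (FractionRing κ[X]))) = 0 := by
      rw [hm, algebra_compatible_smul (FractionRing κ[X]) bm, map_smul, minpoly.aeval, smul_zero]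
    rwa [aeval_map_algebraMap] at h1

private theorem q7_all {K Ω : Type} [Field K] [CharZero K] [IsAlgClosed K]
    [Algebra.IsAlgebraic ℚ K] [Field Ω] (ι : q7S K →+* Ω) (hι : Function.Injective ι)
    {G U V : (q7S K)[X]} {W : q7S K} (h : U * G + V * derivative G = C W)
    (hW : q7ev K W ≠ 0) (hl : q7ev K G.leadingCoeff ≠ 0) {z : Ω}
    (hz : (G.map ι).eval z = 0) : ∃ y : q7S K, ι y = z := by
  classical
  set g := G.map (q7ev K) with hg
  have hsep : g.Separable := by
    refine ⟨C (q7ev K W)⁻¹ * U.map (q7ev K), C (q7ev K W)⁻¹ * V.map (q7ev K), ?_⟩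
    have h1 := congrArg (Polynomial.map (q7ev K)) h
    rw [Polynomial.map_add, Polynomial.map_mul, Polynomial.map_mul, ← derivative_map,
      Polynomial.map_C] at h1
    have h2 : (C (q7ev K W)⁻¹ : K[X]) * C (q7ev K W) = 1 := by
      rw [← C_mul, inv_mul_cancel₀ hW, C_1]
    rw [← hg] at h1
    linear_combination (C (q7ev K W)⁻¹ : K[X]) * h1 + h2
  have hdeg : g.natDegree = G.natDegree := natDegree_map_of_leadingCoeff_ne_zero _ hl
  have hcard : g.roots.toFinset.card = G.natDegree := by
    rw [Multiset.toFinset_card_of_nodup (nodup_roots hsep), IsAlgClosed.card_roots_eq_natDegree,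
      hdeg]
  have hex : ∀ a : K, ∃ y : q7S K, a ∈ g.roots.toFinset → G.eval y = 0 ∧ q7ev K y = a := by
    intro a
    by_cases ha : a ∈ g.roots.toFinset
    · have ha1 : g.eval a = 0 := by
        rw [Multiset.mem_toFinset, mem_roots hsep.ne_zero] at ha
        exact ha
      have ha2 : ((derivative G).map (q7ev K)).eval a ≠ 0 := by
        rw [← derivative_map]
        intro h3
        obtain ⟨u, v, huv⟩ := hsep
        have h4 := congrArg (Polynomial.eval a) huv
        rw [eval_add, eval_mul, eval_mul, ha1, h3] at h4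
        simp at h4
      obtain ⟨y, hy⟩ := q7_root G a ha1 ha2
      exact ⟨y, fun _ => hy⟩
    · exact ⟨0, fun h => absurd h ha⟩
  choose y hy using hex
  by_contra hcon
  push Not at hcon
  set s : Finset Ω := insert z (g.roots.toFinset.image fun a => ι (y a)) with hs
  have hscard : s.card = G.natDegree + 1 := by
    rw [hs, Finset.card_insert_of_notMem, Finset.card_image_of_injOn, hcard]
    · intro a ha b hb hab
      have h5 := hι hab
      rw [← (hy a ha).2, ← (hy b hb).2, h5]
    · intro hmem
      obtain ⟨a, -, ha⟩ := Finset.mem_image.1 hmem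
      exact hcon _ ha
  have hzero : G.map ι = 0 := by
    apply Polynomial.eq_zero_of_natDegree_lt_card_of_eval_eq_zero' _ s
    · intro w hw
      rw [hs, Finset.mem_insert] at hw
      rcases hw with rfl | hw
      · exact hz
      · obtain ⟨a, ha, rfl⟩ := Finset.mem_image.1 hw
        rw [Polynomial.eval_map_apply, (hy a ha).1, map_zero]
    · rw [hscard]
      exact Nat.lt_succ_of_le natDegree_map_le
  have hG : G = 0 := (Polynomial.map_eq_zero_iff hι).1 hzero
  rw [hG, leadingCoeff_zero, map_zero] at hl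
  exact hl rfl

theorem exists_hom {κ K L : Type} [Field κ] [CharZero κ] [Field K] [CharZero K] [IsAlgClosed K]
    [Algebra κ K] [Algebra.IsAlgebraic ℚ K] [Field L] [Algebra κ[X] L]
    (hinj : Function.Injective (algebraMap κ[X] L)) (halg : Algebra.IsAlgebraic κ[X] L)
    (T : Set L) (hT : T.Finite) :
    ∃ Bad : Set κ, Bad.Finite ∧ ∀ s₀ ∉ Bad, ∀ c : κ, c ≠ 0 →
      ∃ ψ : Algebra.adjoin κ[X] T →+* PowerSeries K,
        (∀ p, ψ (algebraMap κ[X] (Algebra.adjoin κ[X] T) p) =
          PowerSeries.map (algebraMap κ K) (phi s₀ c p)) ∧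
        ∀ (x : L) (hx : x ∈ T), Geo (ψ ⟨x, Algebra.subset_adjoin hx⟩) := by
  classical
  choose G U V W hW hb hG using q7_bez hinj halg
  have hG0 : ∀ x, (G x).leadingCoeff ≠ 0 := by
    intro x h
    rw [leadingCoeff_eq_zero] at h
    have := hb x
    rw [h, derivative_zero, mul_zero, mul_zero, add_zero, eq_comm, C_eq_zero] at this
    exact hW x this
  refine ⟨⋃ x ∈ T, {s | IsRoot (W x * (G x).leadingCoeff) s}, hT.biUnion fun x _ =>
    Polynomial.finite_setOf_isRoot (mul_ne_zero (hW x) (hG0 x)), ?_⟩
  intro s₀ hs₀ c hc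
  have hgood : ∀ x ∈ T, (W x).eval s₀ ≠ 0 ∧ (G x).leadingCoeff.eval s₀ ≠ 0 := by
    intro x hx
    rw [← mul_ne_zero_iff, ← eval_mul]
    intro h
    exact hs₀ (Set.mem_biUnion hx h)
  have hφc : ∀ p : κ[X], PowerSeries.map (algebraMap κ K) (phi s₀ c p) =
      (((p.comp (C s₀ + C c * X)).map (algebraMap κ K) : K[X]) : PowerSeries K) := by
    intro p
    rw [phi_apply, Polynomial.polynomial_map_coe]
  let φ : κ[X] →+* q7S K :=
    ((PowerSeries.map (algebraMap κ K)).comp (phi s₀ c)).codRestrict (q7S K) fun p => by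
      show Geo (PowerSeries.map (algebraMap κ K) (phi s₀ c p))
      rw [hφc]
      exact geo_poly _
  have hφv : ∀ p : κ[X], ((φ p : q7S K) : PowerSeries K) =
      PowerSeries.map (algebraMap κ K) (phi s₀ c p) := fun p => rfl
  have hevφ : ∀ p : κ[X], q7ev K (φ p) = algebraMap κ K (p.eval s₀) := by
    intro p
    show PowerSeries.constantCoeff ((φ p : q7S K) : PowerSeries K) = _
    rw [hφv, hφc, Polynomial.constantCoeff_coe, coeff_map, coeff_zero_eq_eval_zero, eval_comp]
    simp
  have hφinj : Function.Injective φ := by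
    rw [injective_iff_map_eq_zero]
    intro p hp
    have h1 : ((φ p : q7S K) : PowerSeries K) = 0 := by rw [hp]; rfl
    rw [hφv, hφc, Polynomial.coe_eq_zero_iff,
      Polynomial.map_eq_zero_iff (algebraMap κ K).injective] at h1
    have h2 := congrArg (fun q : κ[X] => q.comp (C c⁻¹ * (X - C s₀))) h1
    simp only [Polynomial.comp_assoc, zero_comp] at h2
    have h3 : (C s₀ + C c * X : κ[X]).comp (C c⁻¹ * (X - C s₀)) = X := by
      simp only [add_comp, C_comp, mul_comp, X_comp]
      rw [← mul_assoc, ← C_mul, mul_inv_cancel₀ hc, C_1, one_mul]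
      ring
    rwa [h3, comp_X] at h2
  let Ω := AlgebraicClosure (FractionRing (PowerSeries K))
  let ι : q7S K →+* Ω := ((algebraMap (FractionRing (PowerSeries K)) Ω).comp
    (algebraMap (PowerSeries K) (FractionRing (PowerSeries K)))).comp (q7S K).subtype
  have hι : Function.Injective ι :=
    ((algebraMap (FractionRing (PowerSeries K)) Ω).injective.comp
      (IsFractionRing.injective (PowerSeries K) (FractionRing (PowerSeries K)))).comp
      Subtype.val_injective
  letI : Algebra κ[X] Ω := (ι.comp φ).toAlgebra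
  have halΩ : ∀ p : κ[X], algebraMap κ[X] Ω p = ι (φ p) := fun p => rfl
  haveI : Module.IsTorsionFree κ[X] L :=
    Module.isTorsionFree_iff_algebraMap_injective.2 hinj
  haveI : Module.IsTorsionFree κ[X] Ω :=
    Module.isTorsionFree_iff_algebraMap_injective.2 (hι.comp hφinj)
  let Ψ : L →ₐ[κ[X]] Ω := IsAlgClosed.lift
  have hx : ∀ x ∈ T, Ψ x ∈ ι.range := by
    intro x hx
    have h1 : ((G x).map φ).leadingCoeff = φ (G x).leadingCoeff := by
      apply leadingCoeff_map_of_leadingCoeff_ne_zero
      intro h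
      have := (map_eq_zero_iff φ hφinj).1 h
      exact hG0 x this
    have h2 := congrArg (Polynomial.map φ) (hb x)
    rw [Polynomial.map_add, Polynomial.map_mul, Polynomial.map_mul, ← derivative_map,
      Polynomial.map_C] at h2
    obtain ⟨y, hy⟩ := q7_all ι hι h2 (by
        rw [hevφ]
        exact (_root_.map_ne_zero _).2 (hgood x hx).1) (by
        rw [h1, hevφ]
        exact (_root_.map_ne_zero _).2 (hgood x hx).2) (z := Ψ x) (by
        rw [Polynomial.map_map]
        have h3 : aeval (Ψ x) (G x) = 0 := by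
          rw [aeval_algHom_apply, hG, map_zero]
        rw [eval_map]
        exact h3)
    exact ⟨y, hy⟩
  have hmem : ∀ z : Algebra.adjoin κ[X] T, Ψ (z : L) ∈ ι.range := by
    rintro ⟨z, hz⟩
    show Ψ z ∈ ι.range
    induction hz using Algebra.adjoin_induction with
    | mem x h => exact hx x h
    | algebraMap r => rw [Ψ.commutes]; exact ⟨φ r, rfl⟩
    | add a b _ _ ha hb => rw [map_add]; exact add_mem ha hb
    | mul a b _ _ ha hb => rw [map_mul]; exact mul_mem ha hb
  let Ψ₀ : Algebra.adjoin κ[X] T →+* ι.range :=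
    ((Ψ : L →+* Ω).comp (Algebra.adjoin κ[X] T).val.toRingHom).codRestrict ι.range hmem
  let e : q7S K ≃+* ι.range := RingEquiv.ofBijective ι.rangeRestrict
    ⟨fun a b h => hι (congrArg Subtype.val h), ι.rangeRestrict_surjective⟩
  refine ⟨(q7S K).subtype.comp (e.symm.toRingHom.comp Ψ₀), fun p => ?_, fun x hx => ?_⟩
  · have h1 : Ψ₀ (algebraMap κ[X] (Algebra.adjoin κ[X] T) p) = e (φ p) := by
      apply Subtype.ext
      show Ψ (algebraMap κ[X] L p) = ι (φ p)
      rw [Ψ.commutes]
      rfl
    show ((e.symm (Ψ₀ (algebraMap κ[X] (Algebra.adjoin κ[X] T) p)) : q7S K) : PowerSeries K) = _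
    rw [h1, RingEquiv.symm_apply_apply, hφv]
  · exact (e.symm (Ψ₀ ⟨x, Algebra.subset_adjoin hx⟩)).2

end Pool.Agent.Helper79.CU
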