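import Pool.Agent.Helper79.CU.Fil

/-!
# CU-02: Laurent series: growth, the substitution `z ↦ ζ z`, the derivative

* `LG`: `LG_mul`: the coefficient `n` of `f g` is a finite sum of `f_i g_j`, `i + j = n`; a nonzero term has `i ≥ -s`, `j ≥ -t`, so
  `(E (i + 2s)).toNat + (E (j + 2t)).toNat = (E (n + 2 (s + t))).toNat`. `LG_C`: the coefficient of `z^0` has index `(2 E s)`.
* `Tw`: it is the graph of a ring homomorphism.
* `ld`: `LaurentSeries.derivative`, coefficient `n` is `(n + 1) f_(n+1)`.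
* `evL x₀` is the evaluation of polynomials at `x₀`; chain rule by induction on the polynomial.
-/

open Polynomial

namespace Pool.Agent.Helper79.CU

section

variable {R : Type} [CommRing R] {S : MFilt R} {E s t : ℕ} {f g : LaurentSeries R}

/-! ### Auxiliary lemmas -/

theorem lau_low (f : LaurentSeries R) : ∃ a : ℤ, ∀ i < a, f.coeff i = 0 :=
  ⟨f.order, fun _ hi => HahnSeries.coeff_eq_zero_of_lt_order hi⟩

theorem lau_coeff_mul {a b : ℤ} (ha : ∀ i < a, f.coeff i = 0) (hb : ∀ j < b, g.coeff j = 0)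
    (n : ℤ) : (f * g).coeff n = ∑ i ∈ Finset.Icc a (n - b), f.coeff i * g.coeff (n - i) := by
  rw [HahnSeries.coeff_mul]
  refine Finset.sum_bij_ne_zero (fun p _ _ => p.1) ?_ ?_ ?_ ?_
  · intro p hp h0
    rw [Finset.mem_antidiagonal] at hp
    have h1 : f.coeff p.1 ≠ 0 := hp.1
    have h2 : g.coeff p.2 ≠ 0 := hp.2.1
    have h3 : a ≤ p.1 := by
      by_contra hcon
      exact h1 (ha _ (not_le.1 hcon))
    have h4 : b ≤ p.2 := by
      by_contra hcon
      exact h2 (hb _ (not_le.1 hcon))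
    have h5 := hp.2.2
    rw [Finset.mem_Icc]
    omega
  · intro p hp h0 p' hp' h0' h
    rw [Finset.mem_antidiagonal] at hp hp'
    have h5 := hp.2.2
    have h6 := hp'.2.2
    change p.1 = p'.1 at h
    refine Prod.ext h ?_
    omega
  · intro i hi h0
    refine ⟨(i, n - i), ?_, h0, rfl⟩
    rw [Finset.mem_antidiagonal]
    refine ⟨left_ne_zero_of_mul h0, right_ne_zero_of_mul h0, ?_⟩
    change i + (n - i) = n
    ring
  · intro p hp h0
    rw [Finset.mem_antidiagonal] at hp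
    have h5 := hp.2.2
    change _ = f.coeff p.1 * g.coeff (n - p.1)
    rw [show n - p.1 = p.2 by omega]

theorem LG_zero : LG S E s (0 : LaurentSeries R) := fun _ => ⟨fun _ => rfl, (S.I _).zero_mem⟩

theorem LG_one : LG S E s (1 : LaurentSeries R) := by
  intro n
  rw [HahnSeries.coeff_one]
  split_ifs with h
  · refine ⟨fun h1 => absurd h1 (by omega), S.mono (Nat.zero_le _) S.one⟩
  · exact ⟨fun _ => rfl, (S.I _).zero_mem⟩

theorem LG_add (hf : LG S E s f) (hg : LG S E s g) : LG S E s (f + g) := by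
  intro n
  rw [HahnSeries.coeff_add]
  exact ⟨fun h => by rw [(hf n).1 h, (hg n).1 h, add_zero], (S.I _).add_mem (hf n).2 (hg n).2⟩

theorem LG_neg (hf : LG S E s f) : LG S E s (-f) := by
  intro n
  rw [HahnSeries.coeff_neg]
  exact ⟨fun h => by rw [(hf n).1 h, neg_zero], (S.I _).neg_mem (hf n).2⟩

theorem LG_mul (hf : LG S E s f) (hg : LG S E t g) : LG S E (s + t) (f * g) := by
  intro n
  rw [lau_coeff_mul (a := -(s : ℤ)) (b := -(t : ℤ)) (fun i hi => (hf i).1 hi)
    (fun j hj => (hg j).1 hj) n]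
  constructor
  · intro hn
    rw [Finset.Icc_eq_empty (by push_cast at hn; omega), Finset.sum_empty]
  · refine (S.I _).sum_mem fun i hi => ?_
    rw [Finset.mem_Icc] at hi
    have h1 := S.mul (hf i).2 (hg (n - i)).2
    have hE : (0 : ℤ) ≤ E := Int.natCast_nonneg E
    have h2 : 0 ≤ (E : ℤ) * (i + 2 * s) := mul_nonneg hE (by omega)
    have h3 : 0 ≤ (E : ℤ) * (n - i + 2 * t) := mul_nonneg hE (by omega)
    have h4 : ((E : ℤ) * (i + 2 * s)).toNat + ((E : ℤ) * (n - i + 2 * t)).toNat =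
        ((E : ℤ) * (n + 2 * ((s + t : ℕ) : ℤ))).toNat := by
      rw [← Int.toNat_add h2 h3]
      congr 1
      push_cast
      ring
    rw [← h4]
    exact h1

theorem LG_sum {ι : Type} {T : Finset ι} {F : ι → LaurentSeries R} (h : ∀ i ∈ T, LG S E s (F i)) :
    LG S E s (∑ i ∈ T, F i) := by
  classical
  induction T using Finset.induction_on with
  | empty => simpa using LG_zero
  | insert i T hi ih =>
    rw [Finset.sum_insert hi]
    exact LG_add (h i (Finset.mem_insert_self _ _))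
      (ih fun j hj => h j (Finset.mem_insert_of_mem hj))

theorem LG_mono (h : s ≤ t) (hf : LG S E s f) : LG S E t f := by
  intro n
  refine ⟨fun hn => (hf n).1 (by omega), S.mono ?_ (hf n).2⟩
  refine Int.toNat_le_toNat (mul_le_mul_of_nonneg_left (by omega) (Int.natCast_nonneg E))

theorem LG_mono_E {E' : ℕ} (h : E ≤ E') (hf : LG S E s f) : LG S E' s f := by
  intro n
  refine ⟨(hf n).1, S.mono ?_ (hf n).2⟩
  rcases le_or_gt 0 (n + 2 * (s : ℤ)) with h0 | h0
  · exact Int.toNat_le_toNat (mul_le_mul_of_nonneg_right (by exact_mod_cast h) h0)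
  · rw [Int.toNat_of_nonpos (mul_nonpos_of_nonneg_of_nonpos (Int.natCast_nonneg E) h0.le)]
    exact Nat.zero_le _

theorem LG_pow (hf : LG S E s f) (k : ℕ) : LG S E (k * s) (f ^ k) := by
  induction k with
  | zero => rw [pow_zero]; exact LG_one
  | succ k ih =>
    rw [pow_succ, Nat.succ_mul]
    exact LG_mul ih hf

theorem LG_C {r : R} (h : r ∈ S.I (2 * E * s)) : LG S E s (HahnSeries.C r : LaurentSeries R) := by
  intro n
  rw [HahnSeries.C_apply, HahnSeries.coeff_single]
  split_ifs with h0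
  · refine ⟨fun h1 => absurd h1 (by omega), ?_⟩
    have h1 : ((E : ℤ) * (n + 2 * s)).toNat = 2 * E * s := by
      rw [h0]
      have : (E : ℤ) * (0 + 2 * s) = ((2 * E * s : ℕ) : ℤ) := by push_cast; ring
      rw [this, Int.toNat_natCast]
    rw [h1]
    exact h
  · exact ⟨fun _ => rfl, (S.I _).zero_mem⟩

theorem LG_single {n : ℤ} (hn : -(s : ℤ) ≤ n) {r : R}
    (h : r ∈ S.I ((E : ℤ) * (n + 2 * s)).toNat) : LG S E s (HahnSeries.single n r) := by
  intro m
  rw [HahnSeries.coeff_single]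
  split_ifs with h0
  · subst h0
    exact ⟨fun h1 => absurd h1 (by omega), h⟩
  · exact ⟨fun _ => rfl, (S.I _).zero_mem⟩

theorem coeff_ld (f : LaurentSeries R) (n : ℤ) :
    (ld f).coeff n = ((n + 1 : ℤ) : R) * f.coeff (n + 1) := by
  rw [ld, LaurentSeries.derivative_apply, LaurentSeries.hasseDeriv_coeff, Ring.choose_one_right,
    zsmul_eq_mul]
  simp

theorem LG_ld (hf : LG S E s f) : LG S E (s + 1) (ld f) := by
  intro n
  rw [coeff_ld]
  refine ⟨fun hn => ?_, ?_⟩
  · rw [(hf (n + 1)).1 (by push_cast at hn; omega), mul_zero]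
  · refine S.mono ?_ (S.int_mul_mem (hf (n + 1)).2 (n + 1))
    refine Int.toNat_le_toNat (mul_le_mul_of_nonneg_left ?_ (Int.natCast_nonneg E))
    push_cast
    omega

theorem ld_add (f g : LaurentSeries R) : ld (f + g) = ld f + ld g := by
  rw [ld, map_add]
  rfl

theorem ld_mul (f g : LaurentSeries R) : ld (f * g) = ld f * g + f * ld g := by
  obtain ⟨a, ha⟩ := lau_low f
  obtain ⟨b, hb⟩ := lau_low g
  have ha' : ∀ i < a - 1, (ld f).coeff i = 0 := fun i hi => by
    rw [coeff_ld, ha _ (by omega), mul_zero]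
  have hb' : ∀ i < b - 1, (ld g).coeff i = 0 := fun i hi => by
    rw [coeff_ld, hb _ (by omega), mul_zero]
  ext n
  rw [coeff_ld, HahnSeries.coeff_add, lau_coeff_mul ha hb, lau_coeff_mul ha' hb,
    lau_coeff_mul ha hb', Finset.mul_sum]
  have h1 : ∑ i ∈ Finset.Icc (a - 1) (n - b), (ld f).coeff i * g.coeff (n - i) =
      ∑ i ∈ Finset.Icc a (n + 1 - b), ((i : ℤ) : R) * f.coeff i * g.coeff (n + 1 - i) := by
    refine Finset.sum_bij (fun i _ => i + 1) ?_ ?_ ?_ ?_
    · intro i hi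
      rw [Finset.mem_Icc] at hi ⊢
      omega
    · intro i _ j _ h
      omega
    · intro j hj
      rw [Finset.mem_Icc] at hj
      exact ⟨j - 1, by rw [Finset.mem_Icc]; omega, by omega⟩
    · intro i _
      rw [coeff_ld, show n + 1 - (i + 1) = n - i by ring]
  rw [h1, show n - (b - 1) = n + 1 - b by ring, ← Finset.sum_add_distrib]
  refine Finset.sum_congr rfl fun i _ => ?_
  rw [coeff_ld, show n - i + 1 = n + 1 - i by ring]
  push_cast
  ring

theorem ld_C (r : R) : ld (HahnSeries.C r : LaurentSeries R) = 0 := by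
  ext n
  rw [coeff_ld, HahnSeries.C_apply, HahnSeries.coeff_single]
  split_ifs with h
  · rw [h]
    simp
  · rw [mul_zero]
    rfl

theorem ld_sum {ι : Type} (T : Finset ι) (F : ι → LaurentSeries R) :
    ld (∑ i ∈ T, F i) = ∑ i ∈ T, ld (F i) := by
  unfold ld
  rw [map_sum]

theorem Tw_add {ζ : Rˣ} {f' g' : LaurentSeries R} (h : Tw ζ f f') (h' : Tw ζ g g') :
    Tw ζ (f + g) (f' + g') := by
  intro n
  rw [HahnSeries.coeff_add, HahnSeries.coeff_add, h n, h' n, mul_add]

theorem Tw_neg {ζ : Rˣ} {f' : LaurentSeries R} (h : Tw ζ f f') : Tw ζ (-f) (-f') := by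
  intro n
  rw [HahnSeries.coeff_neg, HahnSeries.coeff_neg, h n, mul_neg]

theorem Tw_mul {ζ : Rˣ} {f' g' : LaurentSeries R} (h : Tw ζ f f') (h' : Tw ζ g g') :
    Tw ζ (f * g) (f' * g') := by
  intro n
  obtain ⟨a, ha⟩ := lau_low f
  obtain ⟨b, hb⟩ := lau_low g
  rw [lau_coeff_mul ha hb, lau_coeff_mul (fun i hi => by rw [h i, ha i hi, mul_zero])
    (fun i hi => by rw [h' i, hb i hi, mul_zero]), Finset.mul_sum]
  refine Finset.sum_congr rfl fun i _ => ?_
  have h1 : ((ζ ^ n : Rˣ) : R) = ((ζ ^ i : Rˣ) : R) * ((ζ ^ (n - i) : Rˣ) : R) := by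
    rw [← Units.val_mul, ← zpow_add, add_sub_cancel]
  rw [h i, h' (n - i), h1]
  ring

theorem Tw_C (ζ : Rˣ) (r : R) :
    Tw ζ (HahnSeries.C r : LaurentSeries R) (HahnSeries.C r : LaurentSeries R) := by
  intro n
  rw [HahnSeries.C_apply, HahnSeries.coeff_single]
  split_ifs with h
  · rw [h]
    simp
  · rw [mul_zero]

theorem Tw_one (ζ : Rˣ) : Tw ζ (1 : LaurentSeries R) 1 := by
  rw [← map_one (HahnSeries.C : R →+* LaurentSeries R)]
  exact Tw_C ζ 1

theorem Tw_pow {ζ : Rˣ} {f' : LaurentSeries R} (h : Tw ζ f f') (k : ℕ) :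
    Tw ζ (f ^ k) (f' ^ k) := by
  induction k with
  | zero => rw [pow_zero, pow_zero]; exact Tw_one ζ
  | succ k ih => rw [pow_succ, pow_succ]; exact Tw_mul ih h

theorem Tw_sum {ζ : Rˣ} {ι : Type} (T : Finset ι) {F F' : ι → LaurentSeries R}
    (h : ∀ i ∈ T, Tw ζ (F i) (F' i)) : Tw ζ (∑ i ∈ T, F i) (∑ i ∈ T, F' i) := by
  classical
  induction T using Finset.induction_on with
  | empty => intro n; simp
  | insert i T hi ih =>
    rw [Finset.sum_insert hi, Finset.sum_insert hi]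
    exact Tw_add (h i (Finset.mem_insert_self _ _))
      (ih fun j hj => h j (Finset.mem_insert_of_mem hj))

theorem Tw_unique {ζ : Rˣ} {f' f'' : LaurentSeries R} (h : Tw ζ f f') (h' : Tw ζ f f'') :
    f' = f'' := by
  ext n
  rw [h n, h' n]

theorem Tw_exists (ζ : Rˣ) (f : LaurentSeries R) : ∃ f', Tw ζ f f' := by
  refine ⟨⟨fun n => ((ζ ^ n : Rˣ) : R) * f.coeff n, f.isPWO_support.mono ?_⟩, fun n => rfl⟩
  intro n hn
  exact right_ne_zero_of_mul hn

theorem Tw_xfin {ζ : Rˣ} {e : ℕ} (h : ζ ^ e = 1) (ρ : R) : Tw ζ (xfin e ρ) (xfin e ρ) := by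
  refine Tw_add (Tw_C ζ ρ) ?_
  intro n
  rw [HahnSeries.coeff_single]
  split_ifs with h0
  · rw [h0, zpow_natCast, h]
    simp
  · rw [mul_zero]

theorem Tw_xinf {ζ : Rˣ} {e : ℕ} (h : ζ ^ e = 1) : Tw ζ (xinf R e) (xinf R e) := by
  intro n
  rw [xinf, HahnSeries.coeff_single]
  split_ifs with h0
  · rw [h0, zpow_neg, zpow_natCast, h]
    simp
  · rw [mul_zero]

theorem evL_X (x₀ : LaurentSeries R) : evL x₀ X = x₀ := by
  rw [evL, coe_eval₂RingHom, eval₂_X]

theorem evL_C (x₀ : LaurentSeries R) (r : R) : evL x₀ (C r) = HahnSeries.C r := by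
  rw [evL, coe_eval₂RingHom, eval₂_C]

theorem ld_evL (x₀ : LaurentSeries R) (p : R[X]) :
    ld (evL x₀ p) = evL x₀ (derivative p) * ld x₀ := by
  induction p using Polynomial.induction_on with
  | C a => rw [evL_C, ld_C, derivative_C, map_zero, zero_mul]
  | add p q hp hq => rw [map_add, ld_add, hp, hq, derivative_add, map_add, add_mul]
  | monomial n a h =>
    have h1 : derivative (C a * X ^ n * X : R[X]) = derivative (C a * X ^ n) * X + C a * X ^ n := by
      rw [derivative_mul (f := C a * X ^ n) (g := X), derivative_X, mul_one]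
    rw [pow_succ, ← mul_assoc, h1, map_mul, ld_mul, h, evL_X, map_add,
      map_mul (evL x₀) (derivative (C a * X ^ n)), evL_X]
    ring

theorem Tw_evL {ζ : Rˣ} {x₀ : LaurentSeries R} (h : Tw ζ x₀ x₀) (p : R[X]) :
    Tw ζ (evL x₀ p) (evL x₀ p) := by
  induction p using Polynomial.induction_on with
  | C a => rw [evL_C]; exact Tw_C ζ a
  | add p q hp hq => rw [map_add]; exact Tw_add hp hq
  | monomial n a h0 =>
    rw [pow_succ, ← mul_assoc, map_mul, evL_X]
    exact Tw_mul h0 h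

theorem LG_evL {x₀ : LaurentSeries R} (h : LG S E s x₀) (hE : 1 ≤ E) {p : R[X]} {J c : ℕ}
    (h1 : p.natDegree ≤ J) (h2 : ∀ j, p.coeff j ∈ S.I c) : LG S E (c + J * s) (evL x₀ p) := by
  rw [evL, coe_eval₂RingHom, eval₂_eq_sum_range]
  refine LG_sum fun j hj => ?_
  rw [Finset.mem_range] at hj
  refine LG_mono (Nat.add_le_add_left (Nat.mul_le_mul_right s (by omega : j ≤ J)) c)
    (LG_mul (LG_C (S.mono ?_ (h2 j))) (LG_pow h j))
  nlinarith

theorem ld_single (n : ℤ) (r : R) :
    ld (HahnSeries.single n r) = HahnSeries.single (n - 1) ((n : R) * r) := by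
  ext m
  rw [coeff_ld, HahnSeries.coeff_single, HahnSeries.coeff_single]
  by_cases h : m + 1 = n
  · rw [if_pos h, if_pos (by omega), h]
  · rw [if_neg h, if_neg (by omega), mul_zero]

theorem ld_xfin (e : ℕ) (ρ : R) :
    ld (xfin e ρ) = HahnSeries.single ((e : ℤ) - 1) (e : R) := by
  rw [xfin, ld_add, ld_C, zero_add, ld_single]
  simp

theorem ld_xinf (e : ℕ) :
    ld (xinf R e) = HahnSeries.single (-(e : ℤ) - 1) (-(e : R)) := by
  rw [xinf, ld_single]
  simp

end

end Pool.Agent.Helper79.CU
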