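import Pool.Agent.Helper79.SE.LeftRight

/-!
# CU: assembly, the iterates from the left and from the right
-/

open Polynomial

namespace Pool.Agent.Helper79.CU

open Pool.Agent.Helper79.SE

section

variable {R : Type} [CommRing R] [Algebra ℚ R] {ι : Type} [Fintype ι] [DecidableEq ι]

/-- The solution of `∂ B = c B`, `B(0) = 1`, coefficient by coefficient. -/
noncomputable def lsol (c : ℕ → Matrix ι ι R) : ℕ → Matrix ι ι R
  | 0 => 1
  | (n + 1) => (((n : ℚ) + 1)⁻¹) • ∑ p : Fin (n + 1), c (n - p) * lsol c p

theorem lsol_ode (c : Matrix ι ι (PowerSeries R)) (i l : ι) :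
    PowerSeries.derivative R (PowerSeries.mk fun n =>
      lsol (fun n => Matrix.of fun i l => PowerSeries.coeff n (c i l)) n i l) =
    ∑ m, c i m * PowerSeries.mk fun n =>
      lsol (fun n => Matrix.of fun i l => PowerSeries.coeff n (c i l)) n m l := by
  ext n
  rw [PowerSeries.coeff_derivative, PowerSeries.coeff_mk, map_sum, lsol]
  have h1 : (((n : ℚ) + 1)⁻¹) • (∑ p : Fin (n + 1),
      (Matrix.of fun i l => PowerSeries.coeff (n - p) (c i l)) *
        lsol (fun n => Matrix.of fun i l => PowerSeries.coeff n (c i l)) p) i l =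
      ((((n : ℚ) + 1)⁻¹) • ∑ p : Fin (n + 1),
      (Matrix.of fun i l => PowerSeries.coeff (n - p) (c i l)) *
        lsol (fun n => Matrix.of fun i l => PowerSeries.coeff n (c i l)) p) i l := rfl
  rw [← h1, smul_mul_assoc]
  have h2 : ∀ z : R, (((n : ℚ) + 1)⁻¹) • (z * ((n : R) + 1)) = z := by
    intro z
    have h3 : z * ((n : R) + 1) = ((n : ℚ) + 1) • z := by
      rw [Algebra.smul_def, map_add, map_natCast, map_one, mul_comm]
    rw [h3, smul_smul, inv_mul_cancel₀ (by positivity), one_smul]
  rw [h2, Matrix.sum_apply]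
  simp only [Matrix.mul_apply, Matrix.of_apply]
  rw [Finset.sum_comm]
  refine Finset.sum_congr rfl fun m _ => ?_
  rw [PowerSeries.coeff_mul, Finset.Nat.sum_antidiagonal_eq_sum_range_succ_mk,
    ← Finset.sum_range_reflect, Finset.sum_range]
  refine Finset.sum_congr rfl fun p _ => ?_
  have h3 : n + 1 - 1 - (p : ℕ) = n - p := by omega
  have h4 : n - (n - (p : ℕ)) = p := by
    have := p.2
    omega
  simp only [h3, h4, PowerSeries.coeff_mk]

/-- The iterates defined by the recursion from the right satisfy the differential equation from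
the left. -/
theorem left_of_right [IsDomain R] {D : Derivation ℚ R R} {k : ℕ} {a : Matrix (Fin k) (Fin k) R}
    {B : ℕ → Matrix (Fin k) (Fin k) R} (h0 : B 0 = 1)
    (h : ∀ n i l, ((n + 1 : ℕ) : R) * B (n + 1) i l = D (B n i l) + ∑ m, B n i m * a m l) :
    (∀ i l, PowerSeries.constantCoeff (PowerSeries.mk fun n => B n i l) =
      if i = l then 1 else 0) ∧
    ∀ i l, PowerSeries.derivative R (PowerSeries.mk fun n => B n i l) =
      ∑ m, tay D (a i m) * PowerSeries.mk fun n => B n m l := by
  set c : Matrix (Fin k) (Fin k) (PowerSeries R) := fun i l => tay D (a i l) with hc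
  set L := lsol (fun n => Matrix.of fun i l => PowerSeries.coeff n (c i l)) with hL
  have hL0 : ∀ i l, PowerSeries.constantCoeff (PowerSeries.mk fun n => L n i l) =
      if i = l then 1 else 0 := by
    intro i l
    rw [← PowerSeries.coeff_zero_eq_constantCoeff_apply, PowerSeries.coeff_mk, hL, lsol,
      Matrix.one_apply]
  have hL1 : ∀ i l, PowerSeries.derivative R (PowerSeries.mk fun n => L n i l) =
      ∑ m, tay D (a i m) * PowerSeries.mk fun n => L n m l := fun i l => lsol_ode c i l
  have hLB : ∀ n, L n = B n := by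
    intro n
    induction n with
    | zero => rw [h0, hL, lsol]
    | succ n ih =>
      ext i l
      have h1 := left_right (B := fun i l => PowerSeries.mk fun n => L n i l) hL0 hL1 n i l
      simp only [PowerSeries.coeff_mk] at h1
      have h2 := h n i l
      rw [ih] at h1
      rw [← h2] at h1
      have h3 : ((n + 1 : ℕ) : R) ≠ 0 := by
        have : CharZero R := algebraRat.charZero R
        exact Nat.cast_ne_zero.2 (Nat.succ_ne_zero n)
      exact mul_left_cancel₀ h3 h1
  have e : ∀ i l, (PowerSeries.mk fun n => B n i l) = PowerSeries.mk fun n => L n i l := by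
    intro i l
    ext n
    rw [PowerSeries.coeff_mk, PowerSeries.coeff_mk, hLB]
  refine ⟨fun i l => by rw [e, hL0], fun i l => ?_⟩
  rw [e, hL1]
  exact Finset.sum_congr rfl fun m _ => by rw [e]

end

end Pool.Agent.Helper79.CU
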