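import Pool.Agent.Helper79.CU.Lau
import Pool.Agent.Helper37.GP.Lcm

/-!
# CU-03: integration of the polar part at a place

`q = lcm(1, …, N + 1)` (`≤ H^(N+1)`, `Pool.Agent.Helper37.GP.Lcm`). Put `u_a = ∑_{n ≤ -2} (q / (n+1)) v_{a,n} z^(n+1)` (a finite sum, `v_a` has a pole of order at most `N`; `q / (n+1)` is an integer),
so `LG S E N (u_a)`, and `Tw ζ (u_a) (u_(σ a))` by `hv`. Let `V = vandermonde y`, so `Yi V = 1 = V Yi`, `b = Yi u`, so `V b = u`, `LG S E (N + s) (b_l)`. Applying the substitution `z ↦ ζ z` to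
`∑_l y_a^l b_l = u_a` gives `∑_l y_(σ a)^l b_l^ζ = u_(σ a)` for all `a`, hence `V b^ζ = u`, `b^ζ = b`: the coefficients satisfy `b_{l,n} = ζ^n b_{l,n}`, and `b_{l,n} = 0` unless `e ∣ n` (`ζ` primitive,
`R` a domain). Let `p_l = ∑_{j ≥ 1} b_{l,-ej} X^j`. Then `evL (xinf R e) (p_l)` is the part of `b_l` with negative exponents, `b_l - evL (xinf R e) (p_l)` has no pole, so
`∑_l evL (xinf R e) (p_l) y_a^l = u_a - ∑_l b_l^{≥ 0} y_a^l`, and `q v_a - ld (…) = (q v_a - ld u_a) + ld (∑_l b_l^{≥ 0} y_a^l)`; the first term has no coefficients of index `≤ -2`, the second has a pole of order at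
most `(m - 1) s + 1`.
-/

open Polynomial

namespace Pool.Agent.Helper79.CU

section LocAux

variable {R : Type} [CommRing R]

/-- A Laurent series with given coefficients. -/
theorem locaux_exists (g : ℤ → R) (N : ℤ) (hg : ∀ n, n < N → g n = 0) :
    ∃ f : LaurentSeries R, ∀ n, f.coeff n = g n := by
  refine ⟨HahnSeries.ofSuppBddBelow g ⟨N, ?_⟩, fun n => ?_⟩
  · intro n hn
    by_contra h
    exact hn (hg n (not_le.1 h))
  · rw [HahnSeries.coeff_ofSuppBddBelow]

theorem locaux_monomial (e k : ℕ) (r : R) :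
    evL (xinf R e) (monomial k r) = HahnSeries.single (-((e * k : ℕ) : ℤ)) r := by
  rw [evL, Polynomial.coe_eval₂RingHom, eval₂_monomial, xinf, HahnSeries.single_pow,
    HahnSeries.C_apply, HahnSeries.single_mul_single]
  congr 1
  · simp [mul_comm]
  · simp

theorem locaux_coeff {e : ℕ} (he : 1 ≤ e) (p : R[X]) (n : ℤ) :
    (evL (xinf R e) p).coeff n =
      if (e : ℤ) ∣ n ∧ n ≤ 0 then p.coeff ((-n) / (e : ℤ)).toNat else 0 := by
  induction p using Polynomial.induction_on' with
  | add p q hp hq =>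
    rw [map_add, HahnSeries.coeff_add, hp, hq]
    split_ifs
    · rw [coeff_add]
    · rw [add_zero]
  | monomial k r =>
    rw [locaux_monomial, coeff_monomial, HahnSeries.coeff_single]
    have he' : (0 : ℤ) < e := by exact_mod_cast he
    by_cases h : (e : ℤ) ∣ n ∧ n ≤ 0
    · rw [if_pos h]
      obtain ⟨⟨j, rfl⟩, h2⟩ := h
      have hj : j ≤ 0 := by
        by_contra hj
        push Not at hj
        have := mul_pos he' hj
        omega
      obtain ⟨i, hi⟩ := Int.eq_ofNat_of_zero_le (show 0 ≤ -j by omega)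
      obtain rfl : j = -(i : ℤ) := by omega
      have h3 : -((e : ℤ) * -(i : ℤ)) / (e : ℤ) = i := by
        rw [mul_neg, neg_neg, Int.mul_ediv_cancel_left _ he'.ne']
      rw [h3, Int.toNat_natCast]
      by_cases hk : k = i
      · subst hk
        rw [if_pos rfl, if_pos (by push_cast; ring)]
      · rw [if_neg hk, if_neg]
        intro h4
        apply hk
        push_cast at h4
        have h5 : (e : ℤ) * (i : ℤ) = e * k := by linarith
        have := mul_left_cancel₀ he'.ne' h5
        exact_mod_cast this.symm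
    · rw [if_neg h, if_neg]
      rintro rfl
      apply h
      refine ⟨⟨-(k : ℤ), by push_cast; ring⟩, ?_⟩
      have : (0 : ℤ) ≤ ((e * k : ℕ) : ℤ) := Int.natCast_nonneg _
      omega

end LocAux

theorem loc {R : Type} [CommRing R] [IsDomain R] [Algebra ℚ R] {S : MFilt R} {m e E s : ℕ}
    (he : 1 ≤ e) {ζ : Rˣ} (hζ : IsPrimitiveRoot ζ e) {y : Fin m → LaurentSeries R}
    {Yi : Matrix (Fin m) (Fin m) (LaurentSeries R)} {σ : Equiv.Perm (Fin m)}
    (hσ : ∀ a, Tw ζ (y a) (y (σ a))) (inv : Yi * Matrix.vandermonde y = 1)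
    (hy : ∀ a, LG S E s (y a)) (hYi : ∀ l a, LG S E s (Yi l a)) :
    ∃ H : ℕ, ∀ N : ℕ, ∃ q : ℕ, 0 < q ∧ q ≤ H ^ (N + 1) ∧ ∀ v : Fin m → LaurentSeries R,
      (∀ a, LG S E N (v a)) →
      (∀ a n, (v (σ a)).coeff n = ((ζ ^ (n + 1) : Rˣ) : R) * (v a).coeff n) →
      ∃ p : Fin m → R[X], (∀ l, (p l).natDegree ≤ N + s ∧
        ∀ j, (p l).coeff j ∈ S.I (2 * E * (N + s))) ∧
        ∀ a (n : ℤ), n < -((m * s + 1 : ℕ) : ℤ) → ((q : LaurentSeries R) * v a -
          ld (∑ l : Fin m, evL (xinf R e) (p l) * y a ^ (l : ℕ))).coeff n = 0 := by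
  have he' : (0 : ℤ) < e := by exact_mod_cast he
  refine ⟨4 ^ 4, fun N => ?_⟩
  obtain ⟨q, hq0, hq1, hq2⟩ := Pool.Agent.Helper37.GP.exists_den (N + 1)
  refine ⟨q, hq0, by rw [← pow_mul]; exact hq1, fun v hv hvσ => ?_⟩
  -- the primitive
  have hu : ∀ a, ∃ u : LaurentSeries R, ∀ n : ℤ, u.coeff n =
      if n < 0 then (((q : ℤ) / n : ℤ) : R) * (v a).coeff (n - 1) else 0 := by
    intro a
    refine locaux_exists _ (-(N : ℤ)) fun n hn => ?_
    split_ifs
    · rw [((hv a (n - 1)).1 (by omega)), mul_zero]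
    · rfl
  choose u hu using hu
  have huLG : ∀ a, LG S E N (u a) := by
    intro a n
    rw [hu]
    constructor
    · intro hn
      split_ifs
      · rw [((hv a (n - 1)).1 (by omega)), mul_zero]
      · rfl
    · split_ifs
      · apply MFilt.int_mul_mem
        refine S.mono ?_ (hv a (n - 1)).2
        apply Int.toNat_le_toNat
        apply mul_le_mul_of_nonneg_left _ (Int.natCast_nonneg _)
        omega
      · exact zero_mem _
  have huTw : ∀ a, Tw ζ (u a) (u (σ a)) := by
    intro a n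
    rw [hu, hu]
    split_ifs
    · rw [hvσ, sub_add_cancel]
      ring
    · rw [mul_zero]
  -- the coefficients
  set V := Matrix.vandermonde y with hV
  have inv2 : V * Yi = 1 := mul_eq_one_comm.1 inv
  set b : Fin m → LaurentSeries R := Yi.mulVec u with hb
  have hbu : V.mulVec b = u := by
    rw [hb, Matrix.mulVec_mulVec, inv2, Matrix.one_mulVec]
  have hbLG : ∀ l, LG S E (N + s) (b l) := by
    intro l
    rw [hb, Matrix.mulVec, dotProduct]
    refine LG_sum fun a _ => ?_
    rw [add_comm]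
    exact LG_mul (hYi l a) (huLG a)
  have hbb : ∀ l, Tw ζ (b l) (b l) := by
    choose b' hb' using fun l => Tw_exists ζ (b l)
    have h1 : V.mulVec b' = u := by
      funext a
      obtain ⟨a, rfl⟩ := σ.surjective a
      have h2 : Tw ζ (V.mulVec b a) (V.mulVec b' (σ a)) := by
        rw [Matrix.mulVec, Matrix.mulVec, dotProduct, dotProduct]
        refine Tw_sum _ fun l _ => ?_
        rw [hV, Matrix.vandermonde_apply, Matrix.vandermonde_apply]
        exact Tw_mul (Tw_pow (hσ a) _) (hb' l)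
      rw [hbu] at h2
      exact Tw_unique h2 (huTw a)
    have h3 : b' = b := by
      rw [hb, ← h1, Matrix.mulVec_mulVec, inv, Matrix.one_mulVec]
    intro l
    have := hb' l
    rwa [h3] at this
  have hbz : ∀ l (n : ℤ), ¬ (e : ℤ) ∣ n → (b l).coeff n = 0 := by
    intro l n hn
    have h1 := hbb l n
    have h2 : (ζ ^ n : Rˣ) ≠ 1 := fun h => hn ((hζ.zpow_eq_one_iff_dvd n).1 h)
    have h3 : (((ζ ^ n : Rˣ) : R) - 1) * (b l).coeff n = 0 := by
      rw [sub_mul, one_mul, ← h1, sub_self]
    rcases mul_eq_zero.1 h3 with h4 | h4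
    · exact absurd (Units.ext (by rw [Units.val_one]; exact sub_eq_zero.1 h4)) h2
    · exact h4
  -- the polynomials
  set p : Fin m → R[X] := fun l => ∑ j ∈ Finset.range (N + s + 1),
    monomial j (if 1 ≤ j then (b l).coeff (-((e : ℤ) * j)) else 0) with hp
  have hbig : ∀ l (j : ℕ), N + s < j → (b l).coeff (-((e : ℤ) * j)) = 0 := by
    intro l j hj
    refine (hbLG l _).1 ?_
    have h1 : (j : ℤ) ≤ (e : ℤ) * j := by
      have : (1 : ℤ) ≤ e := by omega
      nlinarith [Int.natCast_nonneg j]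
    push_cast
    omega
  have hpc : ∀ l j, (p l).coeff j = if 1 ≤ j then (b l).coeff (-((e : ℤ) * j)) else 0 := by
    intro l j
    rw [hp]
    simp only [finsetSum_coeff, coeff_monomial]
    rw [Finset.sum_ite_eq']
    by_cases h : j ∈ Finset.range (N + s + 1)
    · rw [if_pos h]
    · rw [if_neg h]
      rw [Finset.mem_range] at h
      rw [hbig l j (by omega)]
      split_ifs <;> rfl
  refine ⟨p, fun l => ⟨?_, fun j => ?_⟩, ?_⟩
  · rw [natDegree_le_iff_coeff_eq_zero]
    intro j hj
    rw [hpc, hbig l j hj]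
    split_ifs <;> rfl
  · rw [hpc]
    split_ifs
    · refine S.mono ?_ (hbLG l _).2
      rw [Int.toNat_le]
      push_cast
      have h1 : (0 : ℤ) ≤ (e : ℤ) * j := by positivity
      have h2 : (0 : ℤ) ≤ E := Int.natCast_nonneg _
      nlinarith [mul_nonneg h2 h1]
    · exact zero_mem _
  · intro a n hn
    -- the parts without pole
    have hc : ∀ l (k : ℤ), k < 0 → (b l - evL (xinf R e) (p l)).coeff k = 0 := by
      intro l k hk
      rw [HahnSeries.coeff_sub, locaux_coeff he]
      by_cases hd : (e : ℤ) ∣ k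
      · rw [if_pos ⟨hd, hk.le⟩, hpc]
        obtain ⟨j, rfl⟩ := hd
        have hj : j < 0 := by
          by_contra hj
          push Not at hj
          have := mul_nonneg he'.le hj
          omega
        obtain ⟨i, hi⟩ := Int.eq_ofNat_of_zero_le (show 0 ≤ -j by omega)
        obtain rfl : j = -(i : ℤ) := by omega
        have h3 : -((e : ℤ) * -(i : ℤ)) / (e : ℤ) = i := by
          rw [mul_neg, neg_neg, Int.mul_ediv_cancel_left _ he'.ne']
        rw [h3, Int.toNat_natCast, if_pos (by omega), mul_neg, sub_self]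
      · rw [if_neg (fun h => hd h.1), hbz l k hd, sub_zero]
    have hdec : (∑ l : Fin m, evL (xinf R e) (p l) * y a ^ (l : ℕ)) =
        u a - ∑ l : Fin m, (b l - evL (xinf R e) (p l)) * y a ^ (l : ℕ) := by
      have h1 : u a = ∑ l : Fin m, b l * y a ^ (l : ℕ) := by
        rw [← hbu, Matrix.mulVec, dotProduct]
        refine Finset.sum_congr rfl fun l _ => ?_
        rw [hV, Matrix.vandermonde_apply, mul_comm]
      rw [h1, ← Finset.sum_sub_distrib]
      refine Finset.sum_congr rfl fun l _ => ?_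
      ring
    have hrest : ∀ k : ℤ, k < -((m * s : ℕ) : ℤ) →
        (∑ l : Fin m, (b l - evL (xinf R e) (p l)) * y a ^ (l : ℕ)).coeff k = 0 := by
      intro k hk
      have h1 : LG (triv R) E (m * s)
          (∑ l : Fin m, (b l - evL (xinf R e) (p l)) * y a ^ (l : ℕ)) := by
        refine LG_sum fun l _ => ?_
        have h2 : LG (triv R) E 0 (b l - evL (xinf R e) (p l)) := by
          intro k
          exact ⟨fun hk => hc l k (by simpa using hk), trivial⟩
        have h3 : LG (triv R) E s (y a) := fun k => ⟨(hy a k).1, trivial⟩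
        refine LG_mono ?_ (LG_mul h2 (LG_pow h3 (l : ℕ)))
        rw [zero_add]
        exact Nat.mul_le_mul_right _ l.isLt.le
      exact (h1 k).1 hk
    rw [hdec, HahnSeries.coeff_sub, coeff_ld, HahnSeries.coeff_sub, hrest (n + 1) (by
      push_cast at hn ⊢
      omega), sub_zero, hu]
    have hneg : n + 1 < 0 := by
      have : (0 : ℤ) ≤ ((m * s : ℕ) : ℤ) := Int.natCast_nonneg _
      push_cast at hn this
      omega
    rw [if_pos hneg, add_sub_cancel_right]
    have hqv : ((q : LaurentSeries R) * v a).coeff n = (q : R) * (v a).coeff n := by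
      have h1 : (q : LaurentSeries R) = HahnSeries.C (q : R) := by
        rw [map_natCast]
      rw [h1, HahnSeries.C_mul_eq_smul, HahnSeries.coeff_smul, smul_eq_mul]
    rw [hqv]
    by_cases hnN : n < -(N : ℤ)
    · rw [(hv a n).1 hnN]
      ring
    · have h1 : (n + 1) ∣ (q : ℤ) := by
        have h2 := hq2 (-(n + 1)).toNat (by omega) (by omega)
        have h3 : (((-(n + 1)).toNat : ℕ) : ℤ) ∣ (q : ℤ) := by exact_mod_cast h2
        rw [Int.toNat_of_nonneg (by omega)] at h3
        exact (neg_dvd).1 h3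
      have h4 : ((n + 1 : ℤ) : R) * (((q : ℤ) / (n + 1) : ℤ) : R) = (q : R) := by
        rw [← Int.cast_mul, Int.mul_ediv_cancel' h1, Int.cast_natCast]
      rw [← mul_assoc, h4, sub_self]

end Pool.Agent.Helper79.CU
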