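import Pool.Agent.Helper79.CU.Defs
import Pool.Agent.Helper79.SE.MainA

/-!
# CU: assembly, change of rings
-/

open Polynomial

namespace Pool.Agent.Helper79.CU

open Pool.Agent.Helper79.SE

section

variable {A R : Type} [CommRing A] [Algebra ℚ A] [CommRing R] [Algebra ℚ R] (φ : A →+* R)

theorem map_dcdx (P : A[X][X]) :
    (dc (dx A) P).map (mapRingHom φ) = dc (dx R) (P.map (mapRingHom φ)) := by
  ext1 n
  rw [coeff_map, coeff_dc, coeff_dc, coeff_map]
  exact (derivative_map (P.coeff n) φ).symm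

theorem map_nx (F β : A[X][X]) (Δ : A[X]) (N : ℕ) (P : A[X][X]) :
    (nx F β Δ N P).map (mapRingHom φ) =
      nx (F.map (mapRingHom φ)) (β.map (mapRingHom φ)) (Δ.map φ) N (P.map (mapRingHom φ)) := by
  have h : mapRingHom φ (dx A Δ) = dx R (Δ.map φ) := (derivative_map Δ φ).symm
  rw [nx, nx, Polynomial.map_sub, Polynomial.map_sub, Polynomial.map_mul, Polynomial.map_mul,
    Polynomial.map_mul, Polynomial.map_mul, Polynomial.map_mul, map_dcdx, map_dcdx, map_C,
    map_C, ← derivative_map, Polynomial.map_natCast, h]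
  rfl

theorem nx_C (F β : R[X][X]) (Δ : R[X]) (N : ℕ) (r : R) (P : R[X][X]) :
    nx F β Δ N (C (C r) * P) = C (C r) * nx F β Δ N P := by
  have h : dc (dx R) (C (C r) * P) = C (C r) * dc (dx R) P := by
    ext1 n
    rw [coeff_dc, coeff_C_mul, coeff_C_mul, coeff_dc]
    change derivative (C r * P.coeff n) = C r * derivative (P.coeff n)
    rw [derivative_C_mul]
  rw [nx, nx, h, derivative_C_mul]
  ring

variable {D : Derivation ℚ A A} {D' : Derivation ℚ R R} {ε : R}
  (hD : ∀ p, D' (φ p) = ε * φ (D p))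

include hD

theorem DX_map (p : A[X]) : DX D' (p.map φ) = C ε * (DX D p).map φ := by
  change dc D' (p.map φ) = C ε * (dc D p).map φ
  ext n
  rw [coeff_dc, coeff_map, hD, coeff_C_mul, coeff_map, coeff_dc]

theorem dcDX_map (P : A[X][X]) :
    dc (DX D') (P.map (mapRingHom φ)) = C (C ε) * (dc (DX D) P).map (mapRingHom φ) := by
  ext1 n
  rw [coeff_dc, coeff_map, coeff_C_mul, coeff_map, coeff_dc]
  exact DX_map φ hD _

theorem nt_map (F β : A[X][X]) (Δ : A[X]) (N : ℕ) (P : A[X][X]) :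
    nt D' (F.map (mapRingHom φ)) (β.map (mapRingHom φ)) (Δ.map φ) N (P.map (mapRingHom φ)) =
      C (C ε) * (nt D F β Δ N P).map (mapRingHom φ) := by
  rw [nt, nt, Polynomial.map_sub, Polynomial.map_sub, Polynomial.map_mul, Polynomial.map_mul,
    Polynomial.map_mul, Polynomial.map_mul, Polynomial.map_mul, dcDX_map φ hD, dcDX_map φ hD,
    map_C, map_C, ← derivative_map, Polynomial.map_natCast, DX_map φ hD, C_mul]
  simp only [coe_mapRingHom]
  ring

omit hD in
theorem gm_map {F β : A[X][X]} {Δ : A[X]} {k : ℕ} {n : ℕ} {H G : Fin n → A[X][X]} {T₁ : A}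
    {Am : Matrix (Fin n) (Fin n) A} (hD : ∀ p, D' (φ p) = ε * φ (D p)) {τ : R}
    (hτ : φ T₁ * τ = 1)
    (gm : ∀ i, F ∣ C (C T₁) * nt D F β Δ k (H i) - ∑ l, C (C (Am i l)) * (C Δ * H l) -
      nx F β Δ k (G i)) (i : Fin n) :
    F.map (mapRingHom φ) ∣ nt D' (F.map (mapRingHom φ)) (β.map (mapRingHom φ)) (Δ.map φ) k
      ((H i).map (mapRingHom φ)) - ∑ l, C (C (ε * τ * φ (Am i l))) *
        (C (Δ.map φ) * (H l).map (mapRingHom φ)) -
      nx (F.map (mapRingHom φ)) (β.map (mapRingHom φ)) (Δ.map φ) k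
        (C (C (ε * τ)) * (G i).map (mapRingHom φ)) := by
  have h1 := map_dvd (mapRingHom (mapRingHom φ)) (gm i)
  rw [map_sub, map_sub, map_mul, map_sum] at h1
  simp only [coe_mapRingHom, map_C, Polynomial.map_mul] at h1
  rw [map_nx] at h1
  have h2 : nt D' (F.map (mapRingHom φ)) (β.map (mapRingHom φ)) (Δ.map φ) k
      ((H i).map (mapRingHom φ)) - ∑ l, C (C (ε * τ * φ (Am i l))) *
        (C (Δ.map φ) * (H l).map (mapRingHom φ)) -
      nx (F.map (mapRingHom φ)) (β.map (mapRingHom φ)) (Δ.map φ) k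
        (C (C (ε * τ)) * (G i).map (mapRingHom φ)) = C (C (ε * τ)) *
      (C (C (φ T₁)) * (nt D F β Δ k (H i)).map (mapRingHom φ) -
        ∑ l, C (C (φ (Am i l))) * (C (Δ.map φ) * (H l).map (mapRingHom φ)) -
        nx (F.map (mapRingHom φ)) (β.map (mapRingHom φ)) (Δ.map φ) k
          ((G i).map (mapRingHom φ))) := by
    have e1 := nt_map φ hD F β Δ k (H i)
    have e2 := nx_C (F.map (mapRingHom φ)) (β.map (mapRingHom φ)) (Δ.map φ) k (ε * τ)
      ((G i).map (mapRingHom φ))
    have h3 : (C (C τ) : R[X][X]) * C (C (φ T₁)) = 1 := by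
      rw [← C_mul, ← C_mul, mul_comm τ, hτ, C_1, C_1]
    have e3 : ∑ l, C (C (ε * τ * φ (Am i l))) * (C (Δ.map φ) * (H l).map (mapRingHom φ)) =
        C (C (ε * τ)) * ∑ l, C (C (φ (Am i l))) *
          (C (Δ.map φ) * (H l).map (mapRingHom φ)) := by
      rw [Finset.mul_sum]
      refine Finset.sum_congr rfl fun l _ => ?_
      rw [C_mul (a := ε * τ), C_mul (a := C (ε * τ)), mul_assoc]
    have e4 : (C (C (ε * τ)) : R[X][X]) = C (C ε) * C (C τ) := by rw [C_mul, C_mul]
    rw [e1, e2, e3, mul_sub, mul_sub]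
    congr 2
    rw [e4, ← mul_assoc, mul_assoc (C (C ε)), h3, mul_one]
  rw [h2]
  exact Dvd.dvd.mul_left h1 _

end

section

variable {κ K : Type} [Field κ] [CharZero κ] [Field K] [CharZero K] [Algebra κ K]

/-- The ring homomorphism `κ[t] → K[[x]]`, `t ↦ s₀ + c x`. -/
noncomputable def phiK (K : Type) [Field K] [Algebra κ K] (s₀ c : κ) : κ[X] →+* PowerSeries K :=
  (PowerSeries.map (algebraMap κ K)).comp (phi s₀ c)

theorem phiK_injective (s₀ : κ) {c : κ} (hc : c ≠ 0) : Function.Injective (phiK K s₀ c) := by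
  have h1 : Function.Injective (phi s₀ c) := by
    intro p q h
    rw [phi_apply, phi_apply, Polynomial.coe_inj] at h
    have h2 := congrArg (fun r : κ[X] => r.comp (C c⁻¹ * (X - C s₀))) h
    simp only [comp_assoc] at h2
    have h3 : (C s₀ + C c * X : κ[X]).comp (C c⁻¹ * (X - C s₀)) = X := by
      simp only [add_comp, C_comp, mul_comp, X_comp]
      rw [← mul_assoc, ← C_mul, mul_inv_cancel₀ hc, C_1, one_mul]
      ring
    rwa [h3, comp_X, comp_X] at h2
  exact (PowerSeries.map_injective _ (algebraMap κ K).injective).comp h1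

theorem Du_map (y : PowerSeries κ) :
    Du K (PowerSeries.map (algebraMap κ K) y) = PowerSeries.map (algebraMap κ K) (Du κ y) := by
  rw [Du_apply, Du_apply, map_neg, map_mul, map_pow, PowerSeries.map_X]
  congr 2
  ext n
  rw [PowerSeries.coeff_derivative, PowerSeries.coeff_map, PowerSeries.coeff_map,
    PowerSeries.coeff_derivative, map_mul, map_add, map_natCast, map_one]

theorem Du_phiK (s₀ c : κ) (p : κ[X]) :
    Du K (phiK K s₀ c p) = PowerSeries.map (algebraMap κ K)
      ((-(C c * X ^ 2) : κ[X]) : PowerSeries κ) * phiK K s₀ c (dt κ p) := by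
  rw [phiK, RingHom.comp_apply, Du_map, Du_phi, map_mul]
  rfl

end

end Pool.Agent.Helper79.CU
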