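import Pool.Agent.Helper79.CU.Core
import Pool.Agent.Helper79.CU.Geom
import Pool.Agent.Helper79.CU.Map
import Pool.Agent.Helper79.CU.Func
import Pool.Agent.Helper79.CU.Hom

/-!
# CU: assembly, geometric denominators of the iterates at almost all points
-/

open Polynomial

namespace Pool.Agent.Helper79.CU

open Pool.Agent.Helper79.SE

theorem finite_range_coeff₂ {R : Type} [Semiring R] (p : R[X][X]) :
    {x | ∃ l j, (p.coeff l).coeff j = x}.Finite := by
  have h : {x | ∃ l j, (p.coeff l).coeff j = x} ⊆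
      ⋃ q ∈ Set.range p.coeff, Set.range q.coeff := by
    rintro x ⟨l, j, rfl⟩
    exact Set.mem_iUnion₂.2 ⟨p.coeff l, ⟨l, rfl⟩, ⟨j, rfl⟩⟩
  refine Set.Finite.subset (Set.Finite.biUnion (SE.finite_range_coeff p) fun q _ =>
    SE.finite_range_coeff q) h

theorem alg_cu {κ : Type} [Field κ] [CharZero κ] (K : Type) [Field K] [CharZero K]
    [IsAlgClosed K] [Algebra κ K] [Algebra.IsAlgebraic ℚ K] {F α β : κ[X][X][X]} {Δ : κ[X][X]} (hF : F.Monic) {m : ℕ} (hm : F.natDegree = m)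
    (hm1 : 1 ≤ m) (hΔ : Δ ≠ 0) (bez : α * F + β * derivative F = C Δ) {n k : ℕ}
    {H G : Fin n → κ[X][X][X]} {T₁ : κ[X]} (hT₁ : T₁ ≠ 0)
    {A : Matrix (Fin n) (Fin n) κ[X]}
    (gm : ∀ i, F ∣ C (C T₁) * nt (dt κ) F β Δ k (H i) - ∑ l, C (C (A i l)) * (C Δ * H l) -
      nx F β Δ k (G i))
    (ind : ∀ c : Fin n → κ[X], Exact F β Δ k (∑ i, C (C (c i)) * H i) → c = 0) :
    ∃ Bad : Set κ, Bad.Finite ∧ ∀ s₀ ∉ Bad, T₁.eval s₀ ≠ 0 ∧ ∀ c : κ, c ≠ 0 →
      ∀ (τ : PowerSeries κ), phi s₀ c T₁ * τ = 1 →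
      ∀ B : ℕ → Matrix (Fin n) (Fin n) (PowerSeries κ), B 0 = 1 →
      (∀ j i l, ((j + 1 : ℕ) : PowerSeries κ) * B (j + 1) i l =
        -(PowerSeries.X ^ 2 * PowerSeries.derivative κ (B j i l)) +
          ∑ m, B j i m * (((-(C c * X ^ 2) : κ[X]) : PowerSeries κ) * τ *
            phi s₀ c (A m l))) →
      ∃ H : ℕ, ∀ N : ℕ, ∃ q : ℕ, 0 < q ∧ q ≤ H ^ (N + 1) ∧ ∀ j m, j + m ≤ N → ∀ i l,
        IsIntegral ℤ ((q : κ) * PowerSeries.coeff m (B j i l)) := by
  set L := AlgebraicClosure (FractionRing κ[X]) with hL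
  have hinj : Function.Injective (algebraMap κ[X] L) := by
    rw [IsScalarTower.algebraMap_eq κ[X] (FractionRing κ[X]) L]
    exact (algebraMap (FractionRing κ[X]) L).injective.comp
      (IsFractionRing.injective κ[X] (FractionRing κ[X]))
  have halg : Algebra.IsAlgebraic κ[X] L := by
    have h1 : Algebra.IsAlgebraic (FractionRing κ[X]) L := inferInstance
    exact (IsFractionRing.comap_isAlgebraic_iff (A := κ[X]) (K := FractionRing κ[X])).2 h1
  have hL0 : CharZero L := inferInstance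
  obtain ⟨T, e, E, s, r, nu, hT, he, hE, hs, hnu, hgeom⟩ := geom hinj hF hm hm1 hΔ bez
  obtain ⟨Bad₁, hBad₁, hhom⟩ := exists_hom (κ := κ) (K := K) hinj halg T hT
  -- the representatives of the forms
  set N₀ : ℕ := (m * s + 1) + s + e with hN₀
  set h : Fin n → κ[X][X][X] := fun i => (C Δ ^ N₀ * H i) %ₘ F with hh
  have hF1 : F ≠ 1 := by
    rintro rfl
    rw [natDegree_one] at hm
    omega
  have h1 : ∀ i, (h i).natDegree < m := fun i => by
    rw [← hm]
    exact natDegree_modByMonic_lt _ hF hF1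
  have h3 : ∀ i, F ∣ C Δ ^ N₀ * H i - h i := by
    intro i
    refine ⟨(C Δ ^ N₀ * H i) /ₘ F, ?_⟩
    exact sub_eq_of_eq_add' (modByMonic_add_div (C Δ ^ N₀ * H i) F).symm
  set J : ℕ := Δ.natDegree * N₀ + s + (m * s + 1) + k * Δ.natDegree +
    ∑ i, ∑ l ∈ Finset.range m, ((h i).coeff l).natDegree with hJ
  have h2 : ∀ i l, ((h i).coeff l).natDegree ≤ J := by
    intro i l
    rcases lt_or_ge l m with hl | hl
    · have e1 : ((h i).coeff l).natDegree ≤
          ∑ l ∈ Finset.range m, ((h i).coeff l).natDegree :=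
        Finset.single_le_sum (f := fun l => ((h i).coeff l).natDegree)
          (fun _ _ => Nat.zero_le _) (Finset.mem_range.2 hl)
      have e2 : (∑ l ∈ Finset.range m, ((h i).coeff l).natDegree) ≤
          ∑ i, ∑ l ∈ Finset.range m, ((h i).coeff l).natDegree :=
        Finset.single_le_sum (f := fun i => ∑ l ∈ Finset.range m, ((h i).coeff l).natDegree)
          (fun _ _ => Nat.zero_le _) (Finset.mem_univ i)
      omega
    · rw [coeff_eq_zero_of_natDegree_lt ((h1 i).trans_le hl), natDegree_zero]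
      exact Nat.zero_le _
  obtain ⟨Dx, hDx, hDxC⟩ := exists_Dx (F := F) (Δ := Δ) bez
  have ind' : ∀ c : Fin n → κ[X], Exact F β Δ (k + N₀) (∑ i, C (C (c i)) * h i) → c = 0 := by
    intro c hc
    apply ind c
    rw [exact_iff hF hm hm1 hΔ hDx] at hc ⊢
    obtain ⟨g, hg⟩ := hc
    refine ⟨g, ?_⟩
    rw [← hg]
    change fr F Δ k _ = fr F Δ (k + N₀) _
    rw [fr_sum, fr_sum]
    refine Finset.sum_congr rfl fun i _ => ?_
    rw [fr_C, fr_C, ← fr_congr (h3 i), fr_pow]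
  obtain ⟨lam, θ, hθ, hval, hvan⟩ := exists_func hF hm hΔ h1 h2 ind'
  refine ⟨Bad₁ ∪ ({x | T₁.IsRoot x} ∪ {x | θ.IsRoot x}), hBad₁.union
    ((finite_setOfPred_isRoot hT₁).union (finite_setOfPred_isRoot hθ)), fun s₀ hs₀ => ?_⟩
  simp only [Set.mem_union, not_or] at hs₀
  obtain ⟨hs1, hs2, hs3⟩ := hs₀
  refine ⟨hs2, fun c hc τ hτ B hB0 hB => ?_⟩
  obtain ⟨ψ, hψ1, hψ2⟩ := hhom s₀ hs1 c hc
  set φ : κ[X] →+* PowerSeries K := phiK K s₀ c with hφ
  have hψφ : ψ.comp (algebraMap κ[X] (Algebra.adjoin κ[X] T)) = φ := RingHom.ext hψ1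
  have hφinj : Function.Injective φ := phiK_injective s₀ hc
  -- the data over `K[[x]]`
  set ε : PowerSeries K := PowerSeries.map (algebraMap κ K)
    ((-(C c * X ^ 2) : κ[X]) : PowerSeries κ) with hε
  set τK : PowerSeries K := PowerSeries.map (algebraMap κ K) τ with hτK
  have hτ1 : φ T₁ * τK = 1 := by
    rw [hφ, phiK, RingHom.comp_apply, hτK, ← map_mul, hτ, map_one]
  have hθu : IsUnit (φ θ) := by
    rw [PowerSeries.isUnit_iff_constantCoeff, hφ, phiK, RingHom.comp_apply,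
      ← PowerSeries.coeff_zero_eq_constantCoeff_apply, PowerSeries.coeff_map,
      PowerSeries.coeff_zero_eq_constantCoeff_apply, phi_apply, Polynomial.constantCoeff_coe,
      coeff_zero_eq_eval_zero, eval_comp, isUnit_iff_ne_zero, Ne,
      FaithfulSMul.algebraMap_eq_zero_iff]
    simpa using hs3
  obtain ⟨θ', hθ'⟩ := hθu.exists_right_inv
  have hgm := gm_map φ (D' := Du K) (D := dt κ) (ε := ε) (Du_phiK s₀ c) hτ1 gm
  have hgeoφ : ∀ p : κ[X], Geo (φ p) := by
    intro p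
    rw [hφ, phiK, RingHom.comp_apply, phi_apply, ← Polynomial.polynomial_map_coe]
    exact geo_poly _
  have hgeoθ : Geo θ' := geo_inv (hgeoφ θ) hθ'
  set FK := F.map (mapRingHom φ) with hFK
  set βK := β.map (mapRingHom φ) with hβK
  set ΔK := Δ.map φ with hΔK
  set HK : Fin n → (PowerSeries K)[X][X] := fun i => (H i).map (mapRingHom φ) with hHK
  set lK : Fin n → ℕ → ℕ → PowerSeries K := fun i l j => φ (lam i l j) with hlK
  -- the finite set of series
  set 𝒮 : Set (PowerSeries K) := {x | ∃ l j, (FK.coeff l).coeff j = x} ∪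
    ({x | ∃ l j, (βK.coeff l).coeff j = x} ∪ (Set.range ΔK.coeff ∪
    ((⋃ i, {x | ∃ l j, ((HK i).coeff l).coeff j = x}) ∪
    ((⋃ i, (fun p : ℕ × ℕ => lK i p.1 p.2) '' (Finset.range m ×ˢ Finset.range (J + 1) :
      Finset (ℕ × ℕ))) ∪ ({θ'} ∪ ((fun x : T => ψ ⟨x, Algebra.subset_adjoin x.2⟩) ''
        Set.univ)))))) with h𝒮
  have : Finite T := hT
  have h𝒮f : 𝒮.Finite := by
    refine (finite_range_coeff₂ _).union ((finite_range_coeff₂ _).union
      ((SE.finite_range_coeff _).union ((Set.finite_iUnion fun i => finite_range_coeff₂ _).union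
      ((Set.finite_iUnion fun i => (Finset.finite_toSet _).image _).union
      ((Set.finite_singleton _).union (Set.finite_univ.image _))))))
  have h𝒮g : ∀ y ∈ 𝒮, Geo y := by
    rintro y (⟨l, j, rfl⟩ | ⟨l, j, rfl⟩ | ⟨l, rfl⟩ | hy | hy | rfl | ⟨x, -, rfl⟩)
    · rw [hFK, coeff_map, coe_mapRingHom, coeff_map]
      exact hgeoφ _
    · rw [hβK, coeff_map, coe_mapRingHom, coeff_map]
      exact hgeoφ _
    · rw [hΔK, coeff_map]
      exact hgeoφ _
    · obtain ⟨i, l, j, rfl⟩ := Set.mem_iUnion.1 hy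
      rw [hHK, coeff_map, coe_mapRingHom, coeff_map]
      exact hgeoφ _
    · obtain ⟨i, x, -, rfl⟩ := Set.mem_iUnion.1 hy
      exact hgeoφ _
    · exact hgeoθ
    · exact hψ2 _ x.2
  obtain ⟨M, hM1, -, hM⟩ := geo_finite h𝒮f h𝒮g 1 le_rfl
  obtain ⟨S, hS⟩ := exists_filt K M
  have hmem : ∀ y ∈ 𝒮, y ∈ S.I 1 := fun y hy => (hS _ _).2 (hM y hy)
  have hR0 : CharZero (PowerSeries K) := algebraRat.charZero _
  obtain ⟨ζ, ρ, δ₀, hζ, hΔs, hρ, hρe, hδe, hδe', hpl, hpl'⟩ :=
    hgeom ψ ⟨S.I, S.mono, S.one, S.mul⟩ 1 le_rfl (fun x hx => hmem _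
      (Or.inr (Or.inr (Or.inr (Or.inr (Or.inr (Or.inr ⟨⟨x, hx⟩, Set.mem_univ _, rfl⟩)))))))
  rw [hψφ] at hΔs
  simp only [hψφ] at hpl hpl'
  have hFKm : FK.Monic := hF.map _
  have hFKd : FK.natDegree = m := by rw [hFK, hF.natDegree_map, hm]
  have bezK : α.map (mapRingHom φ) * FK + βK * derivative FK = C ΔK := by
    have h := congrArg (Polynomial.map (mapRingHom φ)) bez
    rw [Polynomial.map_add, Polynomial.map_mul, Polynomial.map_mul, map_C,
      ← derivative_map] at h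
    exact h
  have hΔKd : ΔK.natDegree = Δ.natDegree := natDegree_map_eq_of_injective hφinj Δ
  set BK : ℕ → Matrix (Fin n) (Fin n) (PowerSeries K) := fun j =>
    (B j).map (PowerSeries.map (algebraMap κ K)) with hBK
  set hK : Fin n → (PowerSeries K)[X][X] := fun i => (h i).map (mapRingHom φ) with hhK
  have hBK0 : BK 0 = 1 := by
    rw [hBK]
    simp only
    rw [hB0, Matrix.map_one _ (map_zero _) (map_one _)]
  have hBK1 : ∀ j i l, ((j + 1 : ℕ) : PowerSeries K) * BK (j + 1) i l =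
      Du K (BK j i l) + ∑ m, BK j i m * (fun i l => ε * τK * φ (A i l)) m l := by
    intro j i l
    have h4 := congrArg (PowerSeries.map (algebraMap κ K)) (hB j i l)
    rw [map_mul, map_natCast, map_add, map_sum, ← Du_apply, ← Du_map] at h4
    rw [hBK]
    simp only [Matrix.map_apply]
    rw [h4]
    congr 1
    refine Finset.sum_congr rfl fun l' _ => ?_
    rw [map_mul, map_mul, map_mul]
    rfl
  obtain ⟨H₀, c₀, hcore⟩ := core (D := Du K) S (F := FK) (α := α.map (mapRingHom φ)) (β := βK)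
    (Δ := ΔK) (m := m) (e := e) (E := E * 1) (s := s) (e₁ := 1) (by omega) hs hFKm hFKd hm1 bezK
    (fun l j => hmem _ (Or.inl ⟨l, j, rfl⟩))
    (fun l j => hmem _ (Or.inr (Or.inl ⟨l, j, rfl⟩)))
    (fun j => hmem _ (Or.inr (Or.inr (Or.inl ⟨j, rfl⟩)))) he hζ hnu hΔs hρ hρe hδe hδe' hpl hpl'
    (k := k) (H := HK) (G := fun i => C (C (ε * τK)) * (G i).map (mapRingHom φ))
    (fun i l j => hmem _ (Or.inr (Or.inr (Or.inr (Or.inl (Set.mem_iUnion.2 ⟨i, l, j, rfl⟩))))))
    (a := fun i l => ε * τK * φ (A i l)) hgm hBK0 hBK1 (J := J) (h := hK)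
    (fun i => (natDegree_map_le).trans_lt (h1 i))
    (fun i l => by
      rw [hhK]
      simp only
      rw [coeff_map]
      exact (natDegree_map_le).trans (h2 i l))
    (fun i => by
      have h4 := map_dvd (mapRingHom (mapRingHom φ)) (h3 i)
      simp only [coe_mapRingHom, Polynomial.map_sub, Polynomial.map_mul, Polynomial.map_pow,
        map_C] at h4
      exact h4)
    (by
      rw [hΔKd, ← hN₀]
      exact Nat.le_add_right _ _) (lam := lK) (θ := φ θ) hθ'
    (hmem _ (Or.inr (Or.inr (Or.inr (Or.inr (Or.inr (Or.inl rfl)))))))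
    (fun i l hl j hj => hmem _ (Or.inr (Or.inr (Or.inr (Or.inr (Or.inl
      (Set.mem_iUnion.2 ⟨i, ⟨(l, j), by
        simpa using ⟨Finset.mem_range.1 hl, Nat.le_of_lt_succ (Finset.mem_range.1 hj)⟩,
        rfl⟩⟩)))))))
    (fun i' i => by
      have h4 := congrArg φ (hval i' i)
      rw [map_sum] at h4
      simp only [map_sum, map_mul] at h4
      rw [apply_ite φ, map_zero] at h4
      rw [← h4]
      refine Finset.sum_congr rfl fun l _ => Finset.sum_congr rfl fun j _ => ?_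
      rw [hhK, hlK]
      simp only
      rw [coeff_map, coe_mapRingHom, coeff_map])
    (fun P hP1 hP2 hP3 => hvan φ hφinj P hP1 hP2 hP3)
  refine ⟨H₀ * M ^ (c₀ + 1), fun N => ?_⟩
  obtain ⟨q, hq0, hq1, hq2⟩ := hcore N
  refine ⟨q * M ^ ((c₀ + 1) * (N + 1)), Nat.mul_pos hq0 (pow_pos hM1 _), ?_,
    fun j m' hjm i l => ?_⟩
  · rw [mul_pow, ← pow_mul]
    exact Nat.mul_le_mul_right _ hq1
  have h4 := (hS _ _).1 (hq2 j (by omega) i l) m'
  have h5 : PowerSeries.coeff m' ((q : PowerSeries K) * BK j i l) =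
      (q : K) * algebraMap κ K (PowerSeries.coeff m' (B j i l)) := by
    rw [← map_natCast (PowerSeries.C (R := K)), PowerSeries.coeff_C_mul]
    rfl
  rw [h5] at h4
  have h6 : M ^ (c₀ * (N + 1) + m') ∣ M ^ ((c₀ + 1) * (N + 1)) := by
    refine pow_dvd_pow _ ?_
    nlinarith
  obtain ⟨v, hv⟩ := h6
  have h7 : algebraMap κ K (((q * M ^ ((c₀ + 1) * (N + 1)) : ℕ) : κ) *
      PowerSeries.coeff m' (B j i l)) = ((v : ℕ) : K) *
      ((M : K) ^ (c₀ * (N + 1) + m') * ((q : K) *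
        algebraMap κ K (PowerSeries.coeff m' (B j i l)))) := by
    rw [hv, Nat.cast_mul, Nat.cast_mul, Nat.cast_pow]
    simp only [map_mul, map_pow, map_natCast]
    ring
  have h8 : IsIntegral ℤ (algebraMap κ K (((q * M ^ ((c₀ + 1) * (N + 1)) : ℕ) : κ) *
      PowerSeries.coeff m' (B j i l))) := by
    rw [h7]
    exact IsIntegral.mul (SE.isIntegral_natCast v) h4
  exact (isIntegral_algebraMap_iff (algebraMap κ K).injective).1 h8

end Pool.Agent.Helper79.CU
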