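import Pool.Agent.Helper79.SE.MainB

/-!
# CU: assembly, the system at infinity for a general matrix
-/

open Polynomial

namespace Pool.Agent.Helper79.CU

open Pool.Agent.Helper79.SE Pool.Agent.Helper79.GX

section

variable {K : Type} [Field K] [CharZero K]

/-- The iterates defined by the recursion from the right. -/
noncomputable def rsol {ι : Type} [Fintype ι] [DecidableEq ι] (a : Matrix ι ι (PowerSeries K)) :
    ℕ → Matrix ι ι (PowerSeries K)
  | 0 => 1
  | (j + 1) => Matrix.of fun i l => PowerSeries.C (((j + 1 : ℕ) : K)⁻¹) *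
      (-(PowerSeries.X ^ 2 * PowerSeries.derivative K (rsol a j i l)) +
        ∑ m, rsol a j i m * a m l)

theorem rsol_rec {ι : Type} [Fintype ι] [DecidableEq ι] (a : Matrix ι ι (PowerSeries K)) (j : ℕ)
    (i l : ι) : ((j + 1 : ℕ) : PowerSeries K) * rsol a (j + 1) i l =
      -(PowerSeries.X ^ 2 * PowerSeries.derivative K (rsol a j i l)) +
        ∑ m, rsol a j i m * a m l := by
  have h1 : ((j + 1 : ℕ) : PowerSeries K) = PowerSeries.C ((j + 1 : ℕ) : K) :=
    (map_natCast (PowerSeries.C (R := K)) _).symm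
  rw [rsol, Matrix.of_apply, ← mul_assoc, h1, ← map_mul,
    mul_inv_cancel₀ (Nat.cast_ne_zero.2 (Nat.succ_ne_zero j)), map_one, one_mul]

theorem rsol_zero {ι : Type} [Fintype ι] [DecidableEq ι] (a : Matrix ι ι (PowerSeries K)) :
    rsol a 0 = 1 := rfl

/-- The iterates of the system have geometric denominators. -/
def IterBd {ι : Type} [Fintype ι] [DecidableEq ι] (a : Matrix ι ι (PowerSeries K)) : Prop :=
  ∃ H : ℕ, ∀ N : ℕ, ∃ q : ℕ, 0 < q ∧ q ≤ H ^ (N + 1) ∧ ∀ j m, j + m ≤ N → ∀ i l,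
    IsIntegral ℤ ((q : K) * PowerSeries.coeff m (rsol a j i l))

/-- The system `V' = A/T₁ V` in the variable `u`, `t = s₀ + c/u`, `x = 1/u`: `d/du V = a V`. -/
noncomputable def sysU {ι : Type} (s₀ c : K) (τ : PowerSeries K) (A : Matrix ι ι K[X]) :
    Matrix ι ι (PowerSeries K) := fun i l =>
  ((-(C c * X ^ 2) : K[X]) : PowerSeries K) * τ * phi s₀ c (A i l)

/-- The system in the variable `u`. -/
theorem exists_sysG [Algebra.IsAlgebraic ℚ K] {β : Type} [Fintype β] [DecidableEq β] {s₀ c : K}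
    {T₁ : K[X]} (hT0 : T₁.eval s₀ ≠ 0) {A : Matrix β β K[X]}
    (hb : ∀ (τ : PowerSeries K), phi s₀ c T₁ * τ = 1 → IterBd (sysU s₀ c τ A)) :
    ∃ (T : ℤ[X]) (h : K[X]) (E : ℕ) (A' : Matrix β β K[X]),
      (∃ H : ℕ, GalF (T.map (Int.castRingHom K)) A' H) ∧
      (∀ i l, (A' i l).natDegree + 2 ≤ T.natDegree) ∧ T ≠ 0 ∧
      (T₁.comp (C s₀ + C c * X)).natDegree ≤ E ∧
      T.map (Int.castRingHom K) = (T₁.comp (C s₀ + C c * X)).reflect E * h ∧
      (∀ p q, (-(C c * X ^ 2) * (A p q).comp (C s₀ + C c * X)).natDegree ≤ E) ∧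
      (∀ p q, A' p q =
        (-(C c * X ^ 2) * (A p q).comp (C s₀ + C c * X)).reflect E * h) ∧ 2 ≤ T.natDegree := by
  have hu : IsUnit (phi s₀ c T₁) := by
    rw [PowerSeries.isUnit_iff_constantCoeff, phi_apply, Polynomial.constantCoeff_coe,
      coeff_zero_eq_eval_zero, eval_comp, isUnit_iff_ne_zero]
    simpa using hT0
  obtain ⟨τ, hτ⟩ := hu.exists_right_inv
  set ℓ : K[X] := C s₀ + C c * X with hℓ
  set a : Matrix β β (PowerSeries K) := sysU s₀ c τ A with ha
  have hbd := hb τ hτ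
  set E : ℕ := (T₁.comp ℓ).natDegree + (∑ p, ∑ q,
    (-(C c * X ^ 2) * (A p q).comp ℓ).natDegree) + 2 with hE
  have hE1 : (T₁.comp ℓ).natDegree ≤ E := by omega
  have hE2 : ∀ p q, (-(C c * X ^ 2) * (A p q).comp ℓ).natDegree ≤ E := by
    intro p q
    have h1 : (-(C c * X ^ 2) * (A p q).comp ℓ).natDegree ≤
        ∑ q, (-(C c * X ^ 2) * (A p q).comp ℓ).natDegree :=
      Finset.single_le_sum (f := fun q => (-(C c * X ^ 2) * (A p q).comp ℓ).natDegree)
        (fun _ _ => Nat.zero_le _) (Finset.mem_univ q)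
    have h2 : (∑ q, (-(C c * X ^ 2) * (A p q).comp ℓ).natDegree) ≤
        ∑ p, ∑ q, (-(C c * X ^ 2) * (A p q).comp ℓ).natDegree :=
      Finset.single_le_sum (f := fun p => ∑ q, (-(C c * X ^ 2) * (A p q).comp ℓ).natDegree)
        (fun _ _ => Nat.zero_le _) (Finset.mem_univ p)
    omega
  have hc0 : (T₁.comp ℓ).coeff 0 ≠ 0 := by
    rw [coeff_zero_eq_eval_zero, eval_comp]
    simpa [hℓ] using hT0
  set Tu : K[X] := (T₁.comp ℓ).reflect E with hTu
  have hTud : Tu.natDegree = E := natDegree_reflect_of_coeff_zero hE1 hc0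
  have hTu0 : Tu ≠ 0 := by
    intro h
    rw [h, natDegree_zero] at hTud
    omega
  obtain ⟨T, h, hTne, hh, hTh⟩ := exists_int_mul hTu0
  have hTd : T.natDegree = E + h.natDegree := by
    rw [← natDegree_map_eq_of_injective (f := Int.castRingHom K)
      (RingHom.injective_int (Int.castRingHom K)) T, hTh, natDegree_mul hTu0 hh, hTud]
  set A' : Matrix β β K[X] := fun p q =>
        (-(C c * X ^ 2) * (A p q).comp ℓ).reflect E * h with hA'
  have hA'd : ∀ i l, (A' i l).natDegree + 2 ≤ T.natDegree := by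
    intro i l
    have h2 := natDegree_reflect_add_two (hE2 i l) (by omega)
        (by
          rw [neg_mul, coeff_neg, mul_assoc, coeff_C_mul, coeff_X_pow_mul']
          simp)
        (by
          rw [neg_mul, coeff_neg, mul_assoc, coeff_C_mul, coeff_X_pow_mul']
          simp)
    have h3 := natDegree_mul_le
        (p := (-(C c * X ^ 2) * (A i l).comp ℓ).reflect E) (q := h)
    rw [hA']
    simp only
    omega
  refine ⟨T, h, E, A', ?_, hA'd, hTne, hE1, hTh, hE2, fun p q => rfl, by omega⟩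
  refine gal_of_B hTne (fun i l => by have := hA'd i l; omega)
    (a := a) ?_ (B := rsol a) (rsol_zero a) (rsol_rec a) hbd
  intro p q
  rw [hTd, hTh]
  have e2 : ((((T₁.comp ℓ) : K[X])) : PowerSeries K) * τ = 1 := hτ
  have h2 : A' p q = (-(C c * X ^ 2) * (A p q).comp ℓ).reflect E * h := rfl
  rw [h2, reflect_mul _ _ ((natDegree_reflect_le).trans (max_le le_rfl (hE2 _ _))) le_rfl,
      reflect_reflect, reflect_mul _ _ hTud.le le_rfl, hTu, reflect_reflect, ha, sysU]
  rw [phi_apply, Polynomial.coe_mul, Polynomial.coe_mul, Polynomial.coe_mul]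
  linear_combination (-((((h.reflect h.natDegree : K[X])) : PowerSeries K) *
      (((-(C c * X ^ 2) : K[X]) : PowerSeries K)) *
      (((((A p q).comp ℓ : K[X])) : PowerSeries K)))) * e2

end

end Pool.Agent.Helper79.CU
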