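import Pool.Agent.Helper79.SE.Trans

/-!
# CU-22: relations over a curve: restriction to a smaller open set, the substitution `t = s₀ + c/u`

The models are `rel_restrict` and `rel_moebius` in `Pool.Agent.Helper79.SE.Trans` (there for the line:
`HasRelation`; here for a branch `(t, w t)` of a plane curve, `HasRelationC`).
* `rel_restrictC`: the same `r`; `t ↦ evC q t (w t) (P t)` is analytic on the preconnected set `U`, zero on
  `U'`, hence zero on `U`.
* `rel_moebiusC`: `t = s₀ + c/n ∈ κ`, `kapC κ t (w t) ≤ kapC κ n (n^D w t)`: the generators are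
  the elements of `κ`, `t`, and `w t` if it is algebraic: then `n^D w t` is algebraic, belongs to the
  right hand side, and `n^D ≠ 0` too. Map `r` along the inclusion (the same degree bound and values).
  If `q(x, y, M)` vanishes at all `(u, u^D w(s₀ + c/u), P(s₀ + c/u))`, consider
  `q'(t, y, M) = (t - s₀)^(N+1) q(c/(t-s₀), (c/(t-s₀))^D y, M)`, which for large `N` is a polynomial over
  `Qbar` (monomial `b x^i y^k m ↦ b c^(i+Dk) (t-s₀)^(N+1-i-Dk) y^k m`); it vanishes at all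
  `(t, w t, P t)`, `t ∈ U` (also for `t = s₀`), hence at `(s, w s, M)` for `M ∈ BFibreC U w P s`,
  `s = s₀ + c/n ≠ s₀`, and so `q(n, n^D w s, M) = 0`.
-/

open Polynomial Pool.Agent.Helper64.Per Pool.Agent.Helper79.GX

namespace Pool.Agent.Helper79.CU

section

variable {ι : Type} [Fintype ι] [DecidableEq ι]

omit [Fintype ι] [DecidableEq ι] in
private lemma evC_C (a : Qbar) (x y : ℂ) (M : Matrix ι ι ℂ) :
    evC (MvPolynomial.C a : MvPolynomial (Bool ⊕ ι × ι) Qbar) x y M = (a : ℂ) := by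
  unfold evC
  rw [MvPolynomial.aeval_C]
  rfl

omit [Fintype ι] [DecidableEq ι] in
private lemma evC_add (p q : MvPolynomial (Bool ⊕ ι × ι) Qbar) (x y : ℂ) (M : Matrix ι ι ℂ) :
    evC (p + q) x y M = evC p x y M + evC q x y M := by
  unfold evC
  rw [map_add]

omit [Fintype ι] [DecidableEq ι] in
private lemma evC_sub (p q : MvPolynomial (Bool ⊕ ι × ι) Qbar) (x y : ℂ) (M : Matrix ι ι ℂ) :
    evC (p - q) x y M = evC p x y M - evC q x y M := by
  unfold evC
  rw [map_sub]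

omit [Fintype ι] [DecidableEq ι] in
private lemma evC_mul (p q : MvPolynomial (Bool ⊕ ι × ι) Qbar) (x y : ℂ) (M : Matrix ι ι ℂ) :
    evC (p * q) x y M = evC p x y M * evC q x y M := by
  unfold evC
  rw [map_mul]

omit [Fintype ι] [DecidableEq ι] in
private lemma evC_pow (p : MvPolynomial (Bool ⊕ ι × ι) Qbar) (n : ℕ) (x y : ℂ)
    (M : Matrix ι ι ℂ) : evC (p ^ n) x y M = evC p x y M ^ n := by
  unfold evC
  rw [map_pow]

omit [Fintype ι] [DecidableEq ι] in
private lemma evC_Xt (x y : ℂ) (M : Matrix ι ι ℂ) :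
    evC (MvPolynomial.X (Sum.inl true) : MvPolynomial (Bool ⊕ ι × ι) Qbar) x y M = x := by
  unfold evC
  rw [MvPolynomial.aeval_X]
  rfl

omit [Fintype ι] [DecidableEq ι] in
private lemma evC_Xf (x y : ℂ) (M : Matrix ι ι ℂ) :
    evC (MvPolynomial.X (Sum.inl false) : MvPolynomial (Bool ⊕ ι × ι) Qbar) x y M = y := by
  unfold evC
  rw [MvPolynomial.aeval_X]
  rfl

omit [Fintype ι] [DecidableEq ι] in
private lemma evC_Xr (p : ι × ι) (x y : ℂ) (M : Matrix ι ι ℂ) :
    evC (MvPolynomial.X (Sum.inr p) : MvPolynomial (Bool ⊕ ι × ι) Qbar) x y M = M p.1 p.2 := by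
  unfold evC
  rw [MvPolynomial.aeval_X]
  rfl

omit [Fintype ι] [DecidableEq ι] in
private lemma analytic_evC (q : MvPolynomial (Bool ⊕ ι × ι) Qbar) {U : Set ℂ} {w : ℂ → ℂ}
    (hw : AnalyticOnNhd ℂ w U) {P : ℂ → Matrix ι ι ℂ}
    (hP : ∀ i k, AnalyticOnNhd ℂ (fun t => P t i k) U) :
    AnalyticOnNhd ℂ (fun t => evC q t (w t) (P t)) U := by
  induction q using MvPolynomial.induction_on with
  | C a =>
    have h1 : (fun t => evC (MvPolynomial.C a : MvPolynomial (Bool ⊕ ι × ι) Qbar) t (w t) (P t)) =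
        fun _ => (a : ℂ) := by
      funext t
      exact evC_C _ _ _ _
    rw [h1]
    exact analyticOnNhd_const
  | add p q hp hq =>
    have h2 : (fun t => evC (p + q) t (w t) (P t)) =
        fun t => evC p t (w t) (P t) + evC q t (w t) (P t) := by
      funext t
      exact evC_add _ _ _ _ _
    rw [h2]
    exact hp.add hq
  | mul_X p i hp =>
    rcases i with b | i
    · cases b with
      | false =>
        have h2 : (fun t => evC (p * MvPolynomial.X (Sum.inl false)) t (w t) (P t)) =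
            fun t => evC p t (w t) (P t) * w t := by
          funext t
          rw [evC_mul, evC_Xf]
        rw [h2]
        exact hp.mul hw
      | true =>
        have h2 : (fun t => evC (p * MvPolynomial.X (Sum.inl true)) t (w t) (P t)) =
            fun t => evC p t (w t) (P t) * t := by
          funext t
          rw [evC_mul, evC_Xt]
        rw [h2]
        exact hp.mul analyticOnNhd_id
    · have h2 : (fun t => evC (p * MvPolynomial.X (Sum.inr i)) t (w t) (P t)) =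
          fun t => evC p t (w t) (P t) * P t i.1 i.2 := by
        funext t
        rw [evC_mul, evC_Xr]
      rw [h2]
      exact hp.mul (hP _ _)

theorem rel_restrictC {U U' : Set ℂ} (hU : IsPreconnected U) (hU' : IsOpen U')
    (hne : U'.Nonempty) (hsub : U' ⊆ U) {w : ℂ → ℂ} (hw : AnalyticOnNhd ℂ w U)
    {P : ℂ → Matrix ι ι ℂ} (hP : ∀ i k, AnalyticOnNhd ℂ (fun t => P t i k) U) {s : ℂ}
    {κ : IntermediateField ℚ Qbar} {δ : ℕ} (h : HasRelationC U w P s κ δ) :
    HasRelationC U' w P s κ δ := by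
  obtain ⟨r, hdeg, hZ, hnot⟩ := h
  refine ⟨r, hdeg, hZ, fun hall => hnot fun M hM => hall M ⟨hM.1, fun q hq => hM.2 q ?_⟩⟩
  obtain ⟨z, hz⟩ := hne
  have han : AnalyticOnNhd ℂ (fun t => evC q t (w t) (P t)) U := analytic_evC q hw hP
  have hzero : (fun t => evC q t (w t) (P t)) =ᶠ[nhds z] 0 :=
    Filter.eventuallyEq_of_mem (hU'.mem_nhds hz) fun t ht => hq t ht
  intro t ht
  exact han.eqOn_zero_of_preconnected_of_eventuallyEq_zero hU (hsub hz) hzero ht

omit [Fintype ι] [DecidableEq ι] in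
private lemma exists_substC (s' c' : Qbar) (D : ℕ) (q : MvPolynomial (Bool ⊕ ι × ι) Qbar) :
    ∃ (N : ℕ) (q' : MvPolynomial (Bool ⊕ ι × ι) Qbar), ∀ t : ℂ, t ≠ (s' : ℂ) →
      ∀ (y : ℂ) (M : Matrix ι ι ℂ), evC q' t y M =
        (t - (s' : ℂ)) ^ N * evC q ((c' : ℂ) / (t - (s' : ℂ)))
          (((c' : ℂ) / (t - (s' : ℂ))) ^ D * y) M := by
  induction q using MvPolynomial.induction_on with
  | C a =>
    refine ⟨0, MvPolynomial.C a, fun t ht y M => ?_⟩
    rw [evC_C, evC_C, pow_zero, one_mul]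
  | add p q hp hq =>
    obtain ⟨N₁, p', hp⟩ := hp
    obtain ⟨N₂, q', hq⟩ := hq
    refine ⟨N₁ + N₂, (MvPolynomial.X (Sum.inl true) - MvPolynomial.C s') ^ N₂ * p' +
      (MvPolynomial.X (Sum.inl true) - MvPolynomial.C s') ^ N₁ * q', fun t ht y M => ?_⟩
    rw [evC_add, evC_add, evC_mul, evC_mul, evC_pow, evC_pow, evC_sub, evC_Xt, evC_C,
      hp t ht y M, hq t ht y M]
    ring
  | mul_X p i hp =>
    obtain ⟨N, p', hp⟩ := hp
    rcases i with b | i
    · cases b with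
      | false =>
        refine ⟨N + D, p' * (MvPolynomial.C (c' ^ D) * MvPolynomial.X (Sum.inl false)),
          fun t ht y M => ?_⟩
        have h4 : t - (s' : ℂ) ≠ 0 := sub_ne_zero.2 ht
        have h5 : ((c' ^ D : Qbar) : ℂ) = (c' : ℂ) ^ D := by push_cast; rfl
        rw [evC_mul, evC_mul, evC_mul, evC_Xf, evC_Xf, evC_C, hp t ht y M, h5, div_pow, pow_add]
        field_simp
      | true =>
        refine ⟨N + 1, p' * MvPolynomial.C c', fun t ht y M => ?_⟩
        have h4 : t - (s' : ℂ) ≠ 0 := sub_ne_zero.2 ht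
        rw [evC_mul, evC_mul, evC_Xt, evC_C, hp t ht y M]
        field_simp
        ring
    · refine ⟨N, p' * MvPolynomial.X (Sum.inr i), fun t ht y M => ?_⟩
      rw [evC_mul, evC_mul, evC_Xr, evC_Xr, hp t ht y M]
      ring

omit [Fintype ι] [DecidableEq ι] in
private lemma transfer {K K' : IntermediateField ℚ Qbar} (hle : K ≤ K')
    (r : MvPolynomial (ι × ι) K) : ∃ r' : MvPolynomial (ι × ι) K',
      r'.totalDegree ≤ r.totalDegree ∧ ∀ M : Matrix ι ι ℂ, evK K' r' M = evK K r M := by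
  refine ⟨MvPolynomial.map (IntermediateField.inclusion hle).toRingHom r,
    Finset.sup_mono (MvPolynomial.support_map_subset _ _), fun M => ?_⟩
  simp only [evK]
  rw [MvPolynomial.aeval_def, MvPolynomial.eval₂_map, MvPolynomial.aeval_def]
  rfl

private lemma kap_le (κ : IntermediateField ℚ Qbar) (x y x' y' : ℂ)
    (hx : ∀ z : Qbar, (z : ℂ) = x → z ∈ kapC κ x' y')
    (hy : ∀ z : Qbar, (z : ℂ) = y → z ∈ kapC κ x' y') : kapC κ x y ≤ kapC κ x' y' := by
  have h1 : IntermediateField.adjoin ℚ {z : Qbar | (z : ℂ) = x ∨ (z : ℂ) = y} ≤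
      kapC κ x' y' := by
    rw [IntermediateField.adjoin_le_iff]
    rintro z (hz | hz)
    · exact hx z hz
    · exact hy z hz
  exact sup_le le_sup_left h1

private lemma mem_kap (κ : IntermediateField ℚ Qbar) (x y : ℂ) (z : Qbar) (hz : (z : ℂ) = y) :
    z ∈ kapC κ x y := by
  have h1 : z ∈ IntermediateField.adjoin ℚ {z : Qbar | (z : ℂ) = x ∨ (z : ℂ) = y} :=
    IntermediateField.subset_adjoin ℚ _ (Or.inr hz)
  have h2 : IntermediateField.adjoin ℚ {z : Qbar | (z : ℂ) = x ∨ (z : ℂ) = y} ≤ kapC κ x y :=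
    le_sup_right
  exact h2 h1

private lemma kap_base (κ : IntermediateField ℚ Qbar) (x y : ℂ) (z : Qbar) (hz : z ∈ κ) :
    z ∈ kapC κ x y := by
  have h2 : κ ≤ kapC κ x y := le_sup_left
  exact h2 hz

private lemma mem_of_mul {K : IntermediateField ℚ Qbar} {a z : Qbar} (ha : a ∈ K) (h0 : a ≠ 0)
    (h : a * z ∈ K) : z ∈ K := by
  have h3 : z = a⁻¹ * (a * z) := by rw [inv_mul_cancel_left₀ h0]
  rw [h3]
  exact K.mul_mem (K.inv_mem ha) h

private lemma int_mem (K : IntermediateField ℚ Qbar) (n : ℤ) : (n : Qbar) ∈ K :=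
  intCast_mem K n

theorem rel_moebiusC {U : Set ℂ} {w : ℂ → ℂ} {P : ℂ → Matrix ι ι ℂ}
    {κ : IntermediateField ℚ Qbar} {s₀ c : κ} (hc : c ≠ 0) {n : ℤ} (hn : n ≠ 0) {δ : ℕ} (D : ℕ)
    (h : HasRelationC U w P (((s₀ : Qbar) : ℂ) + ((c : Qbar) : ℂ) / (n : ℂ)) κ δ) :
    HasRelationC {u : ℂ | u ≠ 0 ∧ ((s₀ : Qbar) : ℂ) + ((c : Qbar) : ℂ) / u ∈ U}
      (fun u => u ^ D * w (((s₀ : Qbar) : ℂ) + ((c : Qbar) : ℂ) / u))
      (fun u => P (((s₀ : Qbar) : ℂ) + ((c : Qbar) : ℂ) / u)) (n : ℂ) κ δ := by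
  have hn' : (n : ℂ) ≠ 0 := Int.cast_ne_zero.2 hn
  have hc' : ((c : Qbar) : ℂ) ≠ 0 := by
    intro h0
    apply hc
    apply Subtype.ext
    apply Subtype.ext
    exact h0
  have hle : kapC κ (((s₀ : Qbar) : ℂ) + ((c : Qbar) : ℂ) / (n : ℂ))
      (w (((s₀ : Qbar) : ℂ) + ((c : Qbar) : ℂ) / (n : ℂ))) ≤
      kapC κ (n : ℂ) ((n : ℂ) ^ D * w (((s₀ : Qbar) : ℂ) + ((c : Qbar) : ℂ) / (n : ℂ))) := by
    apply kap_le
    · intro z hz
      apply kap_base
      have h1 : z = (s₀ : Qbar) + (c : Qbar) / (n : Qbar) := by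
        apply Subtype.ext
        rw [hz]
        push_cast
        rfl
      rw [h1]
      exact κ.add_mem s₀.2 (κ.div_mem c.2 (int_mem κ n))
    · intro z hz
      have h2 : (n : Qbar) ^ D ≠ 0 := pow_ne_zero _ (Int.cast_ne_zero.2 hn)
      refine mem_of_mul (a := (n : Qbar) ^ D) (IntermediateField.pow_mem _ (int_mem _ n) D) h2 ?_
      apply mem_kap
      push_cast
      rw [hz]
  obtain ⟨r, hdeg, hZ, hnot⟩ := h
  obtain ⟨r', hdeg', hev⟩ := transfer hle r
  refine ⟨r', hdeg'.trans hdeg, fun M hM => (hev M).trans (hZ M hM), fun hall => ?_⟩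
  refine hnot fun M hM => (hev M).symm.trans (hall M ⟨hM.1, fun q hq => ?_⟩)
  obtain ⟨N, q', hq'⟩ := exists_substC (ι := ι) (s₀ : Qbar) (c : Qbar) D q
  have hev2 : ∀ (t y : ℂ) (M : Matrix ι ι ℂ),
      evC ((MvPolynomial.X (Sum.inl true) - MvPolynomial.C (s₀ : Qbar)) * q') t y M =
      (t - ((s₀ : Qbar) : ℂ)) * evC q' t y M := by
    intro t y M
    rw [evC_mul, evC_sub, evC_Xt, evC_C]
  have key := hM.2 ((MvPolynomial.X (Sum.inl true) - MvPolynomial.C (s₀ : Qbar)) * q')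
    (fun t ht => by
    rw [hev2]
    by_cases hts : t = ((s₀ : Qbar) : ℂ)
    · rw [hts]; simp
    · have h4 : t - ((s₀ : Qbar) : ℂ) ≠ 0 := sub_ne_zero.2 hts
      have h5 : ((s₀ : Qbar) : ℂ) + ((c : Qbar) : ℂ) / (((c : Qbar) : ℂ) / (t - ((s₀ : Qbar) : ℂ)))
          = t := by
        rw [div_div_cancel₀ hc']; ring
      have h6 := hq (((c : Qbar) : ℂ) / (t - ((s₀ : Qbar) : ℂ))) ⟨div_ne_zero hc' h4, by
        rw [h5]; exact ht⟩
      simp only [h5] at h6
      rw [hq' t hts, h6]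
      ring)
  rw [hev2] at key
  have h7 : (((s₀ : Qbar) : ℂ) + ((c : Qbar) : ℂ) / (n : ℂ)) - ((s₀ : Qbar) : ℂ) =
    ((c : Qbar) : ℂ) / (n : ℂ) := by ring
  have h8 : ((c : Qbar) : ℂ) / (n : ℂ) ≠ 0 := div_ne_zero hc' hn'
  have h9 : (((s₀ : Qbar) : ℂ) + ((c : Qbar) : ℂ) / (n : ℂ)) ≠ ((s₀ : Qbar) : ℂ) := by
    intro h0
    rw [h0, sub_self] at h7
    exact h8 h7.symm
  rw [hq' _ h9, h7, div_div_cancel₀ hc'] at key
  rcases mul_eq_zero.1 key with h | h
  · exact absurd h h8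
  · rcases mul_eq_zero.1 h with h | h
    · exact absurd h (pow_ne_zero _ h8)
    · exact h

end

end Pool.Agent.Helper79.CU
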