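import Pool.Agent.Helper79.CU.TensDefs

/-!
# CU-21: geometric denominators of the iterates of tensor powers and of sub-connections

`D = Du K = -X^2 d/dX`. The iterates `B_j = rsol a j` satisfy `B_0 = 1`,
`(j+1) B_(j+1) = D B_j + B_j a` (`rsol_rec`); a sequence with this recursion and `B_0 = 1` is `rsol a`
(division by `j + 1`, characteristic zero).

It is convenient to call a sequence `f : ℕ → K[[X]]` bounded (`DBd f`) if there is `H` such that for
every `N` there is `0 < q ≤ H^(N+1)` with `q · coeff m (f j)` integral for `j + m ≤ N`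
(`IterBd a` iff every entry sequence is bounded: take the product of the finitely many `q`).
Bounded sequences are closed under finite sums (product of the two `q`, product of the two `H`)
and under convolution `(f * g)_j = ∑_(i+k=j) f_i g_k`.

* `iterBd_tens`: the iterates of the tensor power are
  `(I, J) ↦ ∑_(j_1+…+j_r=j) ∏_s B_(j_s) (I s) (J s)`. A way to prove it: induction on `r`, with the
  system `a ⊗ 1 + 1 ⊗ b` on `ι × ι'` (iterates `∑_(i+k=j) B_i(a) ⊗ B_k(b)`; the recursion follows from
  `(j+1) = (i+1) + k` or `i + (k+1)` and the Leibniz rule), and transport along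
  `Fin (r+1) → ι ≃ ι × (Fin r → ι)`. Or: `Y = ∑ B_j h^j` satisfies `E Y = Y a` for the
  derivation `E = d/dh - D` of `K[[X]][[h]]`, so `∏_s Y (I s) (J s)` satisfies the tensor equation.
* `iterBd_sub`: put `M_i = D^i(M)/i!` (entrywise; `iter_Du`, `exists_filt.hasse`: `M_i` is a bounded
  sequence because the entries of `M` are `Geo`). Then `B_j(b) M = ∑_(i+k=j) M_i B_k(a)`: induction on
  `j`: `(j+1) B_(j+1)(b) M = (D B_j(b)) M + B_j(b) b M = D(B_j(b) M) - B_j(b) D M + B_j(b) (D M + M a)
  = D(B_j(b) M) + B_j(b) M a` and `D(∑ M_i B_k) + ∑ M_i B_k a = ∑ ((i+1) M_(i+1) B_k + M_i (k+1) B_(k+1))`.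
  Multiply with `ρ` from the right: `B_j(b) = ∑ M_i B_k(a) ρ`, a convolution of bounded sequences.
-/

open Polynomial

namespace Pool.Agent.Helper79.CU

open Pool.Agent.Helper79.SE

private lemma der_mul {R : Type} [CommRing R] (F G : PowerSeries R) :
    PowerSeries.derivative R (F * G) =
      F * PowerSeries.derivative R G + G * PowerSeries.derivative R F :=
  (PowerSeries.derivative R).leibniz F G

section

variable {K : Type} [Field K] [CharZero K]

private lemma natInt (n : ℕ) : IsIntegral ℤ (n : K) := by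
  have h := isIntegral_algebraMap (R := ℤ) (A := K) (x := (n : ℤ))
  simpa using h

/-- bounded sequences -/
private def DBd (f : ℕ → PowerSeries K) : Prop :=
  ∃ H : ℕ, ∀ N : ℕ, ∃ q : ℕ, 0 < q ∧ q ≤ H ^ (N + 1) ∧ ∀ j m, j + m ≤ N →
    IsIntegral ℤ ((q : K) * PowerSeries.coeff m (f j))

private lemma dbd_zero : DBd (fun _ : ℕ => (0 : PowerSeries K)) := by
  refine ⟨1, fun N => ⟨1, one_pos, by rw [one_pow], fun j m _ => ?_⟩⟩
  rw [map_zero, mul_zero]
  exact isIntegral_zero

private lemma dbd_add {f g : ℕ → PowerSeries K} (hf : DBd f) (hg : DBd g) :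
    DBd (fun j => f j + g j) := by
  obtain ⟨H, hf⟩ := hf
  obtain ⟨H', hg⟩ := hg
  refine ⟨H * H', fun N => ?_⟩
  obtain ⟨q, hq, hqH, hf⟩ := hf N
  obtain ⟨q', hq', hqH', hg⟩ := hg N
  refine ⟨q * q', Nat.mul_pos hq hq', ?_, fun j m hjm => ?_⟩
  · rw [mul_pow]
    exact Nat.mul_le_mul hqH hqH'
  · rw [map_add]
    have h1 : ((q * q' : ℕ) : K) * (PowerSeries.coeff m (f j) + PowerSeries.coeff m (g j)) =
        (q' : K) * ((q : K) * PowerSeries.coeff m (f j)) +
          (q : K) * ((q' : K) * PowerSeries.coeff m (g j)) := by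
      push_cast
      ring
    rw [h1]
    exact ((natInt _).mul (hf j m hjm)).add ((natInt _).mul (hg j m hjm))

private lemma dbd_conv {f g : ℕ → PowerSeries K} (hf : DBd f) (hg : DBd g) :
    DBd (fun j => ∑ p ∈ Finset.HasAntidiagonal.antidiagonal j, f p.1 * g p.2) := by
  obtain ⟨H, hf⟩ := hf
  obtain ⟨H', hg⟩ := hg
  refine ⟨H * H', fun N => ?_⟩
  obtain ⟨q, hq, hqH, hf⟩ := hf N
  obtain ⟨q', hq', hqH', hg⟩ := hg N
  refine ⟨q * q', Nat.mul_pos hq hq', ?_, fun j m hjm => ?_⟩
  · rw [mul_pow]
    exact Nat.mul_le_mul hqH hqH'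
  · rw [map_sum, Finset.mul_sum]
    refine IsIntegral.sum _ fun p hp => ?_
    have hp' : p.1 + p.2 = j := Finset.HasAntidiagonal.mem_antidiagonal.1 hp
    rw [PowerSeries.coeff_mul, Finset.mul_sum]
    refine IsIntegral.sum _ fun r hr => ?_
    have hr' : r.1 + r.2 = m := Finset.HasAntidiagonal.mem_antidiagonal.1 hr
    have h1 : ((q * q' : ℕ) : K) * (PowerSeries.coeff r.1 (f p.1) * PowerSeries.coeff r.2 (g p.2)) =
        ((q : K) * PowerSeries.coeff r.1 (f p.1)) *
          ((q' : K) * PowerSeries.coeff r.2 (g p.2)) := by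
      push_cast
      ring
    rw [h1]
    exact (hf _ _ (by omega)).mul (hg _ _ (by omega))

/-- series in `h` with bounded coefficient sequence -/
private def Bd2 (F : PowerSeries (PowerSeries K)) : Prop :=
  DBd (fun j => PowerSeries.coeff j F)

private lemma bd2_zero : Bd2 (0 : PowerSeries (PowerSeries K)) := by
  unfold Bd2
  simp only [map_zero]
  exact dbd_zero

private lemma bd2_add {F G : PowerSeries (PowerSeries K)} (hF : Bd2 F) (hG : Bd2 G) :
    Bd2 (F + G) := by
  unfold Bd2 at *
  simp only [map_add]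
  exact dbd_add hF hG

private lemma bd2_mul {F G : PowerSeries (PowerSeries K)} (hF : Bd2 F) (hG : Bd2 G) :
    Bd2 (F * G) := by
  unfold Bd2 at *
  have h := dbd_conv hF hG
  have e : (fun j => PowerSeries.coeff j (F * G)) =
      fun j => ∑ p ∈ Finset.HasAntidiagonal.antidiagonal j, PowerSeries.coeff p.1 F * PowerSeries.coeff p.2 G := by
    funext j
    rw [PowerSeries.coeff_mul]
  rw [e]
  exact h

private lemma bd2_C {y : PowerSeries K} (hy : Geo y) : Bd2 (PowerSeries.C y) := by
  obtain ⟨M, hM, hy⟩ := hy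
  refine ⟨M, fun N => ⟨M ^ (N + 1), Nat.pow_pos hM, le_rfl, fun j m hjm => ?_⟩⟩
  beta_reduce
  rw [PowerSeries.coeff_C]
  split_ifs with hj
  · have h1 : ((M ^ (N + 1) : ℕ) : K) * PowerSeries.coeff m y =
        (M : K) ^ (N - m) * ((M : K) ^ (1 + m) * PowerSeries.coeff m y) := by
      rw [← mul_assoc, ← pow_add, Nat.cast_pow]
      congr 2
      omega
    rw [h1]
    exact ((natInt M).pow _).mul (hy m)
  · rw [map_zero, mul_zero]
    exact isIntegral_zero

private lemma bd2_one : Bd2 (1 : PowerSeries (PowerSeries K)) := by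
  have h : (1 : PowerSeries (PowerSeries K)) = PowerSeries.C (1 : PowerSeries K) := by
    rw [map_one]
  rw [h]
  refine bd2_C ⟨1, le_rfl, fun m => ?_⟩
  rw [Nat.cast_one, one_pow, one_mul, PowerSeries.coeff_one]
  split_ifs
  · exact isIntegral_one
  · exact isIntegral_zero

private lemma bd2_sum {σ : Type} (S : Finset σ) (F : σ → PowerSeries (PowerSeries K))
    (h : ∀ s ∈ S, Bd2 (F s)) : Bd2 (∑ s ∈ S, F s) := by
  classical
  induction S using Finset.induction_on with
  | empty => rw [Finset.sum_empty]; exact bd2_zero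
  | insert a S ha ih =>
    rw [Finset.sum_insert ha]
    exact bd2_add (h a (Finset.mem_insert_self a S))
      (ih fun s hs => h s (Finset.mem_insert_of_mem hs))

private lemma bd2_prod {σ : Type} (S : Finset σ) (F : σ → PowerSeries (PowerSeries K))
    (h : ∀ s ∈ S, Bd2 (F s)) : Bd2 (∏ s ∈ S, F s) := by
  classical
  induction S using Finset.induction_on with
  | empty => rw [Finset.prod_empty]; exact bd2_one
  | insert a S ha ih =>
    rw [Finset.prod_insert ha]
    exact bd2_mul (h a (Finset.mem_insert_self a S))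
      (ih fun s hs => h s (Finset.mem_insert_of_mem hs))

/-- the coefficientwise derivation -/
private noncomputable def cD (F : PowerSeries (PowerSeries K)) : PowerSeries (PowerSeries K) :=
  PowerSeries.mk fun j => Du K (PowerSeries.coeff j F)

private lemma coeff_cD (F : PowerSeries (PowerSeries K)) (j : ℕ) :
    PowerSeries.coeff j (cD F) = Du K (PowerSeries.coeff j F) := by
  unfold cD
  rw [PowerSeries.coeff_mk]

private lemma cD_mul (F G : PowerSeries (PowerSeries K)) :
    cD (F * G) = cD F * G + F * cD G := by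
  ext1 j
  rw [coeff_cD, map_add, PowerSeries.coeff_mul, PowerSeries.coeff_mul, PowerSeries.coeff_mul,
    map_sum, ← Finset.sum_add_distrib]
  refine Finset.sum_congr rfl fun p _ => ?_
  rw [Derivation.leibniz, coeff_cD, coeff_cD, smul_eq_mul, smul_eq_mul]
  ring

/-- `E = d/dh - D` -/
private noncomputable def eD (F : PowerSeries (PowerSeries K)) : PowerSeries (PowerSeries K) :=
  PowerSeries.derivative (PowerSeries K) F - cD F

private lemma coeff_eD (F : PowerSeries (PowerSeries K)) (j : ℕ) :
    PowerSeries.coeff j (eD F) =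
      ((j + 1 : ℕ) : PowerSeries K) * PowerSeries.coeff (j + 1) F -
        Du K (PowerSeries.coeff j F) := by
  unfold eD
  rw [map_sub, coeff_cD, PowerSeries.coeff_derivative]
  push_cast
  ring

private lemma eD_mul (F G : PowerSeries (PowerSeries K)) :
    eD (F * G) = eD F * G + F * eD G := by
  unfold eD
  rw [der_mul, cD_mul]
  ring

private lemma eD_add (F G : PowerSeries (PowerSeries K)) : eD (F + G) = eD F + eD G := by
  ext1 j
  rw [map_add, coeff_eD, coeff_eD, coeff_eD, map_add, map_add, map_add]
  ring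

private lemma eD_zero : eD (0 : PowerSeries (PowerSeries K)) = 0 := by
  ext1 j
  rw [coeff_eD, map_zero, map_zero, map_zero, mul_zero, sub_zero]

private lemma eD_one : eD (1 : PowerSeries (PowerSeries K)) = 0 := by
  have h := eD_mul (1 : PowerSeries (PowerSeries K)) 1
  rw [mul_one, mul_one, one_mul] at h
  exact left_eq_add.1 h

private lemma eD_C (y : PowerSeries K) : eD (PowerSeries.C y) = -PowerSeries.C (Du K y) := by
  ext1 j
  rw [coeff_eD, PowerSeries.coeff_C, PowerSeries.coeff_C, map_neg, PowerSeries.coeff_C,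
    if_neg (Nat.succ_ne_zero j), mul_zero, zero_sub]
  split_ifs
  · rfl
  · rw [map_zero]

private lemma eD_sum {σ : Type} (S : Finset σ) (F : σ → PowerSeries (PowerSeries K)) :
    eD (∑ s ∈ S, F s) = ∑ s ∈ S, eD (F s) := by
  classical
  induction S using Finset.induction_on with
  | empty => rw [Finset.sum_empty, Finset.sum_empty]; exact eD_zero
  | insert a S ha ih => rw [Finset.sum_insert ha, Finset.sum_insert ha, eD_add, ih]

private lemma eD_prod {σ : Type} [DecidableEq σ] (S : Finset σ)
    (F : σ → PowerSeries (PowerSeries K)) :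
    eD (∏ s ∈ S, F s) = ∑ s ∈ S, (∏ s' ∈ S.erase s, F s') * eD (F s) := by
  induction S using Finset.induction_on with
  | empty => rw [Finset.prod_empty, Finset.sum_empty]; exact eD_one
  | insert a S ha ih =>
    rw [Finset.prod_insert ha, Finset.sum_insert ha, eD_mul, ih, Finset.erase_insert ha]
    congr 1
    · ring
    · rw [Finset.mul_sum]
      refine Finset.sum_congr rfl fun s hs => ?_
      have hne : a ≠ s := fun h => ha (h ▸ hs)
      rw [Finset.erase_insert_of_ne hne, Finset.prod_insert
        (fun h => ha (Finset.mem_of_mem_erase h))]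
      ring

/-- uniqueness of the solutions -/
private lemma uniq {ι : Type} [Fintype ι] {a : Matrix ι ι (PowerSeries K)}
    {W W' : ι → PowerSeries (PowerSeries K)}
    (hW : ∀ l, eD (W l) = ∑ m, W m * PowerSeries.C (a m l))
    (hW' : ∀ l, eD (W' l) = ∑ m, W' m * PowerSeries.C (a m l))
    (h0 : ∀ l, PowerSeries.coeff 0 (W l) = PowerSeries.coeff 0 (W' l)) : W = W' := by
  have key : ∀ j l, PowerSeries.coeff j (W l) = PowerSeries.coeff j (W' l) := by
    intro j
    induction j with
    | zero => exact h0
    | succ j ih =>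
      intro l
      have h1 := congrArg (PowerSeries.coeff (R := PowerSeries K) j) (hW l)
      have h2 := congrArg (PowerSeries.coeff (R := PowerSeries K) j) (hW' l)
      rw [coeff_eD, map_sum] at h1 h2
      have h3 : ∑ m, PowerSeries.coeff j (W m * PowerSeries.C (a m l)) =
          ∑ m, PowerSeries.coeff j (W' m * PowerSeries.C (a m l)) := by
        refine Finset.sum_congr rfl fun m _ => ?_
        rw [PowerSeries.coeff_mul_C, PowerSeries.coeff_mul_C, ih m]
      rw [← h3, ← h1, ih l] at h2
      have h4 : ((j + 1 : ℕ) : PowerSeries K) * PowerSeries.coeff (j + 1) (W l) =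
          ((j + 1 : ℕ) : PowerSeries K) * PowerSeries.coeff (j + 1) (W' l) := by
        linear_combination -h2
      have h5 : ((j + 1 : ℕ) : PowerSeries K) ≠ 0 := by
        have h6 : ((j + 1 : ℕ) : PowerSeries K) = PowerSeries.C ((j + 1 : ℕ) : K) :=
          (map_natCast (PowerSeries.C (R := K)) _).symm
        rw [h6]
        intro h7
        have h8 := congrArg (PowerSeries.coeff (R := K) 0) h7
        rw [PowerSeries.coeff_zero_C, map_zero] at h8
        exact (Nat.cast_ne_zero.2 (Nat.succ_ne_zero j)) h8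
      exact mul_left_cancel₀ h5 h4
  funext l
  ext1 j
  exact key j l

/-- the generating series of the iterates -/
private noncomputable def gen {ι : Type} [Fintype ι] [DecidableEq ι]
    (a : Matrix ι ι (PowerSeries K)) (i l : ι) : PowerSeries (PowerSeries K) :=
  PowerSeries.mk fun j => rsol a j i l

private lemma coeff_gen {ι : Type} [Fintype ι] [DecidableEq ι]
    (a : Matrix ι ι (PowerSeries K)) (i l : ι) (j : ℕ) :
    PowerSeries.coeff j (gen a i l) = rsol a j i l := by
  unfold gen
  rw [PowerSeries.coeff_mk]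

private lemma gen_eq {ι : Type} [Fintype ι] [DecidableEq ι] (a : Matrix ι ι (PowerSeries K))
    (i l : ι) : eD (gen a i l) = ∑ m, gen a i m * PowerSeries.C (a m l) := by
  ext1 j
  unfold gen
  rw [coeff_eD, PowerSeries.coeff_mk, PowerSeries.coeff_mk, rsol_rec, Du_apply, map_sum]
  have h : ∑ m, PowerSeries.coeff j (PowerSeries.mk (fun j => rsol a j i m) *
      PowerSeries.C (a m l)) = ∑ m, rsol a j i m * a m l := by
    refine Finset.sum_congr rfl fun m _ => ?_
    rw [PowerSeries.coeff_mul_C, PowerSeries.coeff_mk]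
  rw [h]
  ring

private lemma gen_zero {ι : Type} [Fintype ι] [DecidableEq ι] (a : Matrix ι ι (PowerSeries K))
    (i l : ι) : PowerSeries.coeff 0 (gen a i l) = (1 : Matrix ι ι (PowerSeries K)) i l := by
  unfold gen
  rw [PowerSeries.coeff_mk, rsol_zero]

private lemma gen_bd {ι : Type} [Fintype ι] [DecidableEq ι] {a : Matrix ι ι (PowerSeries K)}
    (h : IterBd a) (i l : ι) : Bd2 (gen a i l) := by
  obtain ⟨H, h⟩ := h
  refine ⟨H, fun N => ?_⟩
  obtain ⟨q, hq, hqH, hq'⟩ := h N
  refine ⟨q, hq, hqH, fun j m hjm => ?_⟩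
  beta_reduce
  rw [coeff_gen]
  exact hq' j m hjm i l

/-- the converse -/
private lemma iterBd_of {ι : Type} [Fintype ι] [DecidableEq ι] {a : Matrix ι ι (PowerSeries K)}
    (h : ∀ i l, Bd2 (gen a i l)) : IterBd a := by
  classical
  choose H hH using h
  choose q hq using hH
  refine ⟨∏ p : ι × ι, H p.1 p.2, fun N => ⟨∏ p : ι × ι, q p.1 p.2 N, ?_, ?_, ?_⟩⟩
  · exact Finset.prod_pos fun p _ => (hq p.1 p.2 N).1
  · rw [← Finset.prod_pow]
    exact Finset.prod_le_prod' fun p _ => (hq p.1 p.2 N).2.1
  · intro j m hjm i l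
    have h1 := (hq i l N).2.2 j m hjm
    beta_reduce at h1
    rw [coeff_gen] at h1
    obtain ⟨d, hd⟩ := Finset.dvd_prod_of_mem (fun p : ι × ι => q p.1 p.2 N)
      (Finset.mem_univ (i, l))
    simp only at hd
    rw [hd]
    have h2 : ((q i l N * d : ℕ) : K) * PowerSeries.coeff m (rsol a j i l) =
        (d : K) * ((q i l N : K) * PowerSeries.coeff m (rsol a j i l)) := by
      push_cast
      ring
    rw [h2]
    exact (natInt d).mul h1

theorem iterBd_tens {ι : Type} [Fintype ι] [DecidableEq ι] {a : Matrix ι ι (PowerSeries K)}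
    (h : IterBd a) (r : ℕ) : IterBd (tens r a) := by
  classical
  refine iterBd_of fun I J => ?_
  have hZ : (fun J : Fin r → ι => ∏ s, gen a (I s) (J s)) = fun J => gen (tens r a) I J := by
    refine uniq (a := tens r a) ?_ (fun J => gen_eq _ _ _) ?_
    · intro J
      rw [eD_prod]
      have e1 : ∀ s : Fin r, (∏ s' ∈ Finset.univ.erase s, gen a (I s') (J s')) *
          eD (gen a (I s) (J s)) = ∑ L : Fin r → ι,
            if (∀ s', s' ≠ s → L s' = J s') then
              (∏ s', gen a (I s') (L s')) * PowerSeries.C (a (L s) (J s)) else 0 := by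
        intro s
        rw [gen_eq, Finset.mul_sum, ← Finset.sum_filter]
        symm
        refine Finset.sum_bij' (fun L _ => L s) (fun m _ => Function.update J s m) ?_ ?_ ?_ ?_ ?_
        · intro L _
          exact Finset.mem_univ _
        · intro m _
          rw [Finset.mem_filter]
          exact ⟨Finset.mem_univ _, fun s' hs' => Function.update_of_ne hs' _ _⟩
        · intro L hL
          rw [Finset.mem_filter] at hL
          funext s'
          by_cases hs' : s' = s
          · rw [hs', Function.update_self]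
          · rw [Function.update_of_ne hs', hL.2 s' hs']
        · intro m _
          exact Function.update_self _ _ _
        · intro L hL
          rw [Finset.mem_filter] at hL
          rw [← Finset.mul_prod_erase Finset.univ _ (Finset.mem_univ s)]
          have e2 : ∏ s' ∈ Finset.univ.erase s, gen a (I s') (L s') =
              ∏ s' ∈ Finset.univ.erase s, gen a (I s') (J s') := by
            refine Finset.prod_congr rfl fun s' hs' => ?_
            rw [hL.2 s' (Finset.ne_of_mem_erase hs')]
          rw [e2]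
          ring
      rw [Finset.sum_congr rfl fun s _ => e1 s, Finset.sum_comm]
      refine Finset.sum_congr rfl fun L _ => ?_
      unfold tens
      rw [map_sum, Finset.mul_sum]
      refine Finset.sum_congr rfl fun s _ => ?_
      split_ifs
      · rfl
      · rw [map_zero, mul_zero]
    · intro J
      rw [gen_zero]
      have e1 : PowerSeries.coeff 0 (∏ s, gen a (I s) (J s)) =
          ∏ s, (1 : Matrix ι ι (PowerSeries K)) (I s) (J s) := by
        rw [PowerSeries.coeff_zero_eq_constantCoeff_apply, map_prod]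
        refine Finset.prod_congr rfl fun s _ => ?_
        rw [← PowerSeries.coeff_zero_eq_constantCoeff_apply, gen_zero]
      rw [e1]
      by_cases hIJ : I = J
      · subst hIJ
        rw [Matrix.one_apply_eq]
        exact Finset.prod_eq_one fun s _ => Matrix.one_apply_eq _
      · rw [Matrix.one_apply_ne hIJ]
        obtain ⟨s, hs⟩ := Function.ne_iff.1 hIJ
        exact Finset.prod_eq_zero (Finset.mem_univ s) (Matrix.one_apply_ne hs)
  have h1 := congrFun hZ J
  beta_reduce at h1
  rw [← h1]
  exact bd2_prod _ _ fun s _ => gen_bd h _ _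

/-- the Taylor shift -/
private noncomputable def tay (y : PowerSeries K) : PowerSeries (PowerSeries K) :=
  PowerSeries.mk fun k => ((k.factorial : ℚ)⁻¹) • ((Du K)^[k] y)

private lemma tay_eD (y : PowerSeries K) : eD (tay y) = 0 := by
  ext1 j
  unfold tay
  rw [coeff_eD, PowerSeries.coeff_mk, PowerSeries.coeff_mk, map_zero, Function.iterate_succ_apply',
    Derivation.map_smul, sub_eq_zero]
  have h1 : (((j + 1).factorial : ℚ)⁻¹) = ((j + 1 : ℕ) : ℚ)⁻¹ * ((j.factorial : ℚ)⁻¹) := by
    rw [Nat.factorial_succ, Nat.cast_mul, mul_inv]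
  rw [h1, mul_smul]
  set z := ((j.factorial : ℚ)⁻¹) • (Du K) ((Du K)^[j] y)
  have h2 : ((j + 1 : ℕ) : PowerSeries K) * (((j + 1 : ℕ) : ℚ)⁻¹ • z) =
      ((j + 1 : ℕ) : ℚ) • (((j + 1 : ℕ) : ℚ)⁻¹ • z) := by
    rw [Nat.cast_smul_eq_nsmul, nsmul_eq_mul]
  rw [h2, smul_smul, mul_inv_cancel₀ (by positivity), one_smul]

private lemma tay_zero (y : PowerSeries K) : PowerSeries.coeff 0 (tay y) = y := by
  unfold tay
  rw [PowerSeries.coeff_mk]
  simp

private lemma tay_bd {y : PowerSeries K} (hy : Geo y) : Bd2 (tay y) := by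
  obtain ⟨M, hM, hy⟩ := hy
  obtain ⟨S, hS⟩ := exists_filt K M
  have h1 : y ∈ S.I 1 := (hS 1 y).2 hy
  refine ⟨M ^ 2, fun N => ⟨(M ^ 2) ^ (N + 1), Nat.pow_pos (Nat.pow_pos hM), le_rfl,
    fun j m hjm => ?_⟩⟩
  have h2 := (hS _ _).1 (S.hasse j h1) m
  beta_reduce
  unfold tay
  rw [PowerSeries.coeff_mk]
  have h3 : (((M ^ 2) ^ (N + 1) : ℕ) : K) *
      PowerSeries.coeff m (((j.factorial : ℚ)⁻¹) • ((Du K)^[j] y)) =
      (M : K) ^ (2 * (N + 1) - (1 + j + m)) * ((M : K) ^ (1 + j + m) *
        PowerSeries.coeff m (((j.factorial : ℚ)⁻¹) • ((Du K)^[j] y))) := by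
    rw [← mul_assoc, ← pow_add, Nat.cast_pow, Nat.cast_pow, ← pow_mul]
    congr 2
    omega
  rw [h3]
  exact ((natInt M).pow _).mul h2

theorem iterBd_sub {ι ι' : Type} [Fintype ι] [DecidableEq ι] [Fintype ι'] [DecidableEq ι']
    {a : Matrix ι ι (PowerSeries K)} {b : Matrix ι' ι' (PowerSeries K)}
    {M : Matrix ι' ι (PowerSeries K)} {ρ : Matrix ι ι' (PowerSeries K)}
    (hM : ∀ i l, Geo (M i l)) (hρ : ∀ i l, Geo (ρ i l)) (hMρ : M * ρ = 1)
    (hst : ∀ i l, Du K (M i l) + (M * a) i l = (b * M) i l) (h : IterBd a) : IterBd b := by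
  classical
  refine iterBd_of fun i l => ?_
  -- `Y_b C(M) = F_M Y_a`
  have hW : (fun l : ι => ∑ p, gen b i p * PowerSeries.C (M p l)) =
      fun l => ∑ p, tay (M i p) * gen a p l := by
    refine uniq (a := a) ?_ ?_ ?_
    · intro l
      rw [eD_sum]
      have e1 : ∀ p, eD (gen b i p * PowerSeries.C (M p l)) =
          (∑ m, gen b i m * PowerSeries.C (b m p * M p l)) -
            gen b i p * PowerSeries.C (Du K (M p l)) := by
        intro p
        rw [eD_mul, gen_eq, eD_C, Finset.sum_mul]
        have e2 : ∑ m, gen b i m * PowerSeries.C (b m p) * PowerSeries.C (M p l) =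
            ∑ m, gen b i m * PowerSeries.C (b m p * M p l) := by
          refine Finset.sum_congr rfl fun m _ => ?_
          rw [map_mul]
          ring
        rw [e2]
        ring
      rw [Finset.sum_congr rfl fun p _ => e1 p, Finset.sum_sub_distrib, Finset.sum_comm,
        ← Finset.sum_sub_distrib]
      have e3 : ∀ p, (∑ m, gen b i p * PowerSeries.C (b p m * M m l)) -
          gen b i p * PowerSeries.C (Du K (M p l)) =
          ∑ m, gen b i p * PowerSeries.C (M p m * a m l) := by
        intro p
        rw [← Finset.mul_sum, ← Finset.mul_sum, ← mul_sub, ← map_sum, ← map_sum, ← map_sub]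
        congr 2
        have h1 := hst p l
        rw [Matrix.mul_apply, Matrix.mul_apply] at h1
        rw [← h1]
        ring
      rw [Finset.sum_congr rfl fun p _ => e3 p, Finset.sum_comm]
      refine Finset.sum_congr rfl fun m _ => ?_
      rw [Finset.sum_mul]
      refine Finset.sum_congr rfl fun p _ => ?_
      rw [map_mul]
      ring
    · intro l
      rw [eD_sum]
      have e1 : ∀ p, eD (tay (M i p) * gen a p l) =
          ∑ m, tay (M i p) * gen a p m * PowerSeries.C (a m l) := by
        intro p
        rw [eD_mul, tay_eD, zero_mul, zero_add, gen_eq, Finset.mul_sum]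
        exact Finset.sum_congr rfl fun m _ => by ring
      rw [Finset.sum_congr rfl fun p _ => e1 p, Finset.sum_comm]
      refine Finset.sum_congr rfl fun m _ => ?_
      rw [Finset.sum_mul]
    · intro l
      have c1 : ∀ F G : PowerSeries (PowerSeries K), PowerSeries.coeff 0 (F * G) =
          PowerSeries.coeff 0 F * PowerSeries.coeff 0 G := by
        intro F G
        rw [PowerSeries.coeff_zero_eq_constantCoeff_apply,
          PowerSeries.coeff_zero_eq_constantCoeff_apply,
          PowerSeries.coeff_zero_eq_constantCoeff_apply, map_mul]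
      rw [map_sum, map_sum]
      have e1 : ∀ p, PowerSeries.coeff 0 (gen b i p * PowerSeries.C (M p l)) =
          (1 : Matrix ι' ι' (PowerSeries K)) i p * M p l := by
        intro p
        rw [c1, gen_zero, PowerSeries.coeff_zero_C]
      have e2 : ∀ p, PowerSeries.coeff 0 (tay (M i p) * gen a p l) =
          M i p * (1 : Matrix ι ι (PowerSeries K)) p l := by
        intro p
        rw [c1, gen_zero, tay_zero]
      rw [Finset.sum_congr rfl fun p _ => e1 p, Finset.sum_congr rfl fun p _ => e2 p,
        ← Matrix.mul_apply, ← Matrix.mul_apply, Matrix.one_mul, Matrix.mul_one]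
  have hfin : gen b i l = ∑ q, (∑ p, tay (M i p) * gen a p q) * PowerSeries.C (ρ q l) := by
    have e1 : ∀ q, (∑ p, tay (M i p) * gen a p q) * PowerSeries.C (ρ q l) =
        ∑ p, gen b i p * PowerSeries.C (M p q * ρ q l) := by
      intro q
      have h1 := congrFun hW q
      beta_reduce at h1
      rw [← h1, Finset.sum_mul]
      refine Finset.sum_congr rfl fun p _ => ?_
      rw [map_mul]
      ring
    rw [Finset.sum_congr rfl fun q _ => e1 q, Finset.sum_comm]
    have e2 : ∀ p, ∑ q, gen b i p * PowerSeries.C (M p q * ρ q l) =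
        gen b i p * PowerSeries.C ((1 : Matrix ι' ι' (PowerSeries K)) p l) := by
      intro p
      rw [← Finset.mul_sum, ← map_sum, ← Matrix.mul_apply, hMρ]
    rw [Finset.sum_congr rfl fun p _ => e2 p, Finset.sum_eq_single l]
    · rw [Matrix.one_apply_eq, map_one, mul_one]
    · intro p _ hp
      rw [Matrix.one_apply_ne hp, map_zero, mul_zero]
    · intro hl
      exact absurd (Finset.mem_univ l) hl
  rw [hfin]
  refine bd2_sum _ _ fun q _ => bd2_mul (bd2_sum _ _ fun p _ => ?_) (bd2_C (hρ q l))
  exact bd2_mul (tay_bd (hM i p)) (gen_bd h p q)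

end

end Pool.Agent.Helper79.CU
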