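import Pool.Agent.Helper79.CU.MainA
import Pool.Agent.Helper79.CU.Bridge
import Pool.Agent.Helper79.CU.Tens
import Pool.Agent.Helper79.CU.TensOde
import Pool.Agent.Helper79.CU.RelC
import Pool.Agent.Helper79.CU.An
import Pool.Agent.Helper79.SE.MainC

/-!
# CU: assembly, analytic part
-/

open Polynomial Pool.Agent.Helper64.Per

namespace Pool.Agent.Helper79.CU

open Pool.Agent.Helper79.SE Pool.Agent.Helper79.GX

/-- The Picard-Fuchs system for the matrix of periods. -/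
theorem isPeriod_odeCU {κ : IntermediateField ℚ Qbar} {N g : ℕ} {X : CurveForms κ N} {U : Set ℂ}
    {V : ℂ → Matrix (Fin N) (Fin g) ℂ} (hV : IsPeriod X U V) {t₀ : ℂ} (ht₀ : t₀ ∈ U) :
    (∀ i k, DifferentiableAt ℂ (fun t => V t i k) t₀) ∧
      ∀ i k, aeval t₀ X.T * deriv (fun t => V t i k) t₀ =
        ∑ l, aeval t₀ (X.A i l) * V t₀ l k := by
  obtain ⟨V₀, hV₀, htV, γ, y, hL, hPV⟩ := hV t₀ ht₀
  have h2 : ∀ i k, (fun t => V t i k) =ᶠ[nhds t₀] perCU X.Δ X.e (X.H i) (γ k) (y k) := by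
    intro i k
    filter_upwards [hV₀.mem_nhds htV] with t ht
    exact hPV t ht i k
  refine ⟨fun i k => ?_, fun i k => ?_⟩
  · have h1 := perCU_diff X.bez hV₀ (loop_eq (hL k)) X.e (X.H i)
    exact ((h1 t₀ htV).differentiableAt (hV₀.mem_nhds htV)).congr_of_eventuallyEq (h2 i k)
  · rw [(h2 i k).deriv_eq, perCU_ode X.bez hV₀ (loop_eq (hL k)) X.gm htV i]
    refine Finset.sum_congr rfl fun l _ => ?_
    rw [hPV t₀ htV l k]
    rfl

/-- The system of the sub-connection in the variable `u`. -/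
theorem iterBd_TS {κ : Type} [Field κ] [CharZero κ] [Algebra.IsAlgebraic ℚ κ] {s₀ c : κ}
    {T : κ[X]} {ι β : Type} [Fintype ι] [DecidableEq ι] [Fintype β] [DecidableEq β]
    {A : Matrix ι ι κ[X]} {r : ℕ} {M : Matrix β (Fin r → ι) κ[X]} {B : Matrix β β κ[X]}
    (hst : ∀ p I, T * derivative (M p I) + (M * tens r A) p I = (B * M) p I)
    {ρ : Matrix (Fin r → ι) β κ[X]} {θ : κ[X]}
    (hρ : M * ρ = θ • (1 : Matrix β β κ[X])) (hθ : θ.eval s₀ ≠ 0) {τ : PowerSeries κ}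
    (hτ : phi s₀ c T * τ = 1) (h : IterBd (sysU s₀ c τ A)) : IterBd (sysU s₀ c τ B) := by
  have hu : IsUnit (phi s₀ c θ) := by
    rw [PowerSeries.isUnit_iff_constantCoeff, phi_apply, Polynomial.constantCoeff_coe,
      coeff_zero_eq_eval_zero, eval_comp, isUnit_iff_ne_zero]
    simpa using hθ
  obtain ⟨θ', hθ'⟩ := hu.exists_right_inv
  have hgeo : ∀ p : κ[X], Geo (phi s₀ c p) := fun p => by
    rw [phi_apply]
    exact geo_poly _
  have hgθ : Geo θ' := geo_inv (hgeo θ) hθ'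
  have h1 := iterBd_tens h r
  have h2 : tens r (sysU s₀ c τ A) = sysU s₀ c τ (tens r A) := by
    have e1 : sysU s₀ c τ A = (((-(C c * X ^ 2) : κ[X]) : PowerSeries κ) * τ) •
        A.map (phi s₀ c) := by
      ext1 i l
      rfl
    rw [e1, tens_smul, ← tens_map]
    ext1 i l
    rfl
  rw [h2] at h1
  refine iterBd_sub (M := M.map (phi s₀ c)) (ρ := θ' • ρ.map (phi s₀ c)) (fun i l => hgeo _)
    (fun i l => ?_) ?_ (fun p I => ?_) h1
  · rw [Matrix.smul_apply, smul_eq_mul]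
    exact geo_mul hgθ (hgeo _)
  · rw [Matrix.mul_smul]
    have e2 : M.map (phi s₀ c) * ρ.map (phi s₀ c) = (M * ρ).map (phi s₀ c) :=
      (Matrix.map_mul (f := phi s₀ c)).symm
    rw [e2, hρ]
    ext1 p q
    rw [Matrix.smul_apply, Matrix.map_apply, Matrix.smul_apply, Matrix.one_apply,
      Matrix.one_apply]
    split_ifs with h3
    · rw [smul_eq_mul, smul_eq_mul, mul_one, mul_comm, hθ']
    · rw [smul_zero, map_zero, smul_zero]
  · have e3 := congrArg (phi s₀ c) (hst p I)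
    rw [Matrix.map_apply, Du_phi]
    rw [map_add, map_mul] at e3
    have e4 : (M.map (phi s₀ c) * sysU s₀ c τ (tens r A)) p I =
        ((-(C c * X ^ 2) : κ[X]) : PowerSeries κ) * τ * phi s₀ c ((M * tens r A) p I) := by
      rw [Matrix.mul_apply, Matrix.mul_apply, map_sum, Finset.mul_sum]
      refine Finset.sum_congr rfl fun K _ => ?_
      rw [sysU, map_mul, Matrix.map_apply]
      ring
    have e5 : (sysU s₀ c τ B * M.map (phi s₀ c)) p I =
        ((-(C c * X ^ 2) : κ[X]) : PowerSeries κ) * τ * phi s₀ c ((B * M) p I) := by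
      rw [Matrix.mul_apply, Matrix.mul_apply, map_sum, Finset.mul_sum]
      refine Finset.sum_congr rfl fun K _ => ?_
      rw [sysU, map_mul, Matrix.map_apply]
      ring
    rw [e4, e5, ← e3]
    linear_combination (-(((-(C c * X ^ 2) : κ[X]) : PowerSeries κ) *
      phi s₀ c (derivative (M p I)))) * hτ

/-- The main theorem for families of curves. -/
theorem mainCU {κ : IntermediateField ℚ Qbar} [FiniteDimensional ℚ κ] {N μ r : ℕ} {ι : Type}
    [Fintype ι] [DecidableEq ι] [Nonempty ι] (Φ : CurveForms κ N) (E : TensorSub Φ μ r ι) :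
    ∃ Bad : Set κ, Bad.Finite ∧ ∀ s₀ ∉ Bad, ∀ c : κ, c ≠ 0 → ∀ U : Set ℂ, IsOpen U →
      IsPreconnected U → ((s₀ : Qbar) : ℂ) ∈ U → ∀ w : ℂ → ℂ, IsBranchOf κ U μ w →
      ∀ P : ℂ → Matrix ι ι ℂ, IsPeriodTS E U w P → (∀ t ∈ U, IsUnit (P t).det) → ∀ δ : ℕ,
      ∃ (B : ℕ) (θ C : ℝ), 0 < θ ∧ θ < 1 ∧
      (∀ n : ℕ, 1 ≤ n → Set.ncard {i : ℤ | (n : ℝ) ≤ |(i : ℝ)| ∧
        |(i : ℝ)| ≤ n + (n : ℝ) ^ θ ∧ i ∈ {i : ℤ | i ≠ 0 ∧
          ((s₀ : Qbar) : ℂ) + ((c : Qbar) : ℂ) / (i : ℂ) ∈ U ∧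
          HasRelationC U w P (((s₀ : Qbar) : ℂ) + ((c : Qbar) : ℂ) / (i : ℂ)) κ δ}} ≤ B) ∧
      ∀ X : ℕ, 1 ≤ X → (Set.ncard {i : ℤ | |(i : ℝ)| ≤ X ∧ i ∈ {i : ℤ | i ≠ 0 ∧
          ((s₀ : Qbar) : ℂ) + ((c : Qbar) : ℂ) / (i : ℂ) ∈ U ∧
          HasRelationC U w P (((s₀ : Qbar) : ℂ) + ((c : Qbar) : ℂ) / (i : ℂ)) κ δ}} : ℝ) ≤
        C * (X : ℝ) ^ (1 - θ) := by
  have : Algebra.IsAlgebraic ℚ κ := inferInstance
  have : Algebra.IsAlgebraic ℚ (AlgebraicClosure κ) := Algebra.IsAlgebraic.trans ℚ κ _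
  obtain ⟨Bad₀, hBad₀, halg⟩ := alg_cu (AlgebraicClosure κ) Φ.monic rfl Φ.pos Φ.ne Φ.bez Φ.T_ne
    Φ.gm Φ.ind
  obtain ⟨ρ, θ, hθ, hρ⟩ := exists_rinv E.ind
  refine ⟨Bad₀ ∪ {x | θ.IsRoot x}, hBad₀.union (finite_setOfPred_isRoot hθ),
    fun s₀ hs₀ c hc U hU hU' hsU w hw P hP hdet δ => ?_⟩
  simp only [Set.mem_union, not_or] at hs₀
  obtain ⟨hs1, hs2⟩ := hs₀
  obtain ⟨hT0, hiter⟩ := halg s₀ hs1
  obtain ⟨g, V, cc, hV, hPV⟩ := hP
  obtain ⟨f, hf⟩ := hw.eqn
  have hb : ∀ (τ : PowerSeries κ), phi s₀ c Φ.T * τ = 1 → IterBd (sysU s₀ c τ E.B) := by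
    intro τ hτ
    refine iterBd_TS E.stable hρ hs2 hτ ?_
    exact hiter c hc τ hτ (rsol _) (rsol_zero _) (rsol_rec _)
  obtain ⟨T, h, Eh, A', hG, hdeg, hT, hE1, hTh, hE2, hA', hT2⟩ := exists_sysG (c := c) hT0 hb
  obtain ⟨R, hR, hball⟩ := Metric.isOpen_iff.1 hU _ hsU
  set σ : ℂ := ((s₀ : Qbar) : ℂ) with hσ
  set ω : ℂ := ((c : Qbar) : ℂ) with hω
  have hω0 : ω ≠ 0 := by
    rw [hω]
    simpa using hc
  set U₁ : Set ℂ := {u : ℂ | u ≠ 0 ∧ σ + ω / u ∈ Metric.ball σ R} with hU₁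
  have hρ : 0 < ‖ω‖ / R := by positivity
  have hU₁' : U₁ = {u : ℂ | ‖ω‖ / R < ‖u‖} := by
    ext u
    simp only [hU₁, Set.mem_ofPred_eq, Metric.mem_ball, dist_self_add_left, norm_div]
    constructor
    · rintro ⟨h1, h2⟩
      have h3 : 0 < ‖u‖ := norm_pos_iff.2 h1
      rw [div_lt_iff₀ h3] at h2
      rw [div_lt_iff₀ hR, mul_comm]
      exact h2
    · intro h1
      have h3 : 0 < ‖u‖ := hρ.trans h1
      refine ⟨norm_pos_iff.1 h3, ?_⟩
      rw [div_lt_iff₀ h3, mul_comm]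
      rwa [div_lt_iff₀ hR] at h1
  have hU₁o : IsOpen U₁ := by
    rw [hU₁']
    exact isOpen_lt continuous_const continuous_norm
  have hU₁c : IsPreconnected U₁ := by
    rw [hU₁']
    exact isPreconnected_large hρ
  have hmem : ∀ u ∈ U₁, u ≠ 0 ∧ σ + ω / u ∈ U := fun u hu => ⟨hu.1, hball hu.2⟩
  have hd1 : ∀ u : ℂ, u ≠ 0 → HasDerivAt (fun u : ℂ => σ + ω / u) (-ω / u ^ 2) u := by
    intro u hu
    have h1 := ((hasDerivAt_inv hu).const_mul ω).const_add σ
    refine (h1.congr_deriv ?_).congr_of_eventuallyEq ?_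
    · field_simp
    · filter_upwards with v
      rw [div_eq_mul_inv]
  -- the functions `W = M V^{⊗ r} c`
  set W : ℂ → Matrix (Fin μ × ι) ι ℂ := fun t p b =>
    ∑ I, aeval t (E.M p I) * (tpow r (V t) * cc) I b with hW
  have hWP : ∀ t ∈ U, ∀ (l : Fin μ) (a b : ι), w t ^ (l : ℕ) * P t a b = W t (l, a) b := hPV
  have hWode : ∀ t ∈ U, ∀ p b, DifferentiableAt ℂ (fun t => W t p b) t ∧
      aeval t Φ.T * deriv (fun t => W t p b) t = ∑ q, aeval t (E.B p q) * W t q b := by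
    intro t ht p b
    obtain ⟨h1, h2⟩ := isPeriod_odeCU hV ht
    exact sub_ode h1 h2 E.stable cc p b
  obtain ⟨⟨m₀, hm₀⟩⟩ : Nonempty (Fin μ) := by
    by_contra h1
    have h2 : μ = 0 := by
      by_contra h3
      exact h1 ⟨⟨0, Nat.pos_of_ne_zero h3⟩⟩
    subst h2
    have h3 := hf _ hsU
    simp at h3
  have hPan : ∀ a k, AnalyticOnNhd ℂ (fun t => P t a k) U := by
    intro a k
    refine DifferentiableOn.analyticOnNhd (fun t ht => ?_) hU
    have h1 : (fun t => P t a k) =ᶠ[nhds t] fun t => W t (⟨0, by omega⟩, a) k := by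
      filter_upwards [hU.mem_nhds ht] with z hz
      have := hWP z hz ⟨0, by omega⟩ a k
      rwa [pow_zero, one_mul] at this
    exact (((hWode t ht _ _).1).congr_of_eventuallyEq h1).differentiableWithinAt
  -- the functions of `u`
  set D : ℕ := ∑ l, (f l).natDegree with hD
  have hfD : ∀ l, (f l).natDegree ≤ D := fun l =>
    Finset.single_le_sum (f := fun l => (f l).natDegree) (fun _ _ => Nat.zero_le _)
      (Finset.mem_univ l)
  set V' : ℂ → Matrix (Fin μ × ι) ι ℂ := fun u p k => W (σ + ω / u) p k with hV'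
  have hVan : ∀ b k, AnalyticOnNhd ℂ (fun u => V' u b k) U₁ := by
    intro b k
    refine DifferentiableOn.analyticOnNhd (fun u hu => ?_) hU₁o
    have h1 := (hWode _ (hmem u hu).2 b k).1
    exact (h1.comp u (hd1 u hu.1).differentiableAt).differentiableWithinAt
  have hTu : ∀ u : ℂ, u ≠ 0 → aeval u T = u ^ Eh * aeval (σ + ω / u) Φ.T * aeval u h := by
    intro u hu
    have h1 : aeval u (T.map (Int.castRingHom κ)) = aeval u T := by
      rw [aeval_def, aeval_def, eval₂_map]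
      congr 1
    rw [← h1, hTh, map_mul, aeval_reflect _ hE1 hu, aeval_line]
  have hVode : ∀ u ∈ U₁, ∀ b k, aeval u T * deriv (fun u => V' u b k) u =
      ∑ l, aeval u (A' b l) * V' u l k := by
    intro u hu b k
    have h1 := (hWode _ (hmem u hu).2 b k).1
    have h2 : deriv (fun u => V' u b k) u = deriv (fun t => W t b k) (σ + ω / u) *
        (-ω / u ^ 2) :=
      (HasDerivAt.comp (h₂ := fun t => W t b k) u h1.hasDerivAt (hd1 u hu.1)).deriv
    have h3 := (hWode _ (hmem u hu).2 b k).2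
    have h4 : ∀ l, aeval u ((-(C c * X ^ 2) *
        (E.B b l).comp (C s₀ + C c * X)).reflect Eh) =
        u ^ Eh * (-ω / u ^ 2) * aeval (σ + ω / u) (E.B b l) := by
      intro l
      rw [aeval_reflect _ (hE2 _ _) hu.1, map_mul, aeval_line, map_neg, map_mul, aeval_C,
        map_pow, aeval_X, mul_assoc]
      congr 2
      rw [inv_pow, ← div_eq_mul_inv, neg_div]
      rfl
    rw [h2, hTu u hu.1]
    have h5 : ∀ l, aeval u (A' b l) * V' u l k = u ^ Eh * (-ω / u ^ 2) * aeval u h *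
        (aeval (σ + ω / u) (E.B b l) * W (σ + ω / u) l k) := by
      intro l
      rw [hA', map_mul, h4]
      ring
    rw [Finset.sum_congr rfl fun l _ => h5 l, ← Finset.mul_sum, ← h3]
    ring
  have hlarge : ∀ t : ℝ, ‖ω‖ / R < |t| → (t : ℂ) ∈ U₁ := by
    intro t ht
    rw [hU₁', Set.mem_ofPred_eq, Complex.norm_real]
    exact ht
  have main := mainK (κ := κ) (m := μ) (T := T) (A := A') hG
    (fun i j => by have := hdeg i j; omega) (N := 0)
    (fun i j => by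
      rw [Matrix.zero_apply, mul_zero, neg_zero]
      exact coeff_eq_zero_of_natDegree_lt (by have := hdeg i j; omega))
    (fun z hz => ⟨0, by
      rw [Matrix.charpoly_zero, Polynomial.map_pow, map_X, IsRoot, eval_pow, eval_X] at hz
      rw [eq_zero_of_pow_eq_zero hz]
      simp⟩)
    hU₁o hU₁c (t₀ := ‖ω‖ / R) hlarge (w := fun u => u ^ D * w (σ + ω / u))
    (fun u hu => by
      have h1 : AnalyticAt ℂ (fun u : ℂ => σ + ω / u) u :=
        analyticAt_const.add (analyticAt_const.div analyticAt_id hu.1)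
      have h2 : AnalyticAt ℂ w ((fun u : ℂ => σ + ω / u) u) := hw.analytic _ (hmem u hu).2
      have h3 : AnalyticAt ℂ (fun u : ℂ => w (σ + ω / u)) u :=
        AnalyticAt.fun_comp (g := w) (f := fun u : ℂ => σ + ω / u) h2 h1
      exact (analyticAt_id.pow D).mul h3)
    (f := fun l => X ^ (D * (μ - l) - D) * ((f l).comp (C s₀ + C c * X)).reflect D)
    (fun u hu => by
      have h1 := hf _ (hmem u hu).2
      rw [mul_pow, h1, Finset.mul_sum]
      refine Finset.sum_congr rfl fun l _ => ?_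
      have h2 : ((f l).comp (C s₀ + C c * X)).natDegree ≤ D := by
        refine (natDegree_comp_le).trans ?_
        have h3 : (C s₀ + C c * X : Polynomial κ).natDegree ≤ 1 := by
          rw [add_comm]
          exact natDegree_linear_le
        refine (Nat.mul_le_mul_left _ h3).trans ?_
        rw [mul_one]
        exact hfD l
      rw [map_mul, map_pow, aeval_X, aeval_reflect _ h2 hu.1, aeval_line, mul_pow, ← pow_mul,
        ← pow_mul]
      have h3 : (l : ℕ) < μ := l.2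
      obtain ⟨e, he⟩ : ∃ e, μ = l + 1 + e := ⟨μ - (l + 1), by omega⟩
      have h4 : D * (μ - l) - D = D * e := by
        have h5 : μ - (l : ℕ) = e + 1 := by omega
        rw [h5, mul_add, mul_one, Nat.add_sub_cancel]
      have h6 : D * μ = D * e + D + D * l := by
        calc D * μ = D * (l + 1 + e) := congrArg (D * ·) he
          _ = _ := by ring
      rw [h4, h6, pow_add, pow_add, ← hσ, ← hω]
      ring)
    (V := V') hVan hVode
    (Z := Matrix.diagonal fun p => X ^ (D * (p.1 : ℕ)))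
    (by
      rw [Matrix.det_diagonal]
      exact Finset.prod_ne_zero_iff.2 fun p _ => pow_ne_zero _ X_ne_zero)
    (P := fun u => P (σ + ω / u))
    (fun u hu l a k => by
      rw [Finset.sum_eq_single (l, a)]
      · rw [Matrix.diagonal_apply_eq, map_pow, aeval_X, hV', mul_pow, ← pow_mul, mul_assoc,
          hWP _ (hmem u hu).2]
      · intro b _ hb
        rw [Matrix.diagonal_apply_ne _ (Ne.symm hb), map_zero, zero_mul]
      · intro h6
        exact absurd (Finset.mem_univ _) h6)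
    (fun t ht => hdet _ (hmem t ht).2) δ
  refine few_of_large (E' := {i : ℤ | (i : ℂ) ∈ U₁ ∧ HasRelationC U₁
    (fun u => u ^ D * w (σ + ω / u)) (fun u => P (σ + ω / u)) (i : ℂ) κ δ})
    (n₀ := ⌈‖ω‖ / R⌉₊) ?_ main
  rintro i ⟨hi0, hiU, hrel⟩ hi
  have h1 : ‖ω‖ / R < |(i : ℝ)| := (Nat.le_ceil _).trans_lt hi
  have h2 : (i : ℂ) ∈ U₁ := by
    have := hlarge (i : ℝ) h1
    simpa using this
  refine ⟨h2, ?_⟩
  have h3 : HasRelationC (Metric.ball σ R) w P (σ + ω / (i : ℂ)) κ δ :=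
    rel_restrictC hU' Metric.isOpen_ball ⟨σ, Metric.mem_ball_self hR⟩ hball hw.analytic hPan hrel
  exact rel_moebiusC hc hi0 D h3

end Pool.Agent.Helper79.CU
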