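import Pool.Agent.Helper79.CU.Lau

/-!
# CU-16: Laurent series with linear growth of the coefficients

`PG f`: the coefficients of `f` have linear growth with respect to the filtration of `L` generated by a finite set `T` (`genI`: integral combinations of products of at most `N` elements of `T`). Enlarging `T`, `E`, `s` is allowed (`genM_subset`,
`LG_mono`, `LG_mono_E`), so finitely many series have common `T`, `E`, `s` (`PG_common`).
* `PG_inv`: from `PG_alg`, applied to `f X - 1`.
* `PG_alg`: let `K` be the order of `P'(y)`, `p` the truncation of `y` modulo `z^N` (`N` large), `y = p + z^N v`. Then `v = G(v)` for a polynomial `G` whose coefficients have linear growth and whose coefficients of positive index are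
  divisible by `z`. Strong induction on the index of the coefficient.
-/

open Polynomial

namespace Pool.Agent.Helper79.CU

section

variable {L : Type} [Field L] [CharZero L]

/-- Linear growth with respect to a finite set. -/
def PG (f : LaurentSeries L) : Prop :=
  ∃ (T : Set L) (E s : ℕ), T.Finite ∧ LG (genM (triv ℤ) (Int.castRingHom L) T) E s f

/-! ### Auxiliary lemmas -/

theorem pg_LG_subset {T T' : Set L} (h : T ⊆ T') {E s : ℕ} {f : LaurentSeries L}
    (hf : LG (genM (triv ℤ) (Int.castRingHom L) T) E s f) :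
    LG (genM (triv ℤ) (Int.castRingHom L) T') E s f :=
  fun n => ⟨(hf n).1, genM_subset _ _ _ h (hf n).2⟩

theorem PG_common {ι : Type} [Finite ι] {f : ι → LaurentSeries L} (h : ∀ i, PG (f i))
    (T₀ : Set L) (hT₀ : T₀.Finite) : ∃ (T : Set L) (E s : ℕ), T.Finite ∧ T₀ ⊆ T ∧ 1 ≤ E ∧
      1 ≤ s ∧ ∀ i, LG (genM (triv ℤ) (Int.castRingHom L) T) E s (f i) := by
  classical
  have := Fintype.ofFinite ι
  choose T E s hT hf using h
  refine ⟨T₀ ∪ ⋃ i, T i, 1 + ∑ i, E i, 1 + ∑ i, s i, hT₀.union (Set.finite_iUnion hT),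
    Set.subset_union_left, by omega, by omega, fun i => ?_⟩
  have h1 : E i ≤ 1 + ∑ i, E i := by
    have := Finset.single_le_sum (f := E) (fun i _ => Nat.zero_le _) (Finset.mem_univ i)
    omega
  have h2 : s i ≤ 1 + ∑ i, s i := by
    have := Finset.single_le_sum (f := s) (fun i _ => Nat.zero_le _) (Finset.mem_univ i)
    omega
  refine LG_mono h2 (LG_mono_E h1 (pg_LG_subset ?_ (hf i)))
  exact (Set.subset_iUnion T i).trans Set.subset_union_right

theorem pg_pair {f g : LaurentSeries L} (hf : PG f) (hg : PG g) :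
    ∃ (T : Set L) (E s : ℕ), T.Finite ∧ LG (genM (triv ℤ) (Int.castRingHom L) T) E s f ∧
      LG (genM (triv ℤ) (Int.castRingHom L) T) E s g := by
  have h : ∀ b : Bool, PG (cond b f g) := by
    intro b
    cases b
    · exact hg
    · exact hf
  obtain ⟨T, E, s, h1, _, _, _, h2⟩ := PG_common h ∅ Set.finite_empty
  exact ⟨T, E, s, h1, h2 true, h2 false⟩

theorem PG_add {f g : LaurentSeries L} (hf : PG f) (hg : PG g) : PG (f + g) := by
  obtain ⟨T, E, s, h1, h2, h3⟩ := pg_pair hf hg
  exact ⟨T, E, s, h1, LG_add h2 h3⟩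

theorem PG_mul {f g : LaurentSeries L} (hf : PG f) (hg : PG g) : PG (f * g) := by
  obtain ⟨T, E, s, h1, h2, h3⟩ := pg_pair hf hg
  exact ⟨T, E, s + s, h1, LG_mul h2 h3⟩

theorem PG_neg {f : LaurentSeries L} (hf : PG f) : PG (-f) := by
  obtain ⟨T, E, s, h1, h2⟩ := hf
  exact ⟨T, E, s, h1, LG_neg h2⟩

theorem PG_single (n : ℤ) (r : L) : PG (HahnSeries.single n r : LaurentSeries L) := by
  refine ⟨{r}, 1, n.natAbs + 1, Set.finite_singleton r, LG_single (by omega) ?_⟩
  refine MFilt.mono _ ?_ (genM_gen _ _ _ (Set.mem_singleton r))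
  omega

theorem PG_C (r : L) : PG (HahnSeries.C r : LaurentSeries L) := by
  rw [HahnSeries.C_apply]
  exact PG_single 0 r

theorem pg_zero : PG (0 : LaurentSeries L) := ⟨∅, 0, 0, Set.finite_empty, LG_zero⟩

theorem pg_one : PG (1 : LaurentSeries L) := ⟨∅, 0, 0, Set.finite_empty, LG_one⟩

theorem pg_pow {f : LaurentSeries L} (hf : PG f) (k : ℕ) : PG (f ^ k) := by
  induction k with
  | zero => rw [pow_zero]; exact pg_one
  | succ k ih => rw [pow_succ]; exact PG_mul ih hf

theorem pg_natCast (k : ℕ) : PG ((k : ℕ) : LaurentSeries L) := by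
  induction k with
  | zero => rw [Nat.cast_zero]; exact pg_zero
  | succ k ih => rw [Nat.cast_succ]; exact PG_add ih pg_one

theorem PG_sum {ι : Type} {T : Finset ι} {F : ι → LaurentSeries L} (h : ∀ i ∈ T, PG (F i)) :
    PG (∑ i ∈ T, F i) := by
  classical
  induction T using Finset.induction_on with
  | empty => rw [Finset.sum_empty]; exact pg_zero
  | insert i T hi ih =>
    rw [Finset.sum_insert hi]
    exact PG_add (h i (Finset.mem_insert_self _ _))
      (ih fun j hj => h j (Finset.mem_insert_of_mem hj))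

theorem PG_prod {ι : Type} {T : Finset ι} {F : ι → LaurentSeries L} (h : ∀ i ∈ T, PG (F i)) :
    PG (∏ i ∈ T, F i) := by
  classical
  induction T using Finset.induction_on with
  | empty => rw [Finset.prod_empty]; exact pg_one
  | insert i T hi ih =>
    rw [Finset.prod_insert hi]
    exact PG_mul (h i (Finset.mem_insert_self _ _))
      (ih fun j hj => h j (Finset.mem_insert_of_mem hj))

theorem pg_eval {Q : Polynomial (LaurentSeries L)} (hQ : ∀ n, PG (Q.coeff n))
    {x : LaurentSeries L} (hx : PG x) : PG (Q.eval x) := by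
  rw [eval_eq_sum_range]
  exact PG_sum fun i _ => PG_mul (hQ i) (pg_pow hx i)

theorem PG_evL {x₀ : LaurentSeries L} (h : PG x₀) (p : L[X]) : PG (evL x₀ p) := by
  rw [evL, coe_eval₂RingHom, eval₂_eq_sum_range]
  exact PG_sum fun i _ => PG_mul (PG_C _) (pg_pow h i)

/-- Vanishing of the coefficients below `a`. -/
def pgV (a : ℤ) (f : LaurentSeries L) : Prop := ∀ i < a, f.coeff i = 0

theorem pgV_mono {a b : ℤ} (h : b ≤ a) {f : LaurentSeries L} (hf : pgV a f) : pgV b f :=
  fun i hi => hf i (lt_of_lt_of_le hi h)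

theorem pgV_add {a : ℤ} {f g : LaurentSeries L} (hf : pgV a f) (hg : pgV a g) :
    pgV a (f + g) := by
  intro i hi
  rw [HahnSeries.coeff_add, hf i hi, hg i hi, add_zero]

theorem pgV_neg {a : ℤ} {f : LaurentSeries L} (hf : pgV a f) : pgV a (-f) := by
  intro i hi
  rw [HahnSeries.coeff_neg, hf i hi, neg_zero]

theorem pgV_mul {a b : ℤ} {f g : LaurentSeries L} (hf : pgV a f) (hg : pgV b g) :
    pgV (a + b) (f * g) := by
  intro i hi
  rw [lau_coeff_mul (a := a) (b := b) hf hg i, Finset.Icc_eq_empty (by omega), Finset.sum_empty]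

theorem pgV_one : pgV 0 (1 : LaurentSeries L) := by
  intro i hi
  rw [HahnSeries.coeff_one, if_neg (by omega)]

theorem pgV_zero (a : ℤ) : pgV a (0 : LaurentSeries L) := fun _ _ => rfl

theorem pgV_pow {a : ℤ} {f : LaurentSeries L} (hf : pgV a f) (k : ℕ) : pgV (k * a) (f ^ k) := by
  induction k with
  | zero => rw [pow_zero, Nat.cast_zero, zero_mul]; exact pgV_one
  | succ k ih =>
    rw [pow_succ]
    have h : ((k + 1 : ℕ) : ℤ) * a = k * a + a := by push_cast; ring
    rw [h]
    exact pgV_mul ih hf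

theorem pgV_natCast (k : ℕ) : pgV 0 ((k : ℕ) : LaurentSeries L) := by
  induction k with
  | zero => rw [Nat.cast_zero]; exact pgV_zero 0
  | succ k ih => rw [Nat.cast_succ]; exact pgV_add ih pgV_one

theorem pgV_sum {ι : Type} {T : Finset ι} {F : ι → LaurentSeries L} {a : ℤ}
    (h : ∀ i ∈ T, pgV a (F i)) : pgV a (∑ i ∈ T, F i) := by
  classical
  induction T using Finset.induction_on with
  | empty => rw [Finset.sum_empty]; exact pgV_zero a
  | insert i T hi ih =>
    rw [Finset.sum_insert hi]
    exact pgV_add (h i (Finset.mem_insert_self _ _))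
      (ih fun j hj => h j (Finset.mem_insert_of_mem hj))

theorem pgV_single {a : ℤ} {n : ℤ} (h : a ≤ n) (r : L) :
    pgV a (HahnSeries.single n r : LaurentSeries L) := by
  intro i hi
  rw [HahnSeries.coeff_single, if_neg (by omega)]

/-- Growth of the coefficients of index less than `k`. -/
def pgG (S : MFilt L) (A B : ℕ) (k : ℕ) (f : LaurentSeries L) : Prop :=
  pgV 0 f ∧ ∀ i : ℕ, i < k → f.coeff i ∈ S.I (A * i + B)

theorem pgG_one (S : MFilt L) (A k : ℕ) : pgG S A 0 k 1 := by
  refine ⟨pgV_one, fun i _ => ?_⟩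
  rw [HahnSeries.coeff_one]
  split_ifs
  · exact S.mono (Nat.zero_le _) S.one
  · exact (S.I _).zero_mem

theorem pgG_mul {S : MFilt L} {A B B' k : ℕ} {f g : LaurentSeries L} (hf : pgG S A B k f)
    (hg : pgG S A B' k g) : pgG S A (B + B') k (f * g) := by
  refine ⟨by simpa using pgV_mul hf.1 hg.1, fun n hn => ?_⟩
  rw [lau_coeff_mul (a := 0) (b := 0) hf.1 hg.1]
  refine (S.I _).sum_mem fun i hi => ?_
  rw [Finset.mem_Icc] at hi
  obtain ⟨j, rfl⟩ := Int.eq_ofNat_of_zero_le hi.1
  have h0 : j ≤ n := by omega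
  have h1 : ((n : ℤ) - (j : ℤ)) = ((n - j : ℕ) : ℤ) := by omega
  rw [h1]
  have h2 := S.mul (hf.2 j (by omega)) (hg.2 (n - j) (by omega))
  refine S.mono (le_of_eq ?_) h2
  obtain ⟨m, rfl⟩ := Nat.exists_eq_add_of_le h0
  rw [Nat.add_sub_cancel_left]
  ring

theorem pgG_pow {S : MFilt L} {A B k : ℕ} {f : LaurentSeries L} (hf : pgG S A B k f) (j : ℕ) :
    pgG S A (j * B) k (f ^ j) := by
  induction j with
  | zero => rw [pow_zero, zero_mul]; exact pgG_one S A k
  | succ j ih =>
    rw [pow_succ, Nat.succ_mul]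
    exact pgG_mul ih hf

/-- A solution of `v = G(v)`. -/
theorem pg_hens {G : Polynomial (LaurentSeries L)} (hG : ∀ n, PG (G.coeff n))
    (hG1 : ∀ n, 1 ≤ n → pgV 1 (G.coeff n)) {v : LaurentSeries L} (hv : pgV 0 v)
    (h : G.eval v = v) : PG v := by
  obtain ⟨T, E, s, hT, _, _, _, hLG⟩ := PG_common (f := fun i : Fin (G.natDegree + 1) =>
    G.coeff i) (fun i => hG _) ∅ Set.finite_empty
  set S := genM (triv ℤ) (Int.castRingHom L) T with hS
  set d := G.natDegree with hd
  have hg : ∀ j, j ≤ d → ∀ i : ℕ, (G.coeff j).coeff (i : ℤ) ∈ S.I (E * i + 2 * E * s) := by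
    intro j hj i
    have h1 := (hLG ⟨j, by omega⟩ i).2
    change (G.coeff j).coeff (i : ℤ) ∈ _ at h1
    have h2 : ((E : ℤ) * ((i : ℤ) + 2 * s)).toNat = E * i + 2 * E * s := by
      have : (E : ℤ) * ((i : ℤ) + 2 * s) = ((E * i + 2 * E * s : ℕ) : ℤ) := by
        push_cast; ring
      rw [this, Int.toNat_natCast]
    rw [h2] at h1
    exact h1
  set B := 2 * E * s with hB
  set A := E + B + d * B with hA
  have key : ∀ k : ℕ, v.coeff (k : ℤ) ∈ S.I (A * k + B) := by
    intro k
    induction k using Nat.strong_induction_on with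
    | _ k ih =>
      have hvG : pgG S A B k v := ⟨hv, ih⟩
      have h1 : v.coeff (k : ℤ) = ∑ j ∈ Finset.range (d + 1),
          (G.coeff j * v ^ j).coeff (k : ℤ) := by
        conv_lhs => rw [← h, eval_eq_sum_range]
        rw [HahnSeries.coeff_sum]
      rw [h1]
      refine (S.I _).sum_mem fun j hj => ?_
      rw [Finset.mem_range] at hj
      rcases Nat.eq_zero_or_pos j with rfl | hj0
      · rw [pow_zero, mul_one]
        refine S.mono ?_ (hg 0 (Nat.zero_le _) k)
        have : E * k ≤ A * k := Nat.mul_le_mul_right k (by omega)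
        omega
      · have hp := pgG_pow hvG j
        rw [lau_coeff_mul (a := 1) (b := 0) (hG1 j hj0) hp.1]
        refine (S.I _).sum_mem fun i hi => ?_
        rw [Finset.mem_Icc] at hi
        obtain ⟨i', rfl⟩ := Int.eq_ofNat_of_zero_le (by omega : 0 ≤ i)
        have h0 : i' ≤ k := by omega
        have h1 : ((k : ℤ) - (i' : ℤ)) = ((k - i' : ℕ) : ℤ) := by omega
        rw [h1]
        have h2 := S.mul (hg j (by omega) i') (hp.2 (k - i') (by omega))
        refine S.mono ?_ h2
        obtain ⟨m, rfl⟩ := Nat.exists_eq_add_of_le h0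
        rw [Nat.add_sub_cancel_left]
        have h3 : j * B ≤ d * B := Nat.mul_le_mul_right B (by omega)
        have h4 : 1 ≤ i' := by omega
        have h5 : (B + d * B) * 1 ≤ (B + d * B) * i' := Nat.mul_le_mul_left _ h4
        have h6 : A * (i' + m) = E * i' + (B + d * B) * i' + A * m := by
          rw [hA]; ring
        rw [h6]
        omega
  refine ⟨T, A + B, 1, hT, fun n => ?_⟩
  refine ⟨fun hn => hv n (by omega), ?_⟩
  rcases lt_or_ge n 0 with hn | hn
  · rw [hv n hn]
    exact (S.I _).zero_mem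
  · obtain ⟨k, rfl⟩ := Int.eq_ofNat_of_zero_le hn
    refine S.mono ?_ (key k)
    have h2 : (((A + B : ℕ) : ℤ) * ((k : ℤ) + 2 * ((1 : ℕ) : ℤ))).toNat = (A + B) * (k + 2) := by
      have : ((A + B : ℕ) : ℤ) * ((k : ℤ) + 2 * ((1 : ℕ) : ℤ)) =
          (((A + B) * (k + 2) : ℕ) : ℤ) := by
        push_cast; ring
      rw [this, Int.toNat_natCast]
    rw [h2]
    nlinarith [Nat.zero_le (B * k), Nat.zero_le A]

theorem PG_alg {P : Polynomial (LaurentSeries L)} (hP : ∀ n, PG (P.coeff n))
    {y : LaurentSeries L} (hy : P.eval y = 0) (hy' : (derivative P).eval y ≠ 0) : PG y := by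
  classical
  -- a common bound for the poles
  obtain ⟨T, E, s, hT, _, _, _, hLG⟩ := PG_common (f := fun i : Fin (P.natDegree + 1) =>
    P.coeff i) (fun i => hP _) ∅ Set.finite_empty
  obtain ⟨s, hs1, hs2⟩ : ∃ s : ℕ, (∀ i, pgV (-(s : ℤ)) (P.coeff i)) ∧ pgV (-(s : ℤ)) y := by
    refine ⟨s + y.order.natAbs, fun i => ?_, fun j hj => ?_⟩
    · rcases Nat.lt_or_ge i (P.natDegree + 1) with hi | hi
      · intro j hj
        exact (hLG ⟨i, hi⟩ j).1 (by omega)
      · rw [coeff_eq_zero_of_natDegree_lt (by omega)]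
        exact pgV_zero _
    · exact HahnSeries.coeff_eq_zero_of_lt_order (by omega)
  set d := P.natDegree with hd
  set D := (derivative P).eval y with hD
  set K := D.order with hK
  set δ := D.coeff K with hδ
  have hδ0 : δ ≠ 0 := by
    rw [hδ, hK]
    exact HahnSeries.coeff_order_eq_zero.not.2 hy'
  obtain ⟨M, hM⟩ : ∃ M : ℕ, M = s * (d + 1) := ⟨_, rfl⟩
  obtain ⟨N, hN⟩ : ∃ N : ℕ, N = M + K.natAbs + 1 := ⟨_, rfl⟩
  set p : LaurentSeries L := ∑ i ∈ Finset.Ico (-(s : ℤ)) N, HahnSeries.single i (y.coeff i)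
    with hp
  have hpG : PG p := PG_sum fun i _ => PG_single _ _
  have hpV : pgV (-(s : ℤ)) p := pgV_sum fun i hi =>
    pgV_single (Finset.mem_Ico.1 hi).1 _
  have hpc : ∀ i : ℤ, p.coeff i = if i ∈ Finset.Ico (-(s : ℤ)) N then y.coeff i else 0 := by
    intro i
    rw [hp, HahnSeries.coeff_sum]
    by_cases hi : i ∈ Finset.Ico (-(s : ℤ)) N
    · rw [if_pos hi, Finset.sum_eq_single_of_mem i hi, HahnSeries.coeff_single_same]
      intro j _ hji
      exact HahnSeries.coeff_single_of_ne (Ne.symm hji)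
    · rw [if_neg hi]
      refine Finset.sum_eq_zero fun j hj => HahnSeries.coeff_single_of_ne ?_
      rintro rfl
      exact hi hj
  set x := y - p with hx
  have hxV : pgV (N : ℤ) x := by
    intro i hi
    rw [hx, HahnSeries.coeff_sub, hpc]
    split_ifs with h
    · exact sub_self _
    · rw [Finset.mem_Ico] at h
      rw [hs2 i (by omega), sub_zero]
  set R := taylor p P with hR
  have hRG : ∀ n, PG (R.coeff n) := by
    intro n
    rw [hR, taylor_coeff]
    refine pg_eval (fun i => ?_) hpG
    rw [hasseDeriv_coeff]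
    exact PG_mul (pg_natCast _) (hP _)
  have hRV : ∀ n, pgV (-(M : ℤ)) (R.coeff n) := by
    intro n
    rw [hR, taylor_coeff, eval_eq_sum_range' (n := d + 1)
      (lt_of_le_of_lt (natDegree_hasseDeriv_le P n) (by omega))]
    refine pgV_sum fun i hi => ?_
    rw [Finset.mem_range] at hi
    rw [hasseDeriv_coeff]
    have h1 := pgV_mul (pgV_mul (pgV_natCast ((i + n).choose n)) (hs1 (i + n)))
      (pgV_pow hpV i)
    refine pgV_mono ?_ h1
    rw [hM]
    push_cast
    have h2 : (s : ℤ) * i ≤ s * d := mul_le_mul_of_nonneg_left (by omega) (by omega)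
    nlinarith
  have hRx : R.eval x = 0 := by
    rw [hR, taylor_eval, hx, sub_add_cancel, hy]
  have hRx' : (derivative R).eval x = D := by
    rw [hR, taylor_apply, derivative_comp, derivative_add, derivative_X, derivative_C, add_zero,
      one_mul, eval_comp, eval_add, eval_X, eval_C, hx, sub_add_cancel]
  have hR1 : pgV (K + 1) (D - R.coeff 1) := by
    have h1 : D = R.coeff 1 + ∑ i ∈ Finset.range (derivative R).natDegree,
        (derivative R).coeff (i + 1) * x ^ (i + 1) := by
      rw [← hRx', eval_eq_sum_range, Finset.sum_range_succ']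
      rw [pow_zero, mul_one, coeff_derivative]
      simp [add_comm]
    rw [h1, add_sub_cancel_left]
    refine pgV_sum fun i _ => ?_
    rw [coeff_derivative]
    have h2 : ((i + 1 : ℕ) : LaurentSeries L) + 1 = ((i + 2 : ℕ) : LaurentSeries L) := by
      push_cast; ring
    rw [h2]
    have h3 := pgV_mul (pgV_mul (hRV (i + 1 + 1)) (pgV_natCast (i + 2))) (pgV_pow hxV (i + 1))
    refine pgV_mono ?_ h3
    have h4 : (N : ℤ) ≤ ((i + 1 : ℕ) : ℤ) * N := by
      push_cast
      nlinarith [Int.natCast_nonneg i, Int.natCast_nonneg N, mul_nonneg (Int.natCast_nonneg i)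
        (Int.natCast_nonneg N)]
    omega
  have hKD : pgV K D := fun i hi => HahnSeries.coeff_eq_zero_of_lt_order hi
  have hR1V : pgV K (R.coeff 1) := by
    have h1 : R.coeff 1 = D + -(D - R.coeff 1) := by ring
    rw [h1]
    exact pgV_add hKD (pgV_neg (pgV_mono (by omega) hR1))
  have hR1c : (R.coeff 1).coeff K = δ := by
    have h1 := hR1 K (by omega)
    rw [HahnSeries.coeff_sub, sub_eq_zero] at h1
    exact h1.symm
  -- the new unknown
  set zN : LaurentSeries L := HahnSeries.single (N : ℤ) 1 with hzN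
  set v : LaurentSeries L := HahnSeries.single (-(N : ℤ)) 1 * x with hv
  have hvx : zN * v = x := by
    rw [hv, hzN, ← mul_assoc, HahnSeries.single_mul_single]
    rw [add_neg_cancel, mul_one]
    exact one_mul x
  have hvV : pgV 0 v := by
    have := pgV_mul (pgV_single (le_refl (-(N : ℤ))) (1 : L)) hxV
    rw [neg_add_cancel] at this
    exact this
  set c : LaurentSeries L := HahnSeries.single (-(N : ℤ) - K) δ⁻¹ with hc
  set G : Polynomial (LaurentSeries L) := X - C c * R.comp (C zN * X) with hG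
  have hGe : G.eval v = v := by
    rw [hG, eval_sub, eval_X, eval_mul, eval_C, eval_comp, eval_mul, eval_C, eval_X, hvx, hRx,
      mul_zero, sub_zero]
  have hGc : ∀ n, G.coeff n = (if n = 1 then 1 else 0) - c * (R.coeff n * zN ^ n) := by
    intro n
    rw [hG, coeff_sub, coeff_X, coeff_C_mul, comp_C_mul_X_coeff]
    simp only [eq_comm]
  have hGG : ∀ n, PG (G.coeff n) := by
    intro n
    rw [hGc, sub_eq_add_neg]
    refine PG_add ?_ (PG_neg (PG_mul (PG_single _ _) (PG_mul (hRG n)
      (pg_pow (PG_single _ _) n))))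
    split_ifs
    · exact pg_one
    · exact pg_zero
  have hGV : ∀ n, 1 ≤ n → pgV 1 (G.coeff n) := by
    intro n hn
    rw [hGc]
    rcases eq_or_lt_of_le hn with h1 | h1
    · rw [← h1, if_pos rfl, pow_one]
      have h2 : c * (R.coeff 1 * zN) = HahnSeries.single (-K) δ⁻¹ * R.coeff 1 := by
        rw [hc, hzN, mul_left_comm, mul_comm (R.coeff 1), HahnSeries.single_mul_single, mul_one]
        congr 2
        ring
      rw [h2]
      intro i hi
      rw [HahnSeries.coeff_sub, HahnSeries.coeff_one]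
      have h3 : (HahnSeries.single (-K) δ⁻¹ * R.coeff 1 : LaurentSeries L).coeff i =
          δ⁻¹ * (R.coeff 1).coeff (i + K) := by
        have := HahnSeries.coeff_single_mul_add (r := δ⁻¹) (x := R.coeff 1) (a := i + K)
          (b := -K)
        rw [show i + K + -K = i by ring] at this
        exact this
      rw [h3]
      by_cases h4 : i = 0
      · rw [if_pos h4, h4, zero_add, hR1c, inv_mul_cancel₀ hδ0, sub_self]
      · rw [if_neg h4, hR1V (i + K) (by omega), mul_zero, sub_zero]
    · rw [if_neg (by omega), zero_sub]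
      refine pgV_neg ?_
      have h2 := pgV_mul (pgV_single (le_refl (-(N : ℤ) - K)) δ⁻¹) (pgV_mul (hRV n)
        (pgV_pow (pgV_single (le_refl (N : ℤ)) (1 : L)) n))
      refine pgV_mono ?_ h2
      have h4 : 2 * (N : ℤ) ≤ (n : ℤ) * N := by
        exact mul_le_mul_of_nonneg_right (by omega) (Int.natCast_nonneg N)
      omega
  have hvG : PG v := pg_hens hGG hGV hvV hGe
  have hyx : y = p + zN * v := by
    rw [hvx, hx]
    ring
  rw [hyx]
  exact PG_add hpG (PG_mul (PG_single _ _) hvG)

theorem PG_inv {f : LaurentSeries L} (hf : PG f) : PG f⁻¹ := by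
  rcases eq_or_ne f 0 with rfl | h0
  · rw [inv_zero]
    exact pg_zero
  · refine PG_alg (P := C f * X - 1) (fun n => ?_) ?_ ?_
    · rw [coeff_sub, coeff_C_mul, coeff_X, coeff_one, sub_eq_add_neg]
      refine PG_add (PG_mul hf ?_) (PG_neg ?_)
      · split_ifs
        · exact pg_one
        · exact pg_zero
      · split_ifs
        · exact pg_one
        · exact pg_zero
    · rw [eval_sub, eval_mul, eval_C, eval_X, eval_one, mul_inv_cancel₀ h0, sub_self]
    · rw [derivative_sub, derivative_mul, derivative_C, derivative_X, derivative_one]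
      simpa using h0

end

end Pool.Agent.Helper79.CU
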