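import Pool.Agent.Helper79.CU.Pui1

/-!
# CU-15: the theorem of Puiseux

Strong induction on the degree `n` of `G`. `n ≤ 1`: clear. `n ≥ 2`: replace `Y` by `Y - a/n` (`a` the coefficient of `Y^(n-1)`), so that this coefficient is `0`. If `G = Y^n` we are done. Otherwise let `a_i` be the coefficient of
`Y^(n-i)`, `2 ≤ i ≤ n`, and `p/q` the minimum of `ord(a_i)/i` (over the nonzero `a_i`). Then `G(z^q, z^p Y) = z^(pn) G'(z, Y)`, `G'` monic over `L[[z]]` with the coefficients `a_i(z^q)/z^(ip)`; its reduction `G'_0` modulo `z` has no term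
`Y^(n-1)` and is not `Y^n`, so it is not a power `(Y - c)^n` (characteristic `0`), hence `G'_0 = g₀ h₀` with coprime monic polynomials of degrees `< n` (`g₀ = (Y - c)^k`, `c` a root of multiplicity `k < n`).
`hensel_factor`, induction for the two factors, common `e` (`PowerSeries.expand_mul`), and back: the roots are `z^(p e) y_a`, then shifted.
-/

open Polynomial

namespace Pool.Agent.Helper79.CU

/-- the substitution `z ↦ z^e` as a ring homomorphism -/
private noncomputable def puiE {L : Type} [Field L] (e : ℕ) (he : e ≠ 0) :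
    PowerSeries L →+* PowerSeries L :=
  ((PowerSeries.expand e he : PowerSeries L →ₐ[L] PowerSeries L) : PowerSeries L →+* PowerSeries L)

private def PuiSplit {L : Type} [Field L] (G : Polynomial (PowerSeries L)) : Prop :=
  ∃ (e : ℕ) (he : e ≠ 0) (s : Multiset (PowerSeries L)),
    G.map (puiE e he) = (s.map fun y => X - C y).prod

private theorem puiE_mul {L : Type} [Field L] (m : ℕ) (hm : m ≠ 0) (e : ℕ) (he : e ≠ 0)
    (φ : PowerSeries L) : puiE (m * e) (Nat.mul_ne_zero hm he) φ = puiE m hm (puiE e he φ) :=
  PowerSeries.expand_mul m hm e he φ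

private theorem puiE_comp {L : Type} [Field L] (m : ℕ) (hm : m ≠ 0) (e : ℕ) (he : e ≠ 0) :
    (puiE m hm).comp (puiE e he) = puiE (L := L) (m * e) (Nat.mul_ne_zero hm he) :=
  RingHom.ext fun φ => (puiE_mul m hm e he φ).symm

private theorem map_prod_X_sub_C {L : Type} [Field L] (f : PowerSeries L →+* PowerSeries L)
    (s : Multiset (PowerSeries L)) :
    ((s.map fun y => X - C y).prod : Polynomial (PowerSeries L)).map f =
      ((s.map f).map fun y => X - C y).prod := by
  induction s using Multiset.induction_on with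
  | empty => simp
  | cons a s ih =>
    simp only [Multiset.map_cons, Multiset.prod_cons, Polynomial.map_mul, ih, Polynomial.map_sub,
      map_X, map_C]

private theorem PuiSplit.lift {L : Type} [Field L] {G : Polynomial (PowerSeries L)} {e : ℕ}
    {he : e ≠ 0} {s : Multiset (PowerSeries L)}
    (h : G.map (puiE e he) = (s.map fun y => X - C y).prod) (m : ℕ) (hm : m ≠ 0) :
    G.map (puiE (m * e) (Nat.mul_ne_zero hm he)) =
      ((s.map (puiE m hm)).map fun y => X - C y).prod := by
  rw [← puiE_comp m hm e he, ← Polynomial.map_map, h, map_prod_X_sub_C]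

private theorem PuiSplit.mul {L : Type} [Field L] {G H : Polynomial (PowerSeries L)}
    (hG : PuiSplit G) (hH : PuiSplit H) : PuiSplit (G * H) := by
  obtain ⟨e, he, s, hs⟩ := hG
  obtain ⟨f, hf, t, ht⟩ := hH
  have h1 := PuiSplit.lift hs f hf
  have h2 := PuiSplit.lift ht e he
  have e1 : puiE (L := L) (e * f) (Nat.mul_ne_zero he hf) = puiE (f * e) (Nat.mul_ne_zero hf he) := by
    congr 1
    exact Nat.mul_comm e f
  rw [e1] at h2
  refine ⟨f * e, Nat.mul_ne_zero hf he, s.map (puiE f hf) + t.map (puiE e he), ?_⟩
  rw [Polynomial.map_mul, h1, h2, Multiset.map_add, Multiset.prod_add]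

private theorem taylor_prod_X_sub_C {L : Type} [Field L] (a : PowerSeries L)
    (s : Multiset (PowerSeries L)) :
    taylor a ((s.map fun y => X - C y).prod : Polynomial (PowerSeries L)) =
      ((s.map fun y => y - a).map fun y => X - C y).prod := by
  induction s using Multiset.induction_on with
  | empty => simp
  | cons b s ih =>
    rw [Multiset.map_cons, Multiset.map_cons, Multiset.map_cons, Multiset.prod_cons,
      Multiset.prod_cons, taylor_mul, ih, map_sub, taylor_X, taylor_C, map_sub]
    congr 1
    ring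

private theorem PuiSplit.of_taylor {L : Type} [Field L] {G : Polynomial (PowerSeries L)}
    (a : PowerSeries L) (h : PuiSplit (taylor a G)) : PuiSplit G := by
  obtain ⟨e, he, s, hs⟩ := h
  refine ⟨e, he, s.map fun y => y - (-(puiE e he a)), ?_⟩
  rw [← taylor_prod_X_sub_C, ← hs, map_taylor, taylor_taylor, neg_add_cancel, taylor_zero]

private theorem scaleRoots_prod_X_sub_C {L : Type} [Field L] (a : PowerSeries L)
    (s : Multiset (PowerSeries L)) :
    scaleRoots ((s.map fun y => X - C y).prod : Polynomial (PowerSeries L)) a =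
      ((s.map fun y => y * a).map fun y => X - C y).prod := by
  induction s using Multiset.induction_on with
  | empty => simp
  | cons b s ih =>
    rw [Multiset.map_cons, Multiset.map_cons, Multiset.map_cons, Multiset.prod_cons,
      Multiset.prod_cons, mul_scaleRoots_of_noZeroDivisors, ih, X_sub_C_scaleRoots]

private theorem PuiSplit.of_scale {L : Type} [Field L] {G G' : Polynomial (PowerSeries L)}
    (hG' : G'.Monic) {q : ℕ} (hq : q ≠ 0) {a : PowerSeries L}
    (h : G.map (puiE q hq) = scaleRoots G' a) (hs : PuiSplit G') : PuiSplit G := by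
  obtain ⟨e, he, s, hs⟩ := hs
  refine ⟨e * q, Nat.mul_ne_zero he hq, s.map fun y => y * puiE e he a, ?_⟩
  rw [← scaleRoots_prod_X_sub_C, ← hs, ← puiE_comp e he q hq, ← Polynomial.map_map, h,
    map_scaleRoots]
  rw [hG'.leadingCoeff, map_one]
  exact one_ne_zero

private theorem exists_order_factor {L : Type} [Field L] {φ : PowerSeries L} (h : φ ≠ 0) :
    ∃ (o : ℕ) (u : PowerSeries L), φ = PowerSeries.X ^ o * u ∧
      PowerSeries.constantCoeff (R := L) u ≠ 0 := by
  obtain ⟨u, hu⟩ := PowerSeries.X_pow_order_dvd (φ := φ)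
  refine ⟨φ.order.toNat, u, hu, ?_⟩
  have h1 := PowerSeries.coeff_order h
  have h2 : PowerSeries.coeff (0 + φ.order.toNat) (PowerSeries.X ^ φ.order.toNat * u) =
      PowerSeries.coeff 0 u := PowerSeries.coeff_X_pow_mul u _ 0
  rw [← hu, zero_add] at h2
  rw [h2] at h1
  simpa using h1

/-- the coefficient of `Y^(n-1)` after a shift -/
private theorem coeff_taylor_pred {R : Type*} [CommRing R] {G : Polynomial R} (hG : G.Monic) {n : ℕ}
    (hn : G.natDegree = n + 1) (a : R) :
    (taylor a G).coeff n = G.coeff n + (n + 1 : ℕ) * a := by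
  rw [taylor_coeff]
  have h1 : (hasseDeriv n G).natDegree < 2 := by
    have := natDegree_hasseDeriv_le G n
    omega
  rw [eval_eq_sum_range' h1, Finset.sum_range_succ, Finset.sum_range_one, hasseDeriv_coeff,
    hasseDeriv_coeff]
  have h2 : G.coeff (1 + n) = 1 := by
    have := hG.coeff_natDegree
    rwa [hn, Nat.add_comm] at this
  rw [h2, zero_add, Nat.choose_self, Nat.add_comm 1 n, Nat.choose_succ_self_right]
  simp

/-- the key step: a monic polynomial without `Y^(n-1)`, not `Y^n` -/
private theorem exists_scale {L : Type} [Field L] {G : Polynomial (PowerSeries L)} (hG : G.Monic)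
    {n : ℕ} (hn : G.natDegree = n + 1) (h0 : G.coeff n = 0) (hne : G ≠ X ^ (n + 1)) :
    ∃ (q : ℕ) (hq : q ≠ 0) (a : PowerSeries L) (G' : Polynomial (PowerSeries L)), G'.Monic ∧
      G'.natDegree = n + 1 ∧ G'.coeff n = 0 ∧ G.map (puiE q hq) = scaleRoots G' a ∧
      ∃ j < n + 1, PowerSeries.constantCoeff (R := L) (G'.coeff j) ≠ 0 := by
  classical
  have hlead : G.coeff (n + 1) = 1 := by
    rw [← hn]
    exact hG.coeff_natDegree
  have hex : ∃ j < n + 1, G.coeff j ≠ 0 := by
    by_contra hcon
    push Not at hcon
    apply hne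
    ext1 j
    rw [coeff_X_pow]
    split_ifs with hj
    · rw [hj, ← hn, hG.coeff_natDegree]
    · rcases lt_or_gt_of_ne hj with hj | hj
      · exact hcon j hj
      · exact coeff_eq_zero_of_natDegree_lt (by omega)
  have hfac : ∀ j, ∃ (o : ℕ) (u : PowerSeries L), G.coeff j = PowerSeries.X ^ o * u ∧
      (G.coeff j ≠ 0 → PowerSeries.constantCoeff (R := L) u ≠ 0) := by
    intro j
    by_cases h : G.coeff j = 0
    · exact ⟨0, 0, by rw [h]; simp, fun h' => absurd h h'⟩
    · obtain ⟨o, u, h1, h2⟩ := exists_order_factor h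
      exact ⟨o, u, h1, fun _ => h2⟩
  choose o u hou hu using hfac
  obtain ⟨j1, hj1, hj1'⟩ := hex
  obtain ⟨j₀, hj₀, hmin⟩ := Finset.exists_min_image
    ((Finset.range (n + 1)).filter fun j => G.coeff j ≠ 0)
    (fun j => (o j : ℚ) / ((n + 1 - j : ℕ) : ℚ))
    ⟨j1, Finset.mem_filter.mpr ⟨Finset.mem_range.mpr hj1, hj1'⟩⟩
  obtain ⟨hj₀1, hj₀2⟩ := Finset.mem_filter.mp hj₀
  have hj₀3 : j₀ < n + 1 := Finset.mem_range.mp hj₀1
  have hqne : n + 1 - j₀ ≠ 0 := by omega
  have hmin' : ∀ j < n + 1, G.coeff j ≠ 0 → o j₀ * (n + 1 - j) ≤ (n + 1 - j₀) * o j := by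
    intro j hj hj'
    have h1 := hmin j (Finset.mem_filter.mpr ⟨Finset.mem_range.mpr hj, hj'⟩)
    have p1 : (0 : ℚ) < ((n + 1 - j₀ : ℕ) : ℚ) := by
      have : 0 < n + 1 - j₀ := by omega
      exact_mod_cast this
    have p2 : (0 : ℚ) < ((n + 1 - j : ℕ) : ℚ) := by
      have : 0 < n + 1 - j := by omega
      exact_mod_cast this
    rw [div_le_div_iff₀ p1 p2] at h1
    rw [Nat.mul_comm (n + 1 - j₀)]
    exact_mod_cast h1
  have hmap : ∀ j, puiE (n + 1 - j₀) hqne (G.coeff j) =
      PowerSeries.X ^ ((n + 1 - j₀) * o j) * puiE (n + 1 - j₀) hqne (u j) := by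
    intro j
    conv_lhs => rw [hou j]
    rw [map_mul, map_pow]
    have : puiE (n + 1 - j₀) hqne (PowerSeries.X : PowerSeries L) =
        PowerSeries.X ^ (n + 1 - j₀) := PowerSeries.expand_X _ hqne
    rw [this, ← pow_mul]
  have hdvd : ∀ j, ∃ c : PowerSeries L, j < n + 1 + 1 → puiE (n + 1 - j₀) hqne (G.coeff j) =
      PowerSeries.X ^ (o j₀ * (n + 1 - j)) * c := by
    intro j
    by_cases hj : j < n + 1 + 1
    · by_cases h : G.coeff j = 0
      · exact ⟨0, fun _ => by rw [h, map_zero, mul_zero]⟩
      · rcases Nat.lt_succ_iff_lt_or_eq.mp hj with hj2 | hj2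
        · refine ⟨PowerSeries.X ^ ((n + 1 - j₀) * o j - o j₀ * (n + 1 - j)) *
            puiE (n + 1 - j₀) hqne (u j), fun _ => ?_⟩
          rw [hmap j, ← mul_assoc, ← pow_add, Nat.add_sub_cancel' (hmin' j hj2 h)]
        · refine ⟨1, fun _ => ?_⟩
          rw [hj2, Nat.sub_self, mul_zero, pow_zero, mul_one, hlead, map_one]
    · exact ⟨0, fun h => absurd h hj⟩
  choose c hc using hdvd
  have hX : (PowerSeries.X : PowerSeries L) ≠ 0 := PowerSeries.X_ne_zero
  have hcn : c (n + 1) = 1 := by
    have := hc (n + 1) (by omega)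
    rw [Nat.sub_self, mul_zero, pow_zero, one_mul, hlead, map_one] at this
    exact this.symm
  have hcn1 : c n = 0 := by
    have := hc n (by omega)
    rw [h0, map_zero] at this
    rcases mul_eq_zero.mp this.symm with h | h
    · exact absurd h (pow_ne_zero _ hX)
    · exact h
  set G' : Polynomial (PowerSeries L) := ∑ j ∈ Finset.range (n + 1 + 1), monomial j (c j) with hG'
  have hco : ∀ j, G'.coeff j = if j < n + 1 + 1 then c j else 0 := by
    intro j
    rw [hG', finsetSum_coeff]
    simp only [coeff_monomial, Finset.sum_ite_eq', Finset.mem_range]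
  have hle : G'.natDegree ≤ n + 1 := by
    rw [natDegree_le_iff_coeff_eq_zero]
    intro j hj
    rw [hco j, if_neg (by omega)]
  have hmon : G'.Monic := by
    refine monic_of_natDegree_le_of_coeff_eq_one (n + 1) hle ?_
    rw [hco, if_pos (by omega), hcn]
  have hdeg : G'.natDegree = n + 1 := by
    refine natDegree_eq_of_le_of_coeff_ne_zero hle ?_
    rw [hco, if_pos (by omega), hcn]
    exact one_ne_zero
  refine ⟨n + 1 - j₀, hqne, PowerSeries.X ^ (o j₀), G', hmon, hdeg, ?_, ?_, j₀, hj₀3, ?_⟩
  · rw [hco, if_pos (by omega), hcn1]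
  · ext1 j
    rw [coeff_map, coeff_scaleRoots, hco, hdeg]
    by_cases hj : j < n + 1 + 1
    · rw [if_pos hj, hc j hj, ← pow_mul, mul_comm]
    · rw [if_neg hj, zero_mul, coeff_eq_zero_of_natDegree_lt (by omega), map_zero]
  · rw [hco, if_pos (by omega)]
    have h1 := hc j₀ (by omega)
    rw [hmap j₀, Nat.mul_comm (n + 1 - j₀)] at h1
    have h2 := mul_left_cancel₀ (pow_ne_zero _ hX) h1
    rw [← h2]
    have h3 : PowerSeries.constantCoeff (R := L) (puiE (n + 1 - j₀) hqne (u j₀)) =
        PowerSeries.constantCoeff (R := L) (u j₀) := PowerSeries.constantCoeff_expand _ hqne _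
    rw [h3]
    exact hu j₀ hj₀2

private theorem puiSplit_of_monic {L : Type} [Field L] [IsAlgClosed L] [CharZero L] (n : ℕ) :
    ∀ G : Polynomial (PowerSeries L), G.Monic → G.natDegree = n → PuiSplit G := by
  induction n using Nat.strong_induction_on with
  | _ n ih =>
    intro G hG hn
    rcases n with _ | n
    · refine ⟨1, one_ne_zero, 0, ?_⟩
      rw [hG.natDegree_eq_zero.mp hn]
      simp
    · -- shift
      set b : PowerSeries L := PowerSeries.C ((n + 1 : L)⁻¹) * (-(G.coeff n)) with hb
      apply PuiSplit.of_taylor b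
      have hne1 : ((n : L) + 1) ≠ 0 := by exact_mod_cast Nat.succ_ne_zero n
      have hT : (taylor b G).Monic := by
        rw [Monic, leadingCoeff_taylor]
        exact hG
      have hTn : (taylor b G).natDegree = n + 1 := by rw [natDegree_taylor, hn]
      have hT0 : (taylor b G).coeff n = 0 := by
        rw [coeff_taylor_pred hG hn, hb]
        have h1 : (((n + 1 : ℕ) : PowerSeries L)) * (PowerSeries.C ((n + 1 : L)⁻¹)) = 1 := by
          have h2 : ((n + 1 : ℕ) : PowerSeries L) = PowerSeries.C ((n : L) + 1) := by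
            push_cast
            simp
          rw [h2, ← map_mul, mul_inv_cancel₀ hne1, map_one]
        rw [← mul_assoc, h1, one_mul, add_neg_cancel]
      by_cases hpow : taylor b G = X ^ (n + 1)
      · refine ⟨1, one_ne_zero, Multiset.replicate (n + 1) 0, ?_⟩
        rw [hpow]
        simp [pow_succ']
      · obtain ⟨q, hq, a, G', h1, h2, h3, h4, j, hj, h5⟩ := exists_scale hT hTn hT0 hpow
        refine PuiSplit.of_scale h1 hq h4 ?_
        -- factor
        set P : L[X] := G'.map (PowerSeries.constantCoeff (R := L)) with hP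
        have hPm : P.Monic := h1.map _
        have hPn : P.natDegree = n + 1 := by rw [hP, h1.natDegree_map, h2]
        obtain ⟨c, hc⟩ := IsAlgClosed.exists_root P (by
          rw [degree_eq_natDegree hPm.ne_zero, hPn]
          exact_mod_cast Nat.succ_ne_zero n)
        obtain ⟨H, hH, hH2⟩ := exists_eq_pow_rootMultiplicity_mul_and_not_dvd P hPm.ne_zero c
        set k := P.rootMultiplicity c with hk
        have hk0 : 0 < k := (rootMultiplicity_pos hPm.ne_zero).mpr hc
        have hgm : ((X - C c) ^ k : L[X]).Monic := (monic_X_sub_C c).pow k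
        have hHm : H.Monic := by
          refine hgm.of_mul_monic_left ?_
          rw [← hH]
          exact hPm
        have hdegs : k + H.natDegree = n + 1 := by
          have := hgm.natDegree_mul hHm
          rw [← hH, hPn, (monic_X_sub_C c).natDegree_pow, natDegree_X_sub_C, mul_one] at this
          exact this.symm
        have hkn : k < n + 1 := by
          by_contra hcon
          have hH0 : H.natDegree = 0 := by omega
          have hk1 : k = n + 1 := by omega
          have hH1 : H = 1 := hHm.natDegree_eq_zero.mp hH0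
          rw [hH1, mul_one, hk1] at hH
          have c1 : P.coeff n = 0 := by rw [hP, coeff_map, h3, map_zero]
          have c2 : P.coeff n = (n + 1 : ℕ) * (-c) := by
            have hX := coeff_taylor_pred (monic_X_pow (R := L) (n + 1)) (natDegree_X_pow _) (-c)
            rw [taylor_X_pow, coeff_X_pow, if_neg (by omega), zero_add, map_neg, ← sub_eq_add_neg,
              ← hH] at hX
            exact hX
          have c3 : c = 0 := by
            rw [c1] at c2
            rcases mul_eq_zero.mp c2.symm with h | h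
            · exact absurd h (by exact_mod_cast Nat.succ_ne_zero n)
            · exact neg_eq_zero.mp h
          rw [c3, map_zero, sub_zero] at hH
          have c4 : P.coeff j = 0 := by
            rw [hH, coeff_X_pow, if_neg (by omega)]
          rw [hP, coeff_map] at c4
          exact h5 c4
        have hcop : IsCoprime ((X - C c) ^ k : L[X]) H := by
          refine IsCoprime.pow_left ?_
          exact (irreducible_X_sub_C c).coprime_iff_not_dvd.mpr hH2
        obtain ⟨g, h, hg1, hh1, hgh, hg2, hh2⟩ := hensel_factor h1 hgm hHm hcop (hP ▸ hH)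
        have dg : g.natDegree = k := by
          have := hg1.natDegree_map (PowerSeries.constantCoeff (R := L))
          rw [hg2, (monic_X_sub_C c).natDegree_pow, natDegree_X_sub_C, mul_one] at this
          exact this.symm
        have dh : h.natDegree = H.natDegree := by
          have := hh1.natDegree_map (PowerSeries.constantCoeff (R := L))
          rw [hh2] at this
          exact this.symm
        rw [hgh]
        exact (ih k (by omega) g hg1 dg).mul (ih H.natDegree (by omega) h hh1 dh)

theorem puiseux {L : Type} [Field L] [IsAlgClosed L] [CharZero L]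
    {G : Polynomial (PowerSeries L)} (hG : G.Monic) :
    ∃ (e : ℕ) (he : e ≠ 0) (y : Fin G.natDegree → PowerSeries L),
      G.map ((PowerSeries.expand e he : PowerSeries L →ₐ[L] PowerSeries L) :
        PowerSeries L →+* PowerSeries L) = ∏ a, (X - C (y a)) := by
  obtain ⟨e, he, s, hs⟩ := puiSplit_of_monic G.natDegree G hG rfl
  have hcard : Multiset.card s = G.natDegree := by
    have h1 := congrArg natDegree hs
    rw [hG.natDegree_map, natDegree_multiset_prod_X_sub_C_eq_card] at h1
    exact h1.symm
  obtain ⟨l, rfl⟩ := Quot.exists_rep s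
  have hl : l.length = G.natDegree := hcard
  refine ⟨e, he, fun i => l.get (i.cast hl.symm), ?_⟩
  have h2 : ((Multiset.map (fun y => X - C y) (l : Multiset (PowerSeries L))).prod :
      Polynomial (PowerSeries L)) = (l.map fun y => X - C y).prod := by
    rw [Multiset.map_coe, Multiset.prod_coe]
  refine (hs.trans h2).trans ?_
  have h3 : (l.map fun y => (X - C y : Polynomial (PowerSeries L))).prod =
      ∏ i : Fin l.length, (X - C (l.get i)) :=
    (Fin.prod_univ_fun_getElem l fun y => (X - C y : Polynomial (PowerSeries L))).symm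
  rw [h3]
  exact (Fin.castOrderIso hl).toEquiv.prod_comp (fun i => (X - C (l.get (i.cast hl.symm)) : Polynomial (PowerSeries L)))

end Pool.Agent.Helper79.CU
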