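import Pool.Agent.Helper79.CU.PG
import Pool.Agent.Helper79.CU.Pui2

/-!
# CU-17: the places of the curve over an algebraically closed field

* finite place `ρ`: `G = F(ρ + w, Y)`, a monic polynomial over `L[[w]]`; `puiseux`: after `w = z^(e_ρ)` it is `∏ (Y - y_a(z))`. Infinity: for `n` large (`n l ≥` the degree in `x` of the coefficient of `y^(m-l)`) `G = w^(n m) F(1/w, w^(-n) Y)` is a monic
  polynomial over `L[w]`; if `y'_a(z)` are its roots (`w = z^e`), then `z^(-e n) y'_a` are the roots of `F(z^(-e), ·)`. Replace the finitely many exponents (the roots of `Δ` and infinity) by a common multiple `e ≥ 1` (substitute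
  `z ↦ z^(e / e_ρ)`). So in `L((z))[Y]`: `F.map (evL x₀) = ∏ (Y - y_a)`.
* `α F + β F_y = Δ` and `evL x₀ Δ ≠ 0` (`x₀` is not constant): `F_y(x₀, y_a) ≠ 0`, so the `y_a` are distinct, the Vandermonde matrix is invertible (`Yi` its inverse, entries are in the field `PG`: adjugate and inverse of the determinant),
  `δ = (evL x₀ Δ)⁻¹`. `PG_alg`, `PG_evL`, `PG_inv`, `PG_prod`: all these series are `PG`; `PG_common` for all places together.
* `perm`: `ζ` a primitive `e`-th root of unity in `L`; `z ↦ ζ z` fixes `x₀`, so it maps roots of `F.map (evL x₀)` to roots, injectively: a permutation of the distinct `y_a`.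
-/

open Polynomial

namespace Pool.Agent.Helper79.CU

namespace PlAux

section

variable {L : Type} [Field L]

theorem evL_ne_zero [IsAlgClosed L] {x₀ : LaurentSeries L}
    (hx : ∀ r : L, x₀ ≠ (HahnSeries.C r : LaurentSeries L)) {p : L[X]} (hp : p ≠ 0) :
    evL x₀ p ≠ 0 := by
  have h1 : p = C p.leadingCoeff * (p.roots.map fun a => X - C a).prod :=
    (IsAlgClosed.splits p).eq_prod_roots
  rw [h1, map_mul, map_multiset_prod, Multiset.map_map, evL_C]
  refine mul_ne_zero ?_ ?_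
  · exact HahnSeries.C_ne_zero (leadingCoeff_ne_zero.2 hp)
  · rw [Ne, Multiset.prod_eq_zero_iff]
    intro h
    obtain ⟨r, -, hr⟩ := Multiset.mem_map.1 h
    have h2 : evL x₀ (X - C r) = 0 := hr
    rw [map_sub, evL_X, evL_C, sub_eq_zero] at h2
    exact hx r h2

theorem xfin_ne {e : ℕ} (he : e ≠ 0) (ρ r : L) :
    xfin e ρ ≠ (HahnSeries.C r : LaurentSeries L) := by
  intro h
  have h1 := congrArg (fun f : LaurentSeries L => f.coeff (e : ℤ)) h
  have h0 : (e : ℤ) ≠ 0 := by exact_mod_cast he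
  simp only [xfin, HahnSeries.C_apply, HahnSeries.coeff_add, HahnSeries.coeff_single_same,
    HahnSeries.coeff_single_of_ne h0] at h1
  simp at h1

theorem xinf_ne {e : ℕ} (he : e ≠ 0) (r : L) :
    xinf L e ≠ (HahnSeries.C r : LaurentSeries L) := by
  intro h
  have h1 := congrArg (fun f : LaurentSeries L => f.coeff (-(e : ℤ))) h
  have h0 : (-(e : ℤ)) ≠ 0 := by
    have : (e : ℤ) ≠ 0 := by exact_mod_cast he
    omega
  simp only [xinf, HahnSeries.C_apply, HahnSeries.coeff_single_same,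
    HahnSeries.coeff_single_of_ne h0] at h1
  simp at h1

end

section

variable {L : Type} [Field L] [CharZero L]

theorem PG_one : PG (1 : LaurentSeries L) := by
  have := PG_C (1 : L)
  simpa using this

theorem PG_det {m : ℕ} {M : Matrix (Fin m) (Fin m) (LaurentSeries L)}
    (h : ∀ i j, PG (M i j)) : PG M.det := by
  rw [Matrix.det_apply]
  refine PG_sum fun σ _ => ?_
  have h1 : PG (∏ i, M (σ i) i) := PG_prod fun i _ => h _ _
  rcases Int.units_eq_one_or (Equiv.Perm.sign σ) with hs | hs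
  · rw [hs, one_smul]
    exact h1
  · rw [hs, Units.neg_smul, one_smul]
    exact PG_neg h1

theorem PG_zero : PG (0 : LaurentSeries L) := by
  have := PG_C (0 : L)
  simpa using this

theorem PG_adj {m : ℕ} {M : Matrix (Fin m) (Fin m) (LaurentSeries L)}
    (h : ∀ i j, PG (M i j)) (i j : Fin m) : PG (M.adjugate i j) := by
  rw [Matrix.adjugate_apply]
  refine PG_det fun a b => ?_
  rw [Matrix.updateRow_apply]
  split_ifs with hab
  · by_cases hb : b = i
    · subst hb
      simpa using PG_one (L := L)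
    · simpa [Pi.single_eq_of_ne hb] using PG_zero (L := L)
  · exact h _ _

theorem PG_inv_mat {m : ℕ} {M : Matrix (Fin m) (Fin m) (LaurentSeries L)}
    (h : ∀ i j, PG (M i j)) (i j : Fin m) : PG (M⁻¹ i j) := by
  rw [Matrix.inv_def, Matrix.smul_apply, smul_eq_mul, Ring.inverse_eq_inv']
  exact PG_mul (PG_inv (PG_det h)) (PG_adj h i j)

theorem PG_pow {f : LaurentSeries L} (h : PG f) (k : ℕ) : PG (f ^ k) := by
  have h1 : ∏ _i ∈ Finset.range k, f = f ^ k := by
    rw [Finset.prod_const, Finset.card_range]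
  rw [← h1]
  exact PG_prod fun _ _ => h

end

section

variable {L : Type} [Field L] [IsAlgClosed L] [CharZero L]

/-- The data at one place, before the bounds. -/
theorem place_core {F α β : L[X][X]} {Δ : L[X]} {m : ℕ} (hΔ : Δ ≠ 0)
    (bez : α * F + β * derivative F = C Δ) {x₀ : LaurentSeries L}
    (hx : ∀ r : L, x₀ ≠ (HahnSeries.C r : LaurentSeries L)) (hPx : PG x₀) {ζ : Lˣ}
    (hζ : Tw ζ x₀ x₀) {y : Fin m → LaurentSeries L}
    (hy : F.map (evL x₀) = ∏ a, (X - C (y a))) :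
    ∃ (Yi : Matrix (Fin m) (Fin m) (LaurentSeries L)) (δ : LaurentSeries L),
      (∀ a, (F.map (evL x₀)).eval (y a) = 0) ∧
      (∃ σ : Equiv.Perm (Fin m), ∀ a, Tw ζ (y a) (y (σ a))) ∧
      Yi * Matrix.vandermonde y = 1 ∧ evL x₀ Δ * δ = 1 ∧
      (∀ a, PG (y a)) ∧ (∀ l a, PG (Yi l a)) ∧ PG δ := by
  have hD : evL x₀ Δ ≠ 0 := evL_ne_zero hx hΔ
  have hroot : ∀ a, (F.map (evL x₀)).eval (y a) = 0 := by
    intro a
    rw [hy, eval_prod]
    refine Finset.prod_eq_zero (Finset.mem_univ a) ?_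
    simp
  have hbez : α.map (evL x₀) * F.map (evL x₀) + β.map (evL x₀) * derivative (F.map (evL x₀))
      = C (evL x₀ Δ) := by
    rw [derivative_map, ← Polynomial.map_mul, ← Polynomial.map_mul, ← Polynomial.map_add, bez,
      map_C]
  have hsep : (F.map (evL x₀)).Separable := by
    refine ⟨C (evL x₀ Δ)⁻¹ * α.map (evL x₀), C (evL x₀ Δ)⁻¹ * β.map (evL x₀), ?_⟩
    rw [mul_assoc, mul_assoc, ← mul_add, hbez, ← C_mul, inv_mul_cancel₀ hD, C_1]
  have hinj : Function.Injective y := by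
    rw [hy] at hsep
    exact separable_prod_X_sub_C_iff.1 hsep
  have hder : ∀ a, (derivative (F.map (evL x₀))).eval (y a) ≠ 0 := by
    intro a h
    have h1 := congrArg (fun p => p.eval (y a)) hbez
    simp only [eval_add, eval_mul, eval_C, hroot a, h, mul_zero, add_zero] at h1
    exact hD h1.symm
  have hPc : ∀ n, PG ((F.map (evL x₀)).coeff n) := by
    intro n
    rw [coeff_map]
    exact PG_evL hPx _
  have hPy : ∀ a, PG (y a) := fun a => PG_alg hPc (hroot a) (hder a)
  have hdet : (Matrix.vandermonde y).det ≠ 0 := Matrix.det_vandermonde_ne_zero_iff.2 hinj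
  refine ⟨(Matrix.vandermonde y)⁻¹, (evL x₀ Δ)⁻¹, hroot, ?_, ?_, mul_inv_cancel₀ hD, hPy, ?_,
    PG_inv (PG_evL hPx _)⟩
  · have key : ∀ a, ∃ b, Tw ζ (y a) (y b) := by
      intro a
      obtain ⟨y', hy'⟩ := Tw_exists ζ (y a)
      have h1 : Tw ζ ((F.map (evL x₀)).eval (y a)) ((F.map (evL x₀)).eval y') := by
        rw [eval_eq_sum_range, eval_eq_sum_range]
        refine Tw_sum _ fun i _ => Tw_mul ?_ (Tw_pow hy' i)
        rw [coeff_map]
        exact Tw_evL hζ _
      rw [hroot a] at h1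
      have h2 : Tw ζ (0 : LaurentSeries L) 0 := fun n => by simp
      have h3 := Tw_unique h1 h2
      rw [hy, eval_prod, Finset.prod_eq_zero_iff] at h3
      obtain ⟨b, -, hb⟩ := h3
      rw [eval_sub, eval_X, eval_C, sub_eq_zero] at hb
      exact ⟨b, hb ▸ hy'⟩
    choose f hf using key
    have hfi : Function.Injective f := by
      intro a b hab
      apply hinj
      ext n
      have h1 := hf a n
      have h2 := hf b n
      rw [hab, h2] at h1
      exact ((Units.mul_right_inj _).1 h1).symm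
    exact ⟨Equiv.ofBijective f (Finite.injective_iff_bijective.1 hfi), hf⟩
  · exact Matrix.nonsing_inv_mul _ (isUnit_iff_ne_zero.2 hdet)
  · intro l a
    refine PG_inv_mat (fun i j => ?_) l a
    rw [Matrix.vandermonde_apply]
    exact PG_pow (hPy i) _

theorem puiseux_fin (m : ℕ) {G : Polynomial (PowerSeries L)} (hG : G.Monic)
    (hm : G.natDegree = m) :
    ∃ e₀ : ℕ, e₀ ≠ 0 ∧ ∀ e : ℕ, e ≠ 0 → e₀ ∣ e → ∀ he : e ≠ 0,
      ∃ y : Fin m → LaurentSeries L,
      G.map ((HahnSeries.ofPowerSeries ℤ L).comp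
        ((PowerSeries.expand e he : PowerSeries L →ₐ[L] PowerSeries L) :
          PowerSeries L →+* PowerSeries L)) = ∏ a, (X - C (y a)) := by
  subst hm
  obtain ⟨e₀, he₀, y, hy⟩ := puiseux hG
  refine ⟨e₀, he₀, ?_⟩
  rintro e he' ⟨k, rfl⟩ he
  have hk : k ≠ 0 := fun h => he (by rw [h, mul_zero])
  refine ⟨fun a => HahnSeries.ofPowerSeries ℤ L (PowerSeries.expand k hk (y a)), ?_⟩
  have h1 : ((PowerSeries.expand (e₀ * k) he : PowerSeries L →ₐ[L] PowerSeries L) :
      PowerSeries L →+* PowerSeries L) =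
      ((PowerSeries.expand k hk : PowerSeries L →ₐ[L] PowerSeries L) :
        PowerSeries L →+* PowerSeries L).comp
      ((PowerSeries.expand e₀ he₀ : PowerSeries L →ₐ[L] PowerSeries L) :
        PowerSeries L →+* PowerSeries L) := by
    refine RingHom.ext fun f => ?_
    change PowerSeries.expand (e₀ * k) he f =
      PowerSeries.expand k hk (PowerSeries.expand e₀ he₀ f)
    rw [← PowerSeries.expand_mul k hk e₀ he₀]
    congr 1
    simp only [mul_comm e₀ k]
  rw [h1, ← RingHom.comp_assoc, ← Polynomial.map_map, hy, Polynomial.map_prod]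
  refine Finset.prod_congr rfl fun a _ => ?_
  rw [Polynomial.map_sub, Polynomial.map_X, Polynomial.map_C]
  rfl

/-- The finite places. -/
theorem fin_place {F : L[X][X]} (hF : F.Monic) {m : ℕ} (hm : F.natDegree = m) (ρ : L) :
    ∃ e₀ : ℕ, e₀ ≠ 0 ∧ ∀ e : ℕ, e ≠ 0 → e₀ ∣ e →
      ∃ y : Fin m → LaurentSeries L, F.map (evL (xfin e ρ)) = ∏ a, (X - C (y a)) := by
  let φ : L[X] →+* PowerSeries L :=
    Polynomial.eval₂RingHom (PowerSeries.C : L →+* PowerSeries L) (PowerSeries.C ρ + PowerSeries.X)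
  obtain ⟨e₀, he₀, h⟩ := puiseux_fin m (hF.map φ) (by rw [hF.natDegree_map]; exact hm)
  refine ⟨e₀, he₀, fun e he hd => ?_⟩
  obtain ⟨y, hy⟩ := h e he hd he
  refine ⟨y, ?_⟩
  rw [← hy, Polynomial.map_map]
  congr 1
  refine Polynomial.ringHom_ext (fun r => ?_) ?_
  · rw [evL_C]
    change _ = HahnSeries.ofPowerSeries ℤ L (PowerSeries.expand e he (φ (C r)))
    have : φ (C r) = PowerSeries.C r := by simp [φ]
    rw [this, PowerSeries.expand_C, HahnSeries.ofPowerSeries_C]
  · rw [evL_X]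
    change _ = HahnSeries.ofPowerSeries ℤ L (PowerSeries.expand e he (φ X))
    have : φ X = PowerSeries.C ρ + PowerSeries.X := by simp [φ]
    rw [this, map_add, PowerSeries.expand_C, PowerSeries.expand_X, map_add,
      HahnSeries.ofPowerSeries_C, HahnSeries.ofPowerSeries_X_pow]
    rfl

theorem scaleRoots_prod {K : Type} [Field K] {ι : Type} (s : Finset ι) (b : ι → K) (r : K) :
    (∏ a ∈ s, (X - C (b a))).scaleRoots r = ∏ a ∈ s, (X - C (r * b a)) := by
  classical
  induction s using Finset.induction_on with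
  | empty => simp [one_scaleRoots]
  | insert a s ha ih =>
    rw [Finset.prod_insert ha, Finset.prod_insert ha, mul_scaleRoots_of_noZeroDivisors, ih,
      X_sub_C_scaleRoots, mul_comm (b a) r]

/-- The place at infinity. -/
theorem inf_place {F : L[X][X]} (hF : F.Monic) {m : ℕ} (hm : F.natDegree = m) :
    ∃ e₀ : ℕ, e₀ ≠ 0 ∧ ∀ e : ℕ, e ≠ 0 → e₀ ∣ e →
      ∃ y : Fin m → LaurentSeries L, F.map (evL (xinf L e)) = ∏ a, (X - C (y a)) := by
  classical
  obtain ⟨n, hn⟩ : ∃ n : ℕ, ∀ i, (F.coeff i).natDegree ≤ n := by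
    refine ⟨(Finset.range (m + 1)).sup fun i => (F.coeff i).natDegree, fun i => ?_⟩
    by_cases hi : i < m + 1
    · exact Finset.le_sup (f := fun i => (F.coeff i).natDegree) (Finset.mem_range.2 hi)
    · rw [coeff_eq_zero_of_natDegree_lt (by omega)]
      simp
  let G : Polynomial (PowerSeries L) :=
    ∑ i ∈ Finset.range (m + 1), C (((F.coeff i).reflect (n * (m - i)) : L[X]) : PowerSeries L) * X ^ i
  have hGc : ∀ i, G.coeff i = if i < m + 1 then
      (((F.coeff i).reflect (n * (m - i)) : L[X]) : PowerSeries L) else 0 := by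
    intro i
    simp only [G, finsetSum_coeff, coeff_C_mul, coeff_X_pow, mul_ite, mul_one, mul_zero]
    rw [Finset.sum_ite_eq]
    simp [Finset.mem_range]
  have hFm : F.coeff m = 1 := by rw [← hm]; exact hF
  have hGm : G.coeff m = 1 := by
    rw [hGc, if_pos (by omega), hFm, Nat.sub_self, mul_zero]
    have : (1 : L[X]).reflect 0 = 1 := by simp
    rw [this, Polynomial.coe_one]
  have hGd : G.natDegree ≤ m := by
    refine natDegree_le_iff_coeff_eq_zero.2 fun i hi => ?_
    rw [hGc, if_neg (by omega)]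
  have hGd' : G.natDegree = m := by
    refine le_antisymm hGd (le_natDegree_of_ne_zero ?_)
    rw [hGm]
    exact one_ne_zero
  have hGmon : G.Monic := by
    rw [Monic, leadingCoeff, hGd', hGm]
  obtain ⟨e₀, he₀, h⟩ := puiseux_fin m hGmon hGd'
  refine ⟨e₀, he₀, fun e he hd => ?_⟩
  obtain ⟨y, hy⟩ := h e he hd he
  set ψ : PowerSeries L →+* LaurentSeries L := (HahnSeries.ofPowerSeries ℤ L).comp
        ((PowerSeries.expand e he : PowerSeries L →ₐ[L] PowerSeries L) :
          PowerSeries L →+* PowerSeries L) with hψ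
  set θ : LaurentSeries L := HahnSeries.single ((n : ℤ) * e) 1 with hθ
  have hψ1 : ∀ q : L[X], ψ (q : PowerSeries L) = evL (HahnSeries.single (e : ℤ) 1) q := by
    intro q
    have h1 : ψ.comp (Polynomial.coeToPowerSeries.ringHom : L[X] →+* PowerSeries L) =
        evL (HahnSeries.single (e : ℤ) 1) := by
      refine Polynomial.ringHom_ext (fun r => ?_) ?_
      · rw [evL_C]
        change ψ ((C r : L[X]) : PowerSeries L) = _
        rw [Polynomial.coe_C]
        change HahnSeries.ofPowerSeries ℤ L (PowerSeries.expand e he (PowerSeries.C r)) = _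
        rw [PowerSeries.expand_C, HahnSeries.ofPowerSeries_C]
      · rw [evL_X]
        change ψ ((X : L[X]) : PowerSeries L) = _
        rw [Polynomial.coe_X]
        change HahnSeries.ofPowerSeries ℤ L (PowerSeries.expand e he PowerSeries.X) = _
        rw [PowerSeries.expand_X, HahnSeries.ofPowerSeries_X_pow]
    rw [← h1]
    rfl
  have hinvx : (HahnSeries.single (e : ℤ) (1 : L) : LaurentSeries L) * xinf L e = 1 := by
    rw [xinf, HahnSeries.single_mul_single, mul_one, add_neg_cancel, HahnSeries.single_zero_one]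
  let hInv : Invertible (xinf L e) :=
    ⟨HahnSeries.single (e : ℤ) 1, hinvx, by rw [mul_comm]; exact hinvx⟩
  have hkey : ∀ (p : L[X]) (k : ℕ), p.natDegree ≤ n * k →
      ψ ((p.reflect (n * k) : L[X]) : PowerSeries L) = evL (xinf L e) p * θ ^ k := by
    intro p k hp
    rw [hψ1]
    have h2 := Polynomial.eval₂_reflect_mul_pow (HahnSeries.C : L →+* LaurentSeries L)
      (xinf L e) (n * k) p hp
    have h3 : evL (xinf L e) p =
        evL (HahnSeries.single (e : ℤ) 1) (p.reflect (n * k)) * (xinf L e) ^ (n * k) := h2.symm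
    have h4 : (xinf L e) ^ (n * k) * θ ^ k = 1 := by
      rw [pow_mul, ← mul_pow, hθ, xinf, HahnSeries.single_pow, HahnSeries.single_mul_single,
        one_pow, mul_one, nsmul_eq_mul]
      have : ((n : ℤ) * -(e : ℤ) + (n : ℤ) * e) = 0 := by ring
      rw [this, HahnSeries.single_zero_one, one_pow]
    rw [h3, mul_assoc, h4, mul_one]
  have hdm : (F.map (evL (xinf L e))).natDegree = m := by
    rw [hF.natDegree_map]
    exact hm
  have hsc : G.map ψ = (F.map (evL (xinf L e))).scaleRoots θ := by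
    ext1 i
    rw [coeff_scaleRoots, coeff_map, coeff_map, hdm, hGc]
    by_cases hi : i < m + 1
    · rw [if_pos hi]
      refine hkey _ _ ?_
      rcases Nat.lt_or_ge i m with h1 | h1
      · exact (hn i).trans (Nat.le_mul_of_pos_right n (by omega))
      · have : i = m := by omega
        rw [this, hFm]
        simp
    · rw [if_neg hi, map_zero, coeff_eq_zero_of_natDegree_lt (by omega : F.natDegree < i),
        map_zero, zero_mul]
  have hθ0 : θ ≠ 0 := by
    rw [hθ]
    exact HahnSeries.single_ne_zero one_ne_zero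
  refine ⟨fun a => θ⁻¹ * y a, ?_⟩
  rw [← scaleRoots_prod, ← hy, hsc, ← scaleRoots_mul, mul_inv_cancel₀ hθ0, scaleRoots_one]

end


end PlAux

open PlAux

theorem exists_places {L : Type} [Field L] [IsAlgClosed L] [CharZero L] {F α β : L[X][X]}
    {Δ : L[X]} (hF : F.Monic) {m : ℕ} (hm : F.natDegree = m) (hm1 : 1 ≤ m) (hΔ : Δ ≠ 0)
    (bez : α * F + β * derivative F = C Δ) (T₀ : Set L) (hT₀ : T₀.Finite) :
    ∃ (T : Set L) (e E s : ℕ) (ζ : Lˣ), T.Finite ∧ T₀ ⊆ T ∧ 1 ≤ e ∧ 1 ≤ E ∧ 1 ≤ s ∧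
      IsPrimitiveRoot ζ e ∧ (ζ : L) ∈ T ∧ ((ζ⁻¹ : Lˣ) : L) ∈ T ∧
      (∀ ρ : L, Δ.eval ρ = 0 → ∃ y Yi δ,
        Place (genM (triv ℤ) (Int.castRingHom L) T) F Δ m E s ζ (xfin e ρ) y Yi δ) ∧
      ∃ y Yi δ, Place (genM (triv ℤ) (Int.castRingHom L) T) F Δ m E s ζ (xinf L e) y Yi δ := by
  classical
  have key : ∀ p : Option {ρ : L // ρ ∈ Δ.roots.toFinset}, ∃ e₀ : ℕ, e₀ ≠ 0 ∧
      ∀ e : ℕ, e ≠ 0 → e₀ ∣ e → ∃ y : Fin m → LaurentSeries L,
        F.map (evL (Option.elim p (xinf L e) fun ρ => xfin e ρ.1)) = ∏ a, (X - C (y a)) := by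
    rintro (_ | ⟨ρ, hρ⟩)
    · exact inf_place hF hm
    · exact fin_place hF hm ρ
  choose e₀ he₀ hpl using key
  obtain ⟨e, hee⟩ : ∃ e : ℕ, e = ∏ p, e₀ p := ⟨_, rfl⟩
  have he : e ≠ 0 := by
    rw [hee]
    exact Finset.prod_ne_zero_iff.2 fun p _ => he₀ p
  have hde : ∀ p, e₀ p ∣ e := by
    intro p
    rw [hee]
    exact Finset.dvd_prod_of_mem _ (Finset.mem_univ p)
  have : NeZero e := ⟨he⟩
  have : NeZero (e : L) := ⟨by exact_mod_cast he⟩
  obtain ⟨ζ₀, hζ₀⟩ := HasEnoughRootsOfUnity.exists_primitiveRoot L e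
  obtain ⟨ζ, rfl⟩ := hζ₀.isUnit he
  have hζ : IsPrimitiveRoot ζ e := IsPrimitiveRoot.coe_units_iff.1 hζ₀
  have hζ1 : ζ ^ e = 1 := hζ.pow_eq_one
  set x₀ : Option {ρ : L // ρ ∈ Δ.roots.toFinset} → LaurentSeries L :=
    fun p => Option.elim p (xinf L e) fun ρ => xfin e ρ.1 with hx₀
  have hne : ∀ p, ∀ r : L, x₀ p ≠ (HahnSeries.C r : LaurentSeries L) := by
    rintro (_ | ρ) r
    · exact xinf_ne he r
    · exact xfin_ne he ρ.1 r
  have hPx : ∀ p, PG (x₀ p) := by
    rintro (_ | ρ)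
    · exact PG_single _ _
    · exact PG_add (PG_C _) (PG_single _ _)
  have hTw : ∀ p, Tw ζ (x₀ p) (x₀ p) := by
    rintro (_ | ρ)
    · exact Tw_xinf hζ1
    · exact Tw_xfin hζ1 _
  have hy : ∀ p, ∃ y : Fin m → LaurentSeries L, F.map (evL (x₀ p)) = ∏ a, (X - C (y a)) :=
    fun p => hpl p e he (hde p)
  choose y hy using hy
  have hcore := fun p => place_core hΔ bez (hne p) (hPx p) (hTw p) (hy p)
  choose Yi δ hroot hperm hinv hinv' hPy hPYi hPδ using hcore
  obtain ⟨T, E, s, hT, hTT, hE, hs, hLG⟩ := PG_common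
    (ι := Option {ρ : L // ρ ∈ Δ.roots.toFinset} × (Unit ⊕ Fin m ⊕ (Fin m × Fin m) ⊕ Unit))
    (f := fun i => match i.2 with
      | Sum.inl _ => x₀ i.1
      | Sum.inr (Sum.inl a) => y i.1 a
      | Sum.inr (Sum.inr (Sum.inl q)) => Yi i.1 q.1 q.2
      | Sum.inr (Sum.inr (Sum.inr _)) => δ i.1)
    (by
      rintro ⟨p, _ | a | q | _⟩
      · exact hPx p
      · exact hPy p a
      · exact hPYi p q.1 q.2
      · exact hPδ p)
    (T₀ ∪ {(ζ : L), ((ζ⁻¹ : Lˣ) : L)}) (hT₀.union (Set.toFinite _))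
  have hpla : ∀ p, Place (genM (triv ℤ) (Int.castRingHom L) T) F Δ m E s ζ (x₀ p) (y p) (Yi p)
      (δ p) := fun p =>
    { root := hroot p
      perm := hperm p
      inv := hinv p
      inv' := hinv' p
      hx := hLG (p, Sum.inl ())
      hy := fun a => hLG (p, Sum.inr (Sum.inl a))
      hYi := fun l a => hLG (p, Sum.inr (Sum.inr (Sum.inl (l, a))))
      hδ := hLG (p, Sum.inr (Sum.inr (Sum.inr ()))) }
  refine ⟨T, e, E, s, ζ, hT, fun t ht => hTT (Or.inl ht), Nat.one_le_iff_ne_zero.2 he, hE, hs, hζ,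
    hTT (Or.inr (Or.inl rfl)), hTT (Or.inr (Or.inr rfl)), ?_, ?_⟩
  · intro ρ hρ
    have hmem : ρ ∈ Δ.roots.toFinset := by
      rw [Multiset.mem_toFinset, mem_roots hΔ]
      exact hρ
    exact ⟨_, _, _, hpla (some ⟨ρ, hmem⟩)⟩
  · exact ⟨_, _, _, hpla none⟩

end Pool.Agent.Helper79.CU
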