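import Pool.Agent.Helper79.CU.Str
import Pool.Agent.Helper79.CU.Lau

/-!
# CU-08: evaluation at a place

`ev a` from `exists_lift` with `g = evL x₀`, `y a`, `δ`.
* chain rule: both sides of `ld (ev a b) = ev a (Dx b) * ld x₀` are derivations `BB → R((z))` along `ev a`; they agree on constants (`0`), on `x` (`Dx x = 1`) and on `y`: from `F(x₀, y_a) = 0`:
  `F_x ld x₀ + F_y ld y_a = 0` (`ld_evL`, `ld_mul`), multiply with `β δ`: `ld y_a = -(β F_x δ)(x₀, y_a) ld x₀`. Directly for `b = iota P dlt^N` (`exists_rep`).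
* growth: `genM_map` with `W.I N = {f | LG S E N f}` (needs `1 ≤ E`: `LG S E i (C r)` for `r ∈ S.I i`), generators `x₀`, `y_a`, `δ` in step `s`.
* `place_tw`: apply the substitution `z ↦ ζ z` (a ring homomorphism, `Tw`) to `ev a b` (`b = iota P dlt^N`; `x₀`, `evL x₀ Δ`, hence `δ` are fixed, `y_a ↦ y_(σ a)`).
* `place_coord`: `∑_l y_a^l P_l(x₀) = ev a (iota P)`, i.e. `vandermonde y` times the vector `P_l(x₀)`, multiply with `Yi`.
-/

open Polynomial

namespace Pool.Agent.Helper79.CU

open Pool.Agent.Helper79.SE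

section

variable {R : Type} [CommRing R] {S : MFilt R} {F α β : R[X][X]} {Δ : R[X]}
  {m E s : ℕ} {ζ : Rˣ} {x₀ : LaurentSeries R} {y : Fin m → LaurentSeries R}
  {Yi : Matrix (Fin m) (Fin m) (LaurentSeries R)} {δ : LaurentSeries R}

theorem exists_ev (h : Place S F Δ m E s ζ x₀ y Yi δ) :
    ∃ ev : Fin m → (BB F Δ →+* LaurentSeries R),
      (∀ a P, ev a (iota F Δ P) = (P.map (evL x₀)).eval (y a)) ∧ ∀ a, ev a (dlt F Δ) = δ := by
  choose ev h1 h2 using fun a => exists_lift (F := F) (Δ := Δ) (evL x₀) (y a) (h.root a) h.inv'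
  exact ⟨ev, h1, h2⟩

private theorem gmul (x₀ z : LaurentSeries R) (P Q : R[X][X]) :
    ((P * Q).map (evL x₀)).eval z = (P.map (evL x₀)).eval z * (Q.map (evL x₀)).eval z := by
  rw [Polynomial.map_mul, eval_mul]

private theorem gadd (x₀ z : LaurentSeries R) (P Q : R[X][X]) :
    ((P + Q).map (evL x₀)).eval z = (P.map (evL x₀)).eval z + (Q.map (evL x₀)).eval z := by
  rw [Polynomial.map_add, eval_add]

private theorem gsub (x₀ z : LaurentSeries R) (P Q : R[X][X]) :
    ((P - Q).map (evL x₀)).eval z = (P.map (evL x₀)).eval z - (Q.map (evL x₀)).eval z := by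
  rw [Polynomial.map_sub, eval_sub]

private theorem gC (x₀ z : LaurentSeries R) (p : R[X]) :
    ((C p : R[X][X]).map (evL x₀)).eval z = evL x₀ p := by
  rw [map_C, eval_C]

private theorem ld_pow (z : LaurentSeries R) (n : ℕ) :
    ld (z ^ n) = (n : LaurentSeries R) * z ^ (n - 1) * ld z := by
  induction n with
  | zero =>
    have h1 : ld (1 : LaurentSeries R) = 0 := by
      rw [← map_one (HahnSeries.C : R →+* LaurentSeries R)]
      exact ld_C 1
    rw [pow_zero, h1]
    simp
  | succ n ih =>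
    rw [pow_succ, ld_mul, ih]
    rcases n with _ | n
    · simp
    · rw [Nat.add_sub_cancel, Nat.add_sub_cancel, pow_succ]
      push_cast
      ring

private theorem gld [Algebra ℚ R] (x₀ z : LaurentSeries R) (P : R[X][X]) :
    ld ((P.map (evL x₀)).eval z) = ((dc (dx R) P).map (evL x₀)).eval z * ld x₀ +
      ((derivative P).map (evL x₀)).eval z * ld z := by
  induction P using Polynomial.induction_on' with
  | add P Q hP hQ =>
    have h1 : dc (dx R) (P + Q) = dc (dx R) P + dc (dx R) Q := by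
      ext1 n
      rw [coeff_dc, coeff_add, map_add, coeff_add, coeff_dc, coeff_dc]
    rw [gadd, ld_add, hP, hQ, h1, derivative_add, gadd, gadd]
    ring
  | monomial n p =>
    have h1 : dc (dx R) (monomial n p) = monomial n (derivative p) := by
      ext1 k
      rw [coeff_dc, coeff_monomial, coeff_monomial]
      split_ifs with hk
      · rfl
      · exact map_zero _
    rw [h1, derivative_monomial, map_monomial, map_monomial, map_monomial, eval_monomial,
      eval_monomial, eval_monomial, ld_mul, ld_evL, ld_pow, map_mul, map_natCast]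
    ring

theorem place_ld [Algebra ℚ R] (hF : F.Monic) (hm : F.natDegree = m) (hm1 : 1 ≤ m)
    (bez : α * F + β * derivative F = C Δ) (h : Place S F Δ m E s ζ x₀ y Yi δ)
    {ev : Fin m → (BB F Δ →+* LaurentSeries R)}
    (hev : ∀ a P, ev a (iota F Δ P) = (P.map (evL x₀)).eval (y a))
    (hev' : ∀ a, ev a (dlt F Δ) = δ) {Dx : Derivation ℚ (BB F Δ) (BB F Δ)}
    (hDx : ∀ N P, Dx (iota F Δ P * dlt F Δ ^ N) = iota F Δ (nx F β Δ N P) * dlt F Δ ^ (N + 1))
    (a : Fin m) (b : BB F Δ) : ld (ev a b) = ev a (Dx b) * ld x₀ := by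
  obtain ⟨P, N, -, rfl⟩ := exists_rep hF hm hm1 b
  have hy0 : ld (0 : LaurentSeries R) = 0 := by
    rw [← map_zero (HahnSeries.C : R →+* LaurentSeries R)]
    exact (ld_C (0 : R)).trans (map_zero (HahnSeries.C : R →+* LaurentSeries R)).symm
  have h1o : ld (1 : LaurentSeries R) = 0 := by
    rw [← map_one (HahnSeries.C : R →+* LaurentSeries R)]
    exact ld_C 1
  have hroot := h.root a
  have hinv := h.inv'
  -- the derivative of the branch
  have h1 := gld x₀ (y a) F
  rw [hroot, hy0] at h1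
  have h2 := congrArg (fun Q : R[X][X] => (Q.map (evL x₀)).eval (y a)) bez
  beta_reduce at h2
  rw [gadd, gmul, gmul, hroot, mul_zero, zero_add, gC] at h2
  set gβ := (β.map (evL x₀)).eval (y a) with hgβ
  set gF := ((derivative F).map (evL x₀)).eval (y a) with hgF
  set gx := ((dc (dx R) F).map (evL x₀)).eval (y a) with hgx
  have h3 : ld (y a) = -(gβ * gx * δ * ld x₀) := by
    linear_combination (-ld (y a)) * hinv - (δ * ld (y a)) * h2 - gβ * δ * h1
  -- the derivative of the inverse of the discriminant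
  have h4 : ld δ = -(evL x₀ (derivative Δ) * ld x₀ * δ ^ 2) := by
    have h5 := congrArg ld hinv
    rw [ld_mul, ld_evL, h1o] at h5
    linear_combination (-ld δ) * hinv + δ * h5
  have h6 := gld x₀ (y a) P
  have hpow := ld_pow δ N
  rw [hDx, map_mul, map_mul, map_pow, map_pow, hev, hev, hev', ld_mul, h6, hpow, h3, h4]
  unfold nx
  have hnat : (((N : R[X][X]) * C (dx R Δ) * P).map (evL x₀)).eval (y a) =
      (N : LaurentSeries R) * evL x₀ (derivative Δ) * (P.map (evL x₀)).eval (y a) := by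
    rw [gmul, gmul, gC, Polynomial.map_natCast, eval_natCast]
    rfl
  rw [gsub, gsub, hnat, gmul, gmul, gmul, gC]
  rcases N with _ | N
  · simp only [pow_zero, Nat.cast_zero, zero_mul, mul_zero, zero_add, pow_one]
    linear_combination (-(((dc (dx R) P).map (evL x₀)).eval (y a) * ld x₀)) * hinv
  · rw [Nat.add_sub_cancel]
    push_cast
    linear_combination (-(((dc (dx R) P).map (evL x₀)).eval (y a) * ld x₀ * δ ^ (N + 1))) * hinv

/-- Laurent series with bounded growth. -/
private def lgf (S : MFilt R) (E : ℕ) : MFilt (LaurentSeries R) where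
  I := fun N =>
    { carrier := {f | LG S E N f}
      add_mem' := fun h1 h2 => LG_add h1 h2
      zero_mem' := LG_zero
      neg_mem' := fun h1 => LG_neg h1 }
  mono := fun _ _ h _ hf => LG_mono h hf
  one := LG_one
  mul := fun h1 h2 => LG_mul h1 h2

theorem place_LG (hE : 1 ≤ E) (hs : 1 ≤ s) (h : Place S F Δ m E s ζ x₀ y Yi δ)
    {ev : Fin m → (BB F Δ →+* LaurentSeries R)}
    (hev : ∀ a P, ev a (iota F Δ P) = (P.map (evL x₀)).eval (y a))
    (hev' : ∀ a, ev a (dlt F Δ) = δ) (a : Fin m) {N : ℕ} {b : BB F Δ}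
    (hb : b ∈ (FB S F Δ).I N) : LG S E (s * N) (ev a b) := by
  have key := genM_map S ((iota F Δ).comp ((C : R[X] →+* R[X][X]).comp (C : R →+* R[X])))
    {iota F Δ (C X), iota F Δ X, dlt F Δ} (lgf S E) (ev a) (c := s) (N := N) (b := b) ?_ ?_ hb
  · exact key
  · intro i r hr
    change LG S E (s * i) (ev a (iota F Δ (C (C r))))
    rw [hev, gC, evL_C]
    refine LG_C (S.mono ?_ hr)
    have h1 : 1 ≤ 2 * E * s := Nat.one_le_iff_ne_zero.2 (by
      have := Nat.mul_ne_zero (Nat.mul_ne_zero two_ne_zero (by omega : E ≠ 0)) (by omega : s ≠ 0)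
      exact this)
    calc i = 1 * i := (one_mul i).symm
      _ ≤ 2 * E * s * i := Nat.mul_le_mul_right i h1
      _ = 2 * E * (s * i) := by ring
  · intro t ht
    change LG S E s (ev a t)
    simp only [Set.mem_insert_iff, Set.mem_singleton_iff] at ht
    rcases ht with rfl | rfl | rfl
    · rw [hev, gC, evL_X]
      exact h.hx
    · rw [hev, map_X, eval_X]
      exact h.hy a
    · rw [hev']
      exact h.hδ

theorem place_tw (hF : F.Monic) (hm : F.natDegree = m) (hm1 : 1 ≤ m)
    (h : Place S F Δ m E s ζ x₀ y Yi δ) (hx : Tw ζ x₀ x₀) {σ : Equiv.Perm (Fin m)}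
    (hσ : ∀ a, Tw ζ (y a) (y (σ a))) {ev : Fin m → (BB F Δ →+* LaurentSeries R)}
    (hev : ∀ a P, ev a (iota F Δ P) = (P.map (evL x₀)).eval (y a))
    (hev' : ∀ a, ev a (dlt F Δ) = δ) (a : Fin m) (b : BB F Δ) :
    Tw ζ (ev a b) (ev (σ a) b) := by
  obtain ⟨P, N, -, rfl⟩ := exists_rep hF hm hm1 b
  have hδ : Tw ζ δ δ := by
    obtain ⟨δ', h1⟩ := Tw_exists ζ δ
    have h2 := Tw_mul (Tw_evL hx Δ) h1
    rw [h.inv'] at h2
    have h3 := Tw_unique h2 (Tw_one ζ)
    have h4 : δ' = δ := by
      linear_combination δ * h3 - δ' * h.inv'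
    rw [h4] at h1
    exact h1
  rw [map_mul, map_mul, map_pow, map_pow, hev, hev, hev', hev', eval_eq_sum_range,
    eval_eq_sum_range]
  refine Tw_mul (Tw_sum _ fun i _ => Tw_mul ?_ (Tw_pow (hσ a) i)) (Tw_pow hδ N)
  rw [coeff_map]
  exact Tw_evL hx _

theorem place_coord (h : Place S F Δ m E s ζ x₀ y Yi δ)
    {ev : Fin m → (BB F Δ →+* LaurentSeries R)}
    (hev : ∀ a P, ev a (iota F Δ P) = (P.map (evL x₀)).eval (y a)) {P : R[X][X]}
    (hP : P.natDegree < m) (l : Fin m) :
    evL x₀ (P.coeff l) = ∑ a, Yi l a * ev a (iota F Δ P) := by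
  have h1 : ∀ a, ev a (iota F Δ P) =
      (Matrix.vandermonde y).mulVec (fun l : Fin m => evL x₀ (P.coeff l)) a := by
    intro a
    have h2 : (P.map (evL x₀)).natDegree < m := lt_of_le_of_lt natDegree_map_le hP
    rw [hev, eval_eq_sum_range' h2, Finset.sum_range, Matrix.mulVec, dotProduct]
    refine Finset.sum_congr rfl fun i _ => ?_
    rw [coeff_map, Matrix.vandermonde_apply, mul_comm]
  have h3 : ∑ a, Yi l a * ev a (iota F Δ P) =
      Yi.mulVec ((Matrix.vandermonde y).mulVec (fun l : Fin m => evL x₀ (P.coeff l))) l := by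
    rw [Matrix.mulVec, dotProduct]
    exact Finset.sum_congr rfl fun a _ => by rw [h1 a]
  rw [h3, Matrix.mulVec_mulVec, h.inv, Matrix.one_mulVec]

end

end Pool.Agent.Helper79.CU
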