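import Mathlib

/-!
# CU-14: lifting of coprime factorizations over `L[[z]]`

Construct `g`, `h` coefficient by coefficient in `z`: suppose `G ≡ g_n h_n` modulo `z^n` (`n ≥ 1`), `g_n`, `h_n` monic of degrees `deg g₀`, `deg h₀`, with reductions `g₀`, `h₀`. The coefficient of `z^n` of `G - g_n h_n` is a polynomial
`e ∈ L[Y]` of degree `< deg G` (all are monic). As `g₀`, `h₀` are coprime there are `u`, `v` with `e = u h₀ + v g₀`, `deg u < deg g₀`, `deg v < deg h₀` (division with remainder). Put `g_(n+1) = g_n + z^n u`,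
`h_(n+1) = h_n + z^n v`. The limits exist coefficientwise.
-/

open Polynomial

namespace Pool.Agent.Helper79.CU

theorem pui1_bezout {L : Type} [Field L] {g₀ h₀ : L[X]} (hg : g₀.Monic)
    (hcop : IsCoprime g₀ h₀) (hh : h₀.Monic) (e : L[X]) :
    ∃ p : L[X] × L[X], e.degree < g₀.degree + h₀.degree →
      e = p.1 * h₀ + p.2 * g₀ ∧ p.1.degree < g₀.degree ∧ p.2.degree < h₀.degree := by
  obtain ⟨p, q, hpq⟩ := hcop
  refine ⟨((e * q) %ₘ g₀, e * p + (e * q /ₘ g₀) * h₀), fun hdeg => ?_⟩
  have hmod := modByMonic_add_div (e * q) g₀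
  have h1 : e = ((e * q) %ₘ g₀) * h₀ + (e * p + (e * q /ₘ g₀) * h₀) * g₀ := by
    calc e = e * (p * g₀ + q * h₀) := by rw [hpq, mul_one]
      _ = e * p * g₀ + (e * q) * h₀ := by ring
      _ = e * p * g₀ + ((e * q) %ₘ g₀ + g₀ * (e * q /ₘ g₀)) * h₀ := by rw [hmod]
      _ = _ := by ring
  have h2 : ((e * q) %ₘ g₀).degree < g₀.degree := degree_modByMonic_lt _ hg
  refine ⟨h1, h2, ?_⟩
  have h3 : ((e * p + (e * q /ₘ g₀) * h₀) * g₀).degree < h₀.degree + g₀.degree := by
    have : (e * p + (e * q /ₘ g₀) * h₀) * g₀ = e - ((e * q) %ₘ g₀) * h₀ := by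
      linear_combination (-1 : L[X]) * h1
    rw [this]
    refine lt_of_le_of_lt (degree_sub_le _ _) (max_lt (by rwa [add_comm]) ?_)
    rw [degree_mul, add_comm h₀.degree]
    exact WithBot.add_lt_add_right (by
      rw [Ne, degree_eq_bot]; exact hh.ne_zero) h2
  rw [degree_mul] at h3
  exact lt_of_add_lt_add_right h3

/-- the polynomial of the `k`-th coefficients -/
noncomputable def pui1Cf {L : Type} [Field L] (G : Polynomial (PowerSeries L)) (k : ℕ) : L[X] :=
  ∑ i ∈ G.support, monomial i (PowerSeries.coeff k (G.coeff i))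

theorem pui1Cf_coeff {L : Type} [Field L] (G : Polynomial (PowerSeries L)) (k i : ℕ) :
    (pui1Cf G k).coeff i = PowerSeries.coeff k (G.coeff i) := by
  classical
  unfold pui1Cf
  rw [finsetSum_coeff]
  simp only [coeff_monomial]
  rw [Finset.sum_ite_eq']
  split_ifs with h
  · rfl
  · rw [notMem_support_iff.1 h, map_zero]

/-- the recursion -/
noncomputable def pui1Seq {L : Type} [Field L] (G : Polynomial (PowerSeries L)) (g₀ h₀ : L[X])
    (sol : L[X] → L[X] × L[X]) : ℕ → (ℕ → L[X] × L[X])
  | 0 => fun _ => (g₀, h₀)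
  | n + 1 => Function.update (pui1Seq G g₀ h₀ sol n) (n + 1)
      (sol (pui1Cf G (n + 1) - ∑ s ∈ Finset.range n, (pui1Seq G g₀ h₀ sol n (s + 1)).1 *
        (pui1Seq G g₀ h₀ sol n (n - s)).2))

theorem pui1Seq_stable {L : Type} [Field L] (G : Polynomial (PowerSeries L)) (g₀ h₀ : L[X])
    (sol : L[X] → L[X] × L[X]) (i n : ℕ) (hin : i ≤ n) :
    pui1Seq G g₀ h₀ sol n i = pui1Seq G g₀ h₀ sol i i := by
  induction n with
  | zero =>
    have : i = 0 := by omega
    rw [this]
  | succ n ih =>
    rcases Nat.lt_or_ge n i with h | h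
    · have : i = n + 1 := by omega
      rw [this]
    · rw [← ih h]
      simp only [pui1Seq]
      rw [Function.update_of_ne (by omega)]

theorem pui1_main {L : Type} [Field L] (G : Polynomial (PowerSeries L)) (g₀ h₀ : L[X])
    (sol : L[X] → L[X] × L[X]) : ∃ F : ℕ → L[X] × L[X], F 0 = (g₀, h₀) ∧
      ∀ n, F (n + 1) = sol (pui1Cf G (n + 1) - ∑ s ∈ Finset.range n, (F (s + 1)).1 *
        (F (n - s)).2) := by
  refine ⟨fun n => pui1Seq G g₀ h₀ sol n n, rfl, fun n => ?_⟩
  show pui1Seq G g₀ h₀ sol (n + 1) (n + 1) = _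
  rw [pui1Seq, Function.update_self]
  congr 2
  apply Finset.sum_congr rfl
  intro s hs
  rw [Finset.mem_range] at hs
  rw [pui1Seq_stable G g₀ h₀ sol (s + 1) n (by omega), pui1Seq_stable G g₀ h₀ sol (n - s) n
    (by omega)]

theorem hensel_factor {L : Type} [Field L] {G : Polynomial (PowerSeries L)} (hG : G.Monic)
    {g₀ h₀ : L[X]} (hg : g₀.Monic) (hh : h₀.Monic) (hcop : IsCoprime g₀ h₀)
    (h : G.map (PowerSeries.constantCoeff (R := L)) = g₀ * h₀) :
    ∃ g h : Polynomial (PowerSeries L), g.Monic ∧ h.Monic ∧ G = g * h ∧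
      g.map (PowerSeries.constantCoeff (R := L)) = g₀ ∧
      h.map (PowerSeries.constantCoeff (R := L)) = h₀ := by
  classical
  choose sol hsol using pui1_bezout hg hcop hh
  obtain ⟨F, hF0, hF⟩ := pui1_main G g₀ h₀ sol
  have hN : G.natDegree = g₀.natDegree + h₀.natDegree := by
    rw [← hg.natDegree_mul hh, ← h, hG.natDegree_map]
  have hc0 : pui1Cf G 0 = g₀ * h₀ := by
    ext i
    rw [pui1Cf_coeff, ← h, coeff_map, PowerSeries.coeff_zero_eq_constantCoeff]
  have hNd : g₀.degree + h₀.degree = ((g₀.natDegree + h₀.natDegree : ℕ) : WithBot ℕ) := by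
    rw [degree_eq_natDegree hg.ne_zero, degree_eq_natDegree hh.ne_zero]
    push_cast
    rfl
  have hcdeg : ∀ k, (pui1Cf G (k + 1)).degree < g₀.degree + h₀.degree := by
    intro k
    rw [hNd, degree_lt_iff_coeff_zero]
    intro m hm
    rw [pui1Cf_coeff]
    rcases hm.lt_or_eq with h1 | h1
    · rw [coeff_eq_zero_of_natDegree_lt (by omega), map_zero]
    · have : G.coeff m = 1 := by
        rw [← h1, ← hN]
        exact hG
      rw [this, PowerSeries.coeff_one, if_neg (by omega)]
  have hFd : ∀ k, 1 ≤ k → (F k).1.degree < g₀.degree ∧ (F k).2.degree < h₀.degree ∧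
      ∀ n, k = n + 1 → pui1Cf G (n + 1) - ∑ s ∈ Finset.range n, (F (s + 1)).1 * (F (n - s)).2 =
        (F (n + 1)).1 * h₀ + (F (n + 1)).2 * g₀ := by
    intro k
    induction k using Nat.strong_induction_on with
    | _ k ih =>
      intro hk
      obtain ⟨n, rfl⟩ : ∃ n, k = n + 1 := ⟨k - 1, by omega⟩
      have hdeg : (pui1Cf G (n + 1) - ∑ s ∈ Finset.range n, (F (s + 1)).1 *
          (F (n - s)).2).degree < g₀.degree + h₀.degree := by
        refine lt_of_le_of_lt (degree_sub_le _ _) (max_lt (hcdeg n) ?_)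
        refine lt_of_le_of_lt (degree_sum_le _ _) ?_
        rw [Finset.sup_lt_iff (by rw [hNd]; exact WithBot.bot_lt_coe _)]
        intro s hs
        rw [Finset.mem_range] at hs
        obtain ⟨a1, -, -⟩ := ih (s + 1) (by omega) (by omega)
        obtain ⟨-, b1, -⟩ := ih (n - s) (by omega) (by omega)
        rw [degree_mul]
        by_cases hz : (F (n - s)).2 = 0
        · rw [hz, degree_zero, WithBot.add_bot, hNd]
          exact WithBot.bot_lt_coe _
        · calc (F (s + 1)).1.degree + (F (n - s)).2.degree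
              < g₀.degree + (F (n - s)).2.degree :=
                WithBot.add_lt_add_right (by rw [Ne, degree_eq_bot]; exact hz) a1
            _ ≤ g₀.degree + h₀.degree := by gcongr
      obtain ⟨s1, s2, s3⟩ := hsol _ hdeg
      rw [← hF n] at s1 s2 s3
      refine ⟨s2, s3, fun n' hn' => ?_⟩
      have : n' = n := by omega
      subst this
      exact s1
  have hsum : ∀ k, ∑ p ∈ Finset.HasAntidiagonal.antidiagonal k, (F p.1).1 * (F p.2).2 = pui1Cf G k := by
    intro k
    rw [Finset.Nat.sum_antidiagonal_eq_sum_range_succ_mk]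
    rcases k with _ | n
    · simp [hF0, hc0]
    · have := (hFd (n + 1) (by omega)).2.2 n rfl
      rw [Finset.sum_range_succ, Finset.sum_range_succ']
      simp only [Nat.sub_zero, Nat.sub_self, hF0]
      have e : ∑ s ∈ Finset.range n, (F (s + 1)).1 * (F (n + 1 - (s + 1))).2 =
          ∑ s ∈ Finset.range n, (F (s + 1)).1 * (F (n - s)).2 := by
        apply Finset.sum_congr rfl
        intro s _
        rw [Nat.add_sub_add_right]
      rw [e]
      linear_combination -this
  have h1d : ∀ k i, g₀.natDegree < i → (F k).1.coeff i = 0 := by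
    intro k i hi
    rcases k with _ | n
    · rw [hF0]; exact coeff_eq_zero_of_natDegree_lt hi
    · apply coeff_eq_zero_of_degree_lt
      refine (hFd (n + 1) (by omega)).1.trans ?_
      rw [degree_eq_natDegree hg.ne_zero]
      exact_mod_cast hi
  have h2d : ∀ k i, h₀.natDegree < i → (F k).2.coeff i = 0 := by
    intro k i hi
    rcases k with _ | n
    · rw [hF0]; exact coeff_eq_zero_of_natDegree_lt hi
    · apply coeff_eq_zero_of_degree_lt
      refine (hFd (n + 1) (by omega)).2.1.trans ?_
      rw [degree_eq_natDegree hh.ne_zero]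
      exact_mod_cast hi
  -- general assembly
  have build : ∀ (f : ℕ → L[X]) (N : ℕ), (∀ k i, N < i → (f k).coeff i = 0) →
      (f 0).coeff N = 1 → (∀ k, (f (k + 1)).coeff N = 0) →
      ∃ P : Polynomial (PowerSeries L), P.Monic ∧
        (∀ i, P.coeff i = PowerSeries.mk fun k => (f k).coeff i) := by
    intro f N hf hN1 hN0
    set P : Polynomial (PowerSeries L) := ∑ i ∈ Finset.range (N + 1),
      monomial i (PowerSeries.mk fun k => (f k).coeff i) with hP
    have hPc : ∀ i, P.coeff i = PowerSeries.mk fun k => (f k).coeff i := by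
      intro i
      rw [hP, finsetSum_coeff]
      simp only [coeff_monomial]
      rw [Finset.sum_ite_eq']
      split_ifs with hi
      · rfl
      · rw [Finset.mem_range] at hi
        ext k
        rw [PowerSeries.coeff_mk, hf k i (by omega), map_zero]
    refine ⟨P, ?_, hPc⟩
    apply monic_of_natDegree_le_of_coeff_eq_one N
    · rw [natDegree_le_iff_coeff_eq_zero]
      intro i hi
      rw [hPc]
      ext k
      rw [PowerSeries.coeff_mk, hf k i (by omega), map_zero]
    · rw [hPc]
      ext k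
      rw [PowerSeries.coeff_mk, PowerSeries.coeff_one]
      rcases k with _ | k
      · simp [hN1]
      · simp [hN0 k]
  obtain ⟨g, hgm, hgc⟩ := build (fun k => (F k).1) g₀.natDegree h1d (by rw [hF0]; exact hg)
    (fun k => by
      apply coeff_eq_zero_of_degree_lt
      have := (hFd (k + 1) (by omega)).1
      rwa [degree_eq_natDegree hg.ne_zero] at this)
  obtain ⟨h', hhm, hhc⟩ := build (fun k => (F k).2) h₀.natDegree h2d (by rw [hF0]; exact hh)
    (fun k => by
      apply coeff_eq_zero_of_degree_lt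
      have := (hFd (k + 1) (by omega)).2.1
      rwa [degree_eq_natDegree hh.ne_zero] at this)
  refine ⟨g, h', hgm, hhm, ?_, ?_, ?_⟩
  · ext i k
    rw [← pui1Cf_coeff, ← hsum, finsetSum_coeff, coeff_mul, map_sum]
    simp only [coeff_mul, PowerSeries.coeff_mul, hgc, hhc, PowerSeries.coeff_mk]
    rw [Finset.sum_comm]
  · ext i
    rw [coeff_map, hgc, ← PowerSeries.coeff_zero_eq_constantCoeff_apply, PowerSeries.coeff_mk, hF0]
  · ext i
    rw [coeff_map, hhc, ← PowerSeries.coeff_zero_eq_constantCoeff_apply, PowerSeries.coeff_mk, hF0]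

end Pool.Agent.Helper79.CU
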