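import Pool.Agent.Helper79.CU.Defs

/-!
# CU-04: the coordinate ring of the open curve

`BB F Δ` is the localization of `AdjoinRoot F` at the powers of `Δ`.

* `iota_eq_zero`: `iota P = 0` means `Δ^k P = F Q` for some `k`; `F` is monic, so (division with remainder `P = F Q' + P₀`) `Δ^k P₀` is divisible by `F` and of smaller degree in `y`, hence `0`.
* `exists_rep`: `IsLocalization.Away.surj`; reduce modulo the monic `F` (`P %ₘ F`).
* `exists_lift`: `AdjoinRoot.lift`, `IsLocalization.Away.lift`.
* `exists_Dx`: the map `P ↦ iota (P_x) - iota (β F_x P_y) δ`, `δ = dlt F Δ`, is a derivation `R[x][y] → BB` along `iota`; it kills `F` (since `β F_y = Δ - α F`) and so descends to `AdjoinRoot F` and extends to the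
  localization: e.g. it corresponds to a ring homomorphism to the trivial square zero extension `TrivSqZeroExt BB BB` (or to `PowerSeries BB` modulo `h^2`), use `exists_lift` with `R[x] → …`,
  `p ↦ iota (C p) + iota (C p') ε`, `y ↦ iota X - iota (β F_x) δ ε`. The formula for `D_x(P/Δ^N)` is the quotient rule. `D_x` is `R`-linear: `Dx_const`.
-/

open Polynomial

namespace Pool.Agent.Helper79.CU

open Pool.Agent.Helper79.SE

section

variable {R : Type} [CommRing R] {F α β : R[X][X]} {Δ : R[X]}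

private theorem pow_eq_zero_iff_aux {M : Type*} [CommRing M] [IsDomain M] {x : M} {k : ℕ}
    (h : x ^ k = 0) : x = 0 := by
  by_contra hx
  exact pow_ne_zero k hx h

private theorem degree_C_mul_le_deg (a : R[X]) (P : R[X][X]) : (C a * P).degree ≤ P.degree := by
  refine degree_le_iff_coeff_zero _ _ |>.2 fun n hn => ?_
  rw [coeff_C_mul, coeff_eq_zero_of_degree_lt hn, mul_zero]

private theorem pow_eq_zero_iff_deg [IsDomain R] {k : ℕ} (h : (C Δ : R[X][X]) ^ k = 0) :
    Δ = 0 := by
  have h1 : (C Δ : R[X][X]) = 0 := pow_eq_zero_iff_aux h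
  simpa using h1

theorem iota_F : iota F Δ F = 0 := by
  simp [iota]

theorem iota_dlt : iota F Δ (C Δ) * dlt F Δ = 1 := by
  simp only [iota, dlt, RingHom.comp_apply]
  exact IsLocalization.Away.mul_invSelf (AdjoinRoot.mk F (C Δ))

theorem iota_eq_zero [IsDomain R] (hF : F.Monic) (hΔ : Δ ≠ 0) (P : R[X][X]) :
    iota F Δ P = 0 ↔ F ∣ P := by
  constructor
  · intro h
    simp only [iota, RingHom.comp_apply] at h
    obtain ⟨⟨c, k, hk⟩, hc⟩ := (IsLocalization.map_eq_zero_iff
      (Submonoid.powers (AdjoinRoot.mk F (C Δ))) (BB F Δ) _).1 h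
    change c * AdjoinRoot.mk F P = 0 at hc
    rw [← hk] at hc
    simp only at hc
    rw [← map_pow, ← map_mul, AdjoinRoot.mk_eq_zero] at hc
    have h1 : F ∣ C Δ ^ k * (P %ₘ F) := by
      have h2 : C Δ ^ k * (P %ₘ F) = C Δ ^ k * P - F * (C Δ ^ k * (P /ₘ F)) := by
        have := modByMonic_add_div P F
        linear_combination (C Δ ^ k) * this
      rw [h2]
      exact dvd_sub hc (dvd_mul_right _ _)
    have h3 : C Δ ^ k * (P %ₘ F) = 0 := by
      by_contra hne
      refine hF.not_dvd_of_degree_lt hne ?_ h1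
      rw [← C_pow]
      refine lt_of_le_of_lt (degree_C_mul_le_deg _ _) (degree_modByMonic_lt P hF)
    have h4 : P %ₘ F = 0 := by
      rcases mul_eq_zero.1 h3 with h5 | h5
      · exact absurd (pow_eq_zero_iff_deg h5) hΔ
      · exact h5
    exact (modByMonic_eq_zero_iff_dvd hF).1 h4
  · rintro ⟨Q, rfl⟩
    rw [map_mul, iota_F, zero_mul]

theorem exists_rep (hF : F.Monic) {m : ℕ} (hm : F.natDegree = m) (hm1 : 1 ≤ m) (b : BB F Δ) :
    ∃ (P : R[X][X]) (N : ℕ), P.natDegree < m ∧ b = iota F Δ P * dlt F Δ ^ N := by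
  obtain ⟨N, a, ha⟩ := IsLocalization.Away.surj (AdjoinRoot.mk F (C Δ)) b
  obtain ⟨P, rfl⟩ := AdjoinRoot.mk_surjective a
  refine ⟨P %ₘ F, N, ?_, ?_⟩
  · rw [← hm]
    refine natDegree_modByMonic_lt P hF ?_
    rintro rfl
    rw [natDegree_one] at hm
    omega
  · have h1 : iota F Δ (P %ₘ F) = iota F Δ P := by
      have h := modByMonic_add_div P F
      conv_rhs => rw [← h, map_add, map_mul, iota_F, zero_mul, add_zero]
    have h2 : b * iota F Δ (C Δ) ^ N = iota F Δ P := ha
    rw [h1, ← h2, mul_assoc, ← mul_pow, iota_dlt, one_pow, mul_one]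

theorem exists_lift {T : Type} [CommRing T] (g : R[X] →+* T) (y : T)
    (hy : (F.map g).eval y = 0) {δ : T} (hδ : g Δ * δ = 1) :
    ∃ ev : BB F Δ →+* T, (∀ P, ev (iota F Δ P) = (P.map g).eval y) ∧ ev (dlt F Δ) = δ := by
  have hy' : F.eval₂ g y = 0 := by rw [← eval_map]; exact hy
  have hu : IsUnit (AdjoinRoot.lift g y hy' (AdjoinRoot.mk F (C Δ))) := by
    rw [AdjoinRoot.lift_mk, eval₂_C]
    exact IsUnit.of_mul_eq_one _ hδ
  have h1 : ∀ P, IsLocalization.Away.lift (S := BB F Δ) (AdjoinRoot.mk F (C Δ)) hu (iota F Δ P) =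
      (P.map g).eval y := by
    intro P
    simp only [iota, RingHom.comp_apply]
    rw [IsLocalization.Away.lift_eq, AdjoinRoot.lift_mk, eval_map]
  refine ⟨IsLocalization.Away.lift (AdjoinRoot.mk F (C Δ)) hu, h1, ?_⟩
  have h2 := congrArg (IsLocalization.Away.lift (S := BB F Δ) (AdjoinRoot.mk F (C Δ)) hu)
    (iota_dlt (F := F) (Δ := Δ))
  rw [map_mul, h1, map_one, map_C, eval_C] at h2
  calc _ = (g Δ * δ) * IsLocalization.Away.lift (S := BB F Δ) (AdjoinRoot.mk F (C Δ)) hu
        (dlt F Δ) := by rw [hδ, one_mul]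
    _ = δ * (g Δ * IsLocalization.Away.lift (S := BB F Δ) (AdjoinRoot.mk F (C Δ)) hu
        (dlt F Δ)) := by ring
    _ = δ := by rw [h2, mul_one]

/-- Two ring homomorphisms from the coordinate ring agree if they agree on polynomials. -/
theorem hom_ext {T : Type} [CommRing T] {g g' : BB F Δ →+* T}
    (h : ∀ P, g (iota F Δ P) = g' (iota F Δ P)) : g = g' := by
  refine IsLocalization.ringHom_ext (Submonoid.powers (AdjoinRoot.mk F (C Δ))) ?_
  refine RingHom.ext fun a => ?_
  obtain ⟨P, rfl⟩ := AdjoinRoot.mk_surjective a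
  exact h P

private theorem map_ratCast_smul_aux {A B : Type} [CommRing A] [CommRing B] [Algebra ℚ A]
    [Algebra ℚ B] (f : A →+* B) (q : ℚ) (a : A) : f (q • a) = q • f a := by
  rw [Algebra.smul_def, map_mul, Algebra.smul_def]
  congr 1
  exact RingHom.congr_fun (RingHom.ext_rat (f.comp (algebraMap ℚ A)) (algebraMap ℚ B)) q

theorem exists_Dx [Algebra ℚ R] (bez : α * F + β * derivative F = C Δ) :
    ∃ Dx : Derivation ℚ (BB F Δ) (BB F Δ), (∀ N P, Dx (iota F Δ P * dlt F Δ ^ N) =
      iota F Δ (nx F β Δ N P) * dlt F Δ ^ (N + 1)) ∧ ∀ r : R, Dx (iota F Δ (C (C r))) = 0 := by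
  have hbz : iota F Δ β * iota F Δ (derivative F) * dlt F Δ = 1 := by
    have h := congrArg (iota F Δ) bez
    rw [map_add, map_mul, iota_F, mul_zero, zero_add, map_mul] at h
    rw [h, iota_dlt]
  -- the ring homomorphism from the coefficients
  let g : R[X] →+* DualNumber (BB F Δ) :=
    { toFun := fun p => TrivSqZeroExt.inl (iota F Δ (C p)) +
        TrivSqZeroExt.inr (iota F Δ (C (derivative p)))
      map_one' := by
        ext <;> simp
      map_mul' := fun p q => by
        ext
        · simp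
        · simp [derivative_mul]
          ring
      map_zero' := by
        ext <;> simp
      map_add' := fun p q => by
        ext <;> simp }
  let c : BB F Δ := -(iota F Δ β * iota F Δ (dc (dx R) F) * dlt F Δ)
  let y : DualNumber (BB F Δ) := TrivSqZeroExt.inl (iota F Δ X) + TrivSqZeroExt.inr c
  let δ : DualNumber (BB F Δ) := TrivSqZeroExt.inl (dlt F Δ) +
    TrivSqZeroExt.inr (-(iota F Δ (C (derivative Δ)) * dlt F Δ ^ 2))
  have hev : ∀ P : R[X][X], (P.map g).eval y = TrivSqZeroExt.inl (iota F Δ P) +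
      TrivSqZeroExt.inr (iota F Δ (dc (dx R) P) + iota F Δ (derivative P) * c) := by
    intro P
    induction P using Polynomial.induction_on' with
    | add p q hp hq =>
      rw [Polynomial.map_add, eval_add, hp, hq, map_add, dc_add, map_add, derivative_add, map_add]
      ext
      · simp
      · simp
        ring
    | monomial n a =>
      have hpow : ∀ n : ℕ, y ^ n = TrivSqZeroExt.inl (iota F Δ (X ^ n)) +
          TrivSqZeroExt.inr (iota F Δ (derivative (X ^ n)) * c) := by
        intro n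
        induction n with
        | zero => ext <;> simp
        | succ n ih =>
          rw [pow_succ, ih]
          ext
          · simp [y, pow_succ]
          · simp [y, pow_succ, derivative_mul]
            ring
      rw [Polynomial.map_monomial, eval_monomial, hpow, dc_monomial, ← C_mul_X_pow_eq_monomial,
        ← C_mul_X_pow_eq_monomial, derivative_mul, derivative_C, zero_mul, zero_add]
      have hdx : dx R a = derivative a := rfl
      rw [hdx]
      ext
      · simp [g]
      · simp [g]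
        ring
  have hy : (F.map g).eval y = 0 := by
    rw [hev, iota_F]
    ext
    · simp
    · simp only [c, TrivSqZeroExt.inl_zero, zero_add, TrivSqZeroExt.snd_inr,
        TrivSqZeroExt.snd_zero]
      linear_combination (-(iota F Δ (dc (dx R) F))) * hbz
  have hδ : g Δ * δ = 1 := by
    have h := iota_dlt (F := F) (Δ := Δ)
    ext
    · simp [g, δ, h]
    · simp [g, δ]
      linear_combination (-(iota F Δ (C (derivative Δ)) * dlt F Δ)) * h
  obtain ⟨ev, hev1, hev2⟩ := exists_lift g y hy hδ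
  let fstR : DualNumber (BB F Δ) →+* BB F Δ :=
    { toFun := TrivSqZeroExt.fst
      map_one' := rfl
      map_mul' := fun _ _ => rfl
      map_zero' := rfl
      map_add' := fun _ _ => rfl }
  have hfst : fstR.comp ev = RingHom.id _ := by
    refine hom_ext fun P => ?_
    change (ev (iota F Δ P)).fst = _
    rw [hev1, hev]
    simp
  have hfst' : ∀ b, (ev b).fst = b := fun b => RingHom.congr_fun hfst b
  let Dx : Derivation ℚ (BB F Δ) (BB F Δ) := Derivation.mk'
    { toFun := fun b => (ev b).snd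
      map_add' := fun a b => by rw [map_add, TrivSqZeroExt.snd_add]
      map_smul' := fun q b => by
        rw [RingHom.id_apply, map_ratCast_smul_aux ev q b, TrivSqZeroExt.snd_smul] }
    (fun a b => by
      change (ev (a * b)).snd = a • (ev b).snd + b • (ev a).snd
      rw [map_mul, TrivSqZeroExt.snd_mul, hfst', hfst']
      simp [mul_comm])
  have hD : ∀ b, Dx b = (ev b).snd := fun _ => rfl
  have hDi : ∀ P, Dx (iota F Δ P) = iota F Δ (dc (dx R) P) + iota F Δ (derivative P) * c := by
    intro P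
    rw [hD, hev1, hev]
    simp
  have hDd : Dx (dlt F Δ) = -(iota F Δ (C (derivative Δ)) * dlt F Δ ^ 2) := by
    rw [hD, hev2]
    simp [δ]
  refine ⟨Dx, fun N P => ?_, fun r => ?_⟩
  · rw [Derivation.leibniz, Derivation.leibniz_pow, hDi, hDd, nx]
    simp only [map_sub, map_mul, map_natCast, smul_eq_mul, nsmul_eq_mul, c]
    have h := iota_dlt (F := F) (Δ := Δ)
    have hdx : dx R Δ = derivative Δ := rfl
    rw [hdx]
    rcases N with _ | N
    · simp
      linear_combination (-(iota F Δ (dc (dx R) P))) * h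
    · simp only [Nat.add_sub_cancel, pow_succ]
      linear_combination (-(iota F Δ (dc (dx R) P)) * dlt F Δ ^ N * dlt F Δ) * h
  · rw [hDi]
    have h1 : dc (dx R) (C (C r) : R[X][X]) = 0 := by
      have h2 := dc_monomial (D := dx R) 0 (C r)
      rw [monomial_zero_left] at h2
      rw [h2]
      have h3 : dx R (C r) = derivative (C r) := rfl
      rw [h3, derivative_C, map_zero]
    rw [h1]
    simp

theorem exact_iff [IsDomain R] [Algebra ℚ R] (hF : F.Monic) {m : ℕ} (hm : F.natDegree = m)
    (hm1 : 1 ≤ m) (hΔ : Δ ≠ 0) {Dx : Derivation ℚ (BB F Δ) (BB F Δ)}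
    (hDx : ∀ N P, Dx (iota F Δ P * dlt F Δ ^ N) = iota F Δ (nx F β Δ N P) * dlt F Δ ^ (N + 1))
    (N : ℕ) (P : R[X][X]) :
    Exact F β Δ N P ↔ ∃ g : BB F Δ, iota F Δ P * dlt F Δ ^ N = Dx g := by
  have h := iota_dlt (F := F) (Δ := Δ)
  have key : ∀ (G : R[X][X]) (M : ℕ), F ∣ C Δ ^ (M + 1) * P - C Δ ^ N * nx F β Δ M G ↔
      iota F Δ P * dlt F Δ ^ N = iota F Δ (nx F β Δ M G) * dlt F Δ ^ (M + 1) := by
    intro G M
    rw [← iota_eq_zero hF hΔ, map_sub, map_mul, map_mul, map_pow, map_pow, sub_eq_zero]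
    have e1 : iota F Δ (C Δ) ^ N * dlt F Δ ^ N = 1 := by rw [← mul_pow, h, one_pow]
    have e2 : iota F Δ (C Δ) ^ (M + 1) * dlt F Δ ^ (M + 1) = 1 := by rw [← mul_pow, h, one_pow]
    constructor
    · intro hh
      have h3 := congrArg (fun z => z * (dlt F Δ ^ N * dlt F Δ ^ (M + 1))) hh
      beta_reduce at h3
      linear_combination h3 - (iota F Δ P * dlt F Δ ^ N) * e2 +
        (iota F Δ (nx F β Δ M G) * dlt F Δ ^ (M + 1)) * e1
    · intro hh
      have h3 := congrArg (fun z => z * (iota F Δ (C Δ) ^ N * iota F Δ (C Δ) ^ (M + 1))) hh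
      beta_reduce at h3
      linear_combination h3 - (iota F Δ P * iota F Δ (C Δ) ^ (M + 1)) * e1 +
        (iota F Δ (nx F β Δ M G) * iota F Δ (C Δ) ^ N) * e2
  constructor
  · rintro ⟨G, M, hG⟩
    exact ⟨iota F Δ G * dlt F Δ ^ M, by rw [hDx, (key G M).1 hG]⟩
  · rintro ⟨g, hg⟩
    obtain ⟨G, M, -, rfl⟩ := exists_rep hF hm hm1 g
    exact ⟨G, M, (key G M).2 (by rw [hg, hDx])⟩

end

end Pool.Agent.Helper79.CU
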