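import Pool.Agent.Helper79.CU.PlEv
import Pool.Agent.Helper79.CU.Loc

/-!
# CU-09: removing the poles at one place

For `b ∈ FB.I N` put `v_a = ev a b * ld x₀`: `LG S E (s N + s + 1)` (`place_LG`, `LG_ld`), `v_(σ a),n = ζ^(n+1) v_a,n` (`place_tw`; the coefficient `n` of `ld x₀` is `(n+1) x₀,(n+1)` and `ζ^(n+1) x₀,(n+1) = x₀,(n+1)` by `hx`). Apply
`loc` with `s N + s + 1`: `q`, `p`. Let `g = ∑_l (p_l)(W) y^l ∈ BB`; `ev a ((p_l)(W)) = evL (xinf R e) (p_l)` by `hW`, so `ev a g = ∑_l evL (xinf R e) (p_l) y_a^l`, and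
`ev a (q b - Dx g) * ld x₀ = q v_a - ld (ev a g)` (`place_ld`).
-/

open Polynomial

namespace Pool.Agent.Helper79.CU

open Pool.Agent.Helper79.SE

/-- The value `p(W)` of a polynomial over `R` in the coordinate ring. -/
noncomputable def atW {R : Type} [CommRing R] {F : R[X][X]} {Δ : R[X]} (W : BB F Δ) (p : R[X]) :
    BB F Δ :=
  p.eval₂ ((iota F Δ).comp ((C : R[X] →+* R[X][X]).comp (C : R →+* R[X]))) W

theorem step_atW {R : Type} [CommRing R] {F : R[X][X]} {Δ : R[X]} {m e : ℕ}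
    {x₀ : LaurentSeries R} {y : Fin m → LaurentSeries R}
    {ev : Fin m → (BB F Δ →+* LaurentSeries R)}
    (hev : ∀ a P, ev a (iota F Δ P) = (P.map (evL x₀)).eval (y a))
    {W : BB F Δ} (hW : ∀ a, ev a W = xinf R e) (a : Fin m) (p : R[X]) :
    ev a (atW W p) = evL (xinf R e) p := by
  rw [atW, Polynomial.hom_eval₂, hW, evL, Polynomial.coe_eval₂RingHom]
  congr 1
  ext1 r
  simp only [RingHom.comp_apply]
  rw [hev, Polynomial.map_C, Polynomial.eval_C, evL_C]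

theorem step_tw {R : Type} [CommRing R] {ζ : Rˣ} {x₀ f f' : LaurentSeries R}
    (hx : Tw ζ x₀ x₀) (hf : Tw ζ f f') (n : ℤ) :
    (f' * ld x₀).coeff n = ((ζ ^ (n + 1) : Rˣ) : R) * (f * ld x₀).coeff n := by
  obtain ⟨g', hg'⟩ := Tw_exists ζ (ld x₀)
  have h1 : ld x₀ = HahnSeries.C (ζ : R) * g' := by
    ext k
    rw [HahnSeries.C_mul_eq_smul, HahnSeries.coeff_smul, smul_eq_mul, hg' k, coeff_ld]
    have h2 := hx (k + 1)
    have h3 : (ζ : R) * ((ζ ^ k : Rˣ) : R) = ((ζ ^ (k + 1) : Rˣ) : R) := by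
      rw [← Units.val_mul, add_comm k 1, zpow_add, zpow_one]
    calc ((k + 1 : ℤ) : R) * x₀.coeff (k + 1)
        = ((k + 1 : ℤ) : R) * (((ζ ^ (k + 1) : Rˣ) : R) * x₀.coeff (k + 1)) := by rw [← h2]
      _ = (ζ : R) * (((ζ ^ k : Rˣ) : R) * (((k + 1 : ℤ) : R) * x₀.coeff (k + 1))) := by
        rw [← h3]
        ring
  have h4 : Tw ζ (f * ld x₀) (f' * g') := Tw_mul hf hg'
  have h5 : f' * ld x₀ = HahnSeries.C (ζ : R) * (f' * g') := by
    rw [h1]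
    ring
  rw [h5, HahnSeries.C_mul_eq_smul, HahnSeries.coeff_smul, smul_eq_mul, h4 n, ← mul_assoc,
    ← Units.val_mul, add_comm n 1, zpow_add, zpow_one]

theorem step {R : Type} [CommRing R] [IsDomain R] [Algebra ℚ R] {S : MFilt R}
    {F α β : R[X][X]} {Δ : R[X]} {m e E s : ℕ} (hE : 1 ≤ E) (hs : 1 ≤ s) (hF : F.Monic)
    (hm : F.natDegree = m) (hm1 : 1 ≤ m) (bez : α * F + β * derivative F = C Δ) {ζ : Rˣ}
    (he : 1 ≤ e) (hζ : IsPrimitiveRoot ζ e) {x₀ : LaurentSeries R}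
    {y : Fin m → LaurentSeries R} {Yi : Matrix (Fin m) (Fin m) (LaurentSeries R)}
    {δ : LaurentSeries R} (h : Place S F Δ m E s ζ x₀ y Yi δ) (hx : Tw ζ x₀ x₀)
    {ev : Fin m → (BB F Δ →+* LaurentSeries R)}
    (hev : ∀ a P, ev a (iota F Δ P) = (P.map (evL x₀)).eval (y a))
    (hev' : ∀ a, ev a (dlt F Δ) = δ) {Dx : Derivation ℚ (BB F Δ) (BB F Δ)}
    (hDx : ∀ N P, Dx (iota F Δ P * dlt F Δ ^ N) = iota F Δ (nx F β Δ N P) * dlt F Δ ^ (N + 1))
    {W : BB F Δ} (hW : ∀ a, ev a W = xinf R e) :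
    ∃ H c : ℕ, ∀ N : ℕ, ∃ q : ℕ, 0 < q ∧ q ≤ H ^ (N + 1) ∧ ∀ b ∈ (FB S F Δ).I N,
      ∃ p : Fin m → R[X], (∀ l, (p l).natDegree ≤ c * (N + 1) ∧
        ∀ j, (p l).coeff j ∈ S.I (c * (N + 1))) ∧
        ∀ a (n : ℤ), n < -((m * s + 1 : ℕ) : ℤ) →
          (ev a ((q : BB F Δ) * b - Dx (∑ l : Fin m, atW W (p l) * iota F Δ X ^ (l : ℕ))) *
            ld x₀).coeff n = 0 := by
  obtain ⟨σ, hσ⟩ := h.perm
  obtain ⟨H0, hH0⟩ := loc (S := S) he hζ hσ h.inv h.hy h.hYi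
  refine ⟨(H0 + 1) ^ (s + 2), 2 * E * (2 * s + 1), fun N => ?_⟩
  obtain ⟨q, hq0, hq1, hq2⟩ := hH0 (s * N + (s + 1))
  refine ⟨q, hq0, ?_, fun b hb => ?_⟩
  · refine hq1.trans ?_
    rw [← pow_mul]
    refine (Nat.pow_le_pow_left (Nat.le_succ H0) _).trans
      (Nat.pow_le_pow_right (Nat.succ_pos H0) ?_)
    nlinarith [Nat.zero_le N, Nat.zero_le s]
  · obtain ⟨p, hp1, hp2⟩ := hq2 (fun a => ev a b * ld x₀)
      (fun a => LG_mul (place_LG hE hs h hev hev' a hb) (LG_ld h.hx))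
      (fun a n => step_tw hx (place_tw hF hm hm1 h hx hσ hev hev' a b) n)
    have hc1 : s * N + (s + 1) + s ≤ (2 * s + 1) * (N + 1) := by
      nlinarith [Nat.zero_le N, Nat.zero_le s]
    refine ⟨p, fun l => ⟨?_, fun j => ?_⟩, fun a n hn => ?_⟩
    · refine (hp1 l).1.trans (hc1.trans ?_)
      have h3 : 1 * ((2 * s + 1) * (N + 1)) ≤ 2 * E * ((2 * s + 1) * (N + 1)) :=
        Nat.mul_le_mul_right _ (by omega)
      calc (2 * s + 1) * (N + 1) = 1 * ((2 * s + 1) * (N + 1)) := by ring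
        _ ≤ 2 * E * ((2 * s + 1) * (N + 1)) := h3
        _ = 2 * E * (2 * s + 1) * (N + 1) := by ring
    · refine S.mono ?_ ((hp1 l).2 j)
      calc 2 * E * (s * N + (s + 1) + s) ≤ 2 * E * ((2 * s + 1) * (N + 1)) :=
            Nat.mul_le_mul_left _ hc1
        _ = 2 * E * (2 * s + 1) * (N + 1) := by ring
    · have h1 : ev a (∑ l : Fin m, atW W (p l) * iota F Δ X ^ (l : ℕ)) =
          ∑ l : Fin m, evL (xinf R e) (p l) * y a ^ (l : ℕ) := by
        rw [map_sum]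
        refine Finset.sum_congr rfl fun l _ => ?_
        rw [map_mul, map_pow, step_atW hev hW, hev, Polynomial.map_X, Polynomial.eval_X]
      have h2 := place_ld hF hm hm1 bez h hev hev' hDx a
        (∑ l : Fin m, atW W (p l) * iota F Δ X ^ (l : ℕ))
      have h3 : ev a ((q : BB F Δ) * b - Dx (∑ l : Fin m, atW W (p l) * iota F Δ X ^ (l : ℕ))) *
            ld x₀ = (q : LaurentSeries R) * (ev a b * ld x₀) -
            ld (∑ l : Fin m, evL (xinf R e) (p l) * y a ^ (l : ℕ)) := by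
        rw [map_sub, sub_mul, ← h2, h1, map_mul, map_natCast]
        ring
      rw [h3]
      exact hp2 a n hn

end Pool.Agent.Helper79.CU
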