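import Pool.Agent.Helper79.CU.Ring
import Pool.Agent.Helper79.CU.Fil

/-!
# CU-05: the filtration of the coordinate ring

* `FB_struct`: a generator is `iota (C (C r)) x^i y^j δ^k` with `r ∈ S.I l`, `l + i + j + k ≤ N`, i.e. `iota (C (C r * X^i * Δ^(N-k)) * X^j) δ^N`. Reduce `X^j` modulo `F`: by induction on `j`, `X^j %ₘ F` has degree in `x`
  and denominators at most linear in `j` (`X^(j+1) %ₘ F = X (X^j %ₘ F) - (leading coefficient) F`, roughly). `Δ^(N-k)` has degree at most `(N-k) deg Δ` and coefficients in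
  `S.I ((N-k) e)`. The set of `b` with the property (fixed `N`) is an additive subgroup.
* `FB_Dx`: `Dx` kills constants, `Dx x = 1`, `Dx y = -β F_x δ`, `Dx δ = -Δ' δ²` are in a fixed step; Leibniz rule for a product of at most `N` generators.
-/

open Polynomial

namespace Pool.Agent.Helper79.CU

open Pool.Agent.Helper79.SE

section

variable {R : Type} [CommRing R]

/-- The filtration of the coordinate ring generated by that of `R` and by `x`, `y`, `1/Δ`. -/
noncomputable def FB (S : MFilt R) (F : R[X][X]) (Δ : R[X]) : MFilt (BB F Δ) :=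
  genM S ((iota F Δ).comp ((C : R[X] →+* R[X][X]).comp (C : R →+* R[X])))
    {iota F Δ (C X), iota F Δ X, dlt F Δ}

variable {S : MFilt R} {F α β : R[X][X]} {Δ : R[X]}

private theorem FB_C {r : R} {i : ℕ} (h : r ∈ S.I i) : iota F Δ (C (C r)) ∈ (FB S F Δ).I i :=
  genM_base S ((iota F Δ).comp ((C : R[X] →+* R[X][X]).comp (C : R →+* R[X])))
    {iota F Δ (C X), iota F Δ X, dlt F Δ} h

private theorem FB_x (j : ℕ) : iota F Δ (C X) ^ j ∈ (FB S F Δ).I j := by
  have h : iota F Δ (C X) ∈ (FB S F Δ).I 1 :=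
    genM_gen S _ {iota F Δ (C X), iota F Δ X, dlt F Δ} (by simp)
  have h2 := (FB S F Δ).pow h j
  rwa [mul_one] at h2

private theorem FB_y (j : ℕ) : iota F Δ X ^ j ∈ (FB S F Δ).I j := by
  have h : iota F Δ X ∈ (FB S F Δ).I 1 :=
    genM_gen S _ {iota F Δ (C X), iota F Δ X, dlt F Δ} (by simp)
  have h2 := (FB S F Δ).pow h j
  rwa [mul_one] at h2

private theorem cmul {u v : ℕ} {p q : R[X]} (hp : ∀ j, p.coeff j ∈ S.I u)
    (hq : ∀ j, q.coeff j ∈ S.I v) (j : ℕ) : (p * q).coeff j ∈ S.I (u + v) := by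
  rw [coeff_mul]
  exact (S.I (u + v)).sum_mem fun x _ => S.mul (hp _) (hq _)

private theorem cpow {u : ℕ} {p : R[X]} (hp : ∀ j, p.coeff j ∈ S.I u) (k : ℕ) :
    ∀ j, (p ^ k).coeff j ∈ S.I (k * u) := by
  induction k with
  | zero =>
    intro j
    rw [pow_zero, zero_mul, coeff_one]
    split_ifs
    · exact S.one
    · exact (S.I 0).zero_mem
  | succ k ih =>
    intro j
    rw [pow_succ, Nat.succ_mul]
    exact cmul ih hp j

private theorem red (hF : F.Monic) {m : ℕ} (hm : F.natDegree = m) (hm1 : 1 ≤ m) {e JF : ℕ}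
    (hFe : ∀ l j, (F.coeff l).coeff j ∈ S.I e) (hJF : ∀ l, (F.coeff l).natDegree ≤ JF) :
    ∀ (n J c : ℕ) (P : R[X][X]), P.natDegree < m + n →
      (∀ l, (P.coeff l).natDegree ≤ J ∧ ∀ j, (P.coeff l).coeff j ∈ S.I c) →
      ∃ P', Bd S m (J + n * JF) (c + n * e) P' ∧ F ∣ P - P' := by
  intro n
  induction n with
  | zero =>
    intro J c P h1 h2
    refine ⟨P, ⟨by simpa using h1, ?_⟩, by simp⟩
    simpa using h2
  | succ n ih =>
    intro J c P h1 h2
    set a := P.coeff (m + n) with ha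
    set P1 := P - C a * X ^ n * F with hP1
    have hco : ∀ l, P1.coeff l = P.coeff l - (if n ≤ l then a * F.coeff (l - n) else 0) := by
      intro l
      rw [hP1, coeff_sub]
      have : (C a * X ^ n * F).coeff l = if n ≤ l then a * F.coeff (l - n) else 0 := by
        rw [mul_assoc, coeff_C_mul, coeff_X_pow_mul']
        split_ifs <;> simp
      rw [this]
    have hz : ∀ l, m + n ≤ l → P1.coeff l = 0 := by
      intro l hl
      rw [hco, if_pos (by omega)]
      rcases Nat.eq_or_lt_of_le hl with h | h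
      · subst h
        have h3 : m + n - n = F.natDegree := by omega
        rw [h3, hF.coeff_natDegree, mul_one, ← ha, sub_self]
      · rw [coeff_eq_zero_of_natDegree_lt (by omega : P.natDegree < l),
          coeff_eq_zero_of_natDegree_lt (by omega : F.natDegree < l - n)]
        simp
    have hdeg : P1.natDegree < m + n := by
      by_contra hcon
      push Not at hcon
      have h3 := hz _ hcon
      have h4 : P1 = 0 := by
        rw [← leadingCoeff_eq_zero]
        exact h3
      rw [h4, natDegree_zero] at hcon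
      omega
    have hb : ∀ l, (P1.coeff l).natDegree ≤ J + JF ∧ ∀ j, (P1.coeff l).coeff j ∈ S.I (c + e) := by
      intro l
      rw [hco]
      split_ifs with hl
      · constructor
        · refine (natDegree_sub_le _ _).trans (max_le ((h2 l).1.trans (by omega)) ?_)
          exact natDegree_mul_le.trans (add_le_add (h2 _).1 (hJF _))
        · intro j
          rw [coeff_sub]
          exact (S.I (c + e)).sub_mem (S.mono (by omega) ((h2 l).2 j))
            (cmul (h2 (m + n)).2 (hFe _) j)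
      · rw [sub_zero]
        exact ⟨(h2 l).1.trans (by omega), fun j => S.mono (by omega) ((h2 l).2 j)⟩
    obtain ⟨P', h5, h6⟩ := ih (J + JF) (c + e) P1 hdeg hb
    refine ⟨P', ?_, ?_⟩
    · have e1 : J + JF + n * JF = J + (n + 1) * JF := by ring
      have e2 : c + e + n * e = c + (n + 1) * e := by ring
      rw [e1, e2] at h5
      exact h5
    · have h7 : P - P' = (P1 - P') + C a * X ^ n * F := by rw [hP1]; ring
      rw [h7]
      exact dvd_add h6 (dvd_mul_left _ _)

private theorem gen_list (l : List (BB F Δ))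
    (hl : ∀ s ∈ l, s ∈ ({iota F Δ (C X), iota F Δ X, dlt F Δ} : Set (BB F Δ))) :
    ∃ a b k : ℕ, a + b + k = l.length ∧
      l.prod = iota F Δ (C X) ^ a * iota F Δ X ^ b * dlt F Δ ^ k := by
  induction l with
  | nil => exact ⟨0, 0, 0, by simp, by simp⟩
  | cons s l ih =>
    obtain ⟨a, b, k, h1, h2⟩ := ih (fun s hs => hl s (by simp [hs]))
    have h3 := hl s (by simp)
    simp only [Set.mem_insert_iff, Set.mem_singleton_iff] at h3
    rcases h3 with h3 | h3 | h3
    · refine ⟨a + 1, b, k, by simp; omega, ?_⟩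
      rw [List.prod_cons, h2, h3]; ring
    · refine ⟨a, b + 1, k, by simp; omega, ?_⟩
      rw [List.prod_cons, h2, h3]; ring
    · refine ⟨a, b, k + 1, by simp; omega, ?_⟩
      rw [List.prod_cons, h2, h3]; ring

theorem FB_mem {m J c : ℕ} {P : R[X][X]} (hP : Bd S m J c P) :
    iota F Δ P ∈ (FB S F Δ).I (c + J + m) := by
  have h1 := as_sum_range' P m hP.1
  rw [h1, map_sum]
  refine AddSubgroup.sum_mem _ fun l hl => ?_
  have hl' := Finset.mem_range.mp hl
  have h2 := as_sum_range' (P.coeff l) (J + 1) (Nat.lt_succ_of_le (hP.2 l).1)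
  rw [← C_mul_X_pow_eq_monomial, map_mul, map_pow]
  have h3 : iota F Δ (C (P.coeff l)) ∈ (FB S F Δ).I (c + J) := by
    rw [h2, map_sum, map_sum]
    refine AddSubgroup.sum_mem _ fun j hj => ?_
    have hj' := Finset.mem_range.mp hj
    rw [← C_mul_X_pow_eq_monomial, map_mul, map_mul, map_pow, map_pow]
    exact (FB S F Δ).mono (by omega) ((FB S F Δ).mul (FB_C ((hP.2 l).2 j)) (FB_x j))
  exact (FB S F Δ).mono (by omega) ((FB S F Δ).mul h3 (FB_y l))

theorem FB_dlt (N : ℕ) : dlt F Δ ^ N ∈ (FB S F Δ).I N := by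
  have h : dlt F Δ ∈ (FB S F Δ).I 1 :=
    genM_gen S _ {iota F Δ (C X), iota F Δ X, dlt F Δ} (by simp)
  have h2 := (FB S F Δ).pow h N
  rwa [mul_one] at h2

theorem FB_struct (hF : F.Monic) {m : ℕ} (hm : F.natDegree = m) (hm1 : 1 ≤ m) {e : ℕ}
    (hFe : ∀ l j, (F.coeff l).coeff j ∈ S.I e) (hΔe : ∀ j, Δ.coeff j ∈ S.I e) :
    ∃ c : ℕ, ∀ N b, b ∈ (FB S F Δ).I N → ∃ P, Bd S m (c * (N + 1)) (c * (N + 1)) P ∧
      b = iota F Δ P * dlt F Δ ^ N := by
  set JF := ∑ l ∈ Finset.range (m + 1), (F.coeff l).natDegree with hJFd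
  have hJF : ∀ l, (F.coeff l).natDegree ≤ JF := by
    intro l
    by_cases hl : l < m + 1
    · exact Finset.single_le_sum (f := fun l => (F.coeff l).natDegree) (fun _ _ => Nat.zero_le _)
        (Finset.mem_range.mpr hl)
    · rw [coeff_eq_zero_of_natDegree_lt (by omega : F.natDegree < l), natDegree_zero]
      exact Nat.zero_le _
  set D := Δ.natDegree with hD
  refine ⟨1 + D + JF + 2 * e, fun N b hb => ?_⟩
  set K := 1 + D + JF + 2 * e with hK
  change b ∈ AddSubgroup.closure _ at hb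
  induction hb using AddSubgroup.closure_induction with
  | mem b hb =>
    obtain ⟨i, r, l, h1, h2, h3, rfl⟩ := hb
    obtain ⟨x, y, k, h4, h5⟩ := gen_list l h2
    set q : R[X] := C r * X ^ x * Δ ^ (N - k) with hq
    have hqd : q.natDegree ≤ x + (N - k) * D := by
      rw [hq]
      refine natDegree_mul_le.trans (add_le_add ?_ natDegree_pow_le)
      exact (natDegree_C_mul_X_pow_le r x)
    have hqc : ∀ j, q.coeff j ∈ S.I (i + (N - k) * e) := by
      intro j
      rw [hq]
      refine cmul ?_ (cpow hΔe _) j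
      intro j
      rw [coeff_C_mul_X_pow]
      split_ifs
      · exact h1
      · exact (S.I i).zero_mem
    have hP0 : ∀ l, ((C q * X ^ y : R[X][X]).coeff l).natDegree ≤ x + (N - k) * D ∧
        ∀ j, ((C q * X ^ y : R[X][X]).coeff l).coeff j ∈ S.I (i + (N - k) * e) := by
      intro l
      rw [coeff_C_mul_X_pow]
      split_ifs
      · exact ⟨hqd, hqc⟩
      · exact ⟨by simp, fun j => by simpa using (S.I _).zero_mem⟩
    have hP0d : (C q * X ^ y : R[X][X]).natDegree < m + y :=
      lt_of_le_of_lt (natDegree_C_mul_X_pow_le q y) (by omega)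
    obtain ⟨P', h6, h7⟩ := red hF hm hm1 hFe hJF y _ _ _ hP0d hP0
    refine ⟨P', ⟨h6.1, fun l => ⟨(h6.2 l).1.trans ?_, fun j => S.mono ?_ ((h6.2 l).2 j)⟩⟩, ?_⟩
    · have a1 : x ≤ N := by omega
      have a2 : (N - k) * D ≤ N * D := Nat.mul_le_mul_right _ (by omega)
      have a3 : y * JF ≤ N * JF := Nat.mul_le_mul_right _ (by omega)
      rw [hK]
      nlinarith
    · have a1 : i ≤ N := by omega
      have a2 : (N - k) * e ≤ N * e := Nat.mul_le_mul_right _ (by omega)
      have a3 : y * e ≤ N * e := Nat.mul_le_mul_right _ (by omega)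
      rw [hK]
      nlinarith
    · have h8 : iota F Δ (C q * X ^ y) = iota F Δ P' := by
        obtain ⟨Q, hQ⟩ := h7
        have h9 : iota F Δ (C q * X ^ y - P') = 0 := by
          rw [hQ, map_mul, iota_F, zero_mul]
        rw [map_sub, sub_eq_zero] at h9
        exact h9
      rw [← h8, h5, map_mul, map_pow, hq, map_mul, map_mul, map_mul, map_mul, map_pow, map_pow,
        map_pow, map_pow]
      have h10 : dlt F Δ ^ N = dlt F Δ ^ (N - k) * dlt F Δ ^ k := by
        rw [← pow_add]
        congr 1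
        omega
      have h11 : iota F Δ (C Δ) ^ (N - k) * dlt F Δ ^ (N - k) = 1 := by
        rw [← mul_pow, iota_dlt, one_pow]
      rw [h10]
      change iota F Δ (C (C r)) * _ = _
      calc iota F Δ (C (C r)) * (iota F Δ (C X) ^ x * iota F Δ X ^ y * dlt F Δ ^ k)
          = iota F Δ (C (C r)) * iota F Δ (C X) ^ x * iota F Δ X ^ y * dlt F Δ ^ k * 1 := by ring
        _ = _ := by rw [← h11]; ring
  | zero =>
    refine ⟨0, ⟨by rw [natDegree_zero]; omega, fun l => ⟨by simp, fun j => ?_⟩⟩, by simp⟩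
    simpa using (S.I _).zero_mem
  | add b1 b2 _ _ h1 h2 =>
    obtain ⟨P1, ⟨a1, a2⟩, a3⟩ := h1
    obtain ⟨P2, ⟨b1', b2'⟩, b3⟩ := h2
    refine ⟨P1 + P2, ⟨lt_of_le_of_lt (natDegree_add_le _ _) (max_lt a1 b1'),
      fun l => ⟨?_, fun j => ?_⟩⟩, ?_⟩
    · rw [coeff_add]
      exact (natDegree_add_le _ _).trans (max_le (a2 l).1 (b2' l).1)
    · rw [coeff_add, coeff_add]
      exact (S.I _).add_mem ((a2 l).2 j) ((b2' l).2 j)
    · rw [a3, b3, map_add, add_mul]
  | neg b _ h1 =>
    obtain ⟨P1, ⟨a1, a2⟩, a3⟩ := h1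
    refine ⟨-P1, ⟨by rwa [natDegree_neg], fun l => ⟨?_, fun j => ?_⟩⟩, ?_⟩
    · rw [coeff_neg, natDegree_neg]
      exact (a2 l).1
    · rw [coeff_neg, coeff_neg]
      exact (S.I _).neg_mem ((a2 l).2 j)
    · rw [a3, map_neg, neg_mul]

theorem FB_Dx [Algebra ℚ R] {e : ℕ} (hFe : ∀ l j, (F.coeff l).coeff j ∈ S.I e)
    (hβe : ∀ l j, (β.coeff l).coeff j ∈ S.I e) (hΔe : ∀ j, Δ.coeff j ∈ S.I e)
    {Dx : Derivation ℚ (BB F Δ) (BB F Δ)}
    (hDx : ∀ N P, Dx (iota F Δ P * dlt F Δ ^ N) = iota F Δ (nx F β Δ N P) * dlt F Δ ^ (N + 1)) :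
    ∃ c : ℕ, ∀ N b, b ∈ (FB S F Δ).I N → Dx b ∈ (FB S F Δ).I (N + c) := by
  -- elements of a fixed step
  have key : ∀ (P : R[X][X]) (u : ℕ), (∀ l j, (P.coeff l).coeff j ∈ S.I u) →
      ∃ c, iota F Δ P ∈ (FB S F Δ).I c := by
    intro P u hP
    set J := ∑ l ∈ Finset.range (P.natDegree + 1), (P.coeff l).natDegree with hJd
    refine ⟨u + J + (P.natDegree + 1), FB_mem ⟨Nat.lt_succ_self _, fun l => ⟨?_, hP l⟩⟩⟩
    by_cases hl : l < P.natDegree + 1
    · exact Finset.single_le_sum (f := fun l => (P.coeff l).natDegree) (fun _ _ => Nat.zero_le _)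
        (Finset.mem_range.mpr hl)
    · rw [coeff_eq_zero_of_natDegree_lt (by omega : P.natDegree < l), natDegree_zero]
      exact Nat.zero_le _
  have hder : ∀ (p : R[X]) (u : ℕ), (∀ j, p.coeff j ∈ S.I u) →
      ∀ j, (derivative p).coeff j ∈ S.I u := by
    intro p u hp j
    rw [coeff_derivative]
    have h := (S.I u).nsmul_mem (hp (j + 1)) (j + 1)
    rw [nsmul_eq_mul, mul_comm] at h
    push_cast at h
    exact h
  have hdxC : ∀ p : R[X], dx R p = derivative p := fun p => rfl
  have hdcF : ∀ l j, ((dc (dx R) F).coeff l).coeff j ∈ S.I e := by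
    intro l j
    rw [coeff_dc, hdxC]
    exact hder _ _ (hFe l) j
  have hβF : ∀ l j, ((β * dc (dx R) F).coeff l).coeff j ∈ S.I (e + e) := by
    intro l j
    rw [coeff_mul, finsetSum_coeff]
    exact (S.I (e + e)).sum_mem fun x _ => cmul (hβe _) (hdcF _) j
  have hdcC : ∀ p : R[X], dc (dx R) (C p) = C (derivative p) := by
    intro p
    ext1 n
    rw [coeff_dc, coeff_C, coeff_C]
    split_ifs
    · rfl
    · simp
  obtain ⟨c1, hc1⟩ := key _ _ hβF
  obtain ⟨c2, hc2⟩ := key (C (derivative Δ)) e (by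
    intro l j
    rw [coeff_C]
    split_ifs
    · exact hder _ _ hΔe j
    · simpa using (S.I e).zero_mem)
  have hC : ∀ r : R, Dx (iota F Δ (C (C r))) = 0 := by
    intro r
    have h := hDx 0 (C (C r))
    rw [pow_zero, mul_one] at h
    rw [h]
    unfold nx
    rw [hdcC, derivative_C, derivative_C]
    simp
  have hx : Dx (iota F Δ (C X)) = 1 := by
    have h := hDx 0 (C X)
    rw [pow_zero, mul_one] at h
    rw [h]
    unfold nx
    rw [hdcC, derivative_X, derivative_C]
    have h2 : C Δ * C 1 - β * dc (dx R) F * 0 - ((0 : ℕ) : R[X][X]) * C (dx R Δ) * C X = C Δ := by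
      simp
    rw [h2, zero_add, pow_one]
    exact iota_dlt
  have hy : Dx (iota F Δ X) = -(iota F Δ (β * dc (dx R) F) * dlt F Δ) := by
    have h := hDx 0 X
    rw [pow_zero, mul_one] at h
    rw [h]
    unfold nx
    have h3 : dc (dx R) (X : R[X][X]) = 0 := by
      ext1 n
      rw [coeff_dc, coeff_X, coeff_zero]
      split_ifs
      · rw [hdxC, derivative_one]
      · simp
    rw [h3, derivative_X]
    have h2 : C Δ * 0 - β * dc (dx R) F * 1 - ((0 : ℕ) : R[X][X]) * C (dx R Δ) * X =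
        -(β * dc (dx R) F) := by
      simp
    rw [h2, map_neg, zero_add, pow_one, neg_mul]
  have hd : Dx (dlt F Δ) = -(iota F Δ (C (derivative Δ)) * dlt F Δ ^ 2) := by
    have h := hDx 1 1
    rw [pow_one, map_one, one_mul] at h
    rw [h]
    unfold nx
    have h3 : dc (dx R) (1 : R[X][X]) = 0 := by
      have h4 := hdcC 1
      rw [map_one, derivative_one, map_zero] at h4
      exact h4
    rw [h3, derivative_one]
    have h2 : C Δ * 0 - β * dc (dx R) F * 0 - ((1 : ℕ) : R[X][X]) * C (dx R Δ) * 1 =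
        -(C (derivative Δ)) := by
      rw [hdxC]
      simp
    rw [h2, map_neg, neg_mul]
  refine ⟨c1 + c2 + 2, fun N b hb => ?_⟩
  have hgen : ∀ s ∈ ({iota F Δ (C X), iota F Δ X, dlt F Δ} : Set (BB F Δ)),
      Dx s ∈ (FB S F Δ).I (c1 + c2 + 2) := by
    intro s hs
    simp only [Set.mem_insert_iff, Set.mem_singleton_iff] at hs
    rcases hs with rfl | rfl | rfl
    · rw [hx]
      exact (FB S F Δ).mono (Nat.zero_le _) (FB S F Δ).one
    · rw [hy]
      have h := (FB S F Δ).mul hc1 (FB_dlt (S := S) (F := F) (Δ := Δ) 1)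
      rw [pow_one] at h
      exact AddSubgroup.neg_mem _ ((FB S F Δ).mono (by omega) h)
    · rw [hd]
      have h := (FB S F Δ).mul hc2 (FB_dlt (S := S) (F := F) (Δ := Δ) 2)
      exact AddSubgroup.neg_mem _ ((FB S F Δ).mono (by omega) h)
  have hT1 : ∀ s ∈ ({iota F Δ (C X), iota F Δ X, dlt F Δ} : Set (BB F Δ)),
      s ∈ (FB S F Δ).I 1 := fun s hs => genM_gen S _ {iota F Δ (C X), iota F Δ X, dlt F Δ} hs
  have hlist : ∀ l : List (BB F Δ),
      (∀ s ∈ l, s ∈ ({iota F Δ (C X), iota F Δ X, dlt F Δ} : Set (BB F Δ))) →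
      Dx l.prod ∈ (FB S F Δ).I (l.length + (c1 + c2 + 2)) := by
    intro l
    induction l with
    | nil =>
      intro _
      rw [List.prod_nil, Dx.map_one_eq_zero]
      exact AddSubgroup.zero_mem _
    | cons s l ih =>
      intro hl
      have h1 := ih (fun s hs => hl s (by simp [hs]))
      have h2 := hgen s (hl s (by simp))
      have h3 := hT1 s (hl s (by simp))
      have h4 : l.prod ∈ (FB S F Δ).I (l.length * 1) :=
        (FB S F Δ).list_prod (fun x hx => hT1 x (hl x (by simp [hx])))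
      rw [mul_one] at h4
      rw [List.prod_cons, Derivation.leibniz, List.length_cons, smul_eq_mul, smul_eq_mul]
      exact AddSubgroup.add_mem _ ((FB S F Δ).mono (by omega) ((FB S F Δ).mul h3 h1))
        ((FB S F Δ).mono (by omega) ((FB S F Δ).mul h4 h2))
  change b ∈ AddSubgroup.closure _ at hb
  induction hb using AddSubgroup.closure_induction with
  | mem b hb =>
    obtain ⟨i, r, l, h1, h2, h3, rfl⟩ := hb
    change Dx (iota F Δ (C (C r)) * l.prod) ∈ _
    rw [Derivation.leibniz, hC, smul_zero, add_zero, smul_eq_mul]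
    exact (FB S F Δ).mono (by omega) ((FB S F Δ).mul (FB_C h1) (hlist l h2))
  | zero => rw [map_zero]; exact AddSubgroup.zero_mem _
  | add a b _ _ ha hb => rw [map_add]; exact AddSubgroup.add_mem _ ha hb
  | neg a _ ha => rw [map_neg]; exact AddSubgroup.neg_mem _ ha

end

end Pool.Agent.Helper79.CU
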