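import Pool.Agent.Helper79.CU.MainB
import Pool.Agent.Helper79.CU.StatC

/-!
# CU: tensor powers of a system (definitions in `StatC`)
-/
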